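import Pool.Agent.Lib.MP_c541f6_an.Rigid

/-!
# The real-analytic case: equality of angles on an open set propagates to the disk
-/

open Complex Set Filter Topology Metric MeasureTheory

namespace MPc541f6

noncomputable section

open DiskMap

/-- If the angle of a real-analytic `f` is the angle of its linear part on a nonempty open set,
then this holds at all interior points. -/
theorem theta_eq_of_analytic {f : ℂ → ℂ} {Θ : ℝ × ℝ → ℝ} {α : ℝ} (h : DiskMap f Θ)
    (hrot : HasRotationNumber f Θ α) (hα : Irrational α)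
    (han : AnalyticOnNhd ℝ f (ball 0 1)) {U : Set ℂ} (hU : IsOpen U) (hUb : U ⊆ ball 0 1)
    (hne : U.Nonempty) (hΘ : ∀ p ∈ strip, 0 < p.2 → pol p ∈ U → Θ p = Θ (p.1, 0)) :
    ∀ p ∈ strip, 0 < p.2 → p.2 < 1 → Θ p = Θ (p.1, 0) := by
  have hpi := Real.pi_pos
  obtain ⟨-, hAne, -⟩ := h.lin_facts hrot hα
  set A := fderiv ℝ f 0 with hA
  have hApol : ∀ p : ℝ × ℝ, A (pol p) = ((p.2 * ‖A (e p.1)‖ : ℝ) : ℂ) * e (Θ (p.1, 0)) := by
    intro p
    have h1 : pol p = p.2 • e p.1 := by rw [Complex.real_smul]; rfl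
    rw [h1, map_smul, Complex.real_smul]
    nth_rewrite 1 [h.angle_lin p.1]
    push_cast
    ring
  have hval : ∀ p ∈ strip, ((starRingEnd ℂ) (A (pol p)) * f (pol p)).im =
      p.2 * ‖A (e p.1)‖ * ‖f (pol p)‖ * Real.sin (2 * Real.pi * (Θ p - Θ (p.1, 0))) := by
    intro p hp
    have h1 : f (pol p) = (‖f (pol p)‖ : ℂ) * e (Θ p) := h.angle p hp
    have h2 : e (Θ p) = e (Θ (p.1, 0)) * e (Θ p - Θ (p.1, 0)) := by
      rw [← e_add]; congr 1; ring
    have h3 : (starRingEnd ℂ) (A (pol p)) * f (pol p) =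
        ((p.2 * ‖A (e p.1)‖ * ‖f (pol p)‖ : ℝ) : ℂ) * e (Θ p - Θ (p.1, 0)) := by
      nth_rewrite 1 [h1]
      rw [hApol, map_mul, Complex.conj_ofReal, h2]
      have h4 := conj_e_mul (Θ (p.1, 0))
      push_cast
      linear_combination ((p.2 : ℂ) * (‖A (e p.1)‖ : ℂ) * (‖f (pol p)‖ : ℂ) *
        e (Θ p - Θ (p.1, 0))) * h4
    rw [h3, Complex.im_ofReal_mul]
    congr 1
    exact Complex.exp_ofReal_mul_I_im _
  set φ : ℂ → ℝ := fun z => ((starRingEnd ℂ) (A z) * f z).im with hφ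
  have hφan : AnalyticOnNhd ℝ φ (ball 0 1) := by
    have h1 : AnalyticOnNhd ℝ (fun z => (starRingEnd ℂ) (A z)) (ball 0 1) := by
      have h2 : (fun z => (starRingEnd ℂ) (A z)) =
          fun z => ((Complex.conjCLE : ℂ →L[ℝ] ℂ).comp A) z := rfl
      rw [h2]
      exact ContinuousLinearMap.analyticOnNhd _ _
    have h3 : AnalyticOnNhd ℝ (fun z => (starRingEnd ℂ) (A z) * f z) (ball 0 1) := h1.mul han
    exact (Complex.imCLM.analyticOnNhd univ).comp h3 (mapsTo_univ _ _)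
  have hφU : ∀ z ∈ U, φ z = 0 := by
    intro z hz
    by_cases hz0 : z = 0
    · simp [hφ, hz0]
    have h1 := polar_mem (ball_subset_closedBall (hUb hz))
    have h2 := hval _ h1
    rw [pol_polar] at h2
    simp only [hφ]
    rw [h2, hΘ _ h1 (norm_pos_iff.2 hz0) (by rw [pol_polar]; exact hz)]
    simp
  obtain ⟨z₀, hz₀⟩ := hne
  have hφ0 : EqOn φ 0 (ball 0 1) := by
    refine hφan.eqOn_zero_of_preconnected_of_eventuallyEq_zero
      (convex_ball (0 : ℂ) 1).isPreconnected (hUb hz₀) ?_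
    filter_upwards [hU.mem_nhds hz₀] with z hz
    exact hφU z hz
  -- the difference of the angles is a half integer
  have hhalf : ∀ t r : ℝ, 0 < r → r < 1 → ∃ k : ℤ, (k : ℝ) = 2 * (Θ (t, r) - Θ (t, 0)) := by
    intro t r h0 h1
    have hp : (t, r) ∈ strip := ⟨h0.le, h1.le⟩
    have hb : pol (t, r) ∈ ball (0 : ℂ) 1 := by
      rw [mem_ball_zero_iff, norm_pol' (p := (t, r)) h0.le]; exact h1
    have h2 := hval _ hp
    have h3 : ((starRingEnd ℂ) (A (pol (t, r))) * f (pol (t, r))).im = 0 := hφ0 hb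
    rw [h3] at h2
    simp only at h2
    have hfne : f (pol (t, r)) ≠ 0 := by
      intro h4
      have h5 : f (pol (t, r)) = f 0 := by rw [h4, h.zero]
      have h6 := h.ball_bij.injOn hb (by simp) h5
      have h7 := norm_pol' (p := (t, r)) h0.le
      rw [h6, norm_zero] at h7
      simp only at h7
      linarith
    have h8 : 0 < r * ‖A (e t)‖ * ‖f (pol (t, r))‖ :=
      mul_pos (mul_pos h0 (norm_pos_iff.2 (hAne t))) (norm_pos_iff.2 hfne)
    have h9 : Real.sin (2 * Real.pi * (Θ (t, r) - Θ (t, 0))) = 0 := by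
      rcases mul_eq_zero.1 h2.symm with h10 | h10
      · exact absurd h10 h8.ne'
      · exact h10
    rw [Real.sin_eq_zero_iff] at h9
    obtain ⟨k, hk⟩ := h9
    refine ⟨k, ?_⟩
    have h11 : Real.pi * (k - 2 * (Θ (t, r) - Θ (t, 0))) = 0 := by linarith
    rcases mul_eq_zero.1 h11 with h12 | h12
    · exact absurd h12 hpi.ne'
    · linarith
  rintro ⟨t, r⟩ hp hr0 hr1
  simp only at hr0 hr1 ⊢
  by_contra hcon
  have hd : 2⁻¹ ≤ |Θ (t, r) - Θ (t, 0)| := by
    obtain ⟨k, hk⟩ := hhalf t r hr0 hr1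
    have hk0 : k ≠ 0 := by
      intro h1
      rw [h1] at hk
      apply hcon
      push_cast at hk
      linarith
    have h2 : (1 : ℝ) ≤ |(k : ℝ)| := by exact_mod_cast Int.one_le_abs hk0
    rw [hk, abs_mul, abs_two] at h2
    linarith
  have hcont : ContinuousOn (fun ρ : ℝ => |Θ (t, ρ) - Θ (t, 0)|) (Icc 0 r) := by
    have h1 : ContinuousOn (fun ρ : ℝ => Θ (t, ρ)) (Icc 0 r) :=
      h.contΘ.comp (by fun_prop) fun ρ hρ => ⟨hρ.1, hρ.2.trans hr1.le⟩
    exact (h1.sub continuousOn_const).abs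
  have h4 : (4⁻¹ : ℝ) ∈ Icc (|Θ (t, 0) - Θ (t, 0)|) (|Θ (t, r) - Θ (t, 0)|) := by
    rw [sub_self, abs_zero]
    constructor
    · norm_num
    · linarith
  obtain ⟨ρ, hρ, hρ4⟩ := intermediate_value_Icc hr0.le hcont h4
  simp only at hρ4
  have hρ0 : 0 < ρ := by
    rcases hρ.1.eq_or_lt with h5 | h5
    · rw [← h5, sub_self, abs_zero] at hρ4
      norm_num at hρ4
    · exact h5
  obtain ⟨k, hk⟩ := hhalf t ρ hρ0 (hρ.2.trans_lt hr1)
  have h6 : |(k : ℝ)| = 2⁻¹ := by
    rw [hk, abs_mul, hρ4, abs_two]; norm_num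
  have h7 : k ≠ 0 := by
    intro h8
    rw [h8] at h6
    norm_num at h6
  have h9 : (1 : ℝ) ≤ |(k : ℝ)| := by exact_mod_cast Int.one_le_abs h7
  rw [h6] at h9
  norm_num at h9

/-- Iterates of a real-analytic map are real-analytic. -/
lemma analytic_iterate {f : ℂ → ℂ} {Θ : ℝ × ℝ → ℝ} (h : DiskMap f Θ)
    (han : AnalyticOnNhd ℝ f (ball 0 1)) (m : ℕ) : AnalyticOnNhd ℝ (f^[m]) (ball 0 1) := by
  induction m with
  | zero => exact analyticOnNhd_id
  | succ m ih =>
    rw [Function.iterate_succ]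
    exact ih.comp han h.ball_bij.mapsTo

end

end MPc541f6
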