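import Mathlib

/-!
# Pseudo-rotations of the disk: polar coordinates and the blown-up disk
-/

open Complex Set Filter Topology Metric

namespace MPc541f6

noncomputable section

/-- `e t = exp (2 π i t)`. -/
def e (t : ℝ) : ℂ := Complex.exp (((2 * Real.pi * t : ℝ) : ℂ) * I)

/-- Polar coordinates: `pol (t, r) = r exp (2 π i t)`. -/
def pol (p : ℝ × ℝ) : ℂ := (p.2 : ℂ) * e p.1

/-- The map induced by `f` and the angle lift `Θ` in polar coordinates on the blown-up disk:
`(t, r) ↦ (Θ (t, r), |f (r exp (2 π i t))|)`. -/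
def lift (f : ℂ → ℂ) (Θ : ℝ × ℝ → ℝ) (p : ℝ × ℝ) : ℝ × ℝ := (Θ p, ‖f (pol p)‖)

lemma e_zero : e 0 = 1 := by simp [e]

lemma e_add (s t : ℝ) : e (s + t) = e s * e t := by
  unfold e
  rw [← Complex.exp_add]
  congr 1
  push_cast
  ring

lemma norm_e (t : ℝ) : ‖e t‖ = 1 := Complex.norm_exp_ofReal_mul_I _

lemma e_ne_zero (t : ℝ) : e t ≠ 0 := Complex.exp_ne_zero _

lemma e_int (k : ℤ) : e k = 1 := by
  unfold e
  rw [Complex.exp_eq_one_iff]
  exact ⟨k, by push_cast; ring⟩

lemma e_half : e (1 / 2) = -1 := by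
  unfold e
  have : (((2 * Real.pi * (1 / 2) : ℝ) : ℂ) * I) = Real.pi * I := by push_cast; ring
  rw [this, Complex.exp_pi_mul_I]

lemma e_add_int (t : ℝ) (k : ℤ) : e (t + k) = e t := by rw [e_add, e_int, mul_one]

lemma e_add_one (t : ℝ) : e (t + 1) = e t := by simpa using e_add_int t 1

lemma e_neg (t : ℝ) : e (-t) = (starRingEnd ℂ) (e t) := by
  unfold e
  rw [← Complex.exp_conj, map_mul, Complex.conj_ofReal, Complex.conj_I]
  congr 1
  push_cast
  ring

lemma conj_e_mul (t : ℝ) : (starRingEnd ℂ) (e t) * e t = 1 := by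
  rw [← e_neg, ← e_add, neg_add_cancel, e_zero]

lemma e_eq_e_iff {s t : ℝ} : e s = e t ↔ ∃ k : ℤ, s = t + k := by
  unfold e
  rw [Complex.exp_eq_exp_iff_exists_int]
  constructor
  · rintro ⟨k, hk⟩
    refine ⟨k, ?_⟩
    have h := congrArg Complex.im hk
    simp at h
    have hpi := Real.pi_pos
    have h2 : 2 * Real.pi * (s - (t + k)) = 0 := by linarith
    have h3 : s - (t + k) = 0 := by
      rcases mul_eq_zero.1 h2 with h4 | h4
      · exfalso; linarith
      · exact h4
    linarith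
  · rintro ⟨k, hk⟩
    refine ⟨k, ?_⟩
    rw [hk]
    push_cast
    ring

lemma continuous_e : Continuous e := by
  unfold e
  fun_prop

lemma hasDerivAt_e (t : ℝ) : HasDerivAt e (((2 * Real.pi : ℝ) : ℂ) * I * e t) t := by
  have h1 : HasDerivAt (fun t : ℝ => ((2 * Real.pi * t : ℝ) : ℂ) * I)
      (((2 * Real.pi : ℝ) : ℂ) * I) t := by
    have h0 : HasDerivAt (fun t : ℝ => 2 * Real.pi * t) (2 * Real.pi) t := by
      simpa using (hasDerivAt_id t).const_mul (2 * Real.pi)
    exact (h0.ofReal_comp).mul_const I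
  have h2 := h1.cexp
  unfold e
  convert h2 using 1
  ring

lemma norm_pol (p : ℝ × ℝ) : ‖pol p‖ = |p.2| := by
  unfold pol
  rw [norm_mul, norm_e, mul_one, Complex.norm_real, Real.norm_eq_abs]

lemma norm_pol' {p : ℝ × ℝ} (hp : 0 ≤ p.2) : ‖pol p‖ = p.2 := by
  rw [norm_pol, abs_of_nonneg hp]

lemma continuous_pol : Continuous pol := by
  unfold pol
  exact (Complex.continuous_ofReal.comp continuous_snd).mul (continuous_e.comp continuous_fst)

lemma pol_zero (t : ℝ) : pol (t, 0) = 0 := by simp [pol]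

lemma pol_add_int (t r : ℝ) (k : ℤ) : pol (t + k, r) = pol (t, r) := by
  simp [pol, e_add_int]

lemma pol_mem {p : ℝ × ℝ} (h0 : 0 ≤ p.2) (h1 : p.2 ≤ 1) : pol p ∈ closedBall (0 : ℂ) 1 := by
  rw [mem_closedBall_zero_iff, norm_pol' h0]; exact h1

lemma pol_arg (z : ℂ) : pol (arg z / (2 * Real.pi), ‖z‖) = z := by
  unfold pol e
  have h : (2 * Real.pi * (arg z / (2 * Real.pi))) = arg z := by
    have := Real.pi_pos
    field_simp
  simp only [h]
  exact Complex.norm_mul_exp_arg_mul_I z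

/-- If `pol p = pol q ≠ 0` with nonnegative radii, then the radii agree and the angles differ by an
integer. -/
lemma pol_eq_pol {s t r r' : ℝ} (hr : 0 < r) (hr' : 0 ≤ r') (h : pol (s, r) = pol (t, r')) :
    r = r' ∧ ∃ k : ℤ, s = t + k := by
  have h1 : r = r' := by
    have := congrArg norm h
    rwa [norm_pol' hr.le, norm_pol' hr'] at this
  subst h1
  refine ⟨rfl, ?_⟩
  rw [← e_eq_e_iff]
  have h2 : (r : ℂ) * e s = r * e t := h
  exact mul_left_cancel₀ (by exact_mod_cast hr.ne') h2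

end

end MPc541f6
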