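import Pool.Agent.Lib.MP_c541f6_an.Lin

/-!
# The direction map of a linear map of determinant one with irrational rotation number is
conjugated to a translation by a homeomorphism
-/

open Complex Set Filter Topology Metric MeasureTheory

namespace MPc541f6

noncomputable section

/-- A monotone degree one map is at bounded distance from the identity. -/
lemma deg_one_bound {H : ℝ → ℝ} (hm : Monotone H) (h1 : ∀ t, H (t + 1) = H t + 1) (x : ℝ) :
    |H x - x| ≤ |H 0| + 1 := by
  have hint : ∀ k : ℤ, ∀ t, H (t + k) = H t + k := by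
    intro k
    induction k using Int.induction_on with
    | zero => simp
    | succ n ih =>
      intro t
      have := h1 (t + n)
      push_cast
      rw [← add_assoc, this]
      have h2 := ih t
      push_cast at h2
      rw [h2]; ring
    | pred n ih =>
      intro t
      have h2 := ih t
      have h3 := h1 (t + (-(n : ℝ) - 1))
      push_cast at h2 ⊢
      have h4 : t + (-(n : ℝ) - 1) + 1 = t + -(n : ℝ) := by ring
      rw [h4, h2] at h3
      linarith
  have h2 : H (⌊x⌋ : ℝ) = H 0 + ⌊x⌋ := by simpa using hint ⌊x⌋ 0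
  have h3 : H (⌊x⌋ : ℝ) ≤ H x := hm (Int.floor_le x)
  have h4 : H x ≤ H ((⌊x⌋ : ℝ) + 1) := hm (Int.lt_floor_add_one x).le
  rw [h1, h2] at h4
  rw [h2] at h3
  have h5 := Int.floor_le x
  have h6 := (Int.lt_floor_add_one x).le
  rw [abs_le]
  have h7 := neg_abs_le (H 0)
  have h8 := le_abs_self (H 0)
  constructor <;> linarith

/-- Integer translations. -/
lemma deg_one_int {H : ℝ → ℝ} (h1 : ∀ t, H (t + 1) = H t + 1) (k : ℤ) (t : ℝ) :
    H (t + k) = H t + k := by
  induction k using Int.induction_on generalizing t with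
  | zero => simp
  | succ n ih =>
    have := h1 (t + n)
    push_cast
    rw [← add_assoc, this]
    have h2 := ih t
    push_cast at h2
    rw [h2]; ring
  | pred n ih =>
    have h2 := ih t
    have h3 := h1 (t + (-(n : ℝ) - 1))
    push_cast at h2 ⊢
    have h4 : t + (-(n : ℝ) - 1) + 1 = t + -(n : ℝ) := by ring
    rw [h4, h2] at h3
    linarith

/-- If `x n / n → α` and `|x n - (a + n c)| ≤ B`, then `α = c`. -/
lemma rot_unique {x : ℕ → ℝ} {α a c B : ℝ} (h : Tendsto (fun n : ℕ => x n / n) atTop (𝓝 α))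
    (hB : ∀ n : ℕ, |x n - (a + n * c)| ≤ B) : α = c := by
  refine tendsto_nhds_unique h ?_
  have h1 : Tendsto (fun n : ℕ => (B + |a|) / (n : ℝ)) atTop (𝓝 0) :=
    tendsto_const_div_atTop_nhds_zero_nat _
  rw [tendsto_iff_norm_sub_tendsto_zero]
  refine squeeze_zero' (Eventually.of_forall fun n => norm_nonneg _) ?_ h1
  filter_upwards [eventually_gt_atTop 0] with n hn
  have hn' : (0 : ℝ) < n := by exact_mod_cast hn
  rw [Real.norm_eq_abs, le_div_iff₀ hn', ← abs_of_pos hn', ← abs_mul, abs_of_pos hn']
  have h2 : (x n / n - c) * n = (x n - (a + n * c)) + a := by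
    field_simp
    ring
  rw [h2]
  exact (abs_add_le _ _).trans (by linarith [hB n])

theorem exists_conj (A : ℂ →L[ℝ] ℂ) (hA : A.det = 1) (G : ℝ → ℝ) (hG : Continuous G)
    (hG1 : ∀ t, G (t + 1) = G t + 1) (hAG : ∀ t, A (e t) = (‖A (e t)‖ : ℂ) * e (G t))
    (α : ℝ) (hα : Irrational α) (hrot : ∀ t, Tendsto (fun n : ℕ => G^[n] t / n) atTop (𝓝 α)) :
    (∀ t, HasDerivAt G (1 / ‖A (e t)‖ ^ 2) t) ∧ (∀ t, A (e t) ≠ 0) ∧
    ∃ H : ℝ → ℝ, Continuous H ∧ StrictMono H ∧ (∀ t, H (t + 1) = H t + 1) ∧
      ∀ t, H (G t) = H t + α := by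
  have hpi := Real.pi_pos
  -- `A` does not vanish on unit vectors
  have hne : ∀ t, A (e t) ≠ 0 := by
    intro t h0
    have h1 := det_pair A (e t) (I * e t)
    rw [h0, hA, conj_mul_I_mul _ (norm_e t)] at h1
    simp at h1
  have hpos : ∀ t, 0 < ‖A (e t)‖ := fun t => norm_pos_iff.2 (hne t)
  -- the derivative of `G`
  have hdG : ∀ t, HasDerivAt G (1 / ‖A (e t)‖ ^ 2) t := by
    intro t
    have hw : HasDerivAt (fun s => A (e s)) (A (((2 * Real.pi : ℝ) : ℂ) * I * e t)) t :=
      A.hasFDerivAt.comp_hasDerivAt t (hasDerivAt_e t)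
    have h1 := hasDerivAt_angle (w := fun s => A (e s)) hG.continuousAt hAG (hne t) hw
    convert h1 using 1
    rw [det_pair, hA]
    have h2 : (starRingEnd ℂ) (e t) * (((2 * Real.pi : ℝ) : ℂ) * I * e t) =
        ((2 * Real.pi : ℝ) : ℂ) * ((starRingEnd ℂ) (e t) * (I * e t)) := by ring
    rw [h2, Complex.im_ofReal_mul, conj_mul_I_mul _ (norm_e t)]
    field_simp
  refine ⟨hdG, hne, ?_⟩
  have hGmono : StrictMono G := by
    refine strictMono_of_deriv_pos fun t => ?_
    rw [(hdG t).deriv]
    have := hpos t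
    positivity
  -- antipodal symmetry
  have hhalf : ∀ t, G (t + 1 / 2) = G t + 1 / 2 := by
    intro t
    have h1 : e (t + 1 / 2) = -e t := by rw [e_add, e_half]; ring
    have h2 := hAG (t + 1 / 2)
    rw [h1, map_neg, norm_neg] at h2
    have h3 : e (G (t + 1 / 2)) = e (G t + 1 / 2) := by
      have h4 : (‖A (e t)‖ : ℂ) ≠ 0 := by exact_mod_cast (hpos t).ne'
      have h5 : (‖A (e t)‖ : ℂ) * e (G (t + 1 / 2)) = (‖A (e t)‖ : ℂ) * e (G t + 1 / 2) := by
        rw [← h2, e_add, e_half]
        nth_rewrite 1 [hAG t]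
        ring
      exact mul_left_cancel₀ h4 h5
    obtain ⟨k, hk⟩ := e_eq_e_iff.1 h3
    have h6 : G t < G (t + 1 / 2) := hGmono (by linarith)
    have h7 : G (t + 1 / 2) < G (t + 1) := hGmono (by linarith)
    rw [hG1] at h7
    rw [hk] at h6 h7
    have h8 : (-1 : ℝ) < k := by linarith
    have h9 : (k : ℝ) < 1 := by linarith
    have h10 : (-1 : ℤ) < k := by exact_mod_cast h8
    have h11 : k < 1 := by exact_mod_cast h9
    have h12 : k = 0 := by omega
    rw [hk, h12]; simp
  have hhalfk : ∀ (k : ℤ) t, G (t + k / 2) = G t + k / 2 := by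
    intro k
    induction k using Int.induction_on with
    | zero => simp
    | succ n ih =>
      intro t
      have h1 := hhalf (t + (n : ℝ) / 2)
      have h2 := ih t
      push_cast at h2 ⊢
      have h3 : t + ((n : ℝ) + 1) / 2 = t + (n : ℝ) / 2 + 1 / 2 := by ring
      rw [h3, h1, h2]; ring
    | pred n ih =>
      intro t
      have h1 := hhalf (t + (-(n : ℝ) - 1) / 2)
      have h2 := ih t
      push_cast at h2 ⊢
      have h3 : t + (-(n : ℝ) - 1) / 2 + 1 / 2 = t + -(n : ℝ) / 2 := by ring
      rw [h3, h2] at h1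
      linarith
  -- the quadratic form has no zero
  set Q : ℝ → ℝ := fun t => ((starRingEnd ℂ) (e t) * A (e t)).im with hQ
  have hQne : ∀ t, Q t ≠ 0 := by
    intro t h0
    have h1 : (starRingEnd ℂ) (e t) * A (e t) = (‖A (e t)‖ : ℂ) * e (G t - t) := by
      have h2 : e (G t) = e t * e (G t - t) := by rw [← e_add]; congr 1; ring
      nth_rewrite 1 [hAG t]
      rw [h2]
      have h3 := conj_e_mul t
      linear_combination ((‖A (e t)‖ : ℂ) * e (G t - t)) * h3
    have h4 : (e (G t - t)).im = 0 := by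
      have h5 : Q t = ‖A (e t)‖ * (e (G t - t)).im := by
        simp only [hQ]
        rw [h1, Complex.im_ofReal_mul]
      rw [h5] at h0
      rcases mul_eq_zero.1 h0 with h6 | h6
      · exact absurd h6 (hpos t).ne'
      · exact h6
    have h7 : Real.sin (2 * Real.pi * (G t - t)) = 0 := by
      unfold e at h4
      rwa [Complex.exp_ofReal_mul_I_im] at h4
    rw [Real.sin_eq_zero_iff] at h7
    obtain ⟨k, hk⟩ := h7
    have h8 : G t = t + k / 2 := by
      have h9 : Real.pi * (k - 2 * (G t - t)) = 0 := by linarith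
      rcases mul_eq_zero.1 h9 with h10 | h10
      · exact absurd h10 hpi.ne'
      · linarith
    have h11 : ∀ n : ℕ, G^[n] t = t + n * (k / 2) := by
      intro n
      induction n with
      | zero => simp
      | succ n ih =>
        rw [Function.iterate_succ_apply', ih]
        have h12 := hhalfk (n * k) t
        push_cast at h12
        have h13 : t + (n : ℝ) * ((k : ℝ) / 2) = t + (n : ℝ) * (k : ℝ) / 2 := by ring
        rw [h13, h12, h8]
        push_cast
        ring
    have h14 : α = (k : ℝ) / 2 := by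
      refine rot_unique (a := t) (B := 0) (hrot t) fun n => ?_
      rw [h11 n]; simp
    exact hα ⟨(k : ℚ) / 2, by rw [h14]; push_cast; rfl⟩
  -- the invariant density
  have hQcont : Continuous Q := by
    have := continuous_e
    have hA' := A.continuous
    simp only [hQ]
    fun_prop
  have hQper : ∀ t, Q (t + 1) = Q t := by
    intro t; simp only [hQ]; rw [e_add_one]
  have hQG : ∀ t, Q (G t) = Q t / ‖A (e t)‖ ^ 2 := by
    intro t
    have h1 : ((starRingEnd ℂ) (A (e t)) * A (A (e t))).im = Q t := by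
      rw [det_pair, hA, one_mul]
    have h2 : ((starRingEnd ℂ) (A (e t)) * A (A (e t))).im = ‖A (e t)‖ ^ 2 * Q (G t) := by
      have h3 : A (A (e t)) = (‖A (e t)‖ : ℂ) * A (e (G t)) := by
        have h4 : A (e t) = ‖A (e t)‖ • e (G t) := by
          rw [Complex.real_smul]; exact hAG t
        calc A (A (e t)) = A (‖A (e t)‖ • e (G t)) := by rw [← h4]
          _ = ‖A (e t)‖ • A (e (G t)) := map_smul _ _ _
          _ = _ := by rw [Complex.real_smul]
      rw [h3]
      nth_rewrite 1 [hAG t]
      simp only [hQ, map_mul, Complex.conj_ofReal]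
      have h5 : (‖A (e t)‖ : ℂ) * (starRingEnd ℂ) (e (G t)) * ((‖A (e t)‖ : ℂ) * A (e (G t))) =
          ((‖A (e t)‖ ^ 2 : ℝ) : ℂ) * ((starRingEnd ℂ) (e (G t)) * A (e (G t))) := by
        push_cast; ring
      rw [h5, Complex.im_ofReal_mul]
    have h6 := hpos t
    rw [h1] at h2
    rw [h2]
    field_simp
  set w : ℝ → ℝ := fun t => 1 / |Q t| with hw
  have hwcont : Continuous w := by
    simp only [hw]
    exact continuous_const.div hQcont.abs fun t => abs_ne_zero.2 (hQne t)
  have hwpos : ∀ t, 0 < w t := fun t => by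
    simp only [hw]
    exact div_pos one_pos (abs_pos.2 (hQne t))
  have hwper : Function.Periodic w 1 := fun t => by simp only [hw]; rw [hQper]
  set C : ℝ := ∫ s in (0 : ℝ)..1, w s with hC
  have hCpos : 0 < C :=
    intervalIntegral.intervalIntegral_pos_of_pos (hwcont.intervalIntegrable _ _)
      (fun x => hwpos x) one_pos
  set H : ℝ → ℝ := fun t => (∫ s in (0 : ℝ)..t, w s) / C with hH
  have hdH : ∀ t, HasDerivAt H (w t / C) t := by
    intro t
    have h1 : HasDerivAt (fun u => ∫ s in (0 : ℝ)..u, w s) (w t) t :=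
      intervalIntegral.integral_hasDerivAt_right (hwcont.intervalIntegrable _ _)
        (hwcont.stronglyMeasurableAtFilter _ _) hwcont.continuousAt
    exact h1.div_const C
  have hHmono : StrictMono H := by
    refine strictMono_of_deriv_pos fun t => ?_
    rw [(hdH t).deriv]
    exact div_pos (hwpos t) hCpos
  have hHcont : Continuous H := continuous_iff_continuousAt.2 fun t => (hdH t).continuousAt
  have hH1 : ∀ t, H (t + 1) = H t + 1 := by
    intro t
    simp only [hH]
    have h1 : ∫ s in (0 : ℝ)..(t + 1), w s = (∫ s in (0 : ℝ)..t, w s) + ∫ s in t..(t + 1), w s :=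
      (intervalIntegral.integral_add_adjacent_intervals (hwcont.intervalIntegrable _ _)
        (hwcont.intervalIntegrable _ _)).symm
    have h2 : ∫ s in t..(t + 1), w s = C := by
      rw [hwper.intervalIntegral_add_eq t 0]
      simp [hC]
    rw [h1, h2]
    field_simp
  -- `H ∘ G - H` is constant
  have hconst : ∀ t, H (G t) - H t = H (G 0) - H 0 := by
    have h1 : ∀ t, HasDerivAt (fun t => H (G t) - H t) 0 t := by
      intro t
      have h2 : HasDerivAt (fun t => H (G t)) (w (G t) / C * (1 / ‖A (e t)‖ ^ 2)) t :=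
        (hdH (G t)).comp t (hdG t)
      have h3 := h2.sub (hdH t)
      have h4 : w (G t) * (1 / ‖A (e t)‖ ^ 2) = w t := by
        simp only [hw]
        rw [hQG, abs_div, abs_of_nonneg (by positivity : (0 : ℝ) ≤ ‖A (e t)‖ ^ 2)]
        have h5 := hpos t
        have h6 := abs_pos.2 (hQne t)
        field_simp
      have h7 : w (G t) / C * (1 / ‖A (e t)‖ ^ 2) - w t / C = 0 := by
        have h8 : w (G t) / C * (1 / ‖A (e t)‖ ^ 2) = w (G t) * (1 / ‖A (e t)‖ ^ 2) / C := by
          ring
        rw [h8, h4, sub_self]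
      rw [h7] at h3
      exact h3
    intro t
    exact is_const_of_deriv_eq_zero (f := fun t => H (G t) - H t)
      (fun t => (h1 t).differentiableAt) (fun t => (h1 t).deriv) t 0
  have hiter : ∀ n : ℕ, H (G^[n] 0) = H 0 + n * (H (G 0) - H 0) := by
    intro n
    induction n with
    | zero => simp
    | succ n ih =>
      rw [Function.iterate_succ_apply']
      have := hconst (G^[n] 0)
      push_cast
      linarith
  have hval : α = H (G 0) - H 0 := by
    refine rot_unique (a := H 0) (B := |H 0| + 1) (hrot 0) fun n => ?_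
    have h1 := deg_one_bound hHmono.monotone hH1 (G^[n] 0)
    rw [hiter n] at h1
    rwa [abs_sub_comm] at h1
  exact ⟨H, hHcont, hHmono, hH1, fun t => by rw [hval]; linarith [hconst t]⟩

end

end MPc541f6
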