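import Pool.Agent.Lib.MP_c541f6_an.Lin

/-!
# Area-preserving homeomorphisms of the disk fixing the origin, with a lift of the angle
-/

open Complex Set Filter Topology Metric

namespace MPc541f6

noncomputable section

/-- The closed strip `ℝ × [0, 1]`: the universal cover of the disk blown up at the origin. -/
def strip : Set (ℝ × ℝ) := {p | 0 ≤ p.2 ∧ p.2 ≤ 1}

/-- `f` is a homeomorphism of the closed unit disk `D` onto itself that maps the unit circle to
itself, fixes `0`, and is differentiable with Jacobian determinant `1` at every interior point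
(so it preserves area and orientation); `Θ` is a continuous lift of its angle to the strip
`ℝ × [0, 1]`, that is, to the disk blown up at `0`:
`f (r exp (2 π i t)) = |f (r exp (2 π i t))| exp (2 π i Θ (t, r))`. -/
structure DiskMap (f : ℂ → ℂ) (Θ : ℝ × ℝ → ℝ) : Prop where
  cont : ContinuousOn f (closedBall 0 1)
  bij : BijOn f (closedBall 0 1) (closedBall 0 1)
  circle : ∀ z ∈ closedBall (0 : ℂ) 1, (‖f z‖ = 1 ↔ ‖z‖ = 1)
  diff : ∀ z ∈ ball (0 : ℂ) 1, DifferentiableAt ℝ f z
  det : ∀ z ∈ ball (0 : ℂ) 1, (fderiv ℝ f z).det = 1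
  zero : f 0 = 0
  contΘ : ContinuousOn Θ strip
  period : ∀ p ∈ strip, Θ (p.1 + 1, p.2) = Θ p + 1
  angle : ∀ p ∈ strip, f (pol p) = pol (lift f Θ p)

/-- `f` has rotation number `α` (for the lift `Θ`): every point of the disk blown up at `0` has
rotation number `α`. For points `p = (t, r)` with `r > 0` this is the rotation number of the point
`r exp (2 π i t)` about `0`, and for `r = 0` it is the rotation number of the derivative of `f` at
`0` acting on directions. -/
def HasRotationNumber (f : ℂ → ℂ) (Θ : ℝ × ℝ → ℝ) (α : ℝ) : Prop :=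
  ∀ p ∈ strip, Tendsto (fun n : ℕ => ((lift f Θ)^[n] p).1 / n) atTop (𝓝 α)

namespace DiskMap

variable {f : ℂ → ℂ} {Θ : ℝ × ℝ → ℝ}

lemma pol_mem_closedBall {p : ℝ × ℝ} (hp : p ∈ strip) : pol p ∈ closedBall (0 : ℂ) 1 :=
  pol_mem hp.1 hp.2

lemma lift_mem (h : DiskMap f Θ) {p : ℝ × ℝ} (hp : p ∈ strip) : lift f Θ p ∈ strip := by
  refine ⟨norm_nonneg _, ?_⟩
  have := h.bij.mapsTo (pol_mem_closedBall hp)
  rwa [mem_closedBall_zero_iff] at this

lemma iter_mem (h : DiskMap f Θ) {p : ℝ × ℝ} (hp : p ∈ strip) (n : ℕ) :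
    (lift f Θ)^[n] p ∈ strip := by
  induction n with
  | zero => exact hp
  | succ n ih => rw [Function.iterate_succ_apply']; exact h.lift_mem ih

lemma pol_iter (h : DiskMap f Θ) {p : ℝ × ℝ} (hp : p ∈ strip) (n : ℕ) :
    pol ((lift f Θ)^[n] p) = f^[n] (pol p) := by
  induction n with
  | zero => rfl
  | succ n ih =>
    rw [Function.iterate_succ_apply', Function.iterate_succ_apply', ← ih,
      h.angle _ (h.iter_mem hp n)]

lemma Θ_add_int (h : DiskMap f Θ) {t r : ℝ} (hp : (t, r) ∈ strip) (k : ℤ) :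
    Θ (t + k, r) = Θ (t, r) + k := by
  have hs : ∀ s : ℝ, (s, r) ∈ strip := fun s => hp
  induction k using Int.induction_on generalizing t with
  | zero => simp
  | succ n ih =>
    have h1 := h.period (t + n, r) (hs _)
    have h2 := ih (hs t)
    push_cast at h2 ⊢
    rw [← add_assoc, h1, h2]; ring
  | pred n ih =>
    have h2 := ih (hs t)
    have h3 := h.period (t + (-(n : ℝ) - 1), r) (hs _)
    push_cast at h2 ⊢
    have h4 : t + (-(n : ℝ) - 1) + 1 = t + -(n : ℝ) := by ring
    simp only [h4] at h3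
    rw [h2] at h3
    linarith

lemma lift_add_int (h : DiskMap f Θ) {p : ℝ × ℝ} (hp : p ∈ strip) (k : ℤ) :
    lift f Θ (p.1 + k, p.2) = ((lift f Θ p).1 + k, (lift f Θ p).2) := by
  unfold lift
  rw [pol_add_int, h.Θ_add_int hp]

lemma iter_add_int (h : DiskMap f Θ) {p : ℝ × ℝ} (hp : p ∈ strip) (k : ℤ) (n : ℕ) :
    (lift f Θ)^[n] (p.1 + k, p.2) = (((lift f Θ)^[n] p).1 + k, ((lift f Θ)^[n] p).2) := by
  induction n with
  | zero => rfl
  | succ n ih =>
    rw [Function.iterate_succ_apply', Function.iterate_succ_apply', ih,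
      h.lift_add_int (h.iter_mem hp n)]

lemma contOn_lift (h : DiskMap f Θ) : ContinuousOn (lift f Θ) strip := by
  unfold lift
  refine ContinuousOn.prodMk h.contΘ ?_
  refine ContinuousOn.norm ?_
  exact h.cont.comp continuous_pol.continuousOn fun p hp => pol_mem_closedBall hp

lemma contOn_iter (h : DiskMap f Θ) (n : ℕ) : ContinuousOn ((lift f Θ)^[n]) strip := by
  induction n with
  | zero => exact continuousOn_id
  | succ n ih =>
    rw [Function.iterate_succ']
    exact h.contOn_lift.comp ih fun p hp => h.iter_mem hp n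

lemma ball_bij (h : DiskMap f Θ) : BijOn f (ball 0 1) (ball 0 1) := by
  have hsub : ball (0 : ℂ) 1 ⊆ closedBall 0 1 := ball_subset_closedBall
  refine ⟨fun z hz => ?_, h.bij.injOn.mono hsub, fun y hy => ?_⟩
  · have h1 := h.bij.mapsTo (hsub hz)
    rw [mem_closedBall_zero_iff] at h1
    rw [mem_ball_zero_iff] at hz ⊢
    refine lt_of_le_of_ne h1 fun h2 => ?_
    exact hz.ne ((h.circle z (by rw [mem_closedBall_zero_iff]; exact hz.le)).1 h2)
  · obtain ⟨x, hx, rfl⟩ := h.bij.surjOn (hsub hy)
    refine ⟨x, ?_, rfl⟩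
    rw [mem_closedBall_zero_iff] at hx
    rw [mem_ball_zero_iff] at hy ⊢
    refine lt_of_le_of_ne hx fun h2 => ?_
    exact hy.ne ((h.circle x (by rw [mem_closedBall_zero_iff]; exact hx)).2 h2)

/-- The lift of an iterate. -/
def iterΘ (f : ℂ → ℂ) (Θ : ℝ × ℝ → ℝ) (m : ℕ) (p : ℝ × ℝ) : ℝ := ((lift f Θ)^[m] p).1

lemma lift_iterΘ (h : DiskMap f Θ) (m : ℕ) {p : ℝ × ℝ} (hp : p ∈ strip) :
    lift (f^[m]) (iterΘ f Θ m) p = (lift f Θ)^[m] p := by
  unfold lift iterΘ
  have h1 : ‖f^[m] (pol p)‖ = ((lift f Θ)^[m] p).2 := by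
    rw [← h.pol_iter hp, norm_pol' (h.iter_mem hp m).1]
  rw [h1]
  rfl

lemma iter_diff (h : DiskMap f Θ) (m : ℕ) : ∀ z ∈ ball (0 : ℂ) 1,
    DifferentiableAt ℝ (f^[m]) z ∧ (fderiv ℝ (f^[m]) z).det = 1 := by
  induction m with
  | zero =>
    intro z _
    refine ⟨differentiableAt_id, ?_⟩
    have : fderiv ℝ (f^[0]) z = ContinuousLinearMap.id ℝ ℂ := fderiv_id
    rw [this]
    simp [ContinuousLinearMap.det]
  | succ m ih =>
    intro z hz
    have hz' : f z ∈ ball (0 : ℂ) 1 := h.ball_bij.mapsTo hz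
    obtain ⟨h1, h2⟩ := ih (f z) hz'
    have h3 := h.diff z hz
    have h4 : f^[m + 1] = f^[m] ∘ f := rfl
    rw [h4]
    refine ⟨h1.comp z h3, ?_⟩
    rw [fderiv_comp z h1 h3]
    have h5 : ((fderiv ℝ (f^[m]) (f z)).comp (fderiv ℝ f z)).det =
        (fderiv ℝ (f^[m]) (f z)).det * (fderiv ℝ f z).det := by
      simp [ContinuousLinearMap.det, LinearMap.det_comp]
    rw [h5, h2, h.det z hz, one_mul]

lemma iter_circle (h : DiskMap f Θ) (m : ℕ) : ∀ z ∈ closedBall (0 : ℂ) 1,
    (‖f^[m] z‖ = 1 ↔ ‖z‖ = 1) := by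
  induction m with
  | zero => intro z _; rfl
  | succ m ih =>
    intro z hz
    rw [Function.iterate_succ_apply, ih (f z) (h.bij.mapsTo hz), h.circle z hz]

theorem iterate (h : DiskMap f Θ) (m : ℕ) : DiskMap (f^[m]) (iterΘ f Θ m) where
  cont := by
    induction m with
    | zero => exact continuousOn_id
    | succ m ih =>
      rw [Function.iterate_succ]
      exact ih.comp h.cont h.bij.mapsTo
  bij := by
    induction m with
    | zero => exact bijOn_id _
    | succ m ih =>
      rw [Function.iterate_succ]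
      exact ih.comp h.bij
  circle := h.iter_circle m
  diff := fun z hz => (h.iter_diff m z hz).1
  det := fun z hz => (h.iter_diff m z hz).2
  zero := by
    induction m with
    | zero => rfl
    | succ m ih => rw [Function.iterate_succ_apply, h.zero, ih]
  contΘ := (continuous_fst.comp_continuousOn (h.contOn_iter m))
  period := fun p hp => by
    have := h.iter_add_int hp 1 m
    unfold iterΘ
    simp only [Int.cast_one] at this
    rw [this]
  angle := fun p hp => by
    rw [h.lift_iterΘ m hp, h.pol_iter hp]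

theorem iterate_rot (h : DiskMap f Θ) {α : ℝ} (hrot : HasRotationNumber f Θ α) {m : ℕ}
    (hm : 1 ≤ m) : HasRotationNumber (f^[m]) (iterΘ f Θ m) (m * α) := by
  intro p hp
  have h1 : ∀ n : ℕ, (lift (f^[m]) (iterΘ f Θ m))^[n] p = (lift f Θ)^[m * n] p := by
    intro n
    induction n with
    | zero => rfl
    | succ n ih =>
      rw [Function.iterate_succ_apply', ih, h.lift_iterΘ m (h.iter_mem hp _),
        ← Function.iterate_add_apply]
      congr 1
      ring
  have h2 : Tendsto (fun n : ℕ => m * n) atTop atTop :=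
    tendsto_id.const_mul_atTop' (by omega : 0 < m)
  have h3 := ((hrot p hp).comp h2).const_mul (m : ℝ)
  refine h3.congr' ?_
  filter_upwards [eventually_gt_atTop 0] with n hn
  have hn' : (0 : ℝ) < n := by exact_mod_cast hn
  have hm' : (0 : ℝ) < m := by exact_mod_cast hm
  rw [h1]
  simp only [Function.comp]
  push_cast
  field_simp

end DiskMap

end

end MPc541f6
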