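import Pool.Agent.Lib.MP_c541f6_an.Analytic

/-!
# The mirror image, iterates, and the final rigidity theorem
-/

open Complex Set Filter Topology Metric

namespace MPc541f6

noncomputable section

open DiskMap

/-! ## The mirror image -/

/-- The mirror image of `f`. -/
def mir (f : ℂ → ℂ) (z : ℂ) : ℂ := (starRingEnd ℂ) (f ((starRingEnd ℂ) z))

/-- The angle of the mirror image. -/
def mirΘ (Θ : ℝ × ℝ → ℝ) (p : ℝ × ℝ) : ℝ := -Θ (-p.1, p.2)

lemma conj_pol (p : ℝ × ℝ) : (starRingEnd ℂ) (pol p) = pol (-p.1, p.2) := by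
  unfold pol
  simp only
  rw [map_mul, Complex.conj_ofReal, e_neg]

lemma conj_mem_closedBall {z : ℂ} (hz : z ∈ closedBall (0 : ℂ) 1) :
    (starRingEnd ℂ) z ∈ closedBall (0 : ℂ) 1 := by
  rw [mem_closedBall_zero_iff] at hz ⊢
  rwa [Complex.norm_conj]

lemma conj_mem_ball {z : ℂ} (hz : z ∈ ball (0 : ℂ) 1) :
    (starRingEnd ℂ) z ∈ ball (0 : ℂ) 1 := by
  rw [mem_ball_zero_iff] at hz ⊢
  rwa [Complex.norm_conj]

lemma neg_mem_strip {p : ℝ × ℝ} (hp : p ∈ strip) : (-p.1, p.2) ∈ strip := hp

lemma lift_mir (f : ℂ → ℂ) (Θ : ℝ × ℝ → ℝ) (p : ℝ × ℝ) :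
    lift (mir f) (mirΘ Θ) p = (-(lift f Θ (-p.1, p.2)).1, (lift f Θ (-p.1, p.2)).2) := by
  unfold lift mir mirΘ
  rw [Complex.norm_conj, conj_pol]

lemma iter_mir (f : ℂ → ℂ) (Θ : ℝ × ℝ → ℝ) (p : ℝ × ℝ) (n : ℕ) :
    (lift (mir f) (mirΘ Θ))^[n] p =
      (-((lift f Θ)^[n] (-p.1, p.2)).1, ((lift f Θ)^[n] (-p.1, p.2)).2) := by
  induction n with
  | zero => simp
  | succ n ih =>
    rw [Function.iterate_succ_apply', Function.iterate_succ_apply', ih, lift_mir]
    simp

theorem DiskMap.mir {f : ℂ → ℂ} {Θ : ℝ × ℝ → ℝ} (h : DiskMap f Θ) :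
    DiskMap (mir f) (mirΘ Θ) where
  cont := by
    have h1 : ContinuousOn (fun z => f ((starRingEnd ℂ) z)) (closedBall 0 1) :=
      h.cont.comp Complex.continuous_conj.continuousOn fun z hz => conj_mem_closedBall hz
    exact Complex.continuous_conj.comp_continuousOn h1
  bij := by
    refine ⟨fun z hz => conj_mem_closedBall (h.bij.mapsTo (conj_mem_closedBall hz)),
      fun z hz w hw hzw => ?_, fun z hz => ?_⟩
    · have h1 : f ((starRingEnd ℂ) z) = f ((starRingEnd ℂ) w) :=
        (starRingEnd ℂ).injective hzw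
      exact (starRingEnd ℂ).injective
        (h.bij.injOn (conj_mem_closedBall hz) (conj_mem_closedBall hw) h1)
    · obtain ⟨w, hw, hw2⟩ := h.bij.surjOn (conj_mem_closedBall hz)
      refine ⟨(starRingEnd ℂ) w, conj_mem_closedBall hw, ?_⟩
      unfold MPc541f6.mir
      rw [Complex.conj_conj, hw2, Complex.conj_conj]
  circle := fun z hz => by
    unfold MPc541f6.mir
    rw [Complex.norm_conj, h.circle _ (conj_mem_closedBall hz), Complex.norm_conj]
  diff := fun z hz => by
    have h1 := h.diff _ (conj_mem_ball hz)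
    have h2 : DifferentiableAt ℝ (fun z => Complex.conjCLE (f (Complex.conjCLE z))) z := by
      refine Complex.conjCLE.differentiableAt.comp z ?_
      exact DifferentiableAt.comp z h1 Complex.conjCLE.differentiableAt
    exact h2
  det := fun z hz => by
    have h1 := (h.diff _ (conj_mem_ball hz)).hasFDerivAt
    have hd := h.det _ (conj_mem_ball hz)
    set M := fderiv ℝ f ((starRingEnd ℂ) z) with hM
    set C : ℂ →L[ℝ] ℂ := (Complex.conjCLE : ℂ →L[ℝ] ℂ) with hC
    have hCd : ∀ w : ℂ, HasFDerivAt (fun z => C z) C w := fun w => C.hasFDerivAt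
    have h2 : HasFDerivAt (fun z => C (f (C z))) (C.comp (M.comp C)) z := by
      have h3 : HasFDerivAt (fun z => f (C z)) (M.comp C) z :=
        HasFDerivAt.comp z (g := f) (f := fun z => C z) h1 (hCd z)
      exact HasFDerivAt.comp z (g := fun z => C z) (f := fun z => f (C z)) (hCd _) h3
    have h4 : fderiv ℝ (MPc541f6.mir f) z = C.comp (M.comp C) := h2.fderiv
    rw [h4]
    have h5 : (C.comp (M.comp C)).det = C.det * (M.det * C.det) := by
      simp [ContinuousLinearMap.det, LinearMap.det_comp]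
    have h6 : C.det = -1 := by
      rw [det_eq]
      simp [hC]
    rw [h5, h6, hd]
    norm_num
  zero := by
    unfold MPc541f6.mir
    simp [h.zero]
  contΘ := by
    have h1 : ContinuousOn (fun p : ℝ × ℝ => Θ (-p.1, p.2)) strip :=
      h.contΘ.comp (by fun_prop) fun p hp => neg_mem_strip hp
    exact h1.neg
  period := fun p hp => by
    unfold mirΘ
    simp only
    have h1 := h.Θ_add_int (t := -p.1) (r := p.2) (neg_mem_strip hp) (-1)
    push_cast at h1
    have h2 : -(p.1 + 1) = -p.1 + -1 := by ring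
    rw [h2, h1]
    ring
  angle := fun p hp => by
    rw [lift_mir]
    have h1 := h.angle _ (neg_mem_strip hp)
    unfold MPc541f6.mir
    rw [conj_pol, h1, conj_pol]

theorem mir_rot {f : ℂ → ℂ} {Θ : ℝ × ℝ → ℝ} {α : ℝ} (hrot : HasRotationNumber f Θ α) :
    HasRotationNumber (mir f) (mirΘ Θ) (-α) := by
  intro p hp
  have h1 := (hrot _ (neg_mem_strip hp)).neg
  refine h1.congr fun n => ?_
  rw [iter_mir]
  simp only
  rw [neg_div]

/-- Equality of the angles, with both signs. -/
theorem theta_eq_both {f : ℂ → ℂ} {Θ : ℝ × ℝ → ℝ} {α : ℝ} (h : DiskMap f Θ)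
    (hrot : HasRotationNumber f Θ α) (hα : Irrational α) {U : Set ℂ} (hU : IsOpen U)
    (hUb : U ⊆ ball 0 1) (hinv : f '' U = U)
    (hs : (∀ p ∈ strip, pol p ∈ U → Θ (p.1, 0) ≤ Θ p) ∨
      (∀ p ∈ strip, pol p ∈ U → Θ p ≤ Θ (p.1, 0))) :
    ∀ p ∈ strip, pol p ∈ U → Θ p = Θ (p.1, 0) := by
  have hz : ∀ p ∈ strip, ¬ 0 < p.2 → Θ p = Θ (p.1, 0) := by
    intro p hp hp0
    have h1 : p.2 = 0 := le_antisymm (not_lt.1 hp0) hp.1
    rw [← h1]
  rcases hs with hs | hs
  · intro p hp hpU
    by_cases hp0 : 0 < p.2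
    · exact theta_eq_of_ge h hrot hα hU hUb hinv (fun p hp _ hpU => hs p hp hpU) p hp hp0 hpU
    · exact hz p hp hp0
  · intro p hp hpU
    by_cases hp0 : 0 < p.2
    · set V : Set ℂ := (starRingEnd ℂ) ⁻¹' U with hV
      have hVo : IsOpen V := hU.preimage Complex.continuous_conj
      have hVb : V ⊆ ball 0 1 := by
        intro z hz
        have h1 := conj_mem_ball (hUb hz)
        rwa [Complex.conj_conj] at h1
      have hVinv : MPc541f6.mir f '' V = V := by
        ext z
        constructor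
        · rintro ⟨w, hw, rfl⟩
          show (starRingEnd ℂ) (MPc541f6.mir f w) ∈ U
          unfold MPc541f6.mir
          rw [Complex.conj_conj, ← hinv]
          exact ⟨_, hw, rfl⟩
        · intro hz
          have h1 : (starRingEnd ℂ) z ∈ f '' U := by rw [hinv]; exact hz
          obtain ⟨w, hw, hw2⟩ := h1
          refine ⟨(starRingEnd ℂ) w, ?_, ?_⟩
          · show (starRingEnd ℂ) ((starRingEnd ℂ) w) ∈ U
            rw [Complex.conj_conj]; exact hw
          · unfold MPc541f6.mir
            rw [Complex.conj_conj, hw2, Complex.conj_conj]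
      have h1 := theta_eq_of_ge h.mir (mir_rot hrot) hα.neg hVo hVb hVinv
        (fun q hq _ hqV => by
          unfold mirΘ
          simp only
          refine neg_le_neg (hs _ (neg_mem_strip hq) ?_)
          rw [← conj_pol]
          exact hqV)
        (-p.1, p.2) (neg_mem_strip hp) hp0 (by
          show (starRingEnd ℂ) (pol (-p.1, p.2)) ∈ U
          rw [conj_pol]
          simpa using hpU)
      unfold mirΘ at h1
      simp only [neg_neg, Prod.mk.eta] at h1
      linarith
    · exact hz p hp hp0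

/-! ## Iterates -/

/-- If an iterate of `f` is a rigid irrational rotation, then so is `f`. -/
theorem of_iterate {f : ℂ → ℂ} {Θ : ℝ × ℝ → ℝ} {α : ℝ} (h : DiskMap f Θ)
    (hrot : HasRotationNumber f Θ α) (hα : Irrational α) {m : ℕ} (hm : 1 ≤ m)
    (hit : ∀ p ∈ strip, (lift f Θ)^[m] p = (p.1 + m * α, p.2)) :
    ∀ p ∈ strip, lift f Θ p = (p.1 + α, p.2) := by
  have hm' : (0 : ℝ) < m := by exact_mod_cast hm
  -- the translations commuting with the lift
  let S : AddSubgroup ℝ :=
    { carrier := {s | ∀ p ∈ strip, lift f Θ (p.1 + s, p.2) =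
        ((lift f Θ p).1 + s, (lift f Θ p).2)}
      zero_mem' := fun p _ => by simp
      add_mem' := fun {a b} ha hb p hp => by
        have h1 := ha p hp
        have h2 := hb (p.1 + a, p.2) hp
        simp only at h2
        rw [← add_assoc, h2, h1]
        simp [add_assoc]
      neg_mem' := fun {a} ha p hp => by
        have h1 := ha (p.1 + -a, p.2) hp
        simp only [neg_add_cancel_right, Prod.mk.eta] at h1
        rw [h1]
        simp }
  have hSmem : ∀ s : ℝ, s ∈ S ↔ ∀ p ∈ strip, lift f Θ (p.1 + s, p.2) =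
      ((lift f Θ p).1 + s, (lift f Θ p).2) := fun s => Iff.rfl
  have h1 : (m * α : ℝ) ∈ S := by
    rw [hSmem]
    intro p hp
    have h2 := hit p hp
    have h3 := hit _ (h.lift_mem hp)
    rw [← h2, ← h3]
    exact (Function.iterate_succ_apply' (lift f Θ) m p).symm.trans
      (Function.iterate_succ_apply (lift f Θ) m p)
  have h2 : (1 : ℝ) ∈ S := by
    rw [hSmem]
    intro p hp
    simpa using h.lift_add_int hp 1
  have hdense : Dense (S : Set ℝ) := by
    have h3 : Dense (AddSubgroup.closure {(m * α : ℝ), (1 : ℝ)} : Set ℝ) := by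
      rw [dense_addSubgroupClosure_pair_iff, div_one]
      exact hα.natCast_mul (by omega)
    refine h3.mono ?_
    have h4 : AddSubgroup.closure {(m * α : ℝ), (1 : ℝ)} ≤ S := by
      rw [AddSubgroup.closure_le]
      intro x hx
      rcases hx with hx | hx
      · rw [hx]; exact h1
      · rw [Set.mem_singleton_iff.1 hx]; exact h2
    exact h4
  have hLc := h.contOn_lift
  have hclosed : IsClosed (S : Set ℝ) := by
    have h3 : (S : Set ℝ) = ⋂ p ∈ strip, {s : ℝ | lift f Θ (p.1 + s, p.2) =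
        ((lift f Θ p).1 + s, (lift f Θ p).2)} := by
      ext s
      simp only [SetLike.mem_coe, hSmem, mem_iInter, mem_ofPred_eq]
    rw [h3]
    refine isClosed_biInter fun p hp => isClosed_eq ?_ (by fun_prop)
    rw [← continuousOn_univ]
    exact hLc.comp (by fun_prop) fun s _ => hp
  have hall : ∀ s : ℝ, s ∈ S := by
    intro s
    have h3 : s ∈ closure (S : Set ℝ) := hdense s
    rwa [hclosed.closure_eq] at h3
  -- the lift in polar form
  set θ : ℝ → ℝ := fun r => (lift f Θ (0, r)).1 with hθ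
  set ρ : ℝ → ℝ := fun r => (lift f Θ (0, r)).2 with hρ
  have hL : ∀ p ∈ strip, lift f Θ p = (p.1 + θ p.2, ρ p.2) := by
    intro p hp
    have h3 := (hSmem p.1).1 (hall p.1) (0, p.2) hp
    simp only [zero_add, Prod.mk.eta] at h3
    rw [h3]
    simp only [hθ, hρ]
    rw [add_comm]
  have hρmem : ∀ r ∈ Icc (0 : ℝ) 1, ρ r ∈ Icc (0 : ℝ) 1 := fun r hr =>
    h.lift_mem (p := (0, r)) hr
  have hiter : ∀ n : ℕ, ∀ r ∈ Icc (0 : ℝ) 1, ∀ t : ℝ, ((lift f Θ)^[n] (t, r)).2 = ρ^[n] r := by
    intro n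
    induction n with
    | zero => intro r _ t; rfl
    | succ n ih =>
      intro r hr t
      rw [Function.iterate_succ_apply, Function.iterate_succ_apply, hL (t, r) hr]
      exact ih _ (hρmem r hr) _
  have hρm : ∀ r ∈ Icc (0 : ℝ) 1, ρ^[m] r = r := by
    intro r hr
    rw [← hiter m r hr 0, hit (0, r) hr]
  have hρc : ContinuousOn ρ (Icc 0 1) := by
    have h3 : ContinuousOn (fun r : ℝ => lift f Θ (0, r)) (Icc 0 1) :=
      hLc.comp (by fun_prop) fun r hr => hr
    exact continuous_snd.comp_continuousOn h3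
  have hρinj : InjOn ρ (Icc 0 1) := by
    intro r hr r' hr' hrr
    have h3 : lift f Θ (θ r' - θ r, r) = lift f Θ (0, r') := by
      rw [hL _ hr, hL _ hr', hrr]
      simp
    have h4 : pol (θ r' - θ r, r) = pol (0, r') := by
      refine h.bij.injOn (pol_mem_closedBall hr) (pol_mem_closedBall hr') ?_
      rw [h.angle _ hr, h.angle _ hr', h3]
    have h5 := congrArg norm h4
    rwa [norm_pol' (p := (_, r)) hr.1, norm_pol' (p := (_, r')) hr'.1] at h5
  have hρ0 : ρ 0 = 0 := by
    simp only [hρ, lift]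
    rw [pol_zero, h.zero, norm_zero]
  have hρmono : StrictMonoOn ρ (Icc 0 1) := by
    rcases hρc.strictMonoOn_of_injOn_Icc' zero_le_one hρinj with h3 | h3
    · exact h3
    · exfalso
      have h4 := h3 (left_mem_Icc.2 zero_le_one) (right_mem_Icc.2 zero_le_one) one_pos
      rw [hρ0] at h4
      have h5 := (hρmem 1 (right_mem_Icc.2 zero_le_one)).1
      linarith
  have hρid : ∀ r ∈ Icc (0 : ℝ) 1, ρ r = r := by
    intro r hr
    rcases lt_trichotomy (ρ r) r with h3 | h3 | h3
    · exfalso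
      have h4 : ∀ n : ℕ, ρ^[n] r ∈ Icc (0 : ℝ) 1 ∧ ρ^[n + 1] r < r := by
        intro n
        induction n with
        | zero => exact ⟨hr, h3⟩
        | succ n ih =>
          have h5 : ρ^[n + 1] r ∈ Icc (0 : ℝ) 1 := by
            rw [Function.iterate_succ_apply']; exact hρmem _ ih.1
          refine ⟨h5, ?_⟩
          rw [Function.iterate_succ_apply']
          exact (hρmono h5 hr ih.2).trans h3
      obtain ⟨k, hk⟩ : ∃ k, m = k + 1 := ⟨m - 1, by omega⟩
      have h6 := (h4 k).2
      rw [← hk, hρm r hr] at h6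
      exact lt_irrefl _ h6
    · exact h3
    · exfalso
      have h4 : ∀ n : ℕ, ρ^[n] r ∈ Icc (0 : ℝ) 1 ∧ r < ρ^[n + 1] r := by
        intro n
        induction n with
        | zero => exact ⟨hr, h3⟩
        | succ n ih =>
          have h5 : ρ^[n + 1] r ∈ Icc (0 : ℝ) 1 := by
            rw [Function.iterate_succ_apply']; exact hρmem _ ih.1
          refine ⟨h5, ?_⟩
          rw [Function.iterate_succ_apply']
          exact h3.trans (hρmono hr h5 ih.2)
      obtain ⟨k, hk⟩ : ∃ k, m = k + 1 := ⟨m - 1, by omega⟩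
      have h6 := (h4 k).2
      rw [← hk, hρm r hr] at h6
      exact lt_irrefl _ h6
  have hθα : ∀ r ∈ Icc (0 : ℝ) 1, θ r = α := by
    intro r hr
    have h3 : ∀ n : ℕ, (lift f Θ)^[n] (0, r) = (n * θ r, r) := by
      intro n
      induction n with
      | zero => simp
      | succ n ih =>
        rw [Function.iterate_succ_apply', ih, hL _ hr]
        simp only
        rw [hρid r hr]
        push_cast
        ring_nf
    refine (rot_unique (a := 0) (B := 0) (hrot (0, r) hr) fun n => ?_).symm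
    rw [h3 n]; simp
  intro p hp
  rw [hL p hp, hθα p.2 hp, hρid p.2 hp]

/-- **Rigidity.** Let `U` be a nonempty open subset of the open disk with `f^m (U) = U`. If `f^m`
rotates every point of `U` at least as much as its linear part at `0` does, or every point of `U`
at most as much, then it rotates every point of `U` exactly as much and is linear near `0` in `U`;
if moreover `U` is the open disk or `f` is real-analytic, then `f` is the rotation `R_α`. -/
theorem main {f : ℂ → ℂ} {Θ : ℝ × ℝ → ℝ} {α : ℝ} (h : DiskMap f Θ)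
    (hrot : HasRotationNumber f Θ α) (hα : Irrational α) {m : ℕ} (hm : 1 ≤ m)
    {U : Set ℂ} (hU : IsOpen U) (hUb : U ⊆ ball 0 1) (hne : U.Nonempty)
    (hinv : f^[m] '' U = U)
    (hs : (∀ p ∈ strip, pol p ∈ U → ((lift f Θ)^[m] (p.1, 0)).1 ≤ ((lift f Θ)^[m] p).1) ∨
      (∀ p ∈ strip, pol p ∈ U → ((lift f Θ)^[m] p).1 ≤ ((lift f Θ)^[m] (p.1, 0)).1)) :
    (∀ p ∈ strip, pol p ∈ U → ((lift f Θ)^[m] p).1 = ((lift f Θ)^[m] (p.1, 0)).1) ∧
    (∀ z, segment ℝ 0 z ⊆ U → f^[m] z = fderiv ℝ (f^[m]) 0 z) ∧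
    ((U = ball 0 1 ∨ AnalyticOnNhd ℝ f (ball 0 1)) →
      ∀ z ∈ closedBall (0 : ℂ) 1, f z = Complex.exp (2 * Real.pi * I * α) * z) := by
  have hg := h.iterate m
  have hgrot := h.iterate_rot hrot hm
  have hmα : Irrational (m * α) := hα.natCast_mul (by omega)
  have h1 : ∀ p ∈ strip, pol p ∈ U → iterΘ f Θ m p = iterΘ f Θ m (p.1, 0) :=
    theta_eq_both hg hgrot hmα hU hUb hinv hs
  refine ⟨h1, fun z hz => local_linear hg hgrot hmα hU hUb (fun p hp _ hpU => h1 p hp hpU) z hz,
    fun hcase => ?_⟩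
  have h2 : ∀ p ∈ strip, 0 < p.2 → p.2 < 1 → iterΘ f Θ m p = iterΘ f Θ m (p.1, 0) := by
    rcases hcase with hball | han
    · intro p hp hp0 hp1
      refine h1 p hp ?_
      rw [hball, mem_ball_zero_iff, norm_pol' hp0.le]
      exact hp1
    · exact theta_eq_of_analytic hg hgrot hmα (analytic_iterate h han m) hU hUb hne
        (fun p hp _ hpU => h1 p hp hpU)
  have h3 : ∀ p ∈ strip, (lift f Θ)^[m] p = (p.1 + m * α, p.2) := by
    intro p hp
    have h4 := rigid_of_eq hg hgrot hmα h2 p hp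
    rwa [h.lift_iterΘ m hp] at h4
  have h5 := of_iterate h hrot hα hm h3
  intro z hz
  have h6 := polar_mem hz
  have h7 := h.angle _ h6
  rw [h5 _ h6, pol_polar] at h7
  rw [h7]
  have h8 : pol ((polar z).1 + α, (polar z).2) = e α * pol (polar z) := by
    unfold pol
    simp only
    rw [e_add]
    ring
  rw [h8, pol_polar]
  congr 1
  unfold e
  congr 1
  push_cast
  ring

end

end MPc541f6
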