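import Pool.Agent.Lib.MP_c541f6_an.GRoot

/-!
# Smooth linearization, both signs, iterates
-/

open Complex Set Filter Topology Metric MeasureTheory

namespace MPc541f6

noncomputable section

open DensMap

variable {J : ℂ → ℝ} {f : ℂ → ℂ} {Θ : ℝ × ℝ → ℝ} {α : ℝ}

theorem DensMap.eq0_of_ge (h : DensMap J f Θ) (hJ : Continuous J)
    (hpos : ∀ z, 0 < J z) (hrot : HasRotationNumber f Θ α) {H : ℝ → ℝ} (hHc : Continuous H)
    (hHm : StrictMono H) (hH1 : ∀ t, H (t + 1) = H t + 1)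
    (hge : ∀ p ∈ strip, H p.1 + α ≤ H (Θ p)) : ∀ p ∈ strip, Θ p = Θ (p.1, 0) := by
  have h1 := h.eq_of_ge hJ hpos hrot hHc hHm hH1 hge
  intro p hp
  refine hHm.injective ?_
  rw [h1 p hp, h1 (p.1, 0) ⟨le_refl _, zero_le_one⟩]

lemma eq0_of_mir (h : ∀ p ∈ strip, mirΘ Θ p = mirΘ Θ (p.1, 0)) :
    ∀ p ∈ strip, Θ p = Θ (p.1, 0) := by
  intro p hp
  have h1 := h (-p.1, p.2) (neg_mem_strip hp)
  unfold mirΘ at h1
  simp only [neg_neg, Prod.mk.eta] at h1
  linarith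

theorem DensMap.eq0_of_le (h : DensMap J f Θ) (hJ : Continuous J)
    (hpos : ∀ z, 0 < J z) (hrot : HasRotationNumber f Θ α) {H : ℝ → ℝ} (hHc : Continuous H)
    (hHm : StrictMono H) (hH1 : ∀ t, H (t + 1) = H t + 1)
    (hle : ∀ p ∈ strip, H (Θ p) ≤ H p.1 + α) : ∀ p ∈ strip, Θ p = Θ (p.1, 0) := by
  refine eq0_of_mir (h.mir.eq0_of_ge (H := fun t => -H (-t))
    (hJ.comp Complex.continuous_conj) (fun z => hpos _) (mir_rot hrot) (by fun_prop) ?_ ?_ ?_)
  · intro s t hst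
    exact neg_lt_neg (hHm (neg_lt_neg hst))
  · intro t
    have h1 := deg_one_int hH1 (-1) (-t)
    push_cast at h1
    have h2 : -(t + 1) = -t + -1 := by ring
    rw [h2, h1]
    ring
  · intro p hp
    have h1 := hle _ (neg_mem_strip hp)
    unfold mirΘ
    simp only [neg_neg]
    linarith

theorem DensMap.eq0_of_lin_ge (h : DensMap J f Θ) (hJ : Continuous J)
    (hpos : ∀ z, 0 < J z) (hrot : HasRotationNumber f Θ α) (hα : Irrational α)
    (hge : ∀ p ∈ strip, Θ (p.1, 0) ≤ Θ p) : ∀ p ∈ strip, Θ p = Θ (p.1, 0) := by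
  obtain ⟨B, L, a, -, -, -, hLc, hLm, -, hL1, hLG, -⟩ := h.lin hpos hrot hα
  refine h.eq0_of_ge hJ hpos hrot hLc hLm hL1 fun p hp => ?_
  rw [← hLG]
  exact hLm.monotone (hge p hp)

theorem DensMap.eq0_of_lin_le (h : DensMap J f Θ) (hJ : Continuous J)
    (hpos : ∀ z, 0 < J z) (hrot : HasRotationNumber f Θ α) (hα : Irrational α)
    (hle : ∀ p ∈ strip, Θ p ≤ Θ (p.1, 0)) : ∀ p ∈ strip, Θ p = Θ (p.1, 0) := by
  obtain ⟨B, L, a, -, -, -, hLc, hLm, -, hL1, hLG, -⟩ := h.lin hpos hrot hα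
  refine h.eq0_of_le hJ hpos hrot hLc hLm hL1 fun p hp => ?_
  rw [← hLG]
  exact hLm.monotone (hle p hp)

/-- The map `g` is one-sided at time `m`, relative to the rotation number `α`: its `m`-th iterate
rotates every point (of the disk blown up at `0`) at least as much as its linear part at `0`
does, or every point at most as much; or, for some continuous change `H` of the angle, it rotates
every point by at least `m α` in the angle `H`, or every point by at most `m α`. -/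
def OneSided (g : ℂ → ℂ) (Θ : ℝ × ℝ → ℝ) (α : ℝ) (m : ℕ) : Prop :=
  (∀ p ∈ strip, ((lift g Θ)^[m] (p.1, 0)).1 ≤ ((lift g Θ)^[m] p).1) ∨
  (∀ p ∈ strip, ((lift g Θ)^[m] p).1 ≤ ((lift g Θ)^[m] (p.1, 0)).1) ∨
  ∃ H : ℝ → ℝ, Continuous H ∧ StrictMono H ∧ (∀ t, H (t + 1) = H t + 1) ∧
    ((∀ p ∈ strip, H p.1 + m * α ≤ H (((lift g Θ)^[m] p).1)) ∨
      (∀ p ∈ strip, H (((lift g Θ)^[m] p).1) ≤ H p.1 + m * α))

/-- **Smooth linearization.** If `f` preserves a smooth positive density, has irrational rotation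
number `α`, and some iterate of `f` is one-sided, then `f` is smoothly conjugated to the
rotation. -/
theorem DensMap.linearize (h : DensMap J f Θ) (hJ : ContDiff ℝ smo J)
    (hpos : ∀ z, 0 < J z) (hrot : HasRotationNumber f Θ α) (hα : Irrational α) {m : ℕ}
    (hm : 1 ≤ m) (hs : OneSided f Θ α m) :
    ∃ H : ℂ → ℂ, ContDiff ℝ smo H ∧ BijOn H (closedBall 0 1) (closedBall 0 1) ∧
      Function.Injective H ∧ (∀ z, Function.Injective (fderiv ℝ H z)) ∧
      (∀ R : ℝ, (∀ z ∈ ball (0 : ℂ) R, AnalyticAt ℝ J z) → ∀ z ∈ ball (0 : ℂ) R,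
        AnalyticAt ℝ H z) ∧
      ∀ z ∈ closedBall (0 : ℂ) 1, H (f z) = e α * H z := by
  have hg := h.iterate m
  have hgrot := h.iterate_rot hrot hm
  have hmα : Irrational (m * α) := hα.natCast_mul (by omega)
  have hJc := hJ.continuous
  have heq : ∀ p ∈ strip, DiskMap.iterΘ f Θ m p = DiskMap.iterΘ f Θ m (p.1, 0) := by
    rcases hs with hs | hs | ⟨H, hHc, hHm, hH1, hs | hs⟩
    · exact hg.eq0_of_lin_ge hJc hpos hgrot hmα hs
    · exact hg.eq0_of_lin_le hJc hpos hgrot hmα hs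
    · exact hg.eq0_of_ge hJc hpos hgrot hHc hHm hH1 hs
    · exact hg.eq0_of_le hJc hpos hgrot hHc hHm hH1 hs
  obtain ⟨H, L, h1, h2, h3, h4, h5, h6, h7, h8, h9, han, h10⟩ :=
    hg.linearize_eq hJ hpos hgrot hmα heq
  exact ⟨H, h1, h2, h3, h4, han,
    linear_of_iterate h hrot hα hm h1.continuous h2 h5 h6 h7 h8 h9 h10⟩

end

end MPc541f6
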