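import Pool.Agent.Lib.MP_c541f6_an.GBoth

/-!
# Smooth diffeomorphisms of the closed disk and the final criterion
-/

open Complex Set Filter Topology Metric MeasureTheory

namespace MPc541f6

noncomputable section

/-- `ψ` restricts to a `C^k` diffeomorphism of the closed unit disk `D` onto itself with inverse
`η`: both maps are `C^k` on a neighbourhood of `D` (real-analytic for `k = ω`), map `D` into `D`
and are inverse to each other on `D`. -/
structure DiskDiffeo (k : WithTop ℕ∞) (ψ η : ℂ → ℂ) : Prop where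
  smooth : ∃ V : Set ℂ, IsOpen V ∧ closedBall 0 1 ⊆ V ∧ ContDiffOn ℝ k ψ V ∧ ContDiffOn ℝ k η V
  maps : MapsTo ψ (closedBall 0 1) (closedBall 0 1)
  maps' : MapsTo η (closedBall 0 1) (closedBall 0 1)
  inv : InvOn η ψ (closedBall 0 1) (closedBall 0 1)

/-- `k` is `∞` or `ω`. -/
def Reg (k : WithTop ℕ∞) : Prop := k = ((⊤ : ℕ∞) : WithTop ℕ∞) ∨ k = (⊤ : WithTop ℕ∞)

lemma Reg.smo_le {k : WithTop ℕ∞} (hk : Reg k) : smo ≤ k := by
  rcases hk with rfl | rfl
  · exact le_rfl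
  · exact le_top

lemma Reg.add_one_le {k : WithTop ℕ∞} (hk : Reg k) : k + 1 ≤ k := by
  rcases hk with rfl | rfl
  · simp
  · exact le_top

lemma exists_equiv {M : ℂ →L[ℝ] ℂ} (h : Function.Injective M) :
    ∃ E : ℂ ≃L[ℝ] ℂ, (E : ℂ →L[ℝ] ℂ) = M := by
  refine ⟨(LinearEquiv.ofInjectiveEndo (M : ℂ →ₗ[ℝ] ℂ) h).toContinuousLinearEquiv, ?_⟩
  ext v
  rfl

lemma map_nhds_of_injective {H : ℂ → ℂ} {z : ℂ} (hH : ContDiffAt ℝ smo H z)
    (hi : Function.Injective (fderiv ℝ H z)) : Filter.map H (𝓝 z) = 𝓝 (H z) := by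
  obtain ⟨E, hE⟩ := exists_equiv hi
  have h1 : HasStrictFDerivAt H (fderiv ℝ H z) z := hH.hasStrictFDerivAt (by simp [smo])
  rw [← hE] at h1
  exact h1.map_nhds_eq_of_equiv

namespace DiskDiffeo

variable {ψ η : ℂ → ℂ} {k : WithTop ℕ∞}

lemma symm (h : DiskDiffeo k ψ η) : DiskDiffeo k η ψ where
  smooth := by
    obtain ⟨V, h1, h2, h3, h4⟩ := h.smooth
    exact ⟨V, h1, h2, h4, h3⟩
  maps := h.maps'
  maps' := h.maps
  inv := h.inv.symm

lemma contDiffAt (h : DiskDiffeo k ψ η) {z : ℂ} (hz : z ∈ closedBall (0 : ℂ) 1) :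
    ContDiffAt ℝ k ψ z := by
  obtain ⟨V, h1, h2, h3, h4⟩ := h.smooth
  exact h3.contDiffAt (h1.mem_nhds (h2 hz))

lemma bijOn (h : DiskDiffeo k ψ η) : BijOn ψ (closedBall 0 1) (closedBall 0 1) :=
  h.inv.bijOn h.maps h.maps'

/-- The Jacobian determinant as a smooth function. -/
lemma contDiffAt_det (hk : Reg k) {φ : ℂ → ℂ} {z : ℂ} (h : ContDiffAt ℝ k φ z) :
    ContDiffAt ℝ k (fun x => (fderiv ℝ φ x).det) z := by
  have h1 : ContDiffAt ℝ k (fderiv ℝ φ) z := h.fderiv_right hk.add_one_le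
  have h2 : (fun x => (fderiv ℝ φ x).det) = fun x => Complex.reCLM (fderiv ℝ φ x 1) *
      Complex.imCLM (fderiv ℝ φ x I) - Complex.reCLM (fderiv ℝ φ x I) *
      Complex.imCLM (fderiv ℝ φ x 1) := by
    funext x
    rw [det_eq]
    rfl
  rw [h2]
  have h3 : ∀ v : ℂ, ContDiffAt ℝ k (fun x => fderiv ℝ φ x v) z := fun v =>
    h1.clm_apply contDiffAt_const
  have h4 : ∀ v : ℂ, ContDiffAt ℝ k (fun x => Complex.reCLM (fderiv ℝ φ x v)) z := fun v =>
    Complex.reCLM.contDiff.contDiffAt.comp z (h3 v)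
  have h5 : ∀ v : ℂ, ContDiffAt ℝ k (fun x => Complex.imCLM (fderiv ℝ φ x v)) z := fun v =>
    Complex.imCLM.contDiff.contDiffAt.comp z (h3 v)
  exact ((h4 1).mul (h5 I)).sub ((h4 I).mul (h5 1))

/-- Composition. -/
theorem comp {H K : ℂ → ℂ} (hH : DiskDiffeo k H K) (h : DiskDiffeo k ψ η) :
    DiskDiffeo k (fun z => H (ψ z)) (fun z => η (K z)) where
  smooth := by
    obtain ⟨V₁, a1, a2, a3, a4⟩ := h.smooth
    obtain ⟨V₂, b1, b2, b3, b4⟩ := hH.smooth
    refine ⟨(V₁ ∩ ψ ⁻¹' V₂) ∩ (V₂ ∩ K ⁻¹' V₁), ?_, ?_, ?_, ?_⟩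
    · exact (a3.continuousOn.isOpen_inter_preimage a1 b1).inter
        (b4.continuousOn.isOpen_inter_preimage b1 a1)
    · intro z hz
      exact ⟨⟨a2 hz, b2 (h.maps hz)⟩, ⟨b2 hz, a2 (hH.maps' hz)⟩⟩
    · exact b3.comp (a3.mono fun z hz => hz.1.1) fun z hz => hz.1.2
    · exact a4.comp (b4.mono fun z hz => hz.2.1) fun z hz => hz.2.2
  maps := hH.maps.comp h.maps
  maps' := h.maps'.comp hH.maps'
  inv := by
    constructor
    · intro z hz
      simp only
      rw [hH.inv.1 (h.maps hz), h.inv.1 hz]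
    · intro z hz
      simp only
      rw [h.inv.2 (hH.maps' hz), hH.inv.2 hz]

lemma contOn (h : DiskDiffeo k ψ η) : ContinuousOn ψ (closedBall 0 1) := fun _ hz =>
  (h.contDiffAt hz).continuousAt.continuousWithinAt

lemma smoAt (h : DiskDiffeo k ψ η) (hk : Reg k) {z : ℂ} (hz : z ∈ closedBall (0 : ℂ) 1) :
    ContDiffAt ℝ smo ψ z := (h.contDiffAt hz).of_le hk.smo_le

lemma diffAt (h : DiskDiffeo k ψ η) (hk : Reg k) {z : ℂ} (hz : z ∈ closedBall (0 : ℂ) 1) :
    DifferentiableAt ℝ ψ z := (h.smoAt hk hz).differentiableAt (by simp [smo])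

lemma comp_eq (h : DiskDiffeo k ψ η) (hk : Reg k) {z : ℂ} (hz : z ∈ closedBall (0 : ℂ) 1) :
    (fderiv ℝ ψ (η z)).comp (fderiv ℝ η z) = ContinuousLinearMap.id ℝ ℂ := by
  have h1 : HasFDerivAt (fun x => ψ (η x)) ((fderiv ℝ ψ (η z)).comp (fderiv ℝ η z)) z :=
    HasFDerivAt.comp z (g := ψ) (f := η) (h.diffAt hk (h.maps' hz)).hasFDerivAt
      (h.symm.diffAt hk hz).hasFDerivAt
  have h2 : HasFDerivWithinAt (fun x => ψ (η x)) (ContinuousLinearMap.id ℝ ℂ)
      (closedBall 0 1) z := by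
    refine (hasFDerivWithinAt_id z _).congr (fun x hx => h.inv.2 hx) (h.inv.2 hz)
  have h3 : UniqueDiffWithinAt ℝ (closedBall (0 : ℂ) 1) z := by
    refine uniqueDiffOn_convex (convex_closedBall _ _) ?_ z hz
    rw [interior_closedBall _ one_ne_zero]
    exact ⟨0, by simp⟩
  exact h3.eq h1.hasFDerivWithinAt h2

lemma det_mul (h : DiskDiffeo k ψ η) (hk : Reg k) {z : ℂ} (hz : z ∈ closedBall (0 : ℂ) 1) :
    (fderiv ℝ ψ (η z)).det * (fderiv ℝ η z).det = 1 := by
  have h1 : ((fderiv ℝ ψ (η z)).comp (fderiv ℝ η z)).det =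
      (fderiv ℝ ψ (η z)).det * (fderiv ℝ η z).det := by
    simp [ContinuousLinearMap.det, LinearMap.det_comp]
  rw [← h1, h.comp_eq hk hz]
  simp [ContinuousLinearMap.det]

lemma det_ne (h : DiskDiffeo k ψ η) (hk : Reg k) {z : ℂ} (hz : z ∈ closedBall (0 : ℂ) 1) :
    (fderiv ℝ ψ z).det ≠ 0 := by
  intro h0
  have h1 := h.det_mul hk (h.maps hz)
  rw [h.inv.1 hz, h0, zero_mul] at h1
  exact zero_ne_one h1

lemma fderiv_injective (h : DiskDiffeo k ψ η) (hk : Reg k) {z : ℂ} (hz : z ∈ closedBall (0 : ℂ) 1) :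
    Function.Injective (fderiv ℝ ψ z) := by
  have h1 := h.symm.comp_eq hk hz
  intro v w hvw
  have h2 : ((fderiv ℝ η (ψ z)).comp (fderiv ℝ ψ z)) v =
      ((fderiv ℝ η (ψ z)).comp (fderiv ℝ ψ z)) w := by
    simp only [ContinuousLinearMap.comp_apply]
    rw [hvw]
  rw [h1] at h2
  exact h2

lemma maps_ball (h : DiskDiffeo k ψ η) (hk : Reg k) : MapsTo ψ (ball 0 1) (ball 0 1) := by
  intro z hz
  have hz' := ball_subset_closedBall hz
  have h1 := map_nhds_of_injective (h.smoAt hk hz') (h.fderiv_injective hk hz')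
  have h2 : closedBall (0 : ℂ) 1 ∈ 𝓝 (ψ z) := by
    rw [← h1, Filter.mem_map]
    filter_upwards [isOpen_ball.mem_nhds hz] with x hx
    exact h.maps (ball_subset_closedBall hx)
  rw [← mem_interior_iff_mem_nhds, interior_closedBall _ one_ne_zero] at h2
  exact h2

lemma circle (h : DiskDiffeo k ψ η) (hk : Reg k) {z : ℂ} (hz : z ∈ closedBall (0 : ℂ) 1) :
    (‖ψ z‖ = 1 ↔ ‖z‖ = 1) := by
  have hz1 := hz
  rw [mem_closedBall_zero_iff] at hz1
  have hz2 := h.maps hz
  rw [mem_closedBall_zero_iff] at hz2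
  constructor
  · intro h1
    refine le_antisymm hz1 (not_lt.1 fun h2 => ?_)
    have h3 := h.maps_ball hk (mem_ball_zero_iff.2 h2)
    rw [mem_ball_zero_iff] at h3
    linarith
  · intro h1
    refine le_antisymm hz2 (not_lt.1 fun h2 => ?_)
    have h3 := h.symm.maps_ball hk (mem_ball_zero_iff.2 h2)
    rw [h.inv.1 hz, mem_ball_zero_iff] at h3
    linarith

lemma det_sign (h : DiskDiffeo k ψ η) (hk : Reg k) {z w : ℂ} (hz : z ∈ closedBall (0 : ℂ) 1)
    (hw : w ∈ closedBall (0 : ℂ) 1) : 0 < (fderiv ℝ ψ z).det * (fderiv ℝ ψ w).det := by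
  have hc : ContinuousOn (fun x => (fderiv ℝ ψ x).det) (closedBall 0 1) := fun x hx =>
    (contDiffAt_det hk (h.contDiffAt hx)).continuousAt.continuousWithinAt
  have hconn : IsPreconnected (closedBall (0 : ℂ) 1) := (convex_closedBall _ _).isPreconnected
  have key : ∀ x ∈ closedBall (0 : ℂ) 1, ∀ y ∈ closedBall (0 : ℂ) 1,
      (fderiv ℝ ψ x).det < 0 → 0 < (fderiv ℝ ψ y).det → False := by
    intro x hx y hy h1 h2
    have h0 : (0 : ℝ) ∈ Icc ((fderiv ℝ ψ x).det) ((fderiv ℝ ψ y).det) := ⟨h1.le, h2.le⟩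
    obtain ⟨u, hu, hu2⟩ := hconn.intermediate_value hx hy hc h0
    exact h.det_ne hk hu hu2
  rcases lt_or_gt_of_ne (h.det_ne hk hz) with h1 | h1
  · rcases lt_or_gt_of_ne (h.det_ne hk hw) with h2 | h2
    · exact mul_pos_of_neg_of_neg h1 h2
    · exact (key z hz w hw h1 h2).elim
  · rcases lt_or_gt_of_ne (h.det_ne hk hw) with h2 | h2
    · exact (key w hw z hz h2 h1).elim
    · exact mul_pos h1 h2

/-- The density of the transported area is the restriction of a smooth positive function on the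
plane, which is `C^k` near the disk. -/
theorem exists_density (h : DiskDiffeo k ψ η) (hk : Reg k) : ∃ (J : ℂ → ℝ) (R : ℝ), 1 < R ∧
    ContDiff ℝ smo J ∧ (∀ z, 0 < J z) ∧
    (∀ z ∈ closedBall (0 : ℂ) 1, J z = |(fderiv ℝ η z).det|) ∧
    ∀ z ∈ ball (0 : ℂ) R, ContDiffAt ℝ k J z := by
  obtain ⟨V, hV, hDV, h3, h4⟩ := h.smooth
  set δ : ℂ → ℝ := fun z => (fderiv ℝ η z).det with hδ
  have hδs : ∀ z ∈ V, ContDiffAt ℝ k δ z := fun z hz =>
    contDiffAt_det hk (h4.contDiffAt (hV.mem_nhds hz))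
  have hδc : ContinuousOn δ V := fun z hz => (hδs z hz).continuousAt.continuousWithinAt
  set V' : Set ℂ := V ∩ δ ⁻¹' {0}ᶜ with hV'
  have hV'o : IsOpen V' := hδc.isOpen_inter_preimage hV isOpen_compl_singleton
  have hDV' : closedBall (0 : ℂ) 1 ⊆ V' := fun z hz => ⟨hDV hz, h.symm.det_ne hk hz⟩
  obtain ⟨r, hr, hrV⟩ := (isCompact_closedBall (0 : ℂ) 1).exists_cthickening_subset_open hV'o hDV'
  rw [cthickening_closedBall hr.le zero_le_one] at hrV
  let χ : ContDiffBump (0 : ℂ) := ⟨1 + r / 2, 1 + r, by linarith, by linarith⟩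
  have hχ1 : ∀ z ∈ closedBall (0 : ℂ) (1 + r / 2), χ z = 1 := fun z hz =>
    χ.one_of_mem_closedBall hz
  have hχ0 : ∀ z ∉ V', ∀ᶠ w in 𝓝 z, χ w = 0 := by
    intro z hz
    have h5 : z ∉ closedBall (0 : ℂ) (r + 1) := fun h6 => hz (hrV h6)
    filter_upwards [isClosed_closedBall.isOpen_compl.mem_nhds h5] with w hw
    refine χ.zero_of_le_dist ?_
    have h6 : ¬ dist w 0 ≤ r + 1 := hw
    show 1 + r ≤ dist w 0
    linarith [not_le.1 h6]
  have hDD : closedBall (0 : ℂ) 1 ⊆ closedBall (0 : ℂ) (1 + r / 2) :=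
    closedBall_subset_closedBall (by linarith)
  refine ⟨fun z => χ z * |δ z| + (1 - χ z), 1 + r / 2, by linarith, ?_, ?_, ?_, ?_⟩
  · rw [contDiff_iff_contDiffAt]
    intro z
    by_cases hz : z ∈ V'
    · have h5 : ContDiffAt ℝ smo χ z := χ.contDiffAt
      have h6 : ContDiffAt ℝ smo (fun z => |δ z|) z :=
        ((hδs z hz.1).of_le hk.smo_le).abs hz.2
      exact (h5.mul h6).add (contDiffAt_const.sub h5)
    · have h5 : (fun z => χ z * |δ z| + (1 - χ z)) =ᶠ[𝓝 z] fun _ => 1 := by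
        filter_upwards [hχ0 z hz] with w hw
        rw [hw]; ring
      exact contDiffAt_const.congr_of_eventuallyEq h5
  · intro z
    by_cases hz : z ∈ V'
    · have h5 : 0 < |δ z| := abs_pos.2 hz.2
      have h6 := χ.nonneg (x := z)
      have h7 := χ.le_one (x := z)
      rcases h6.eq_or_lt with h8 | h8
      · simp only [← h8]; norm_num
      · have h9 : 0 < χ z * |δ z| := mul_pos h8 h5
        simp only
        linarith
    · have h5 := (hχ0 z hz).self_of_nhds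
      simp only [h5]
      norm_num
  · intro z hz
    simp only [hχ1 z (hDD hz)]
    ring
  · intro z hz
    have hzV : z ∈ V' := by
      refine hrV ?_
      rw [mem_closedBall_zero_iff]
      rw [mem_ball_zero_iff] at hz
      linarith
    have h5 : (fun z => χ z * |δ z| + (1 - χ z)) =ᶠ[𝓝 z] fun z => |δ z| := by
      filter_upwards [isOpen_ball.mem_nhds hz] with w hw
      rw [hχ1 w (ball_subset_closedBall hw)]
      ring
    have h6 : ContDiffAt ℝ k (fun z => |δ z|) z := (contDiffAt_norm ℝ hzV.2).comp z (hδs z hzV.1)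
    exact h6.congr_of_eventuallyEq h5

/-- An injective smooth map of the plane with injective derivatives which is a bijection of the
closed disk is a diffeomorphism of the closed disk. -/
theorem of_global {H : ℂ → ℂ} {R : ℝ} (hR : 1 < R) (h1 : ContDiff ℝ smo H)
    (h1' : ∀ z ∈ ball (0 : ℂ) R, ContDiffAt ℝ k H z)
    (h2 : BijOn H (closedBall 0 1) (closedBall 0 1)) (h3 : Function.Injective H)
    (h4 : ∀ z, Function.Injective (fderiv ℝ H z)) : ∃ K, DiskDiffeo k H K := by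
  have hopen : IsOpenMap H := by
    rw [isOpenMap_iff_nhds_le]
    intro z
    exact (map_nhds_of_injective h1.contDiffAt (h4 z)).ge
  have hemb : IsOpenEmbedding H :=
    IsOpenEmbedding.of_continuous_injective_isOpenMap h1.continuous h3 hopen
  set P := hemb.toOpenPartialHomeomorph H with hP
  have hleft : ∀ z, P.symm (H z) = z := fun z => hemb.toOpenPartialHomeomorph_left_inv H
  have hsub : closedBall (0 : ℂ) 1 ⊆ ball (0 : ℂ) R := closedBall_subset_ball hR
  refine ⟨P.symm, ⟨⟨ball 0 R ∩ H '' ball 0 R, isOpen_ball.inter (hopen _ isOpen_ball), ?_, ?_,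
    ?_⟩, h2.mapsTo, ?_, ?_⟩⟩
  · intro y hy
    refine ⟨hsub hy, ?_⟩
    obtain ⟨x, hx, rfl⟩ := h2.surjOn hy
    exact ⟨x, hsub hx, rfl⟩
  · intro y hy
    exact (h1' y hy.1).contDiffWithinAt
  · rintro y ⟨-, x, hx, rfl⟩
    obtain ⟨E, hE⟩ := exists_equiv (h4 x)
    refine ContDiffAt.contDiffWithinAt ?_
    refine P.contDiffAt_symm (f₀' := E) ?_ ?_ ?_
    · show H x ∈ P.target
      rw [hemb.toOpenPartialHomeomorph_target]
      exact ⟨x, rfl⟩
    · rw [hleft, hE]
      exact (h1.differentiable (by simp [smo]) x).hasFDerivAt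
    · rw [hleft]
      exact h1' x hx
  · intro y hy
    obtain ⟨x, hx, rfl⟩ := h2.surjOn hy
    rw [hleft]; exact hx
  · constructor
    · intro x _
      exact hleft x
    · intro y hy
      obtain ⟨x, hx, rfl⟩ := h2.surjOn hy
      rw [hleft]

end DiskDiffeo

end

end MPc541f6
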