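import Pool.Agent.Lib.MP_c541f6_an.GCoord

/-!
# The linearization criterion
-/

open Complex Set Filter Topology Metric MeasureTheory

namespace MPc541f6

noncomputable section

/-- `f` is a homeomorphism of the closed unit disk `D` onto itself that maps the unit circle to
itself, fixes `0`, and is differentiable with Jacobian determinant `1` at every interior point
(so it preserves area and orientation). -/
structure AreaMap (f : ℂ → ℂ) : Prop where
  cont : ContinuousOn f (closedBall 0 1)
  bij : BijOn f (closedBall 0 1) (closedBall 0 1)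
  circle : ∀ z ∈ closedBall (0 : ℂ) 1, (‖f z‖ = 1 ↔ ‖z‖ = 1)
  diff : ∀ z ∈ ball (0 : ℂ) 1, DifferentiableAt ℝ f z
  det : ∀ z ∈ ball (0 : ℂ) 1, (fderiv ℝ f z).det = 1
  zero : f 0 = 0

/-- `Θ` is a continuous lift of the angle of `g` to the strip `ℝ × [0, 1]`, that is, to the disk
blown up at `0`: `g (r exp (2 π i t)) = |g (r exp (2 π i t))| exp (2 π i Θ (t, r))`. -/
structure AngleLift (g : ℂ → ℂ) (Θ : ℝ × ℝ → ℝ) : Prop where
  cont : ContinuousOn Θ strip
  period : ∀ p ∈ strip, Θ (p.1 + 1, p.2) = Θ p + 1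
  angle : ∀ p ∈ strip, g (pol p) = pol (lift g Θ p)

lemma AreaMap.maps_ball {f : ℂ → ℂ} (h : AreaMap f) : MapsTo f (ball 0 1) (ball 0 1) := by
  intro z hz
  have h1 := h.bij.mapsTo (ball_subset_closedBall hz)
  rw [mem_closedBall_zero_iff] at h1
  rw [mem_ball_zero_iff] at hz ⊢
  refine lt_of_le_of_ne h1 fun h2 => ?_
  exact hz.ne ((h.circle z (by rw [mem_closedBall_zero_iff]; exact hz.le)).1 h2)

/-- In smooth coordinates, an area-preserving map preserves a smooth density. -/
theorem densMap_of {k : WithTop ℕ∞} (hk : Reg k) {f ψ η : ℂ → ℂ} {Θ : ℝ × ℝ → ℝ} {J : ℂ → ℝ}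
    (hf : AreaMap f) (h : DiskDiffeo k ψ η) (h0 : ψ 0 = 0) (hΘ : AngleLift (ψ ∘ f ∘ η) Θ)
    (hJ : ∀ z ∈ closedBall (0 : ℂ) 1, J z = |(fderiv ℝ η z).det|) :
    DensMap J (ψ ∘ f ∘ η) Θ where
  cont := h.contOn.comp (hf.cont.comp h.symm.contOn h.maps') (hf.bij.mapsTo.comp h.maps')
  bij := h.bijOn.comp (hf.bij.comp h.symm.bijOn)
  circle := fun z hz => by
    have h1 := h.maps' hz
    have h2 := hf.bij.mapsTo h1
    simp only [Function.comp]
    rw [h.circle hk h2, hf.circle _ h1, h.symm.circle hk hz]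
  diff := fun z hz => by
    have hz' := ball_subset_closedBall hz
    have h1 := h.symm.maps_ball hk hz
    have h2 := hf.maps_ball h1
    exact (h.diffAt hk (ball_subset_closedBall h2)).comp z
      ((hf.diff _ h1).comp z (h.symm.diffAt hk hz'))
  det := fun z hz => by
    have hz' := ball_subset_closedBall hz
    have h1 := h.symm.maps_ball hk hz
    have h1' := ball_subset_closedBall h1
    have h2 := hf.maps_ball h1
    have h2' := ball_subset_closedBall h2
    set y := η z with hy
    set x := f y with hx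
    have hfd : fderiv ℝ (ψ ∘ f ∘ η) z =
        (fderiv ℝ ψ x).comp ((fderiv ℝ f y).comp (fderiv ℝ η z)) := by
      rw [fderiv_comp z (h.diffAt hk h2') ((hf.diff _ h1).comp z (h.symm.diffAt hk hz')),
        fderiv_comp z (hf.diff _ h1) (h.symm.diffAt hk hz')]
      rfl
    have hd : (fderiv ℝ (ψ ∘ f ∘ η) z).det =
        (fderiv ℝ ψ x).det * (fderiv ℝ η z).det := by
      rw [hfd]
      have h3 : ((fderiv ℝ ψ x).comp ((fderiv ℝ f y).comp (fderiv ℝ η z))).det =
          (fderiv ℝ ψ x).det * ((fderiv ℝ f y).det * (fderiv ℝ η z).det) := by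
        simp [ContinuousLinearMap.det, LinearMap.det_comp]
      rw [h3, hf.det _ h1, one_mul]
    have hval : (ψ ∘ f ∘ η) z = ψ x := rfl
    rw [hd, hval, hJ _ (h.maps h2'), hJ z hz']
    have e1 := h.symm.det_mul hk h2'
    have e2 := h.det_mul hk hz'
    have e3 := h.det_sign hk h2' h1'
    rw [← hy] at e2
    set a := (fderiv ℝ ψ x).det
    set b := (fderiv ℝ η (ψ x)).det
    set c := (fderiv ℝ ψ y).det
    set d := (fderiv ℝ η z).det
    rcases lt_or_ge a 0 with ha | ha
    · have hc : c < 0 := by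
        by_contra hcon
        have := mul_nonpos_of_nonpos_of_nonneg ha.le (not_lt.1 hcon)
        linarith
      have hb : b < 0 := by
        by_contra hcon
        have := mul_nonpos_of_nonneg_of_nonpos (not_lt.1 hcon) ha.le
        linarith
      have hdn : d < 0 := by
        by_contra hcon
        have := mul_nonpos_of_nonpos_of_nonneg hc.le (not_lt.1 hcon)
        linarith
      rw [abs_of_neg hb, abs_of_neg hdn]
      linear_combination (-d) * e1
    · have ha' : 0 < a := by
        rcases ha.eq_or_lt with h5 | h5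
        · rw [← h5, zero_mul] at e3; exact absurd e3 (lt_irrefl _)
        · exact h5
      have hc : 0 < c := by
        by_contra hcon
        have := mul_nonpos_of_nonneg_of_nonpos ha (not_lt.1 hcon)
        linarith
      have hb : 0 < b := by
        by_contra hcon
        have := mul_nonpos_of_nonpos_of_nonneg (not_lt.1 hcon) ha
        linarith
      have hdn : 0 < d := by
        by_contra hcon
        have := mul_nonpos_of_nonneg_of_nonpos hc.le (not_lt.1 hcon)
        linarith
      rw [abs_of_pos hb, abs_of_pos hdn]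
      linear_combination d * e1
  zero := by
    have h1 : η 0 = 0 := by
      have h2 := h.inv.1 (show (0 : ℂ) ∈ closedBall (0 : ℂ) 1 by simp)
      rwa [h0] at h2
    simp only [Function.comp]
    rw [h1, hf.zero, h0]
  contΘ := hΘ.cont
  period := hΘ.period
  angle := hΘ.angle

/-- **Linearization criterion.** Let `k = ∞` or `k = ω`. An area-preserving homeomorphism `f` of
the closed disk which fixes `0` is `C^k` conjugated to the rotation by an irrational number `α` if
and only if there are `C^k` coordinates on the disk in which all points have rotation number `α`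
and some iterate of `f` is one-sided. -/
theorem criterion {k : WithTop ℕ∞} (hk : Reg k) {f : ℂ → ℂ} {α : ℝ} (hf : AreaMap f)
    (hα : Irrational α) :
    (∃ ψ η : ℂ → ℂ, DiskDiffeo k ψ η ∧
      ∀ z ∈ closedBall (0 : ℂ) 1, ψ (f z) = Complex.exp (2 * Real.pi * Complex.I * α) * ψ z) ↔
    ∃ (ψ η : ℂ → ℂ) (Θ : ℝ × ℝ → ℝ) (m : ℕ), DiskDiffeo k ψ η ∧ ψ 0 = 0 ∧
      AngleLift (ψ ∘ f ∘ η) Θ ∧ HasRotationNumber (ψ ∘ f ∘ η) Θ α ∧ 1 ≤ m ∧
      OneSided (ψ ∘ f ∘ η) Θ α m := by
  have heα : Complex.exp (2 * Real.pi * Complex.I * α) = e α := by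
    unfold e
    congr 1
    push_cast
    ring
  rw [heα]
  constructor
  · rintro ⟨ψ, η, h, hconj⟩
    have h0D : (0 : ℂ) ∈ closedBall (0 : ℂ) 1 := by simp
    have h0 : ψ 0 = 0 := by
      have h1 := hconj 0 h0D
      rw [hf.zero] at h1
      have h2 : (e α - 1) * ψ 0 = 0 := by linear_combination (-1 : ℂ) * h1
      rcases mul_eq_zero.1 h2 with h3 | h3
      · exfalso
        have h4 : e α = e 0 := by rw [e_zero]; exact sub_eq_zero.1 h3
        obtain ⟨l, hl⟩ := e_eq_e_iff.1 h4
        exact hα ⟨(l : ℚ), by rw [hl]; push_cast; ring⟩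
      · exact h3
    have hval : ∀ p ∈ strip, (ψ ∘ f ∘ η) (pol p) = pol (p.1 + α, p.2) := by
      intro p hp
      have h1 := DiskMap.pol_mem_closedBall hp
      simp only [Function.comp]
      rw [hconj _ (h.maps' h1), h.inv.2 h1]
      unfold pol
      simp only
      rw [e_add]
      ring
    have hlift : ∀ p ∈ strip, lift (ψ ∘ f ∘ η) (fun p => p.1 + α) p = (p.1 + α, p.2) := by
      intro p hp
      unfold lift
      rw [hval p hp, norm_pol' (p := (p.1 + α, p.2)) hp.1]
    have hiter : ∀ n : ℕ, ∀ p ∈ strip,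
        (lift (ψ ∘ f ∘ η) (fun p => p.1 + α))^[n] p = (p.1 + n * α, p.2) := by
      intro n
      induction n with
      | zero => intro p _; simp
      | succ n ih =>
        intro p hp
        rw [Function.iterate_succ_apply, hlift p hp, ih (p.1 + α, p.2) hp]
        push_cast
        ring_nf
    refine ⟨ψ, η, fun p => p.1 + α, 1, h, h0, ⟨by fun_prop, ?_, ?_⟩, ?_, le_rfl, ?_⟩
    · intro p _
      ring
    · intro p hp
      rw [hlift p hp, hval p hp]
    · intro p hp
      have h1 : Tendsto (fun n : ℕ => p.1 / (n : ℝ)) atTop (𝓝 0) :=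
        tendsto_const_div_atTop_nhds_zero_nat _
      have h2 := h1.add (tendsto_const_nhds (x := α))
      rw [zero_add] at h2
      refine h2.congr' ?_
      filter_upwards [eventually_gt_atTop 0] with n hn
      have hn' : (n : ℝ) ≠ 0 := by exact_mod_cast hn.ne'
      rw [hiter n p hp]
      field_simp
    · left
      intro p hp
      have hp0 : (p.1, (0 : ℝ)) ∈ strip := ⟨le_refl _, zero_le_one⟩
      rw [hiter 1 p hp, hiter 1 _ hp0]
  · rintro ⟨ψ, η, Θ, m, h, h0, hΘ, hrot, hm, hs⟩
    obtain ⟨J, R, hR, hJ, hpos, hJη, hJk⟩ := h.exists_density hk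
    have hd := densMap_of hk hf h h0 hΘ hJη
    obtain ⟨H, h1, h2, h3, h4, han, h5⟩ := hd.linearize hJ hpos hrot hα hm hs
    have h1' : ∀ z ∈ ball (0 : ℂ) R, ContDiffAt ℝ k H z := by
      rcases hk with rfl | rfl
      · exact fun z _ => h1.contDiffAt
      · exact fun z hz => (han R (fun w hw => (hJk w hw).analyticAt) z hz).contDiffAt
    obtain ⟨K, hK⟩ := DiskDiffeo.of_global hR h1 h1' h2 h3 h4
    refine ⟨fun z => H (ψ z), fun z => η (K z), hK.comp h, fun z hz => ?_⟩
    have h6 := h5 (ψ z) (h.maps hz)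
    simp only [Function.comp] at h6
    rw [h.inv.1 hz] at h6
    exact h6

end

end MPc541f6
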