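import Pool.Agent.Lib.MP_c541f6_an.GMain
import Pool.Agent.Lib.MP_c541f6_an.Final

/-!
# Iterates and the mirror image of a map preserving a density
-/

open Complex Set Filter Topology Metric MeasureTheory

namespace MPc541f6

noncomputable section

open DensMap

variable {J : ℂ → ℝ} {f : ℂ → ℂ} {Θ : ℝ × ℝ → ℝ} {α : ℝ}

lemma DensMap.lift_iterΘ (h : DensMap J f Θ) (m : ℕ) {p : ℝ × ℝ} (hp : p ∈ strip) :
    lift (f^[m]) (DiskMap.iterΘ f Θ m) p = (lift f Θ)^[m] p := by
  unfold lift DiskMap.iterΘ
  have h1 : ‖f^[m] (pol p)‖ = ((lift f Θ)^[m] p).2 := by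
    rw [← h.pol_iter hp, norm_pol' (h.iter_mem hp m).1]
  rw [h1]
  rfl

lemma DensMap.iter_diff (h : DensMap J f Θ) (m : ℕ) : ∀ z ∈ ball (0 : ℂ) 1,
    DifferentiableAt ℝ (f^[m]) z ∧ J (f^[m] z) * (fderiv ℝ (f^[m]) z).det = J z := by
  induction m with
  | zero =>
    intro z _
    refine ⟨differentiableAt_id, ?_⟩
    have : fderiv ℝ (f^[0]) z = ContinuousLinearMap.id ℝ ℂ := fderiv_id
    rw [this]
    simp [ContinuousLinearMap.det]
  | succ m ih =>
    intro z hz
    have hz' : f z ∈ ball (0 : ℂ) 1 := h.ball_bij.mapsTo hz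
    obtain ⟨h1, h2⟩ := ih (f z) hz'
    have h3 := h.diff z hz
    have h4 : f^[m + 1] = f^[m] ∘ f := rfl
    rw [h4]
    refine ⟨h1.comp z h3, ?_⟩
    rw [fderiv_comp z h1 h3]
    have h5 : ((fderiv ℝ (f^[m]) (f z)).comp (fderiv ℝ f z)).det =
        (fderiv ℝ (f^[m]) (f z)).det * (fderiv ℝ f z).det := by
      simp [ContinuousLinearMap.det, LinearMap.det_comp]
    rw [h5]
    have h6 := h.det z hz
    have h7 : (f^[m] ∘ f) z = f^[m] (f z) := rfl
    rw [h7]
    linear_combination (fderiv ℝ f z).det * h2 + h6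

lemma DensMap.iter_circle (h : DensMap J f Θ) (m : ℕ) : ∀ z ∈ closedBall (0 : ℂ) 1,
    (‖f^[m] z‖ = 1 ↔ ‖z‖ = 1) := by
  induction m with
  | zero => intro z _; rfl
  | succ m ih =>
    intro z hz
    rw [Function.iterate_succ_apply, ih (f z) (h.bij.mapsTo hz), h.circle z hz]

theorem DensMap.iterate (h : DensMap J f Θ) (m : ℕ) :
    DensMap J (f^[m]) (DiskMap.iterΘ f Θ m) where
  cont := h.iter_cont m
  bij := h.iter_bij m
  circle := h.iter_circle m
  diff := fun z hz => (h.iter_diff m z hz).1
  det := fun z hz => (h.iter_diff m z hz).2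
  zero := h.iter_fix m
  contΘ := (continuous_fst.comp_continuousOn (h.contOn_iter m))
  period := fun p hp => by
    have := h.iter_add_int hp 1 m
    unfold DiskMap.iterΘ
    simp only [Int.cast_one] at this
    rw [this]
  angle := fun p hp => by
    rw [h.lift_iterΘ m hp, h.pol_iter hp]

theorem DensMap.iterate_rot (h : DensMap J f Θ) (hrot : HasRotationNumber f Θ α) {m : ℕ}
    (hm : 1 ≤ m) : HasRotationNumber (f^[m]) (DiskMap.iterΘ f Θ m) (m * α) := by
  intro p hp
  have h1 : ∀ n : ℕ, (lift (f^[m]) (DiskMap.iterΘ f Θ m))^[n] p = (lift f Θ)^[m * n] p := by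
    intro n
    induction n with
    | zero => rfl
    | succ n ih =>
      rw [Function.iterate_succ_apply', ih, h.lift_iterΘ m (h.iter_mem hp _),
        ← Function.iterate_add_apply]
      congr 1
      ring
  have h2 : Tendsto (fun n : ℕ => m * n) atTop atTop :=
    tendsto_id.const_mul_atTop' (by omega : 0 < m)
  have h3 := ((hrot p hp).comp h2).const_mul (m : ℝ)
  refine h3.congr' ?_
  filter_upwards [eventually_gt_atTop 0] with n hn
  have hn' : (0 : ℝ) < n := by exact_mod_cast hn
  have hm' : (0 : ℝ) < m := by exact_mod_cast hm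
  rw [h1]
  simp only [Function.comp]
  push_cast
  field_simp

/-- The mirror image preserves the mirror image of the density. -/
theorem DensMap.mir (h : DensMap J f Θ) :
    DensMap (fun z => J ((starRingEnd ℂ) z)) (MPc541f6.mir f) (mirΘ Θ) where
  cont := by
    have h1 : ContinuousOn (fun z => f ((starRingEnd ℂ) z)) (closedBall 0 1) :=
      h.cont.comp Complex.continuous_conj.continuousOn fun z hz => conj_mem_closedBall hz
    exact Complex.continuous_conj.comp_continuousOn h1
  bij := by
    refine ⟨fun z hz => conj_mem_closedBall (h.bij.mapsTo (conj_mem_closedBall hz)),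
      fun z hz w hw hzw => ?_, fun z hz => ?_⟩
    · have h1 : f ((starRingEnd ℂ) z) = f ((starRingEnd ℂ) w) :=
        (starRingEnd ℂ).injective hzw
      exact (starRingEnd ℂ).injective
        (h.bij.injOn (conj_mem_closedBall hz) (conj_mem_closedBall hw) h1)
    · obtain ⟨w, hw, hw2⟩ := h.bij.surjOn (conj_mem_closedBall hz)
      refine ⟨(starRingEnd ℂ) w, conj_mem_closedBall hw, ?_⟩
      unfold MPc541f6.mir
      rw [Complex.conj_conj, hw2, Complex.conj_conj]
  circle := fun z hz => by
    unfold MPc541f6.mir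
    rw [Complex.norm_conj, h.circle _ (conj_mem_closedBall hz), Complex.norm_conj]
  diff := fun z hz => by
    have h1 := h.diff _ (conj_mem_ball hz)
    have h2 : DifferentiableAt ℝ (fun z => Complex.conjCLE (f (Complex.conjCLE z))) z := by
      refine Complex.conjCLE.differentiableAt.comp z ?_
      exact DifferentiableAt.comp z h1 Complex.conjCLE.differentiableAt
    exact h2
  det := fun z hz => by
    have h1 := (h.diff _ (conj_mem_ball hz)).hasFDerivAt
    have hd := h.det _ (conj_mem_ball hz)
    set M := fderiv ℝ f ((starRingEnd ℂ) z) with hM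
    set C : ℂ →L[ℝ] ℂ := (Complex.conjCLE : ℂ →L[ℝ] ℂ) with hC
    have hCd : ∀ w : ℂ, HasFDerivAt (fun z => C z) C w := fun w => C.hasFDerivAt
    have h2 : HasFDerivAt (fun z => C (f (C z))) (C.comp (M.comp C)) z := by
      have h3 : HasFDerivAt (fun z => f (C z)) (M.comp C) z :=
        HasFDerivAt.comp z (g := f) (f := fun z => C z) h1 (hCd z)
      exact HasFDerivAt.comp z (g := fun z => C z) (f := fun z => f (C z)) (hCd _) h3
    have h4 : fderiv ℝ (MPc541f6.mir f) z = C.comp (M.comp C) := h2.fderiv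
    rw [h4]
    have h5 : (C.comp (M.comp C)).det = C.det * (M.det * C.det) := by
      simp [ContinuousLinearMap.det, LinearMap.det_comp]
    have h6 : C.det = -1 := by
      rw [det_eq]
      simp [hC]
    rw [h5, h6]
    unfold MPc541f6.mir
    rw [Complex.conj_conj]
    linarith
  zero := by
    unfold MPc541f6.mir
    simp [h.zero]
  contΘ := by
    have h1 : ContinuousOn (fun p : ℝ × ℝ => Θ (-p.1, p.2)) strip :=
      h.contΘ.comp (by fun_prop) fun p hp => neg_mem_strip hp
    exact h1.neg
  period := fun p hp => by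
    unfold mirΘ
    simp only
    have h1 := h.Θ_add_int (t := -p.1) (r := p.2) (neg_mem_strip hp) (-1)
    push_cast at h1
    have h2 : -(p.1 + 1) = -p.1 + -1 := by ring
    rw [h2, h1]
    ring
  angle := fun p hp => by
    rw [lift_mir]
    have h1 := h.angle _ (neg_mem_strip hp)
    unfold MPc541f6.mir
    rw [conj_pol, h1, conj_pol]

end

end MPc541f6
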