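import Pool.Agent.Lib.MP_c541f6_an.HLin

/-!
# Linear conjugation of the linear part to the rotation
-/

open Complex Set Filter Topology Metric MeasureTheory

namespace MPc541f6

noncomputable section

/-- A continuous integer-valued function on a preconnected set is constant. -/
lemma const_of_int {X : Type*} [TopologicalSpace X] {s : Set X} (hs : IsPreconnected s)
    {φ : X → ℝ} (hφ : ContinuousOn φ s) (hint : ∀ x ∈ s, ∃ k : ℤ, φ x = k) {x y : X}
    (hx : x ∈ s) (hy : y ∈ s) : φ x = φ y := by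
  have key : ∀ x ∈ s, ∀ y ∈ s, ¬ φ x < φ y := by
    intro x hx y hy hlt
    obtain ⟨a, ha⟩ := hint x hx
    obtain ⟨b, hb⟩ := hint y hy
    rw [ha, hb] at hlt
    have hab : a < b := by exact_mod_cast hlt
    have hab' : (a : ℝ) + 1 ≤ b := by exact_mod_cast hab
    have h1 : (a : ℝ) + 1 / 2 ∈ Icc (φ x) (φ y) := by
      rw [ha, hb]; constructor <;> linarith
    obtain ⟨z, hz, hz2⟩ := hs.intermediate_value hx hy hφ h1
    obtain ⟨c, hc⟩ := hint z hz
    rw [hc] at hz2
    have h2 : ((2 * c : ℤ) : ℝ) = ((2 * a + 1 : ℤ) : ℝ) := by push_cast; linarith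
    have h3 : 2 * c = 2 * a + 1 := by exact_mod_cast h2
    omega
  rcases lt_trichotomy (φ x) (φ y) with h | h | h
  · exact absurd h (key x hx y hy)
  · exact h
  · exact absurd h (key y hy x hx)

lemma eq_norm_smul_e (v : ℂ) : v = ‖v‖ • e (polar v).1 := by
  have h1 := pol_polar v
  rw [Complex.real_smul]
  exact h1.symm

/-- The trace condition. -/
theorem trace_sq_lt (A : ℂ →L[ℝ] ℂ) (hA : A.det = 1) (G : ℝ → ℝ)
    (hG1 : ∀ t, G (t + 1) = G t + 1) (hAG : ∀ t, A (e t) = (‖A (e t)‖ : ℂ) * e (G t))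
    (α : ℝ) (hα : Irrational α) (hrot : ∀ t, Tendsto (fun n : ℕ => G^[n] t / n) atTop (𝓝 α)) :
    ((A 1).re + (A I).im) ^ 2 < 4 := by
  by_contra hcon
  rw [not_lt] at hcon
  set a := (A 1).re with ha
  set c := (A 1).im with hc
  set b := (A I).re with hb
  set d := (A I).im with hd
  have hdet : a * d - b * c = 1 := by rw [← hA, det_eq]
  set s := Real.sqrt ((a + d) ^ 2 - 4) with hs
  have hs2 : s ^ 2 = (a + d) ^ 2 - 4 := Real.sq_sqrt (by linarith)
  set μ := ((a + d) + s) / 2 with hμ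
  have hμ2 : μ ^ 2 - (a + d) * μ + 1 = 0 := by
    rw [hμ]; nlinarith
  set M : ℂ →L[ℝ] ℂ := A - μ • ContinuousLinearMap.id ℝ ℂ with hM
  have hMapp : ∀ v, M v = A v - μ • v := fun v => by simp [hM]
  have hMdet : M.det = 0 := by
    rw [det_eq, hMapp, hMapp]
    simp
    nlinarith
  have hMdet' : LinearMap.det (M : ℂ →ₗ[ℝ] ℂ) = 0 := hMdet
  obtain ⟨v, hv, hv0⟩ := (Submodule.ne_bot_iff _).1 (LinearMap.bot_lt_ker_of_det_eq_zero hMdet').ne'
  have hv1 : M v = 0 := hv
  set τ := (polar v).1 with hτ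
  have hvn : 0 < ‖v‖ := norm_pos_iff.2 hv0
  have hMe : M (e τ) = 0 := by
    have h1 := eq_norm_smul_e v
    rw [h1, map_smul] at hv1
    exact (smul_eq_zero.1 hv1).resolve_left hvn.ne'
  have hAe : A (e τ) = μ • e τ := by
    rw [hMapp] at hMe
    exact sub_eq_zero.1 hMe
  have hμ0 : μ ≠ 0 := by
    intro h0
    rw [h0] at hμ2
    norm_num at hμ2
  have hn : ‖A (e τ)‖ = |μ| := by rw [hAe, norm_smul, norm_e, mul_one, Real.norm_eq_abs]
  have hn0 : 0 < |μ| := abs_pos.2 hμ0
  have h2 : A (A (e τ)) = (μ ^ 2) • e τ := by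
    rw [hAe, map_smul, hAe, smul_smul, pow_two]
  have h3 : A (e τ) = |μ| • e (G τ) := by
    rw [Complex.real_smul, ← hn]; exact hAG τ
  have h5 : |μ| • A (e (G τ)) = (μ ^ 2) • e τ := by rw [← h2, h3, map_smul]
  have h6 : A (e (G τ)) = |μ| • e τ := by
    have h7 : |μ| • A (e (G τ)) = |μ| • (|μ| • e τ) := by
      rw [h5, smul_smul, ← pow_two, sq_abs]
    exact smul_right_injective ℂ hn0.ne' h7
  have h7 : e (G (G τ)) = e τ := by
    have h8 := hAG (G τ)
    have h9 : ‖A (e (G τ))‖ = |μ| := by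
      rw [h6, norm_smul, norm_e, mul_one, Real.norm_eq_abs, abs_abs]
    rw [h9, h6, Complex.real_smul] at h8
    exact (mul_left_cancel₀ (by exact_mod_cast hn0.ne') h8).symm
  obtain ⟨k, hk⟩ := e_eq_e_iff.1 h7
  have hint := deg_one_int hG1
  have hit : ∀ n : ℕ, G^[2 * n] τ = τ + n * k := by
    intro n
    induction n with
    | zero => simp
    | succ n ih =>
      have h8 : 2 * (n + 1) = (2 * n + 1) + 1 := by ring
      rw [h8, Function.iterate_succ_apply', Function.iterate_succ_apply', ih]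
      have h9 := hint (n * k) τ
      push_cast at h9
      rw [h9]
      have h10 := hint (n * k) (G τ)
      push_cast at h10
      rw [h10, hk]
      push_cast
      ring
  have h8 : Tendsto (fun n : ℕ => 2 * n) atTop atTop :=
    tendsto_id.const_mul_atTop' (by norm_num)
  have h9 := (hrot τ).comp h8
  have h10 : (fun n : ℕ => G^[n] τ / n) ∘ (fun n : ℕ => 2 * n) =
      fun n : ℕ => ((τ + n * k) / 2) / n := by
    funext n
    simp only [Function.comp]
    rw [hit n]
    push_cast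
    field_simp
  rw [h10] at h9
  have h11 : α = (k : ℝ) / 2 := by
    refine rot_unique (a := τ / 2) (B := 0) h9 fun n => ?_
    have : (τ + (n : ℝ) * k) / 2 - (τ / 2 + n * ((k : ℝ) / 2)) = 0 := by ring
    rw [this]; simp
  exact hα ⟨(k : ℚ) / 2, by rw [h11]; push_cast; rfl⟩

/-- The linear part is linearly conjugated to the rotation. -/
theorem exists_linear_conj (A : ℂ →L[ℝ] ℂ) (hA : A.det = 1) (G : ℝ → ℝ) (hG : Continuous G)
    (hG1 : ∀ t, G (t + 1) = G t + 1) (hAG : ∀ t, A (e t) = (‖A (e t)‖ : ℂ) * e (G t))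
    (α : ℝ) (hα : Irrational α) (hrot : ∀ t, Tendsto (fun n : ℕ => G^[n] t / n) atTop (𝓝 α)) :
    ∃ (B : ℂ →L[ℝ] ℂ) (L : ℝ → ℝ), (∀ t, B (e t) ≠ 0) ∧
      (∀ t, HasDerivAt L (B.det / ‖B (e t)‖ ^ 2) t) ∧ 0 < B.det ∧
      (∀ t, B (e t) = ‖B (e t)‖ • e (L t)) ∧ (∀ t, L (t + 1) = L t + 1) ∧
      (∀ t, L (G t) = L t + α) ∧ (∀ t, ‖A (e t)‖ * ‖B (e (G t))‖ = ‖B (e t)‖) := by
  have hpi := Real.pi_pos
  have htr := trace_sq_lt A hA G hG1 hAG α hα hrot
  set a := (A 1).re with ha
  set c := (A 1).im with hc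
  set b := (A I).re with hb
  set d := (A I).im with hd
  have hdet : a * d - b * c = 1 := by rw [← hA, det_eq]
  have hb0 : b ≠ 0 := by
    intro h0
    rw [h0] at hdet
    nlinarith [sq_nonneg (a - d)]
  set x := (a + d) / 2 with hx
  have hx2 : x ^ 2 < 1 := by rw [hx]; nlinarith
  have hx1 : -1 ≤ x := by nlinarith
  have hx1' : x ≤ 1 := by nlinarith
  obtain ⟨σ, hcos, hsin⟩ : ∃ σ : ℝ, Real.cos (2 * Real.pi * σ) = x ∧
      b * Real.sin (2 * Real.pi * σ) < 0 := by
    have h1 : 0 < Real.sin (Real.arccos x) := by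
      rw [Real.sin_arccos]
      exact Real.sqrt_pos.2 (by linarith)
    have h2 : 2 * Real.pi * (Real.arccos x / (2 * Real.pi)) = Real.arccos x := by field_simp
    have h3 : 2 * Real.pi * (-(Real.arccos x / (2 * Real.pi))) = -Real.arccos x := by
      field_simp
    rcases lt_or_gt_of_ne hb0 with hbn | hbp
    · refine ⟨Real.arccos x / (2 * Real.pi), ?_, ?_⟩
      · rw [h2, Real.cos_arccos hx1 hx1']
      · rw [h2]; nlinarith
    · refine ⟨-(Real.arccos x / (2 * Real.pi)), ?_, ?_⟩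
      · rw [h3, Real.cos_neg, Real.cos_arccos hx1 hx1']
      · rw [h3, Real.sin_neg]; nlinarith
  have heσ : e σ = (x : ℂ) + (Real.sin (2 * Real.pi * σ) : ℂ) * I := by
    unfold e
    rw [Complex.exp_mul_I, ← hcos, Complex.ofReal_cos, Complex.ofReal_sin]
  have heσ' : e (-σ) = (x : ℂ) - (Real.sin (2 * Real.pi * σ) : ℂ) * I := by
    rw [e_neg, heσ, map_add, map_mul, Complex.conj_ofReal, Complex.conj_ofReal, Complex.conj_I]
    ring
  set y := Real.sin (2 * Real.pi * σ) with hy
  have hsum : (a : ℂ) + d = e σ + e (-σ) := by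
    rw [heσ, heσ', hx]
    push_cast
    ring
  have hprod : e σ * e (-σ) = 1 := by rw [← e_add, add_neg_cancel, e_zero]
  set B : ℂ →L[ℝ] ℂ := (Complex.ofRealCLM.comp (Complex.reCLM.comp A)) -
    (e (-σ)) • (Complex.ofRealCLM.comp Complex.reCLM) with hB
  have hBapp : ∀ v, B v = ((A v).re : ℂ) - e (-σ) * (v.re : ℂ) := fun v => by simp [hB]
  have hBdet : B.det = -(b * y) := by
    rw [det_eq, hBapp, hBapp, heσ']
    simp
    exact Or.inl hb.symm
  have hBpos : 0 < B.det := by rw [hBdet]; linarith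
  have hCH : ∀ v, (A (A v)).re = (a + d) * (A v).re - v.re := by
    intro v
    rw [clm_apply A (A v), clm_apply A v]
    simp
    rw [← ha, ← hb, ← hc, ← hd]
    have h1 : b * c = a * d - 1 := by linarith
    linear_combination v.re * h1
  have hBA : ∀ v, B (A v) = e σ * B v := by
    intro v
    rw [hBapp, hBapp, hCH]
    have h1 : (((a + d) * (A v).re - v.re : ℝ) : ℂ) =
        ((a : ℂ) + d) * ((A v).re : ℂ) - (v.re : ℂ) := by push_cast; ring
    rw [h1, hsum]
    linear_combination (v.re : ℂ) * hprod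
  obtain ⟨hne, L, hdL, hlift, hL1⟩ := exists_lift B hBpos
  have hLc : Continuous L := continuous_iff_continuousAt.2 fun t => (hdL t).continuousAt
  have hpos : ∀ t, 0 < ‖B (e t)‖ := fun t => norm_pos_iff.2 (hne t)
  have hLmono : StrictMono L := by
    refine strictMono_of_deriv_pos fun t => ?_
    rw [(hdL t).deriv]
    have := hpos t
    positivity
  have hrel : ∀ t, ‖A (e t)‖ • B (e (G t)) = e σ * B (e t) := by
    intro t
    rw [← hBA, ← map_smul]
    congr 1
    rw [Complex.real_smul]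
    exact (hAG t).symm
  have hnorm : ∀ t, ‖A (e t)‖ * ‖B (e (G t))‖ = ‖B (e t)‖ := by
    intro t
    have h1 := congrArg norm (hrel t)
    rwa [norm_smul, norm_mul, norm_e, one_mul, norm_norm] at h1
  have hek : ∀ t, e (L (G t)) = e (L t + σ) := by
    intro t
    have h1 : ‖B (e t)‖ • e (L (G t)) = ‖B (e t)‖ • e (L t + σ) := by
      have h2 := hrel t
      rw [hlift (G t), hlift t, smul_smul] at h2
      rw [hnorm] at h2
      rw [h2, e_add, Complex.real_smul, Complex.real_smul]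
      ring
    exact smul_right_injective ℂ (hpos t).ne' h1
  have hconst : ∀ t, L (G t) - L t - σ = L (G 0) - L 0 - σ := by
    intro t
    refine const_of_int (s := univ) isPreconnected_univ
      (φ := fun t => L (G t) - L t - σ) ?_ ?_ (mem_univ t) (mem_univ 0)
    · have : Continuous fun t => L (G t) - L t - σ := by fun_prop
      exact this.continuousOn
    · intro t _
      obtain ⟨k, hk⟩ := e_eq_e_iff.1 (hek t)
      exact ⟨k, by rw [hk]; ring⟩
  have hiter : ∀ n : ℕ, L (G^[n] 0) = L 0 + n * (L (G 0) - L 0) := by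
    intro n
    induction n with
    | zero => simp
    | succ n ih =>
      rw [Function.iterate_succ_apply']
      have := hconst (G^[n] 0)
      push_cast
      linarith
  have hval : α = L (G 0) - L 0 := by
    refine rot_unique (a := L 0) (B := |L 0| + 1) (hrot 0) fun n => ?_
    have h1 := deg_one_bound hLmono.monotone hL1 (G^[n] 0)
    rw [hiter n] at h1
    rwa [abs_sub_comm] at h1
  exact ⟨B, L, hne, hdL, hBpos, hlift, hL1, fun t => by rw [hval]; linarith [hconst t], hnorm⟩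

end

end MPc541f6
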