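import Pool.Agent.Lib.MP_c541f6_an.OJay

/-!
# Smooth linearization, one sign
-/

open Complex Set Filter Topology Metric MeasureTheory

namespace MPc541f6

noncomputable section

open DensMap

variable {J : ℂ → ℝ} {f : ℂ → ℂ} {Θ : ℝ × ℝ → ℝ} {α : ℝ}

/-- The angle at radius `0` is the angle of the linear part. -/
lemma DensMap.angle_lin (h : DensMap J f Θ) (t : ℝ) :
    fderiv ℝ f 0 (e t) = (‖fderiv ℝ f 0 (e t)‖ : ℂ) * e (Θ (t, 0)) := by
  have h0 : (0 : ℂ) ∈ ball (0 : ℂ) 1 := by simp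
  have hd : HasDerivAt (fun ρ : ℝ => f (pol (t, ρ))) (fderiv ℝ f 0 (e t)) 0 := by
    have h1 := (h.diff 0 h0).hasFDerivAt
    have h2 : HasFDerivAt f (fderiv ℝ f 0) (pol (t, 0)) := by rw [pol_zero]; exact h1
    exact h2.comp_hasDerivAt 0 (hasDerivAt_ray t 0)
  have h3 : Tendsto (fun ρ : ℝ => ρ⁻¹ • f (pol (t, ρ))) (𝓝[>] 0) (𝓝 (fderiv ℝ f 0 (e t))) := by
    have h4 := hd.tendsto_slope_zero
    have h5 := h4.mono_left (nhdsWithin_mono 0 (fun x hx => ne_of_gt hx : Ioi (0:ℝ) ⊆ {0}ᶜ))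
    refine h5.congr fun ρ => ?_
    rw [zero_add, pol_zero, h.zero, sub_zero]
  have h6 : Tendsto (fun ρ : ℝ => (‖ρ⁻¹ • f (pol (t, ρ))‖ : ℂ) * e (Θ (t, ρ))) (𝓝[>] 0)
      (𝓝 ((‖fderiv ℝ f 0 (e t)‖ : ℂ) * e (Θ (t, 0)))) := by
    refine Tendsto.mul ?_ ?_
    · exact (Complex.continuous_ofReal.tendsto _).comp h3.norm
    · refine (continuous_e.tendsto _).comp ?_
      have h7 : ContinuousWithinAt Θ strip (t, 0) := h.contΘ (t, 0) ⟨le_refl _, zero_le_one⟩
      have h8 : Tendsto (fun ρ : ℝ => (t, ρ)) (𝓝[>] 0) (𝓝[strip] (t, 0)) := by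
        refine tendsto_nhdsWithin_iff.2 ⟨?_, ?_⟩
        · have : Continuous fun ρ : ℝ => (t, ρ) := by fun_prop
          exact (this.tendsto 0).mono_left nhdsWithin_le_nhds
        · filter_upwards [Ioo_mem_nhdsGT (zero_lt_one' ℝ)] with ρ hρ
          exact ⟨hρ.1.le, hρ.2.le⟩
      exact h7.tendsto.comp h8
  refine tendsto_nhds_unique h3 (h6.congr' ?_)
  filter_upwards [Ioo_mem_nhdsGT (zero_lt_one' ℝ)] with ρ hρ
  have h9 := h.angle (t, ρ) ⟨hρ.1.le, hρ.2.le⟩
  have h10 : pol (lift f Θ (t, ρ)) = (‖f (pol (t, ρ))‖ : ℂ) * e (Θ (t, ρ)) := rfl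
  rw [h10] at h9
  have h11 : (‖ρ⁻¹ • f (pol (t, ρ))‖ : ℂ) = (ρ⁻¹ : ℂ) * (‖f (pol (t, ρ))‖ : ℂ) := by
    rw [norm_smul, Real.norm_eq_abs, abs_of_pos (inv_pos.2 hρ.1)]
    push_cast
    ring
  rw [h11, mul_assoc, ← h9, Complex.real_smul]
  push_cast
  ring

/-- The lift at radius `0`. -/
lemma DensMap.iter_zero (h : DensMap J f Θ) (t : ℝ) (n : ℕ) :
    (lift f Θ)^[n] (t, 0) = ((fun s => Θ (s, 0))^[n] t, 0) := by
  induction n with
  | zero => rfl
  | succ n ih =>
    rw [Function.iterate_succ_apply', Function.iterate_succ_apply', ih]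
    unfold lift
    rw [pol_zero, h.zero, norm_zero]

/-- A continuous function invariant under a map conjugated to an irrational translation is
constant. -/
lemma const_of_conj {L G q : ℝ → ℝ} (hα : Irrational α) (hLc : Continuous L)
    (hLm : StrictMono L) (hL1 : ∀ t, L (t + 1) = L t + 1) (hLG : ∀ t, L (G t) = L t + α)
    (hq : Continuous q) (hq1 : ∀ t, q (t + 1) = q t) (hqG : ∀ t, q (G t) = q t) (t : ℝ) :
    q t = q 0 := by
  have hb := deg_one_bound hLm.monotone hL1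
  have hsurj : Function.Surjective L := by
    refine hLc.surjective ?_ ?_
    · refine tendsto_atTop_mono (fun t => ?_) (tendsto_atTop_add_const_right atTop
        (-(|L 0| + 1)) tendsto_id)
      have := (abs_le.1 (hb t)).1
      simp only [id]
      linarith
    · refine tendsto_atBot_mono (fun t => ?_) (tendsto_atBot_add_const_right atBot
        (|L 0| + 1) tendsto_id)
      have := (abs_le.1 (hb t)).2
      simp only [id]
      linarith
  let E : ℝ ≃o ℝ := hLm.orderIsoOfSurjective L hsurj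
  have hE : ∀ t, E t = L t := fun t => rfl
  have hEc : Continuous E.symm := E.symm.continuous
  have h1 : ∀ s, (fun s => q (E.symm s)) (s + 1) = (fun s => q (E.symm s)) s := by
    intro s
    simp only
    have h2 : E.symm (s + 1) = E.symm s + 1 := by
      rw [OrderIso.symm_apply_eq, hE, hL1, ← hE, OrderIso.apply_symm_apply]
    rw [h2, hq1]
  have h2 : ∀ s, (fun s => q (E.symm s)) (s + α) = (fun s => q (E.symm s)) s := by
    intro s
    simp only
    have h2 : E.symm (s + α) = G (E.symm s) := by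
      rw [OrderIso.symm_apply_eq, hE, hLG, ← hE, OrderIso.apply_symm_apply]
    rw [h2, hqG]
  have h3 := const_of_periods (q := fun s => q (E.symm s)) (hq.comp hEc) h1 hα h2
  have h4 : ∀ t, q t = q (E.symm 0) := by
    intro t
    have h5 := h3 (L t)
    rw [← hE, OrderIso.symm_apply_apply] at h5
    exact h5
  rw [h4 t, h4 0]

/-- The linear part at `0` and its linear conjugation to the rotation. -/
theorem DensMap.lin (h : DensMap J f Θ) (hpos : ∀ z, 0 < J z)
    (hrot : HasRotationNumber f Θ α) (hα : Irrational α) :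
    ∃ (B : ℂ →L[ℝ] ℂ) (L a : ℝ → ℝ), (∀ t, 0 < a t) ∧
      (∀ t, HasDerivAt (fun t => Θ (t, 0)) (1 / a t ^ 2) t) ∧ (∀ t, B (e t) ≠ 0) ∧
      Continuous L ∧ StrictMono L ∧ (∀ t, B (e t) = ‖B (e t)‖ • e (L t)) ∧
      (∀ t, L (t + 1) = L t + 1) ∧ (∀ t, L (Θ (t, 0)) = L t + α) ∧
      (∀ t, a t * ‖B (e (Θ (t, 0)))‖ = ‖B (e t)‖) := by
  have h0s : ∀ t : ℝ, (t, (0 : ℝ)) ∈ strip := fun t => ⟨le_refl _, zero_le_one⟩
  have h0b : (0 : ℂ) ∈ ball (0 : ℂ) 1 := by simp
  set A := fderiv ℝ f 0 with hA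
  have hAdet : A.det = 1 := by
    have h1 := h.det 0 h0b
    rw [h.zero] at h1
    have h2 : J 0 * (A.det - 1) = 0 := by rw [← hA] at h1; linarith
    rcases mul_eq_zero.1 h2 with h3 | h3
    · exact absurd h3 (hpos 0).ne'
    · linarith
  have hGc : Continuous fun t => Θ (t, 0) := by
    rw [← continuousOn_univ]
    exact h.contΘ.comp (by fun_prop) fun t _ => h0s t
  have hG1 : ∀ t, Θ (t + 1, 0) = Θ (t, 0) + 1 := fun t => h.period (t, 0) (h0s t)
  have hAG : ∀ t, A (e t) = (‖A (e t)‖ : ℂ) * e (Θ (t, 0)) := fun t => h.angle_lin t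
  have hrotG : ∀ t, Tendsto (fun n : ℕ => (fun t => Θ (t, 0))^[n] t / n) atTop (𝓝 α) := by
    intro t
    have h1 := hrot (t, 0) (h0s t)
    simpa only [h.iter_zero] using h1
  obtain ⟨hdG, hAne, -⟩ := exists_conj A hAdet (fun t => Θ (t, 0)) hGc hG1 hAG α hα hrotG
  obtain ⟨B, L, hBne, hdL, hBdet, hlift, hL1, hLG, hnorm⟩ :=
    exists_linear_conj A hAdet (fun t => Θ (t, 0)) hGc hG1 hAG α hα hrotG
  have hBpos : ∀ t, 0 < ‖B (e t)‖ := fun t => norm_pos_iff.2 (hBne t)
  have hLm : StrictMono L := by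
    refine strictMono_of_deriv_pos fun t => ?_
    rw [(hdL t).deriv]
    have := hBpos t
    positivity
  exact ⟨B, L, fun t => ‖A (e t)‖, fun t => norm_pos_iff.2 (hAne t), hdG, hBne,
    continuous_iff_continuousAt.2 fun t => (hdL t).continuousAt, hLm, hlift, hL1, hLG, hnorm⟩

/-- **Smooth linearization.** If `f` preserves the smooth positive density `J`, has irrational
rotation number `α` and rotates every point exactly as much as its linear part at `0` does, then
it is conjugated to the rotation by a smooth diffeomorphism of the closed disk, which is analytic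
where `J` is. -/
theorem DensMap.linearize_eq (h : DensMap J f Θ) (hJ : ContDiff ℝ smo J) (hpos : ∀ z, 0 < J z)
    (hrot : HasRotationNumber f Θ α) (hα : Irrational α)
    (heq : ∀ p ∈ strip, Θ p = Θ (p.1, 0)) :
    ∃ (H : ℂ → ℂ) (L : ℝ → ℝ), ContDiff ℝ smo H ∧ BijOn H (closedBall 0 1) (closedBall 0 1) ∧
      Function.Injective H ∧ (∀ z, Function.Injective (fderiv ℝ H z)) ∧ H 0 = 0 ∧
      Continuous L ∧ StrictMono L ∧ (∀ t, L (t + 1) = L t + 1) ∧
      (∀ t r : ℝ, 0 ≤ r → H (r • e t) = ‖H (r • e t)‖ • e (L t)) ∧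
      (∀ R : ℝ, (∀ z ∈ ball (0 : ℂ) R, AnalyticAt ℝ J z) → ∀ z ∈ ball (0 : ℂ) R,
        AnalyticAt ℝ H z) ∧
      ∀ z ∈ closedBall (0 : ℂ) 1, H (f z) = e α * H z := by
  have hJc := hJ.continuous
  obtain ⟨B, L, a, hApos, hdG, hBne, hLc, hLm, hlift, hL1, hLG, hnorm⟩ := h.lin hpos hrot hα
  set G : ℝ → ℝ := fun t => Θ (t, 0) with hG
  have hBpos : ∀ t, 0 < ‖B (e t)‖ := fun t => norm_pos_iff.2 (hBne t)
  have hΘ : ∀ p ∈ strip, Θ p = G p.1 := heq
  -- the boundary
  have hbdG : ∀ t, jay J (e (G t)) * (1 / a t ^ 2) = jay J (e t) := by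
    intro t
    have h1 := (h.mass hJc hΘ (hdG t) zero_le_one le_rfl).2
    have h2 : ‖f (pol (t, 1))‖ = 1 :=
      (h.circle _ (DiskMap.pol_mem_closedBall (p := (t, 1)) ⟨zero_le_one, le_rfl⟩)).2
        (norm_pol' (p := (t, 1)) zero_le_one)
    rw [h2] at h1
    simpa using h1
  have hBG : ∀ t, ‖B (e (G t))‖ ^ 2 = ‖B (e t)‖ ^ 2 * (1 / a t ^ 2) := by
    intro t
    show ‖B (e (Θ (t, 0)))‖ ^ 2 = _
    rw [← hnorm t]
    have := hApos t
    field_simp
  have hjc : Continuous (jay J) := (contDiff_jay hJ).continuous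
  have hqc : ∀ t, jay J (e t) * ‖B (e t)‖ ^ 2 = jay J (e 0) * ‖B (e 0)‖ ^ 2 := by
    refine const_of_conj (q := fun t => jay J (e t) * ‖B (e t)‖ ^ 2) hα hLc hLm hL1 hLG ?_ ?_ ?_
    · have h1 := continuous_e
      have h2 := B.continuous
      fun_prop
    · intro t
      simp only [e_add_one]
    · intro t
      show jay J (e (G t)) * ‖B (e (G t))‖ ^ 2 = _
      rw [hBG]
      linear_combination (‖B (e t)‖ ^ 2) * hbdG t
  set c := jay J (e 0) * ‖B (e 0)‖ ^ 2 with hc
  have hcpos : 0 < c := by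
    have h1 := jay_pos hJc hpos (e 0)
    have h2 := hBpos 0
    positivity
  have hBinj : Function.Injective B := by
    rw [injective_iff_map_eq_zero]
    intro v hv
    have h1 := eq_norm_smul_e v
    rw [h1, map_smul] at hv
    rcases smul_eq_zero.1 hv with h2 | h2
    · exact norm_eq_zero.1 h2
    · exact absurd h2 (hBne _)
  have hval : ∀ t r : ℝ, B (hmap J c (r • e t)) = (modu J c t r * ‖B (e t)‖) • e (L t) := by
    intro t r
    rw [hmap_pol, map_smul, mul_smul, ← hlift]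
  refine ⟨fun z => B (hmap J c z), L, B.contDiff.comp (contDiff_hmap hJ hpos hcpos),
    bijOn_hmap hJ hpos hcpos hBinj hqc, hBinj.comp (hmap_injective hJc hpos hcpos), ?_, ?_,
    hLc, hLm, hL1, ?_, ?_, ?_⟩
  · intro z
    have h1 : HasFDerivAt (hmap J c) (fderiv ℝ (hmap J c) z) z :=
      ((contDiff_hmap hJ hpos hcpos).differentiable (by simp) z).hasFDerivAt
    have h2 : HasFDerivAt (fun z => B (hmap J c z)) (B.comp (fderiv ℝ (hmap J c) z)) z :=
      B.hasFDerivAt.comp z h1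
    rw [h2.fderiv]
    exact hBinj.comp (fderiv_hmap_injective hJ hpos hcpos z)
  · simp [hmap]
  · intro t r hr
    simp only
    rw [hval, norm_smul, norm_e, mul_one, Real.norm_eq_abs, abs_of_nonneg
      (mul_nonneg (modu_nonneg hJc hpos hcpos t hr) (norm_nonneg _))]
  · intro R hR z hz
    refine (B.analyticAt _).comp (analyticAt_hmap hJc hpos hcpos fun s hs => hR _ ?_)
    rw [mem_ball_zero_iff] at hz ⊢
    rw [norm_smul, Real.norm_eq_abs, abs_of_nonneg hs.1]
    nlinarith [norm_nonneg z, hs.2]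
  · intro z hz
    simp only
    set t := (polar z).1 with ht
    have hz1 : z = ‖z‖ • e t := eq_norm_smul_e z
    rw [mem_closedBall_zero_iff] at hz
    obtain ⟨h1, h2⟩ := h.mass hJc hΘ (hdG t) (norm_nonneg z) hz
    have h3 : pol (t, ‖z‖) = z := by rw [pol_eq_smul]; exact hz1.symm
    rw [h3] at h1 h2
    set R := ‖f z‖ with hR
    have h4 : modu J c (G t) R * ‖B (e (G t))‖ = modu J c t ‖z‖ * ‖B (e t)‖ := by
      have h5 : (modu J c (G t) R * ‖B (e (G t))‖) ^ 2 = (modu J c t ‖z‖ * ‖B (e t)‖) ^ 2 := by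
        rw [mul_pow, mul_pow, modu_sq hJc hpos hcpos, modu_sq hJc hpos hcpos, hBG, ← h2]
        ring
      have h6 : 0 ≤ modu J c (G t) R * ‖B (e (G t))‖ :=
        mul_nonneg (modu_nonneg hJc hpos hcpos _ (norm_nonneg _)) (norm_nonneg _)
      have h7 : 0 ≤ modu J c t ‖z‖ * ‖B (e t)‖ :=
        mul_nonneg (modu_nonneg hJc hpos hcpos _ (norm_nonneg _)) (norm_nonneg _)
      exact (pow_left_inj₀ h6 h7 (by norm_num)).1 h5
    have h8 : B (hmap J c (f z)) = (modu J c t ‖z‖ * ‖B (e t)‖) • e (L t + α) := by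
      rw [h1, hval, h4, ← hLG]
    have h9 : B (hmap J c z) = (modu J c t ‖z‖ * ‖B (e t)‖) • e (L t) := by
      nth_rewrite 1 [hz1]
      rw [hval]
    rw [h8, h9, e_add, Complex.real_smul, Complex.real_smul]
    ring

end

end MPc541f6
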