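import Pool.Agent.Lib.MP_c541f6_an.GIter

/-!
# A conjugacy of an iterate to a rotation is a conjugacy of the map to a rotation
-/

open Complex Set Filter Topology Metric MeasureTheory

namespace MPc541f6

noncomputable section

open DensMap

variable {J : ℂ → ℝ} {f : ℂ → ℂ} {Θ : ℝ × ℝ → ℝ} {α : ℝ}

lemma e_mul_mem {w : ℂ} (s : ℝ) (hw : w ∈ closedBall (0 : ℂ) 1) :
    e s * w ∈ closedBall (0 : ℂ) 1 := by
  rw [mem_closedBall_zero_iff] at hw ⊢
  rwa [norm_mul, norm_e, one_mul]

/-- A continuous strictly increasing map of `[0, 1]` with an iterate equal to the identity is the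
identity. -/
lemma id_of_iterate {ρ : ℝ → ℝ} (hρmem : ∀ r ∈ Icc (0 : ℝ) 1, ρ r ∈ Icc (0 : ℝ) 1)
    (hρmono : StrictMonoOn ρ (Icc 0 1)) {m : ℕ} (hm : 1 ≤ m)
    (hρm : ∀ r ∈ Icc (0 : ℝ) 1, ρ^[m] r = r) : ∀ r ∈ Icc (0 : ℝ) 1, ρ r = r := by
  intro r hr
  rcases lt_trichotomy (ρ r) r with h3 | h3 | h3
  · exfalso
    have h4 : ∀ n : ℕ, ρ^[n] r ∈ Icc (0 : ℝ) 1 ∧ ρ^[n + 1] r < r := by
      intro n
      induction n with
      | zero => exact ⟨hr, h3⟩
      | succ n ih =>
        have h5 : ρ^[n + 1] r ∈ Icc (0 : ℝ) 1 := by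
          rw [Function.iterate_succ_apply']; exact hρmem _ ih.1
        refine ⟨h5, ?_⟩
        rw [Function.iterate_succ_apply']
        exact (hρmono h5 hr ih.2).trans h3
    obtain ⟨k, hk⟩ : ∃ k, m = k + 1 := ⟨m - 1, by omega⟩
    have h6 := (h4 k).2
    rw [← hk, hρm r hr] at h6
    exact lt_irrefl _ h6
  · exact h3
  · exfalso
    have h4 : ∀ n : ℕ, ρ^[n] r ∈ Icc (0 : ℝ) 1 ∧ r < ρ^[n + 1] r := by
      intro n
      induction n with
      | zero => exact ⟨hr, h3⟩
      | succ n ih =>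
        have h5 : ρ^[n + 1] r ∈ Icc (0 : ℝ) 1 := by
          rw [Function.iterate_succ_apply']; exact hρmem _ ih.1
        refine ⟨h5, ?_⟩
        rw [Function.iterate_succ_apply']
        exact h3.trans (hρmono hr h5 ih.2)
    obtain ⟨k, hk⟩ : ∃ k, m = k + 1 := ⟨m - 1, by omega⟩
    have h6 := (h4 k).2
    rw [← hk, hρm r hr] at h6
    exact lt_irrefl _ h6

/-- A continuous injective self-map of the disk commuting with an irrational rotation commutes with
all rotations. -/
lemma commutes_all {F : ℂ → ℂ} (hFc : ContinuousOn F (closedBall 0 1)) {β : ℝ}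
    (hβ : Irrational β) (hcomm : ∀ w ∈ closedBall (0 : ℂ) 1, F (e β * w) = e β * F w) (s : ℝ) :
    ∀ w ∈ closedBall (0 : ℂ) 1, F (e s * w) = e s * F w := by
  let S : AddSubgroup ℝ :=
    { carrier := {s | ∀ w ∈ closedBall (0 : ℂ) 1, F (e s * w) = e s * F w}
      zero_mem' := fun w _ => by rw [e_zero, one_mul, one_mul]
      add_mem' := fun {a b} ha hb w hw => by
        rw [e_add, mul_assoc, ha _ (e_mul_mem b hw), hb w hw, mul_assoc]
      neg_mem' := fun {a} ha w hw => by
        have h1 := ha (e (-a) * w) (e_mul_mem _ hw)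
        rw [← mul_assoc, ← e_add, add_neg_cancel, e_zero, one_mul] at h1
        rw [h1, ← mul_assoc, ← e_add, neg_add_cancel, e_zero, one_mul] }
  have hSmem : ∀ s : ℝ, s ∈ S ↔ ∀ w ∈ closedBall (0 : ℂ) 1, F (e s * w) = e s * F w :=
    fun s => Iff.rfl
  have hdense : Dense (S : Set ℝ) := by
    have h3 : Dense (AddSubgroup.closure {β, (1 : ℝ)} : Set ℝ) := by
      rw [dense_addSubgroupClosure_pair_iff, div_one]
      exact hβ
    refine h3.mono ?_
    have h4 : AddSubgroup.closure {β, (1 : ℝ)} ≤ S := by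
      rw [AddSubgroup.closure_le]
      intro x hx
      rcases hx with hx | hx
      · rw [hx]; exact hcomm
      · rw [Set.mem_singleton_iff.1 hx]
        intro w _
        have h5 : e 1 = 1 := by simpa using e_int 1
        rw [h5, one_mul, one_mul]
    exact h4
  have hclosed : IsClosed (S : Set ℝ) := by
    have h3 : (S : Set ℝ) = ⋂ w ∈ closedBall (0 : ℂ) 1, {s : ℝ | F (e s * w) = e s * F w} := by
      ext s
      simp only [SetLike.mem_coe, hSmem, mem_iInter, mem_ofPred_eq]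
    rw [h3]
    refine isClosed_biInter fun w hw => isClosed_eq ?_ ?_
    · rw [← continuousOn_univ]
      have h4 := continuous_e
      exact hFc.comp (by fun_prop) fun s _ => e_mul_mem s hw
    · have h4 := continuous_e
      fun_prop
  have h3 : s ∈ closure (S : Set ℝ) := hdense s
  rw [hclosed.closure_eq] at h3
  exact h3

/-- If `H` conjugates `f^m` to a rotation, it conjugates `f` to a rotation. -/
theorem linear_of_iterate (h : DensMap J f Θ) (hrot : HasRotationNumber f Θ α)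
    (hα : Irrational α) {m : ℕ} (hm : 1 ≤ m) {H : ℂ → ℂ} {L : ℝ → ℝ} (hHc : Continuous H)
    (hHb : BijOn H (closedBall 0 1) (closedBall 0 1)) (hH0 : H 0 = 0) (hLc : Continuous L)
    (hLm : StrictMono L) (hL1 : ∀ t, L (t + 1) = L t + 1)
    (hHL : ∀ t r : ℝ, 0 ≤ r → H (r • e t) = ‖H (r • e t)‖ • e (L t))
    (hit : ∀ z ∈ closedBall (0 : ℂ) 1, H (f^[m] z) = e (m * α) * H z) :
    ∀ z ∈ closedBall (0 : ℂ) 1, H (f z) = e α * H z := by
  have hm' : (0 : ℝ) < m := by exact_mod_cast hm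
  have h0D : (0 : ℂ) ∈ closedBall (0 : ℂ) 1 := by simp
  set g := Function.invFunOn H (closedBall (0 : ℂ) 1) with hg
  have hgm : MapsTo g (closedBall 0 1) (closedBall 0 1) := hHb.surjOn.mapsTo_invFunOn
  have hinv : InvOn g H (closedBall 0 1) (closedBall 0 1) := hHb.invOn_invFunOn
  have hgc : ContinuousOn g (closedBall 0 1) := by
    rw [continuousOn_iff_isClosed]
    intro C hC
    refine ⟨H '' (C ∩ closedBall 0 1), ?_, ?_⟩
    · have h1 : IsCompact (C ∩ closedBall (0 : ℂ) 1) :=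
        (isCompact_closedBall (0 : ℂ) 1).inter_left hC
      exact (h1.image hHc).isClosed
    · ext y
      constructor
      · rintro ⟨hy1, hy2⟩
        exact ⟨⟨g y, ⟨hy1, hgm hy2⟩, hinv.2 hy2⟩, hy2⟩
      · rintro ⟨⟨x, ⟨hx1, hx2⟩, rfl⟩, hy2⟩
        refine ⟨?_, hy2⟩
        show g (H x) ∈ C
        rw [hinv.1 hx2]
        exact hx1
  set F : ℂ → ℂ := fun w => H (f (g w)) with hF
  have hFm : MapsTo F (closedBall 0 1) (closedBall 0 1) := fun w hw =>
    hHb.mapsTo (h.bij.mapsTo (hgm hw))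
  have hFc : ContinuousOn F (closedBall 0 1) :=
    hHc.comp_continuousOn (h.cont.comp hgc hgm)
  have hFi : InjOn F (closedBall 0 1) := by
    intro w hw w' hw' hww
    have h1 := hHb.injOn (h.bij.mapsTo (hgm hw)) (h.bij.mapsTo (hgm hw')) hww
    have h2 := h.bij.injOn (hgm hw) (hgm hw') h1
    rw [← hinv.2 hw, ← hinv.2 hw', h2]
  have hFH : ∀ z ∈ closedBall (0 : ℂ) 1, F (H z) = H (f z) := by
    intro z hz
    simp only [hF]
    rw [hinv.1 hz]
  have hfm : ∀ z ∈ closedBall (0 : ℂ) 1, f^[m] z ∈ closedBall (0 : ℂ) 1 :=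
    fun z hz => (h.iter_bij m).mapsTo hz
  have hcomm : ∀ w ∈ closedBall (0 : ℂ) 1, F (e (m * α) * w) = e (m * α) * F w := by
    intro w hw
    obtain ⟨z, hz, rfl⟩ := hHb.surjOn hw
    rw [← hit z hz, hFH _ (hfm z hz), hFH z hz, ← hit _ (h.bij.mapsTo hz)]
    congr 1
    exact (Function.iterate_succ_apply' f m z).symm.trans (Function.iterate_succ_apply f m z)
  have hrotF : ∀ s : ℝ, ∀ w ∈ closedBall (0 : ℂ) 1, F (e s * w) = e s * F w :=
    fun s => commutes_all hFc (hα.natCast_mul (by omega)) hcomm s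
  have hFit : ∀ n : ℕ, ∀ z ∈ closedBall (0 : ℂ) 1, F^[n] (H z) = H (f^[n] z) := by
    intro n
    induction n with
    | zero => intro z _; rfl
    | succ n ih =>
      intro z hz
      rw [Function.iterate_succ_apply, Function.iterate_succ_apply, hFH z hz,
        ih _ (h.bij.mapsTo hz)]
  have hFm2 : ∀ w ∈ closedBall (0 : ℂ) 1, F^[m] w = e (m * α) * w := by
    intro w hw
    obtain ⟨z, hz, rfl⟩ := hHb.surjOn hw
    rw [hFit m z hz, hit z hz]
  -- the radial map
  have hrD : ∀ r ∈ Icc (0 : ℝ) 1, (r : ℂ) ∈ closedBall (0 : ℂ) 1 := by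
    intro r hr
    rw [mem_closedBall_zero_iff, Complex.norm_real, Real.norm_eq_abs, abs_of_nonneg hr.1]
    exact hr.2
  set ρ : ℝ → ℝ := fun r => ‖F r‖ with hρ
  have hρF : ∀ w ∈ closedBall (0 : ℂ) 1, ‖F w‖ = ρ ‖w‖ := by
    intro w hw
    have h1 : w = e (polar w).1 * (‖w‖ : ℂ) := by
      have h2 := eq_norm_smul_e w
      rw [Complex.real_smul, mul_comm] at h2
      exact h2
    have h3 : (‖w‖ : ℂ) ∈ closedBall (0 : ℂ) 1 := by
      rw [mem_closedBall_zero_iff] at hw
      exact hrD _ ⟨norm_nonneg _, hw⟩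
    conv_lhs => rw [h1, hrotF _ _ h3]
    rw [norm_mul, norm_e, one_mul]
  have hρmem : ∀ r ∈ Icc (0 : ℝ) 1, ρ r ∈ Icc (0 : ℝ) 1 := by
    intro r hr
    have h1 := hFm (hrD r hr)
    rw [mem_closedBall_zero_iff] at h1
    exact ⟨norm_nonneg _, h1⟩
  have hρc : ContinuousOn ρ (Icc 0 1) :=
    (hFc.comp Complex.continuous_ofReal.continuousOn hrD).norm
  have hρinj : InjOn ρ (Icc 0 1) := by
    intro r hr r' hr' hrr
    have h1 := eq_norm_smul_e (F r)
    have h2 := eq_norm_smul_e (F r')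
    have h3 : F r = e ((polar (F r)).1 - (polar (F r')).1) * F r' := by
      have h4 : e (polar (F r)).1 = e ((polar (F r)).1 - (polar (F r')).1) * e (polar (F r')).1 := by
        rw [← e_add]; congr 1; ring
      have h5 : ‖F r‖ = ‖F r'‖ := hrr
      rw [Complex.real_smul] at h1 h2
      calc F r = (‖F r‖ : ℂ) * e (polar (F r)).1 := h1
        _ = e ((polar (F r)).1 - (polar (F r')).1) * ((‖F r'‖ : ℂ) * e (polar (F r')).1) := by
          rw [h5, h4]; ring
        _ = _ := by rw [← h2]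
    rw [← hrotF _ _ (hrD r' hr')] at h3
    have h4 := hFi (hrD r hr) (e_mul_mem _ (hrD r' hr')) h3
    have h5 := congrArg norm h4
    rw [norm_mul, norm_e, one_mul, Complex.norm_real, Complex.norm_real, Real.norm_eq_abs,
      Real.norm_eq_abs, abs_of_nonneg hr.1, abs_of_nonneg hr'.1] at h5
    exact h5
  have hρ0 : ρ 0 = 0 := by
    have h1 : F 0 = 0 := by
      have h2 := hFH 0 h0D
      rw [hH0, h.zero, hH0] at h2
      exact h2
    simp only [hρ, Complex.ofReal_zero]
    rw [h1, norm_zero]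
  have hρmono : StrictMonoOn ρ (Icc 0 1) := by
    rcases hρc.strictMonoOn_of_injOn_Icc' zero_le_one hρinj with h3 | h3
    · exact h3
    · exfalso
      have h4 := h3 (left_mem_Icc.2 zero_le_one) (right_mem_Icc.2 zero_le_one) one_pos
      rw [hρ0] at h4
      have h5 := (hρmem 1 (right_mem_Icc.2 zero_le_one)).1
      linarith
  have hρit : ∀ n : ℕ, ∀ w ∈ closedBall (0 : ℂ) 1, ‖F^[n] w‖ = ρ^[n] ‖w‖ := by
    intro n
    induction n with
    | zero => intro w _; rfl
    | succ n ih =>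
      intro w hw
      rw [Function.iterate_succ_apply, Function.iterate_succ_apply, ih _ (hFm hw), hρF w hw]
  have hρm : ∀ r ∈ Icc (0 : ℝ) 1, ρ^[m] r = r := by
    intro r hr
    have h1 := hρit m r (hrD r hr)
    rw [hFm2 _ (hrD r hr), norm_mul, norm_e, one_mul, Complex.norm_real, Real.norm_eq_abs,
      abs_of_nonneg hr.1] at h1
    exact h1.symm
  have hρid := id_of_iterate hρmem hρmono hm hρm
  have hnF : ∀ w ∈ closedBall (0 : ℂ) 1, ‖F w‖ = ‖w‖ := by
    intro w hw
    rw [hρF w hw]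
    rw [mem_closedBall_zero_iff] at hw
    exact hρid _ ⟨norm_nonneg _, hw⟩
  have hnH : ∀ z ∈ closedBall (0 : ℂ) 1, ‖H (f z)‖ = ‖H z‖ := by
    intro z hz
    rw [← hFH z hz]
    exact hnF _ (hHb.mapsTo hz)
  -- the displacement
  set Φ : ℝ × ℝ → ℝ := fun p => L (Θ p) - L p.1 with hΦ
  have hHf : ∀ p ∈ strip, H (f (pol p)) = e (Φ p) * H (pol p) := by
    intro p hp
    have h1 := h.angle p hp
    have h2 : pol (lift f Θ p) = ‖f (pol p)‖ • e (Θ p) := by rw [Complex.real_smul]; rfl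
    have h3 : pol p = p.2 • e p.1 := by rw [Complex.real_smul]; rfl
    have h4 : H (f (pol p)) = ‖H (f (pol p))‖ • e (L (Θ p)) := by
      have h5 := hHL (Θ p) ‖f (pol p)‖ (norm_nonneg _)
      rw [← h2, ← h1] at h5
      exact h5
    have h6 : H (pol p) = ‖H (pol p)‖ • e (L p.1) := by
      have h5 := hHL p.1 p.2 hp.1
      rw [← h3] at h5
      exact h5
    have h7 : e (L (Θ p)) = e (Φ p) * e (L p.1) := by
      rw [← e_add]; congr 1; simp only [hΦ]; ring
    calc H (f (pol p)) = (‖H (f (pol p))‖ : ℂ) * e (L (Θ p)) := by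
          rw [← Complex.real_smul]; exact h4
      _ = e (Φ p) * ((‖H (pol p)‖ : ℂ) * e (L p.1)) := by
          rw [hnH _ (DiskMap.pol_mem_closedBall hp), h7]; ring
      _ = e (Φ p) * H (pol p) := by rw [← Complex.real_smul, ← h6]
  have hΦit : ∀ p ∈ strip, 0 < p.2 → e (m * Φ p) = e (m * α) := by
    intro p hp hp0
    have hw : H (pol p) ∈ closedBall (0 : ℂ) 1 := hHb.mapsTo (DiskMap.pol_mem_closedBall hp)
    have hw0 : H (pol p) ≠ 0 := by
      intro h0
      have h1 := hHb.injOn (DiskMap.pol_mem_closedBall hp) h0D (h0.trans hH0.symm)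
      have h2 := norm_pol' hp.1
      rw [h1, norm_zero] at h2
      linarith
    have h1 : F (H (pol p)) = e (Φ p) * H (pol p) := by
      rw [hFH _ (DiskMap.pol_mem_closedBall hp), hHf p hp]
    have h2 : ∀ n : ℕ, F^[n] (H (pol p)) = e (n * Φ p) * H (pol p) := by
      intro n
      induction n with
      | zero => simp [e_zero]
      | succ n ih =>
        rw [Function.iterate_succ_apply', ih, hrotF _ _ hw, h1, ← mul_assoc, ← e_add]
        congr 2
        push_cast
        ring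
    have h3 := h2 m
    rw [hFm2 _ hw] at h3
    exact (mul_right_cancel₀ hw0 h3).symm
  -- it is constant
  set P : Set (ℝ × ℝ) := {p | p ∈ strip ∧ 0 < p.2} with hP
  have hPc : IsPreconnected P := by
    have h1 : P = univ ×ˢ Ioc (0 : ℝ) 1 := by
      ext p
      simp only [hP, strip, mem_ofPred_eq, mem_prod, mem_univ, true_and, mem_Ioc]
      constructor
      · rintro ⟨⟨_, h2⟩, h3⟩; exact ⟨h3, h2⟩
      · rintro ⟨h2, h3⟩; exact ⟨⟨h2.le, h3⟩, h2⟩
    rw [h1]
    exact isPreconnected_univ.prod isPreconnected_Ioc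
  have hΦc : ContinuousOn Φ strip :=
    (hLc.comp_continuousOn h.contΘ).sub (hLc.comp continuous_fst).continuousOn
  have hconst : ∀ p ∈ P, ∀ q ∈ P, Φ p = Φ q := by
    intro p hp q hq
    have h1 := const_of_int hPc (φ := fun p => m * Φ p - m * α)
      (((hΦc.mono fun p hp => hp.1).const_mul _).sub continuousOn_const) (fun x hx => by
        obtain ⟨k, hk⟩ := e_eq_e_iff.1 (hΦit x hx.1 hx.2)
        exact ⟨k, by rw [hk]; ring⟩) hp hq
    have h2 : (m : ℝ) * (Φ p - Φ q) = 0 := by linarith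
    rcases mul_eq_zero.1 h2 with h3 | h3
    · exact absurd h3 hm'.ne'
    · linarith
  have hPm : ∀ p ∈ P, lift f Θ p ∈ P := by
    intro p hp
    refine ⟨h.lift_mem hp.1, ?_⟩
    show 0 < ‖f (pol p)‖
    rw [norm_pos_iff]
    intro h0
    have h1 := h.bij.injOn (DiskMap.pol_mem_closedBall hp.1) h0D (h0.trans h.zero.symm)
    have h2 := norm_pol' hp.1.1
    rw [h1, norm_zero] at h2
    have h3 := hp.2
    linarith
  have hΦα : ∀ p ∈ P, Φ p = α := by
    intro p hp
    have h1 : ∀ n : ℕ, (lift f Θ)^[n] p ∈ P ∧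
        L (((lift f Θ)^[n] p).1) = L p.1 + n * Φ p := by
      intro n
      induction n with
      | zero => exact ⟨hp, by simp⟩
      | succ n ih =>
        refine ⟨by rw [Function.iterate_succ_apply']; exact hPm _ ih.1, ?_⟩
        rw [Function.iterate_succ_apply']
        have h2 := hconst _ ih.1 _ hp
        have h3 : L ((lift f Θ ((lift f Θ)^[n] p)).1) =
            Φ ((lift f Θ)^[n] p) + L (((lift f Θ)^[n] p).1) := by
          simp only [hΦ]
          have h4 : (lift f Θ ((lift f Θ)^[n] p)).1 = Θ ((lift f Θ)^[n] p) := rfl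
          rw [h4]; ring
        rw [h3, h2, ih.2]
        push_cast
        ring
    refine (rot_unique (a := L p.1) (B := |L 0| + 1) (hrot p hp.1) fun n => ?_).symm
    have h2 := deg_one_bound hLm.monotone hL1 (((lift f Θ)^[n] p).1)
    rw [(h1 n).2] at h2
    rwa [abs_sub_comm] at h2
  intro z hz
  by_cases hz0 : z = 0
  · rw [hz0, h.zero, hH0, mul_zero]
  · have h1 : polar z ∈ P := ⟨polar_mem hz, norm_pos_iff.2 hz0⟩
    have h2 := hHf _ (polar_mem hz)
    rw [pol_polar, hΦα _ h1] at h2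
    exact h2

end

end MPc541f6
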