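import Pool.Agent.Lib.MP_c541f6_an.Defs

/-!
# Homeomorphisms of the disk preserving a smooth density
-/

open Complex Set Filter Topology Metric

namespace MPc541f6

noncomputable section

/-- `f` is a homeomorphism of the closed unit disk `D` onto itself that maps the unit circle to
itself, fixes `0`, and is differentiable inside and preserves the measure `J dx dy`
and the orientation: `J (f z) det Df(z) = J z` at every interior point; `Θ` is a continuous lift of
its angle to the strip `ℝ × [0, 1]`, that is, to the disk blown up at `0`: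
`f (r exp (2 π i t)) = |f (r exp (2 π i t))| exp (2 π i Θ (t, r))`. -/
structure DensMap (J : ℂ → ℝ) (f : ℂ → ℂ) (Θ : ℝ × ℝ → ℝ) : Prop where
  cont : ContinuousOn f (closedBall 0 1)
  bij : BijOn f (closedBall 0 1) (closedBall 0 1)
  circle : ∀ z ∈ closedBall (0 : ℂ) 1, (‖f z‖ = 1 ↔ ‖z‖ = 1)
  diff : ∀ z ∈ ball (0 : ℂ) 1, DifferentiableAt ℝ f z
  det : ∀ z ∈ ball (0 : ℂ) 1, J (f z) * (fderiv ℝ f z).det = J z
  zero : f 0 = 0
  contΘ : ContinuousOn Θ strip
  period : ∀ p ∈ strip, Θ (p.1 + 1, p.2) = Θ p + 1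
  angle : ∀ p ∈ strip, f (pol p) = pol (lift f Θ p)

namespace DensMap

variable {J : ℂ → ℝ} {f : ℂ → ℂ} {Θ : ℝ × ℝ → ℝ}

lemma lift_mem (h : DensMap J f Θ) {p : ℝ × ℝ} (hp : p ∈ strip) : lift f Θ p ∈ strip := by
  refine ⟨norm_nonneg _, ?_⟩
  have := h.bij.mapsTo (DiskMap.pol_mem_closedBall hp)
  rwa [mem_closedBall_zero_iff] at this

lemma iter_mem (h : DensMap J f Θ) {p : ℝ × ℝ} (hp : p ∈ strip) (n : ℕ) :
    (lift f Θ)^[n] p ∈ strip := by
  induction n with
  | zero => exact hp
  | succ n ih => rw [Function.iterate_succ_apply']; exact h.lift_mem ih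

lemma pol_iter (h : DensMap J f Θ) {p : ℝ × ℝ} (hp : p ∈ strip) (n : ℕ) :
    pol ((lift f Θ)^[n] p) = f^[n] (pol p) := by
  induction n with
  | zero => rfl
  | succ n ih =>
    rw [Function.iterate_succ_apply', Function.iterate_succ_apply', ← ih,
      h.angle _ (h.iter_mem hp n)]

lemma Θ_add_int (h : DensMap J f Θ) {t r : ℝ} (hp : (t, r) ∈ strip) (k : ℤ) :
    Θ (t + k, r) = Θ (t, r) + k := by
  have hs : ∀ s : ℝ, (s, r) ∈ strip := fun s => hp
  induction k using Int.induction_on generalizing t with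
  | zero => simp
  | succ n ih =>
    have h1 := h.period (t + n, r) (hs _)
    have h2 := ih (hs t)
    push_cast at h2 ⊢
    rw [← add_assoc, h1, h2]; ring
  | pred n ih =>
    have h2 := ih (hs t)
    have h3 := h.period (t + (-(n : ℝ) - 1), r) (hs _)
    push_cast at h2 ⊢
    have h4 : t + (-(n : ℝ) - 1) + 1 = t + -(n : ℝ) := by ring
    simp only [h4] at h3
    rw [h2] at h3
    linarith

lemma lift_add_int (h : DensMap J f Θ) {p : ℝ × ℝ} (hp : p ∈ strip) (k : ℤ) :
    lift f Θ (p.1 + k, p.2) = ((lift f Θ p).1 + k, (lift f Θ p).2) := by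
  unfold lift
  rw [pol_add_int, h.Θ_add_int hp]

lemma iter_add_int (h : DensMap J f Θ) {p : ℝ × ℝ} (hp : p ∈ strip) (k : ℤ) (n : ℕ) :
    (lift f Θ)^[n] (p.1 + k, p.2) = (((lift f Θ)^[n] p).1 + k, ((lift f Θ)^[n] p).2) := by
  induction n with
  | zero => rfl
  | succ n ih =>
    rw [Function.iterate_succ_apply', Function.iterate_succ_apply', ih,
      h.lift_add_int (h.iter_mem hp n)]

lemma contOn_lift (h : DensMap J f Θ) : ContinuousOn (lift f Θ) strip := by
  unfold lift
  refine ContinuousOn.prodMk h.contΘ ?_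
  refine ContinuousOn.norm ?_
  exact h.cont.comp continuous_pol.continuousOn fun p hp => DiskMap.pol_mem_closedBall hp

lemma contOn_iter (h : DensMap J f Θ) (n : ℕ) : ContinuousOn ((lift f Θ)^[n]) strip := by
  induction n with
  | zero => exact continuousOn_id
  | succ n ih =>
    rw [Function.iterate_succ']
    exact h.contOn_lift.comp ih fun p hp => h.iter_mem hp n

lemma ball_bij (h : DensMap J f Θ) : BijOn f (ball 0 1) (ball 0 1) := by
  have hsub : ball (0 : ℂ) 1 ⊆ closedBall 0 1 := ball_subset_closedBall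
  refine ⟨fun z hz => ?_, h.bij.injOn.mono hsub, fun y hy => ?_⟩
  · have h1 := h.bij.mapsTo (hsub hz)
    rw [mem_closedBall_zero_iff] at h1
    rw [mem_ball_zero_iff] at hz ⊢
    refine lt_of_le_of_ne h1 fun h2 => ?_
    exact hz.ne ((h.circle z (by rw [mem_closedBall_zero_iff]; exact hz.le)).1 h2)
  · obtain ⟨x, hx, rfl⟩ := h.bij.surjOn (hsub hy)
    refine ⟨x, ?_, rfl⟩
    rw [mem_closedBall_zero_iff] at hx
    rw [mem_ball_zero_iff] at hy ⊢
    refine lt_of_le_of_ne hx fun h2 => ?_
    exact hy.ne ((h.circle x (by rw [mem_closedBall_zero_iff]; exact hx)).2 h2)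


lemma iter_cont (h : DensMap J f Θ) (m : ℕ) : ContinuousOn (f^[m]) (closedBall 0 1) := by
  induction m with
  | zero => exact continuousOn_id
  | succ m ih =>
    rw [Function.iterate_succ]
    exact ih.comp h.cont h.bij.mapsTo

lemma iter_bij (h : DensMap J f Θ) (m : ℕ) :
    BijOn (f^[m]) (closedBall 0 1) (closedBall 0 1) := by
  induction m with
  | zero => exact bijOn_id _
  | succ m ih =>
    rw [Function.iterate_succ]
    exact ih.comp h.bij

lemma iter_fix (h : DensMap J f Θ) (m : ℕ) : f^[m] 0 = 0 := by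
  induction m with
  | zero => rfl
  | succ m ih => rw [Function.iterate_succ_apply, h.zero, ih]

end DensMap

end

end MPc541f6
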