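import Pool.Agent.Lib.MP_c541f6_an.HMap

/-!
# Linear conjugation of the linear part to the rotation
-/

open Complex Set Filter Topology Metric MeasureTheory

namespace MPc541f6

noncomputable section

/-- Lift of the direction map of a linear map with positive determinant. -/
theorem exists_lift (B : ℂ →L[ℝ] ℂ) (hB : 0 < B.det) :
    (∀ t, B (e t) ≠ 0) ∧ ∃ L : ℝ → ℝ, (∀ t, HasDerivAt L (B.det / ‖B (e t)‖ ^ 2) t) ∧
      (∀ t, B (e t) = ‖B (e t)‖ • e (L t)) ∧ (∀ t, L (t + 1) = L t + 1) := by
  have hpi := Real.pi_pos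
  have hne : ∀ t, B (e t) ≠ 0 := by
    intro t h0
    have h1 := det_pair B (e t) (I * e t)
    rw [h0, conj_mul_I_mul _ (norm_e t)] at h1
    simp at h1
    linarith
  refine ⟨hne, ?_⟩
  have hpos : ∀ t, 0 < ‖B (e t)‖ := fun t => norm_pos_iff.2 (hne t)
  have hBc : Continuous fun t => B (e t) := B.continuous.comp continuous_e
  set w : ℝ → ℝ := fun t => B.det / ‖B (e t)‖ ^ 2 with hw
  have hwc : Continuous w := by
    simp only [hw]
    exact continuous_const.div (hBc.norm.pow 2) fun t => by have := hpos t; positivity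
  set L : ℝ → ℝ := fun t => arg (B 1) / (2 * Real.pi) + ∫ s in (0 : ℝ)..t, w s with hL
  have hdL : ∀ t, HasDerivAt L (w t) t := by
    intro t
    have h1 : HasDerivAt (fun u => ∫ s in (0 : ℝ)..u, w s) (w t) t :=
      intervalIntegral.integral_hasDerivAt_right (hwc.intervalIntegrable _ _)
        (hwc.stronglyMeasurableAtFilter _ _) hwc.continuousAt
    exact h1.const_add _
  have hLc : Continuous L := continuous_iff_continuousAt.2 fun t => (hdL t).continuousAt
  -- the normalised curve is constant
  set F : ℝ → ℂ := fun t => B (e t) * e (-L t) with hF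
  have hdB : ∀ t, HasDerivAt (fun s => B (e s)) (B (((2 * Real.pi : ℝ) : ℂ) * I * e t)) t :=
    fun t => B.hasFDerivAt.comp_hasDerivAt t (hasDerivAt_e t)
  have hdE : ∀ t, HasDerivAt (fun s => e (-L s))
      (-(w t : ℂ) * (((2 * Real.pi : ℝ) : ℂ) * I * e (-L t))) t := by
    intro t
    have h1 := (hasDerivAt_e (-L t)).scomp t (hdL t).neg
    rw [Complex.real_smul] at h1
    push_cast at h1 ⊢
    exact h1
  have hlift : ∀ t, B (e t) = ‖B (e t)‖ • e (L t) := by
    -- F t / |F t| has zero derivative
    set N : ℝ → ℂ := fun t => F t / (‖B (e t)‖ : ℂ) with hN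
    have hdF : ∀ t, HasDerivAt F (B (((2 * Real.pi : ℝ) : ℂ) * I * e t) * e (-L t) +
        B (e t) * (-(w t : ℂ) * (((2 * Real.pi : ℝ) : ℂ) * I * e (-L t)))) t :=
      fun t => (hdB t).mul (hdE t)
    have hdnorm : ∀ t, HasDerivAt (fun s => ‖B (e s)‖)
        (((starRingEnd ℂ) (B (e t)) * B (((2 * Real.pi : ℝ) : ℂ) * I * e t)).re /
          ‖B (e t)‖) t := by
      intro t
      have h1 : HasDerivAt (fun s => ‖B (e s)‖ ^ 2)
          (2 * ((starRingEnd ℂ) (B (e t)) * B (((2 * Real.pi : ℝ) : ℂ) * I * e t)).re) t := by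
        have h2 := (hdB t).norm_sq
        have h3 : 2 * inner ℝ (B (e t)) (B (((2 * Real.pi : ℝ) : ℂ) * I * e t)) =
            2 * ((starRingEnd ℂ) (B (e t)) * B (((2 * Real.pi : ℝ) : ℂ) * I * e t)).re := by
          rw [Complex.inner, mul_comm ((starRingEnd ℂ) (B (e t)))]
        rw [← h3]
        exact h2
      have h4 := h1.sqrt (by have := hpos t; positivity)
      have h5 : (fun s => Real.sqrt (‖B (e s)‖ ^ 2)) = fun s => ‖B (e s)‖ := by
        funext s; exact Real.sqrt_sq (norm_nonneg _)
      rw [h5, Real.sqrt_sq (norm_nonneg _)] at h4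
      refine h4.congr_deriv ?_
      have := hpos t
      field_simp
    have hdN : ∀ t, HasDerivAt N 0 t := by
      intro t
      have h1 := (hdF t).div ((hdnorm t).ofReal_comp) (by exact_mod_cast (hpos t).ne')
      refine h1.congr_deriv ?_
      -- algebra
      set X := B (e t) with hX
      set Y := B (((2 * Real.pi : ℝ) : ℂ) * I * e t) with hY
      have hXY : ((starRingEnd ℂ) X * Y).im = 2 * Real.pi * B.det := by
        rw [hX, hY, det_pair]
        have h2 : (starRingEnd ℂ) (e t) * (((2 * Real.pi : ℝ) : ℂ) * I * e t) =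
            ((2 * Real.pi : ℝ) : ℂ) * ((starRingEnd ℂ) (e t) * (I * e t)) := by ring
        rw [h2, Complex.im_ofReal_mul, conj_mul_I_mul _ (norm_e t)]
        ring
      have hXn : (‖X‖ : ℂ) ^ 2 = (starRingEnd ℂ) X * X := by
        rw [mul_comm, Complex.mul_conj, Complex.normSq_eq_norm_sq]
        push_cast; rfl
      have hXY2 : (starRingEnd ℂ) X * Y =
          ((((starRingEnd ℂ) X * Y).re : ℝ) : ℂ) + ((2 * Real.pi * B.det : ℝ) : ℂ) * I := by
        rw [← hXY]
        exact (Complex.re_add_im _).symm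
      have hXpos : (‖X‖ : ℂ) ≠ 0 := by exact_mod_cast (hpos t).ne'
      have hX0 : X ≠ 0 := hne t
      have hXc : (starRingEnd ℂ) X ≠ 0 := by rw [Ne, map_eq_zero]; exact hX0
      have hwX : (w t : ℂ) * (‖X‖ : ℂ) ^ 2 = (B.det : ℂ) := by
        simp only [hw]
        rw [← hX]
        push_cast
        field_simp
      rw [div_eq_zero_iff]
      left
      set ρ : ℝ := ((starRingEnd ℂ) X * Y).re with hρ
      push_cast
      have key : (Y * e (-L t) + X * (-(w t : ℂ) * (2 * (Real.pi : ℂ) * I * e (-L t)))) *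
          (‖X‖ : ℂ) - F t * ((ρ : ℂ) / (‖X‖ : ℂ)) =
          e (-L t) / (‖X‖ : ℂ) * (Y * (‖X‖ : ℂ) ^ 2 -
            X * (2 * (Real.pi : ℂ) * I) * ((w t : ℂ) * (‖X‖ : ℂ) ^ 2) - X * (ρ : ℂ)) := by
        simp only [hF]
        rw [← hX]
        field_simp
        ring
      have hz : Y * (‖X‖ : ℂ) ^ 2 - X * (2 * (Real.pi : ℂ) * I) * ((w t : ℂ) * (‖X‖ : ℂ) ^ 2) -
          X * (ρ : ℂ) = 0 := by
        rw [hwX, hXn]
        have h5 : Y * ((starRingEnd ℂ) X * X) = X * ((starRingEnd ℂ) X * Y) := by ring
        rw [h5, hXY2]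
        push_cast
        ring
      rw [key, hz, mul_zero]
    intro t
    have hconst : N t = N 0 :=
      is_const_of_deriv_eq_zero (f := N) (fun t => (hdN t).differentiableAt)
        (fun t => (hdN t).deriv) t 0
    have hL0 : L 0 = arg (B 1) / (2 * Real.pi) := by simp [hL]
    have hN0 : N 0 = 1 := by
      have h1 : B (e 0) = (‖B (e 0)‖ : ℂ) * e (L 0) := by
        rw [hL0, e_zero]
        have h2 := pol_arg (B 1)
        unfold pol at h2
        exact h2.symm
      simp only [hN, hF]
      nth_rewrite 1 [h1]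
      have h3 : e (L 0) * e (-L 0) = 1 := by rw [← e_add, add_neg_cancel, e_zero]
      have h4 : (‖B (e 0)‖ : ℂ) ≠ 0 := by exact_mod_cast (hpos 0).ne'
      rw [mul_assoc, h3, mul_one, div_self h4]
    rw [hN0] at hconst
    have h4 : (‖B (e t)‖ : ℂ) ≠ 0 := by exact_mod_cast (hpos t).ne'
    have h5 : F t = (‖B (e t)‖ : ℂ) := by
      have h6 : F t / (‖B (e t)‖ : ℂ) = 1 := hconst
      rwa [div_eq_one_iff_eq h4] at h6
    have h7 : e (-L t) * e (L t) = 1 := by rw [← e_add, neg_add_cancel, e_zero]
    rw [Complex.real_smul, ← h5]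
    simp only [hF]
    rw [mul_assoc, h7, mul_one]
  have hLmono : StrictMono L := by
    refine strictMono_of_deriv_pos fun t => ?_
    rw [(hdL t).deriv]
    have := hpos t
    positivity
  refine ⟨L, hdL, hlift, fun t => ?_⟩
  have h1 : e (L (t + 1)) = e (L t) := by
    have h2 := hlift (t + 1)
    rw [e_add_one] at h2
    have h3 : ‖B (e t)‖ • e (L (t + 1)) = ‖B (e t)‖ • e (L t) := h2.symm.trans (hlift t)
    exact smul_right_injective ℂ (hpos t).ne' h3
  obtain ⟨k, hk⟩ := e_eq_e_iff.1 h1
  have h2 : L t < L (t + 1) := hLmono (by linarith)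
  rw [hk] at h2
  have h3 : (0 : ℝ) < k := by linarith
  have h4 : 0 < k := by exact_mod_cast h3
  have h5 : k < 2 := by
    by_contra hcon
    have h6 : (2 : ℝ) ≤ k := by exact_mod_cast not_lt.1 hcon
    have h7 : L t + 1 ∈ Icc (L t) (L (t + 1)) := by
      rw [hk]; constructor <;> linarith
    obtain ⟨s, hs, hs2⟩ := intermediate_value_Icc (by linarith : t ≤ t + 1) hLc.continuousOn h7
    have h8 : e (L s) = e (L t) := by rw [hs2, e_add_one]
    have h9 : e s = e t := by
      have h10 : B (‖B (e t)‖ • e s - ‖B (e s)‖ • e t) = 0 := by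
        rw [map_sub, map_smul, map_smul, hlift s, hlift t, h8]
        simp only [norm_smul, norm_e, mul_one, norm_norm]
        rw [smul_smul, smul_smul, mul_comm, sub_self]
      have hinj : Function.Injective B := by
        rw [injective_iff_map_eq_zero]
        intro v hv
        by_contra hv0
        have h11 : v = ‖v‖ • e (arg v / (2 * Real.pi)) := by
          have h12 := pol_arg v
          unfold pol at h12
          rw [Complex.real_smul]
          exact h12.symm
        rw [h11, map_smul] at hv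
        rcases smul_eq_zero.1 hv with h12 | h12
        · exact hv0 (norm_eq_zero.1 h12)
        · exact hne _ h12
      have h11 := hinj (h10.trans (map_zero B).symm)
      rw [sub_eq_zero] at h11
      have h12 := congrArg norm h11
      rw [norm_smul, norm_smul, norm_e, norm_e, mul_one, mul_one, norm_norm, norm_norm] at h12
      rw [h12] at h11
      exact smul_right_injective ℂ (hpos s).ne' h11
    obtain ⟨j, hj⟩ := e_eq_e_iff.1 h9
    have h10 : t < s := by
      by_contra hcon2
      have h11 : L s ≤ L t := hLmono.monotone (not_lt.1 hcon2)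
      rw [hs2] at h11
      linarith
    have h11 : s < t + 1 := by
      by_contra hcon2
      have h12 : L (t + 1) ≤ L s := hLmono.monotone (not_lt.1 hcon2)
      rw [hs2, hk] at h12
      linarith
    rw [hj] at h10 h11
    have h12 : (0 : ℝ) < j := by linarith
    have h13 : (j : ℝ) < 1 := by linarith
    have h14 : 0 < j := by exact_mod_cast h12
    have h15 : j < 1 := by exact_mod_cast h13
    omega
  have h6 : k = 1 := by omega
  rw [hk, h6]
  simp

end

end MPc541f6
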