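import Pool.Agent.Lib.MP_c541f6_an.HRay

/-!
# The linearising map `z ↦ z (jay z / c)^(1/2)`
-/

open Complex Set Filter Topology Metric MeasureTheory

namespace MPc541f6

noncomputable section

/-- smooth of infinite order -/
abbrev smo : WithTop ℕ∞ := ((⊤ : ℕ∞) : WithTop ℕ∞)

/-- The factor `(jay z / c)^(1/2)`. -/
def gee (J : ℂ → ℝ) (c : ℝ) (z : ℂ) : ℝ := Real.sqrt (jay J z / c)

/-- The linearising map. -/
def hmap (J : ℂ → ℝ) (c : ℝ) (z : ℂ) : ℂ := gee J c z • z

section
variable {J : ℂ → ℝ} {c : ℝ}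

lemma gee_pos (hJ : Continuous J) (hpos : ∀ z, 0 < J z) (hc : 0 < c) (z : ℂ) : 0 < gee J c z :=
  Real.sqrt_pos.2 (div_pos (jay_pos hJ hpos z) hc)

lemma gee_sq (hJ : Continuous J) (hpos : ∀ z, 0 < J z) (hc : 0 < c) (z : ℂ) :
    gee J c z ^ 2 = jay J z / c :=
  Real.sq_sqrt (div_pos (jay_pos hJ hpos z) hc).le

lemma contDiff_gee (hJ : ContDiff ℝ smo J) (hpos : ∀ z, 0 < J z) (hc : 0 < c) :
    ContDiff ℝ smo (gee J c) := by
  unfold gee
  exact ((contDiff_jay hJ).div_const c).sqrt fun z =>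
    (div_pos (jay_pos hJ.continuous hpos z) hc).ne'

lemma contDiff_hmap (hJ : ContDiff ℝ smo J) (hpos : ∀ z, 0 < J z) (hc : 0 < c) :
    ContDiff ℝ smo (hmap J c) :=
  (contDiff_gee hJ hpos hc).smul contDiff_id

/-- The radial derivative of the modulus of `hmap` is positive. -/
lemma gee_radial (hJ : ContDiff ℝ smo J) (hpos : ∀ z, 0 < J z) (hc : 0 < c) (z : ℂ) :
    0 < gee J c z + fderiv ℝ (gee J c) z z := by
  have hJc := hJ.continuous
  have hgd : Differentiable ℝ (gee J c) := (contDiff_gee hJ hpos hc).differentiable (by simp)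
  -- the curve s ↦ s * gee (s z)
  have h1 : HasDerivAt (fun s : ℝ => s • z) z 1 := by
    simpa using (hasDerivAt_id (1 : ℝ)).smul_const z
  have h2 : HasDerivAt (fun s : ℝ => gee J c (s • z)) (fderiv ℝ (gee J c) z z) 1 := by
    have h3 : HasFDerivAt (gee J c) (fderiv ℝ (gee J c) z) ((1 : ℝ) • z) := by
      rw [one_smul]; exact (hgd z).hasFDerivAt
    exact h3.comp_hasDerivAt 1 h1
  have h4 : HasDerivAt (fun s : ℝ => s * gee J c (s • z))
      (gee J c z + fderiv ℝ (gee J c) z z) 1 := by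
    have h5 : HasDerivAt (fun s : ℝ => s * gee J c (s • z))
        (1 * gee J c ((1 : ℝ) • z) + id 1 * fderiv ℝ (gee J c) z z) 1 :=
      (hasDerivAt_id (1 : ℝ)).mul h2
    rw [one_smul, one_mul, id, one_mul] at h5
    exact h5
  have h6 := h4.pow 2
  have h7 : HasDerivAt (fun s : ℝ => (s ^ 2 * jay J (s • z)) / c) ((1 * J ((1 : ℝ) • z)) / c) 1 :=
    (hasDerivAt_sq_mul_jay hJc z 1).div_const c
  have h8 : (fun s : ℝ => s * gee J c (s • z)) ^ 2 = fun s : ℝ => (s ^ 2 * jay J (s • z)) / c := by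
    funext s
    simp only [Pi.pow_apply]
    rw [mul_pow, gee_sq hJc hpos hc]
    ring
  rw [h8] at h6
  have h9 := h6.unique h7
  simp only [one_smul, one_mul, Nat.add_one_sub_one, pow_one, Nat.cast_ofNat] at h9
  have h10 : 0 < J z / c := div_pos (hpos z) hc
  have h11 := gee_pos hJc hpos hc z
  by_contra hcon
  have h12 : gee J c z * (gee J c z + fderiv ℝ (gee J c) z z) ≤ 0 :=
    mul_nonpos_of_nonneg_of_nonpos h11.le (not_lt.1 hcon)
  nlinarith

/-- The derivative of `hmap` is injective at every point. -/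
lemma fderiv_hmap_injective (hJ : ContDiff ℝ smo J) (hpos : ∀ z, 0 < J z) (hc : 0 < c) (z : ℂ) :
    Function.Injective (fderiv ℝ (hmap J c) z) := by
  have hgd : Differentiable ℝ (gee J c) := (contDiff_gee hJ hpos hc).differentiable (by simp)
  have h1 : HasFDerivAt (hmap J c)
      (gee J c z • ContinuousLinearMap.id ℝ ℂ + (fderiv ℝ (gee J c) z).smulRight z) z :=
    (hgd z).hasFDerivAt.smul (hasFDerivAt_id z)
  rw [h1.fderiv]
  rw [injective_iff_map_eq_zero]
  intro v hv
  simp only [add_apply, smul_apply,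
    ContinuousLinearMap.id_apply, ContinuousLinearMap.smulRight_apply] at hv
  have hg := gee_pos hJ.continuous hpos hc z
  set l : ℝ := -(fderiv ℝ (gee J c) z v) / gee J c z with hl
  have hvl : v = l • z := by
    have h2 : gee J c z • v = -(fderiv ℝ (gee J c) z v) • z := by
      rw [neg_smul]; exact eq_neg_of_add_eq_zero_left hv
    have h3 : v = (gee J c z)⁻¹ • (gee J c z • v) := by
      rw [smul_smul, inv_mul_cancel₀ hg.ne', one_smul]
    rw [h3, h2, smul_smul, hl]
    congr 1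
    ring
  have h4 : (l * (gee J c z + fderiv ℝ (gee J c) z z)) • z = 0 := by
    have h5 : gee J c z • v + fderiv ℝ (gee J c) z v • z = 0 := hv
    rw [hvl, map_smul, smul_smul] at h5
    rw [← h5, ← add_smul]
    congr 1
    simp only [smul_eq_mul]
    ring
  rcases smul_eq_zero.1 h4 with h5 | h5
  · rcases mul_eq_zero.1 h5 with h6 | h6
    · rw [hvl, h6, zero_smul]
    · exact absurd h6 (gee_radial hJ hpos hc z).ne'
  · rw [hvl, h5, smul_zero]

/-- The modulus of `hmap` along a ray. -/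
def modu (J : ℂ → ℝ) (c : ℝ) (t r : ℝ) : ℝ := r * gee J c (r • e t)

lemma hmap_pol (t r : ℝ) : hmap J c (r • e t) = modu J c t r • e t := by
  unfold hmap modu
  rw [smul_smul, mul_comm]

lemma modu_sq (hJ : Continuous J) (hpos : ∀ z, 0 < J z) (hc : 0 < c) (t r : ℝ) :
    modu J c t r ^ 2 = r ^ 2 * jay J (r • e t) / c := by
  unfold modu
  rw [mul_pow, gee_sq hJ hpos hc]
  ring

lemma modu_nonneg (hJ : Continuous J) (hpos : ∀ z, 0 < J z) (hc : 0 < c) (t : ℝ) {r : ℝ}
    (hr : 0 ≤ r) : 0 ≤ modu J c t r :=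
  mul_nonneg hr (gee_pos hJ hpos hc _).le

lemma modu_strictMono (hJ : Continuous J) (hpos : ∀ z, 0 < J z) (hc : 0 < c) (t : ℝ) :
    StrictMonoOn (modu J c t) (Ici 0) := by
  have h1 : StrictMonoOn (fun s : ℝ => s ^ 2 * jay J (s • e t)) (Ici 0) := by
    refine strictMonoOn_of_deriv_pos (convex_Ici 0) ?_ ?_
    · exact (continuous_iff_continuousAt.2 fun s =>
        (hasDerivAt_sq_mul_jay hJ (e t) s).continuousAt).continuousOn
    · intro s hs
      rw [interior_Ici] at hs
      rw [(hasDerivAt_sq_mul_jay hJ (e t) s).deriv]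
      exact mul_pos hs (hpos _)
  intro r hr r' hr' hrr
  have h2 := h1 hr hr' hrr
  have h3 : modu J c t r ^ 2 < modu J c t r' ^ 2 := by
    rw [modu_sq hJ hpos hc, modu_sq hJ hpos hc]
    exact div_lt_div_of_pos_right h2 hc
  exact lt_of_pow_lt_pow_left₀ 2 (modu_nonneg hJ hpos hc t hr') h3

/-- `hmap` is injective. -/
lemma hmap_injective (hJ : Continuous J) (hpos : ∀ z, 0 < J z) (hc : 0 < c) :
    Function.Injective (hmap J c) := by
  have hpz : ∀ z : ℂ, z = ‖z‖ • e ((polar z).1) := by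
    intro z
    have h1 := pol_polar z
    have h2 : pol (polar z) = ‖z‖ • e ((polar z).1) := by rw [Complex.real_smul]; rfl
    rw [h2] at h1
    exact h1.symm
  have hnorm : ∀ z : ℂ, ‖hmap J c z‖ = modu J c ((polar z).1) ‖z‖ := by
    intro z
    conv_lhs => rw [hpz z, hmap_pol]
    rw [norm_smul, norm_e, mul_one, Real.norm_eq_abs]
    exact abs_of_nonneg (modu_nonneg hJ hpos hc _ (norm_nonneg _))
  intro z w hzw
  have hzn := hnorm z
  have hwn := hnorm w
  by_cases hz0 : z = 0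
  · have h1 : hmap J c w = 0 := by rw [← hzw, hz0]; simp [hmap]
    have h2 := gee_pos hJ hpos hc w
    have h3 : gee J c w • w = 0 := h1
    rcases smul_eq_zero.1 h3 with h4 | h4
    · exact absurd h4 h2.ne'
    · rw [hz0, h4]
  by_cases hw0 : w = 0
  · exfalso
    have h1 : hmap J c z = 0 := by rw [hzw, hw0]; simp [hmap]
    have h2 := gee_pos hJ hpos hc z
    have h3 : gee J c z • z = 0 := h1
    rcases smul_eq_zero.1 h3 with h4 | h4
    · exact absurd h4 h2.ne'
    · exact hz0 h4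
  have hzp : 0 < modu J c ((polar z).1) ‖z‖ :=
    mul_pos (norm_pos_iff.2 hz0) (gee_pos hJ hpos hc _)
  have hwp : 0 < modu J c ((polar w).1) ‖w‖ :=
    mul_pos (norm_pos_iff.2 hw0) (gee_pos hJ hpos hc _)
  have h1 : modu J c ((polar z).1) ‖z‖ • e ((polar z).1) =
      modu J c ((polar w).1) ‖w‖ • e ((polar w).1) := by
    rw [← hmap_pol, ← hmap_pol, ← hpz, ← hpz]; exact hzw
  have h2 : modu J c ((polar z).1) ‖z‖ = modu J c ((polar w).1) ‖w‖ := by
    rw [← hzn, ← hwn, hzw]
  have h3 : e ((polar z).1) = e ((polar w).1) := by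
    rw [h2] at h1
    exact smul_right_injective ℂ hwp.ne' h1
  have h4 : modu J c ((polar z).1) ‖w‖ = modu J c ((polar w).1) ‖w‖ := by
    unfold modu
    rw [h3]
  have h5 : ‖z‖ = ‖w‖ := by
    refine (modu_strictMono hJ hpos hc ((polar z).1)).injOn (norm_nonneg z) (norm_nonneg w) ?_
    rw [h4, h2]
  rw [hpz z, hpz w, h3, h5]

lemma modu_one (hJ : Continuous J) (hpos : ∀ z, 0 < J z) (hc : 0 < c) (t : ℝ) {b : ℝ}
    (hb : 0 ≤ b) (hct : jay J (e t) * b ^ 2 = c) : modu J c t 1 * b = 1 := by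
  have h1 := modu_sq hJ hpos hc t 1
  rw [one_smul, one_pow, one_mul] at h1
  have h2 : 0 ≤ modu J c t 1 * b := mul_nonneg (modu_nonneg hJ hpos hc t zero_le_one) hb
  have h3 : (modu J c t 1 * b) ^ 2 = 1 := by
    rw [mul_pow, h1, div_mul_eq_mul_div, hct, div_self hc.ne']
  nlinarith

/-- `B ∘ hmap` is a bijection of the closed disk. -/
lemma bijOn_hmap (hJ : ContDiff ℝ smo J) (hpos : ∀ z, 0 < J z) (hc : 0 < c) {B : ℂ →L[ℝ] ℂ}
    (hB : Function.Injective B) (hct : ∀ t, jay J (e t) * ‖B (e t)‖ ^ 2 = c) :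
    BijOn (fun z => B (hmap J c z)) (closedBall 0 1) (closedBall 0 1) := by
  have hJc := hJ.continuous
  have hpz : ∀ z : ℂ, z = ‖z‖ • e ((polar z).1) := by
    intro z
    have h1 := pol_polar z
    have h2 : pol (polar z) = ‖z‖ • e ((polar z).1) := by rw [Complex.real_smul]; rfl
    rw [h2] at h1
    exact h1.symm
  have hval : ∀ t r : ℝ, B (hmap J c (r • e t)) = modu J c t r • B (e t) := by
    intro t r
    rw [hmap_pol, map_smul]
  have hnorm : ∀ z : ℂ, ‖B (hmap J c z)‖ =
      modu J c ((polar z).1) ‖z‖ * ‖B (e ((polar z).1))‖ := by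
    intro z
    conv_lhs => rw [hpz z, hval]
    rw [norm_smul, Real.norm_eq_abs, abs_of_nonneg (modu_nonneg hJc hpos hc _ (norm_nonneg _))]
  refine ⟨?_, ?_, ?_⟩
  · intro z hz
    rw [mem_closedBall_zero_iff] at hz ⊢
    simp only
    rw [hnorm, ← modu_one hJc hpos hc ((polar z).1) (norm_nonneg _) (hct _)]
    exact mul_le_mul_of_nonneg_right ((modu_strictMono hJc hpos hc _).monotoneOn (norm_nonneg z)
      (mem_Ici.2 zero_le_one) hz) (norm_nonneg _)
  · exact (hB.comp (hmap_injective hJc hpos hc)).injOn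
  · intro y hy
    rw [mem_closedBall_zero_iff] at hy
    have hsurj : Function.Surjective (B : ℂ →ₗ[ℝ] ℂ) := LinearMap.injective_iff_surjective.1 hB
    obtain ⟨w, hw⟩ := hsurj y
    have hw' : B w = y := hw
    set t := (polar w).1 with ht
    have hBt : 0 < ‖B (e t)‖ := by
      rw [norm_pos_iff]
      intro h0
      exact e_ne_zero t (hB (h0.trans (map_zero B).symm))
    have hcont : ContinuousOn (modu J c t) (Icc 0 1) := by
      have h1 : Continuous (gee J c) := (contDiff_gee hJ hpos hc).continuous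
      unfold modu
      fun_prop
    have h0 : modu J c t 0 = 0 := by unfold modu; simp
    have h1 := modu_one hJc hpos hc t (norm_nonneg _) (hct t)
    have h2 : ‖w‖ ∈ Icc (modu J c t 0) (modu J c t 1) := by
      rw [h0]
      refine ⟨norm_nonneg w, ?_⟩
      have h3 : ‖w‖ * ‖B (e t)‖ ≤ 1 := by
        have h4 : ‖B w‖ = ‖w‖ * ‖B (e t)‖ := by
          conv_lhs => rw [hpz w, map_smul]
          rw [norm_smul, norm_norm]
        rw [← h4, hw']
        exact hy
      rw [← h1] at h3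
      exact le_of_mul_le_mul_right h3 hBt
    obtain ⟨r, hr, hr2⟩ := intermediate_value_Icc zero_le_one hcont h2
    refine ⟨r • e t, ?_, ?_⟩
    · rw [mem_closedBall_zero_iff, norm_smul, norm_e, mul_one, Real.norm_eq_abs,
        abs_of_nonneg hr.1]
      exact hr.2
    · simp only
      rw [hval, hr2, ← map_smul, ← hpz w, hw']

end

/-- A smooth bijection of the closed disk with injective derivatives has a smooth inverse. -/
theorem contDiffOn_inverse {h : ℂ → ℂ} (hs : ContDiff ℝ smo h)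
    (hb : BijOn h (closedBall 0 1) (closedBall 0 1))
    (hinj : ∀ z, Function.Injective (fderiv ℝ h z)) :
    ∃ g : ℂ → ℂ, ContDiffOn ℝ smo g (closedBall 0 1) ∧
      MapsTo g (closedBall 0 1) (closedBall 0 1) ∧
      InvOn g h (closedBall 0 1) (closedBall 0 1) := by
  set g := Function.invFunOn h (closedBall (0 : ℂ) 1) with hg
  have hmaps : MapsTo g (closedBall 0 1) (closedBall 0 1) := hb.surjOn.mapsTo_invFunOn
  have hinv : InvOn g h (closedBall 0 1) (closedBall 0 1) := hb.invOn_invFunOn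
  have hgc : ContinuousOn g (closedBall 0 1) := by
    rw [continuousOn_iff_isClosed]
    intro C hC
    refine ⟨h '' (C ∩ closedBall 0 1), ?_, ?_⟩
    · have h1 : IsCompact (C ∩ closedBall (0 : ℂ) 1) :=
        (isCompact_closedBall (0 : ℂ) 1).inter_left hC
      exact (h1.image hs.continuous).isClosed
    · ext y
      constructor
      · rintro ⟨hy1, hy2⟩
        exact ⟨⟨g y, ⟨hy1, hmaps hy2⟩, hinv.2 hy2⟩, hy2⟩
      · rintro ⟨⟨x, ⟨hx1, hx2⟩, rfl⟩, hy2⟩
        refine ⟨?_, hy2⟩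
        show g (h x) ∈ C
        rw [hinv.1 hx2]
        exact hx1
  refine ⟨g, ?_, hmaps, hinv⟩
  intro y hy
  set z := g y with hz
  have hzy : h z = y := hinv.2 hy
  have hat : ContDiffAt ℝ smo h z := hs.contDiffAt
  have hd : HasFDerivAt h (fderiv ℝ h z) z :=
    (hs.differentiable (by simp) z).hasFDerivAt
  let E : ℂ ≃L[ℝ] ℂ :=
    (LinearEquiv.ofInjectiveEndo (fderiv ℝ h z : ℂ →ₗ[ℝ] ℂ) (hinj z)).toContinuousLinearEquiv
  have hE : (E : ℂ →L[ℝ] ℂ) = fderiv ℝ h z := by
    ext v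
    rfl
  have hd' : HasFDerivAt h (E : ℂ →L[ℝ] ℂ) z := by rw [hE]; exact hd
  have hne : smo ≠ 0 := by simp [smo]
  have h1 := hat.to_localInverse hd' hne
  rw [hzy] at h1
  refine h1.contDiffWithinAt.congr_of_eventuallyEq ?_ ?_
  · have h2 := (hat.hasStrictFDerivAt' hd' hne).eventually_left_inverse
    have h3 : Tendsto g (𝓝[closedBall 0 1] y) (𝓝 z) := hgc y hy
    have h4 := h3.eventually h2
    filter_upwards [h4, self_mem_nhdsWithin] with y' hy' hy2
    rw [hinv.2 hy2] at hy'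
    exact hy'.symm
  · have h2 := hat.localInverse_apply_image hd' hne
    rw [hzy] at h2
    exact h2.symm

end

end MPc541f6
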