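import Pool.Agent.Lib.MP_c541f6_an.Defs
import Pool.Agent.Lib.MP_c541f6_an.Conj

/-!
# A one-sided bound on the displacement is an equality
-/

open Complex Set Filter Topology Metric MeasureTheory

namespace MPc541f6

noncomputable section

open DiskMap

/-- Change of variables for an area-preserving map on an invariant set. -/
lemma DiskMap.integral_comp {f : ℂ → ℂ} {Θ : ℝ × ℝ → ℝ} (h : DiskMap f Θ) {U : Set ℂ}
    (hU : MeasurableSet U) (hUb : U ⊆ ball 0 1) (hinv : f '' U = U) (g : ℂ → ℝ) :
    ∫ z in U, g (f z) = ∫ z in U, g z := by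
  have h1 := integral_image_eq_integral_abs_det_fderiv_smul (μ := volume) (s := U)
    (f := f) (f' := fun z => fderiv ℝ f z) hU
    (fun z hz => (h.diff z (hUb hz)).hasFDerivAt.hasFDerivWithinAt)
    (h.ball_bij.injOn.mono hUb) g
  rw [hinv] at h1
  rw [h1]
  refine setIntegral_congr_fun hU fun z hz => ?_
  rw [h.det z (hUb hz)]
  simp

lemma DiskMap.integral_comp_iter {f : ℂ → ℂ} {Θ : ℝ × ℝ → ℝ} (h : DiskMap f Θ) {U : Set ℂ}
    (hU : MeasurableSet U) (hUb : U ⊆ ball 0 1) (hinv : f '' U = U) (g : ℂ → ℝ) (n : ℕ) :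
    ∫ z in U, g (f^[n] z) = ∫ z in U, g z := by
  induction n with
  | zero => rfl
  | succ n ih =>
    have h1 := h.integral_comp hU hUb hinv (fun z => g (f^[n] z))
    rw [ih] at h1
    rw [← h1]
    rfl

lemma strip_isClosed : IsClosed strip := by
  have h1 : strip = (fun p : ℝ × ℝ => p.2) ⁻¹' Icc 0 1 := by
    ext p; simp [strip]
  rw [h1]
  exact isClosed_Icc.preimage continuous_snd

/-- Polar coordinates of a point. -/
def polar (z : ℂ) : ℝ × ℝ := (arg z / (2 * Real.pi), ‖z‖)

lemma pol_polar (z : ℂ) : pol (polar z) = z := pol_arg z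

lemma measurable_polar : Measurable polar := by
  unfold polar
  exact (Complex.measurable_arg.div_const _).prodMk measurable_norm

lemma polar_mem {z : ℂ} (hz : z ∈ closedBall (0 : ℂ) 1) : polar z ∈ strip := by
  rw [mem_closedBall_zero_iff] at hz
  exact ⟨norm_nonneg z, hz⟩

/-- **A one-sided bound is an equality.** Let `U` be an open invariant subset of the open disk. If
`H` is a continuous monotone degree one change of the angle in which `f` rotates every point of `U`
by at least its rotation number `α`, then it rotates every point of `U` by exactly `α` in this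
angle. -/
theorem eq_of_ge {f : ℂ → ℂ} {Θ : ℝ × ℝ → ℝ} {α : ℝ} (h : DiskMap f Θ)
    (hrot : HasRotationNumber f Θ α) {U : Set ℂ} (hU : IsOpen U) (hUb : U ⊆ ball 0 1)
    (hinv : f '' U = U) {H : ℝ → ℝ} (hHc : Continuous H) (hHm : StrictMono H)
    (hH1 : ∀ t, H (t + 1) = H t + 1)
    (hge : ∀ p ∈ strip, 0 < p.2 → pol p ∈ U → H p.1 + α ≤ H (Θ p)) :
    ∀ p ∈ strip, 0 < p.2 → pol p ∈ U → H (Θ p) = H p.1 + α := by
  classical
  have hpi := Real.pi_pos
  have hUc : U ⊆ closedBall 0 1 := hUb.trans ball_subset_closedBall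
  have hUm : MeasurableSet U := hU.measurableSet
  set F : ℝ × ℝ → ℝ := fun p => H (Θ p) - H p.1 with hF
  have hFc : ContinuousOn F strip :=
    (hHc.comp_continuousOn h.contΘ).sub (hHc.comp continuous_fst).continuousOn
  have hFper : ∀ p ∈ strip, ∀ k : ℤ, F (p.1 + k, p.2) = F p := by
    intro p hp k
    simp only [hF]
    rw [h.Θ_add_int (t := p.1) (r := p.2) hp k, deg_one_int hH1, deg_one_int hH1]
    ring
  -- `F` is bounded
  obtain ⟨C, hC⟩ : ∃ C : ℝ, ∀ p ∈ strip, |F p| ≤ C := by
    have hK : IsCompact (Icc (0 : ℝ) 1 ×ˢ Icc (0 : ℝ) 1) := isCompact_Icc.prod isCompact_Icc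
    have hKs : Icc (0 : ℝ) 1 ×ˢ Icc (0 : ℝ) 1 ⊆ strip := fun p hp => ⟨hp.2.1, hp.2.2⟩
    obtain ⟨C, hC⟩ := hK.exists_bound_of_continuousOn (hFc.mono hKs)
    refine ⟨C, fun p hp => ?_⟩
    have h1 := hFper p hp (-⌊p.1⌋)
    rw [← h1]
    have h2 : ((p.1 + ((-⌊p.1⌋ : ℤ) : ℝ), p.2) : ℝ × ℝ) ∈ Icc (0 : ℝ) 1 ×ˢ Icc (0 : ℝ) 1 := by
      have h3 := Int.floor_le p.1
      have h4 := (Int.lt_floor_add_one p.1).le
      push_cast
      exact ⟨⟨by simp only; linarith, by simp only; linarith⟩, hp⟩
    exact hC _ h2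
  -- the displacement as a function on the disk
  set δ : ℂ → ℝ := fun z => strip.piecewise F 0 (polar z) with hδ
  have hδm : Measurable δ :=
    (hFc.measurable_piecewise continuousOn_const strip_isClosed.measurableSet).comp
      measurable_polar
  have hδball : ∀ z ∈ closedBall (0 : ℂ) 1, δ z = F (polar z) := fun z hz => by
    simp only [hδ]
    exact Set.piecewise_eq_of_mem _ _ _ (polar_mem hz)
  have hδpol : ∀ p ∈ strip, 0 < p.2 → δ (pol p) = F p := by
    intro p hp hp0
    rw [hδball _ (pol_mem_closedBall hp)]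
    have h1 : pol (p.1, p.2) = pol ((polar (pol p)).1, (polar (pol p)).2) := by
      rw [Prod.mk.eta, Prod.mk.eta, pol_polar]
    obtain ⟨h2, k, hk⟩ := pol_eq_pol hp0 (norm_nonneg _) h1
    have h3 := hFper _ (polar_mem (pol_mem_closedBall hp)) k
    have h2' : (polar (pol p)).2 = p.2 := h2.symm
    rw [← hk, h2'] at h3
    exact h3.symm
  have hδbd : ∀ z ∈ closedBall (0 : ℂ) 1, |δ z| ≤ C := fun z hz => by
    rw [hδball z hz]; exact hC _ (polar_mem hz)
  have hδge : ∀ z ∈ U, z ≠ 0 → α ≤ δ z := fun z hz hz0 => by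
    rw [hδball z (hUc hz)]
    have := hge _ (polar_mem (hUc hz)) (norm_pos_iff.2 hz0) (by rw [pol_polar]; exact hz)
    simp only [hF]
    linarith
  -- Birkhoff sums
  have hsum : ∀ z ∈ ball (0 : ℂ) 1, z ≠ 0 → ∀ n : ℕ,
      ∑ k ∈ Finset.range n, δ (f^[k] z) =
        H (((lift f Θ)^[n] (polar z)).1) - H (polar z).1 := by
    intro z hz hz0 n
    have hzc : z ∈ closedBall (0 : ℂ) 1 := ball_subset_closedBall hz
    have hp := polar_mem hzc
    have hne : ∀ k : ℕ, f^[k] z ≠ 0 := by
      intro k hk
      have h1 : f^[k] z = f^[k] 0 := by rw [hk, (h.iterate k).zero]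
      exact hz0 ((h.iterate k).bij.injOn hzc (by simp) h1)
    induction n with
    | zero => simp
    | succ n ih =>
      rw [Finset.sum_range_succ, ih]
      have h2 : f^[n] z = pol ((lift f Θ)^[n] (polar z)) := by
        rw [h.pol_iter hp, pol_polar]
      have h3 : 0 < ((lift f Θ)^[n] (polar z)).2 := by
        have h4 := norm_pol' (h.iter_mem hp n).1
        rw [← h2] at h4
        rw [← h4]
        exact norm_pos_iff.2 (hne n)
      rw [h2, hδpol _ (h.iter_mem hp n) h3, Function.iterate_succ_apply']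
      simp only [hF]
      have h5 : (lift f Θ ((lift f Θ)^[n] (polar z))).1 = Θ ((lift f Θ)^[n] (polar z)) := rfl
      rw [h5]
      ring
  have hlim : ∀ z ∈ ball (0 : ℂ) 1, z ≠ 0 →
      Tendsto (fun n : ℕ => (∑ k ∈ Finset.range n, δ (f^[k] z)) / n) atTop (𝓝 α) := by
    intro z hz hz0
    have hzc : z ∈ closedBall (0 : ℂ) 1 := ball_subset_closedBall hz
    have hr := hrot _ (polar_mem hzc)
    set B : ℝ := |H 0| + 1 + |H (polar z).1| with hB
    have h1 : Tendsto (fun n : ℕ => (∑ k ∈ Finset.range n, δ (f^[k] z)) / n -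
        ((lift f Θ)^[n] (polar z)).1 / n) atTop (𝓝 0) := by
      have h2 : Tendsto (fun n : ℕ => B / (n : ℝ)) atTop (𝓝 0) :=
        tendsto_const_div_atTop_nhds_zero_nat _
      refine squeeze_zero_norm' ?_ h2
      filter_upwards [eventually_gt_atTop 0] with n hn
      have hn' : (0 : ℝ) < n := by exact_mod_cast hn
      rw [hsum z hz hz0 n, ← sub_div, norm_div, Real.norm_eq_abs, Real.norm_eq_abs,
        abs_of_pos hn']
      refine div_le_div_of_nonneg_right ?_ hn'.le
      have h3 := deg_one_bound hHm.monotone hH1 (((lift f Θ)^[n] (polar z)).1)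
      have h4 : H (((lift f Θ)^[n] (polar z)).1) - H (polar z).1 -
          ((lift f Θ)^[n] (polar z)).1 =
          (H (((lift f Θ)^[n] (polar z)).1) - ((lift f Θ)^[n] (polar z)).1) +
            -(H (polar z).1) := by ring
      rw [h4]
      refine (abs_add_le _ _).trans ?_
      rw [abs_neg]
      linarith
    have h5 := h1.add hr
    simpa using h5
  -- integrals
  have hfin : IsFiniteMeasure (volume.restrict U) :=
    ⟨by
      rw [Measure.restrict_apply_univ]
      exact (measure_mono hUb).trans_lt measure_ball_lt_top⟩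
  have hmeas : ∀ k : ℕ, AEStronglyMeasurable (fun z => δ (f^[k] z)) (volume.restrict U) := by
    intro k
    have h1 : AEMeasurable (f^[k]) (volume.restrict U) :=
      ((h.iterate k).cont.mono hUc).aemeasurable hUm
    exact (hδm.comp_aemeasurable h1).aestronglyMeasurable
  have hbd : ∀ k : ℕ, ∀ z ∈ U, |δ (f^[k] z)| ≤ C := fun k z hz =>
    hδbd _ ((h.iterate k).bij.mapsTo (hUc hz))
  have hinteg : ∀ k : ℕ, Integrable (fun z => δ (f^[k] z)) (volume.restrict U) := by
    intro k
    refine Integrable.of_bound (hmeas k) C ?_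
    exact (ae_restrict_iff' hUm).2 (Eventually.of_forall fun z hz => hbd k z hz)
  have hint : ∀ n : ℕ, 0 < n →
      ∫ z in U, (∑ k ∈ Finset.range n, δ (f^[k] z)) / n = ∫ z in U, δ z := by
    intro n hn
    have hn' : (n : ℝ) ≠ 0 := by exact_mod_cast hn.ne'
    rw [integral_div, integral_finsetSum _ fun k _ => hinteg k]
    have h1 : ∀ k ∈ Finset.range n, ∫ z in U, δ (f^[k] z) = ∫ z in U, δ z :=
      fun k _ => h.integral_comp_iter hUm hUb hinv δ k
    rw [Finset.sum_congr rfl h1, Finset.sum_const, Finset.card_range, nsmul_eq_mul]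
    field_simp
  have htend : Tendsto (fun n : ℕ =>
      ∫ z in U, (∑ k ∈ Finset.range n, δ (f^[k] z)) / n) atTop (𝓝 (∫ _z in U, α)) := by
    refine tendsto_integral_of_dominated_convergence (fun _ => C) ?_ (integrable_const C) ?_ ?_
    · intro n
      have h1 : AEStronglyMeasurable (fun z => ∑ k ∈ Finset.range n, δ (f^[k] z))
          (volume.restrict U) :=
        Finset.aestronglyMeasurable_fun_sum _ fun k _ => hmeas k
      simpa [div_eq_mul_inv] using h1.mul_const ((n : ℝ)⁻¹)
    · intro n
      refine (ae_restrict_iff' hUm).2 (Eventually.of_forall fun z hz => ?_)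
      rcases Nat.eq_zero_or_pos n with hn | hn
      · subst hn
        simp
        exact (abs_nonneg _).trans (hbd 0 z hz)
      · have hn' : (0 : ℝ) < n := by exact_mod_cast hn
        rw [norm_div, Real.norm_eq_abs, Real.norm_eq_abs, abs_of_pos hn', div_le_iff₀ hn']
        calc |∑ k ∈ Finset.range n, δ (f^[k] z)| ≤ ∑ k ∈ Finset.range n, |δ (f^[k] z)| :=
              Finset.abs_sum_le_sum_abs _ _
          _ ≤ ∑ _k ∈ Finset.range n, C := Finset.sum_le_sum fun k _ => hbd k z hz
          _ = C * n := by rw [Finset.sum_const, Finset.card_range, nsmul_eq_mul, mul_comm]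
    · have h0 : ∀ᵐ z ∂(volume.restrict U), z ≠ 0 :=
        ae_restrict_of_ae (Measure.ae_ne volume 0)
      filter_upwards [h0, ae_restrict_mem hUm] with z hz0 hz
      exact hlim z (hUb hz) hz0
  have hintδ : ∫ z in U, δ z = ∫ _z in U, α := by
    refine tendsto_nhds_unique ?_ htend
    refine tendsto_const_nhds.congr' ?_
    filter_upwards [eventually_gt_atTop 0] with n hn
    exact (hint n hn).symm
  have hae : δ =ᵐ[volume.restrict U] fun _ => α := by
    have h1 : ∫ z in U, (δ z - α) = 0 := by
      have hi0 : Integrable δ (volume.restrict U) := hinteg 0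
      rw [integral_sub hi0 (integrable_const α)]
      exact sub_eq_zero.2 hintδ
    have h2 : (0 : ℂ → ℝ) ≤ᵐ[volume.restrict U] fun z => δ z - α := by
      have h0 : ∀ᵐ z ∂(volume.restrict U), z ≠ 0 :=
        ae_restrict_of_ae (Measure.ae_ne volume 0)
      filter_upwards [h0, ae_restrict_mem hUm] with z hz0 hz
      exact sub_nonneg.2 (hδge z hz hz0)
    have h3 := (integral_eq_zero_iff_of_nonneg_ae h2
      ((hinteg 0).sub (integrable_const α))).1 h1
    filter_upwards [h3] with z hz
    have h4 : δ z - α = 0 := hz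
    linarith
  -- equality on the slit set
  have hslit : ∀ z ∈ U ∩ slitPlane, δ z = α := by
    have hopen : IsOpen (U ∩ slitPlane) := hU.inter isOpen_slitPlane
    have h1 : δ =ᵐ[volume.restrict (U ∩ slitPlane)] fun _ => α :=
      ae_restrict_of_ae_restrict_of_subset inter_subset_left hae
    have h2 : ContinuousOn δ (U ∩ slitPlane) := by
      have h3 : ContinuousOn (fun z => F (polar z)) (U ∩ slitPlane) := by
        refine hFc.comp ?_ fun z hz => polar_mem (hUc hz.1)
        intro z hz
        refine ContinuousAt.continuousWithinAt ?_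
        unfold polar
        exact ((Complex.continuousAt_arg hz.2).div_const _).prodMk continuous_norm.continuousAt
      exact h3.congr fun z hz => hδball z (hUc hz.1)
    exact Measure.eqOn_open_of_ae_eq h1 hopen h2 continuousOn_const
  -- equality on `U`
  intro p hp hr0 hpU
  obtain ⟨t, r⟩ := p
  simp only at hr0
  have hs : ∀ t : ℝ, (t, r) ∈ strip := fun t => hp
  have hcont : Continuous fun t : ℝ => F (t, r) := by
    rw [← continuousOn_univ]
    exact hFc.comp (by fun_prop) fun t _ => hs t
  have hdense : Dense (range (fun k : ℤ => (1 / 2 : ℝ) + k))ᶜ :=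
    (countable_range _).dense_compl ℝ
  have hV : IsOpen {s : ℝ | pol (s, r) ∈ U} :=
    hU.preimage (continuous_pol.comp (by fun_prop))
  have hsub : {s : ℝ | pol (s, r) ∈ U} ∩ (range (fun k : ℤ => (1 / 2 : ℝ) + k))ᶜ ⊆
      {s : ℝ | F (s, r) = α} := by
    rintro s ⟨hsU, hsr⟩
    have h1 : pol (s, r) ∈ slitPlane := by
      rw [Complex.mem_slitPlane_iff_arg]
      constructor
      · intro harg
        apply hsr
        have h2 : pol (s, r) = -((‖pol (s, r)‖ : ℝ) : ℂ) := by
          conv_lhs => rw [← Complex.norm_mul_exp_arg_mul_I (pol (s, r))]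
          rw [harg, Complex.exp_pi_mul_I]
          ring
        rw [norm_pol' (p := (s, r)) hr0.le] at h2
        have h3 : e s = e (1 / 2) := by
          rw [e_half]
          have h4 : (r : ℂ) ≠ 0 := by exact_mod_cast hr0.ne'
          have h5 : (r : ℂ) * e s = (r : ℂ) * (-1) := by
            have : pol (s, r) = (r : ℂ) * e s := rfl
            rw [← this, h2]; simp
          exact mul_left_cancel₀ h4 h5
        obtain ⟨k, hk⟩ := e_eq_e_iff.1 h3
        exact ⟨k, hk.symm⟩
      · rw [← norm_pos_iff, norm_pol' (p := (s, r)) hr0.le]; exact hr0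
    have h7 := hslit _ ⟨hsU, h1⟩
    rw [hδpol _ (hs s) hr0] at h7
    exact h7
  have hclosed : IsClosed {s : ℝ | F (s, r) = α} := isClosed_eq hcont continuous_const
  have h8 : t ∈ closure ({s : ℝ | pol (s, r) ∈ U} ∩
      (range (fun k : ℤ => (1 / 2 : ℝ) + k))ᶜ) :=
    hdense.open_subset_closure_inter hV hpU
  have h9 : F (t, r) = α := hclosed.closure_subset_iff.2 hsub h8
  simp only [hF] at h9
  linarith

end

end MPc541f6
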