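import Pool.Agent.Lib.MP_c541f6_an.HDefs
import Pool.Agent.Lib.MP_c541f6_an.Mean

/-!
# Maps preserving a density which rotate every point by at least the rotation number
-/

open Complex Set Filter Topology Metric MeasureTheory

namespace MPc541f6

noncomputable section

open DensMap

variable {J : ℂ → ℝ} {f : ℂ → ℂ} {Θ : ℝ × ℝ → ℝ} {α : ℝ}

lemma DensMap.integral_comp (h : DensMap J f Θ) (hpos : ∀ z, 0 < J z) (g : ℂ → ℝ) :
    ∫ z in ball (0 : ℂ) 1, g (f z) * J z = ∫ z in ball (0 : ℂ) 1, g z * J z := by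
  have h1 := integral_image_eq_integral_abs_det_fderiv_smul (μ := volume) (s := ball (0 : ℂ) 1)
    (f := f) (f' := fun z => fderiv ℝ f z) measurableSet_ball
    (fun z hz => (h.diff z hz).hasFDerivAt.hasFDerivWithinAt)
    h.ball_bij.injOn (fun z => g z * J z)
  rw [h.ball_bij.image_eq] at h1
  rw [h1]
  refine setIntegral_congr_fun measurableSet_ball fun z hz => ?_
  have h2 := h.det z hz
  have h3 : 0 < (fderiv ℝ f z).det := by
    by_contra hcon
    have h4 : J (f z) * (fderiv ℝ f z).det ≤ 0 :=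
      mul_nonpos_of_nonneg_of_nonpos (hpos _).le (not_lt.1 hcon)
    rw [h2] at h4
    exact absurd (hpos z) (not_lt.2 h4)
  simp only [smul_eq_mul]
  rw [abs_of_pos h3, ← h2]
  ring

lemma DensMap.integral_comp_iter (h : DensMap J f Θ) (hpos : ∀ z, 0 < J z) (g : ℂ → ℝ) (n : ℕ) :
    ∫ z in ball (0 : ℂ) 1, g (f^[n] z) * J z = ∫ z in ball (0 : ℂ) 1, g z * J z := by
  induction n with
  | zero => rfl
  | succ n ih =>
    have h1 := h.integral_comp hpos (fun z => g (f^[n] z))
    rw [ih] at h1
    rw [← h1]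
    rfl

/-- If `f` preserves the density `J` and rotates every point, in the angle `H`, by at least its
rotation number `α`, then it rotates every point by exactly `α` in this angle. -/
theorem DensMap.eq_of_ge (h : DensMap J f Θ) (hJ : Continuous J) (hpos : ∀ z, 0 < J z)
    (hrot : HasRotationNumber f Θ α) {H : ℝ → ℝ} (hHc : Continuous H) (hHm : StrictMono H)
    (hH1 : ∀ t, H (t + 1) = H t + 1) (hge : ∀ p ∈ strip, H p.1 + α ≤ H (Θ p)) :
    ∀ p ∈ strip, H (Θ p) = H p.1 + α := by
  classical
  have hpi := Real.pi_pos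
  have hUc : ball (0 : ℂ) 1 ⊆ closedBall 0 1 := ball_subset_closedBall
  have hUm : MeasurableSet (ball (0 : ℂ) 1) := measurableSet_ball
  set F : ℝ × ℝ → ℝ := fun p => H (Θ p) - H p.1 with hF
  have hFc : ContinuousOn F strip :=
    (hHc.comp_continuousOn h.contΘ).sub (hHc.comp continuous_fst).continuousOn
  have hFper : ∀ p ∈ strip, ∀ k : ℤ, F (p.1 + k, p.2) = F p := by
    intro p hp k
    simp only [hF]
    rw [h.Θ_add_int (t := p.1) (r := p.2) hp k, deg_one_int hH1, deg_one_int hH1]
    ring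
  -- `F` is bounded
  obtain ⟨C, hC⟩ : ∃ C : ℝ, ∀ p ∈ strip, |F p| ≤ C := by
    have hK : IsCompact (Icc (0 : ℝ) 1 ×ˢ Icc (0 : ℝ) 1) := isCompact_Icc.prod isCompact_Icc
    have hKs : Icc (0 : ℝ) 1 ×ˢ Icc (0 : ℝ) 1 ⊆ strip := fun p hp => ⟨hp.2.1, hp.2.2⟩
    obtain ⟨C, hC⟩ := hK.exists_bound_of_continuousOn (hFc.mono hKs)
    refine ⟨C, fun p hp => ?_⟩
    have h1 := hFper p hp (-⌊p.1⌋)
    rw [← h1]
    have h2 : ((p.1 + ((-⌊p.1⌋ : ℤ) : ℝ), p.2) : ℝ × ℝ) ∈ Icc (0 : ℝ) 1 ×ˢ Icc (0 : ℝ) 1 := by
      have h3 := Int.floor_le p.1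
      have h4 := (Int.lt_floor_add_one p.1).le
      push_cast
      exact ⟨⟨by simp only; linarith, by simp only; linarith⟩, hp⟩
    exact hC _ h2
  -- the displacement as a function on the disk
  set δ : ℂ → ℝ := fun z => strip.piecewise F 0 (polar z) with hδ
  have hδm : Measurable δ :=
    (hFc.measurable_piecewise continuousOn_const strip_isClosed.measurableSet).comp
      measurable_polar
  have hδball : ∀ z ∈ closedBall (0 : ℂ) 1, δ z = F (polar z) := fun z hz => by
    simp only [hδ]
    exact Set.piecewise_eq_of_mem _ _ _ (polar_mem hz)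
  have hδpol : ∀ p ∈ strip, 0 < p.2 → δ (pol p) = F p := by
    intro p hp hp0
    rw [hδball _ (DiskMap.pol_mem_closedBall hp)]
    have h1 : pol (p.1, p.2) = pol ((polar (pol p)).1, (polar (pol p)).2) := by
      rw [Prod.mk.eta, Prod.mk.eta, pol_polar]
    obtain ⟨h2, k, hk⟩ := pol_eq_pol hp0 (norm_nonneg _) h1
    have h3 := hFper _ (polar_mem (DiskMap.pol_mem_closedBall hp)) k
    have h2' : (polar (pol p)).2 = p.2 := h2.symm
    rw [← hk, h2'] at h3
    exact h3.symm
  have hδbd : ∀ z ∈ closedBall (0 : ℂ) 1, |δ z| ≤ C := fun z hz => by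
    rw [hδball z hz]; exact hC _ (polar_mem hz)
  have hδge : ∀ z ∈ ball (0 : ℂ) 1, α ≤ δ z := fun z hz => by
    rw [hδball z (hUc hz)]
    have := hge _ (polar_mem (hUc hz))
    simp only [hF]
    linarith
  -- Birkhoff sums
  have hsum : ∀ z ∈ ball (0 : ℂ) 1, z ≠ 0 → ∀ n : ℕ,
      ∑ k ∈ Finset.range n, δ (f^[k] z) =
        H (((lift f Θ)^[n] (polar z)).1) - H (polar z).1 := by
    intro z hz hz0 n
    have hzc : z ∈ closedBall (0 : ℂ) 1 := ball_subset_closedBall hz
    have hp := polar_mem hzc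
    have hne : ∀ k : ℕ, f^[k] z ≠ 0 := by
      intro k hk
      have h1 : f^[k] z = f^[k] 0 := by rw [hk, h.iter_fix k]
      exact hz0 ((h.iter_bij k).injOn hzc (by simp) h1)
    induction n with
    | zero => simp
    | succ n ih =>
      rw [Finset.sum_range_succ, ih]
      have h2 : f^[n] z = pol ((lift f Θ)^[n] (polar z)) := by
        rw [h.pol_iter hp, pol_polar]
      have h3 : 0 < ((lift f Θ)^[n] (polar z)).2 := by
        have h4 := norm_pol' (h.iter_mem hp n).1
        rw [← h2] at h4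
        rw [← h4]
        exact norm_pos_iff.2 (hne n)
      rw [h2, hδpol _ (h.iter_mem hp n) h3, Function.iterate_succ_apply']
      simp only [hF]
      have h5 : (lift f Θ ((lift f Θ)^[n] (polar z))).1 = Θ ((lift f Θ)^[n] (polar z)) := rfl
      rw [h5]
      ring
  have hlim : ∀ z ∈ ball (0 : ℂ) 1, z ≠ 0 →
      Tendsto (fun n : ℕ => (∑ k ∈ Finset.range n, δ (f^[k] z)) / n) atTop (𝓝 α) := by
    intro z hz hz0
    have hzc : z ∈ closedBall (0 : ℂ) 1 := ball_subset_closedBall hz
    have hr := hrot _ (polar_mem hzc)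
    set B : ℝ := |H 0| + 1 + |H (polar z).1| with hB
    have h1 : Tendsto (fun n : ℕ => (∑ k ∈ Finset.range n, δ (f^[k] z)) / n -
        ((lift f Θ)^[n] (polar z)).1 / n) atTop (𝓝 0) := by
      have h2 : Tendsto (fun n : ℕ => B / (n : ℝ)) atTop (𝓝 0) :=
        tendsto_const_div_atTop_nhds_zero_nat _
      refine squeeze_zero_norm' ?_ h2
      filter_upwards [eventually_gt_atTop 0] with n hn
      have hn' : (0 : ℝ) < n := by exact_mod_cast hn
      rw [hsum z hz hz0 n, ← sub_div, norm_div, Real.norm_eq_abs, Real.norm_eq_abs,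
        abs_of_pos hn']
      refine div_le_div_of_nonneg_right ?_ hn'.le
      have h3 := deg_one_bound hHm.monotone hH1 (((lift f Θ)^[n] (polar z)).1)
      have h4 : H (((lift f Θ)^[n] (polar z)).1) - H (polar z).1 -
          ((lift f Θ)^[n] (polar z)).1 =
          (H (((lift f Θ)^[n] (polar z)).1) - ((lift f Θ)^[n] (polar z)).1) +
            -(H (polar z).1) := by ring
      rw [h4]
      refine (abs_add_le _ _).trans ?_
      rw [abs_neg]
      linarith
    have h5 := h1.add hr
    simpa using h5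
  -- integrals
  have hfin : IsFiniteMeasure (volume.restrict (ball (0 : ℂ) 1)) :=
    ⟨by rw [Measure.restrict_apply_univ]; exact measure_ball_lt_top⟩
  obtain ⟨B, hB⟩ : ∃ B : ℝ, ∀ z ∈ closedBall (0 : ℂ) 1, |J z| ≤ B := by
    obtain ⟨B, hB⟩ := (isCompact_closedBall (0 : ℂ) 1).exists_bound_of_continuousOn
      hJ.continuousOn
    exact ⟨B, fun z hz => hB z hz⟩
  have hC0 : 0 ≤ C := (abs_nonneg _).trans (hδbd 0 (by simp))
  have hmeas : ∀ k : ℕ, AEStronglyMeasurable (fun z => δ (f^[k] z) * J z)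
      (volume.restrict (ball (0 : ℂ) 1)) := by
    intro k
    have h1 : AEMeasurable (f^[k]) (volume.restrict (ball (0 : ℂ) 1)) :=
      ((h.iter_cont k).mono hUc).aemeasurable hUm
    exact (hδm.comp_aemeasurable h1).aestronglyMeasurable.mul hJ.aestronglyMeasurable
  have hbd : ∀ k : ℕ, ∀ z ∈ ball (0 : ℂ) 1, |δ (f^[k] z)| ≤ C := fun k z hz =>
    hδbd _ ((h.iter_bij k).mapsTo (hUc hz))
  have hbd2 : ∀ k : ℕ, ∀ z ∈ ball (0 : ℂ) 1, |δ (f^[k] z) * J z| ≤ C * B := fun k z hz => by
    rw [abs_mul]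
    exact mul_le_mul (hbd k z hz) (hB z (hUc hz)) (abs_nonneg _) hC0
  have hinteg : ∀ k : ℕ, Integrable (fun z => δ (f^[k] z) * J z)
      (volume.restrict (ball (0 : ℂ) 1)) := by
    intro k
    refine Integrable.of_bound (hmeas k) (C * B) ?_
    exact (ae_restrict_iff' hUm).2 (Eventually.of_forall fun z hz => hbd2 k z hz)
  have hJint : Integrable (fun z => α * J z) (volume.restrict (ball (0 : ℂ) 1)) := by
    refine Integrable.of_bound (by fun_prop) (|α| * B) ?_
    refine (ae_restrict_iff' hUm).2 (Eventually.of_forall fun z hz => ?_)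
    rw [Real.norm_eq_abs, abs_mul]
    exact mul_le_mul_of_nonneg_left (hB z (hUc hz)) (abs_nonneg _)
  have hint : ∀ n : ℕ, 0 < n →
      ∫ z in ball (0 : ℂ) 1, (∑ k ∈ Finset.range n, δ (f^[k] z)) / n * J z =
        ∫ z in ball (0 : ℂ) 1, δ z * J z := by
    intro n hn
    have hn' : (n : ℝ) ≠ 0 := by exact_mod_cast hn.ne'
    have h0 : ∀ z, (∑ k ∈ Finset.range n, δ (f^[k] z)) / n * J z =
        (∑ k ∈ Finset.range n, δ (f^[k] z) * J z) / n := by
      intro z
      rw [← Finset.sum_mul]
      ring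
    simp_rw [h0]
    rw [integral_div, integral_finsetSum _ fun k _ => hinteg k]
    have h1 : ∀ k ∈ Finset.range n, ∫ z in ball (0 : ℂ) 1, δ (f^[k] z) * J z =
        ∫ z in ball (0 : ℂ) 1, δ z * J z := fun k _ => h.integral_comp_iter hpos δ k
    rw [Finset.sum_congr rfl h1, Finset.sum_const, Finset.card_range, nsmul_eq_mul]
    field_simp
  have htend : Tendsto (fun n : ℕ =>
      ∫ z in ball (0 : ℂ) 1, (∑ k ∈ Finset.range n, δ (f^[k] z)) / n * J z) atTop
      (𝓝 (∫ z in ball (0 : ℂ) 1, α * J z)) := by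
    refine tendsto_integral_of_dominated_convergence (fun _ => C * B) ?_ (integrable_const _)
      ?_ ?_
    · intro n
      have h0 : (fun z => (∑ k ∈ Finset.range n, δ (f^[k] z)) / n * J z) =
          fun z => (∑ k ∈ Finset.range n, δ (f^[k] z) * J z) * (n : ℝ)⁻¹ := by
        funext z
        rw [← Finset.sum_mul]
        ring
      rw [h0]
      have h1 : AEStronglyMeasurable (fun z => ∑ k ∈ Finset.range n, δ (f^[k] z) * J z)
          (volume.restrict (ball (0 : ℂ) 1)) :=
        Finset.aestronglyMeasurable_fun_sum _ fun k _ => hmeas k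
      exact h1.mul_const _
    · intro n
      refine (ae_restrict_iff' hUm).2 (Eventually.of_forall fun z hz => ?_)
      rw [Real.norm_eq_abs, abs_mul]
      refine mul_le_mul ?_ (hB z (hUc hz)) (abs_nonneg _) hC0
      rcases Nat.eq_zero_or_pos n with hn | hn
      · subst hn
        simp
        exact (abs_nonneg _).trans (hbd 0 z hz)
      · have hn' : (0 : ℝ) < n := by exact_mod_cast hn
        rw [abs_div, abs_of_pos hn', div_le_iff₀ hn']
        calc |∑ k ∈ Finset.range n, δ (f^[k] z)| ≤ ∑ k ∈ Finset.range n, |δ (f^[k] z)| :=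
              Finset.abs_sum_le_sum_abs _ _
          _ ≤ ∑ _k ∈ Finset.range n, C := Finset.sum_le_sum fun k _ => hbd k z hz
          _ = C * n := by rw [Finset.sum_const, Finset.card_range, nsmul_eq_mul, mul_comm]
    · have h0 : ∀ᵐ z ∂(volume.restrict (ball (0 : ℂ) 1)), z ≠ 0 :=
        ae_restrict_of_ae (Measure.ae_ne volume 0)
      filter_upwards [h0, ae_restrict_mem hUm] with z hz0 hz
      exact (hlim z hz hz0).mul_const _
  have hintδ : ∫ z in ball (0 : ℂ) 1, δ z * J z = ∫ z in ball (0 : ℂ) 1, α * J z := by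
    refine tendsto_nhds_unique ?_ htend
    refine tendsto_const_nhds.congr' ?_
    filter_upwards [eventually_gt_atTop 0] with n hn
    exact (hint n hn).symm
  have hae : δ =ᵐ[volume.restrict (ball (0 : ℂ) 1)] fun _ => α := by
    have hi0 : Integrable (fun z => δ z * J z) (volume.restrict (ball (0 : ℂ) 1)) := hinteg 0
    have h1 : ∫ z in ball (0 : ℂ) 1, (δ z * J z - α * J z) = 0 := by
      rw [integral_sub hi0 hJint]
      exact sub_eq_zero.2 hintδ
    have h2 : (0 : ℂ → ℝ) ≤ᵐ[volume.restrict (ball (0 : ℂ) 1)]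
        fun z => δ z * J z - α * J z := by
      filter_upwards [ae_restrict_mem hUm] with z hz
      exact sub_nonneg.2 (mul_le_mul_of_nonneg_right (hδge z hz) (hpos z).le)
    have h3 := (integral_eq_zero_iff_of_nonneg_ae h2 (hi0.sub hJint)).1 h1
    filter_upwards [h3] with z hz
    have h4 : δ z * J z - α * J z = 0 := hz
    have h5 : (δ z - α) * J z = 0 := by linarith
    rcases mul_eq_zero.1 h5 with h6 | h6
    · linarith
    · exact absurd h6 (hpos z).ne'
  -- equality on the slit disk
  have hslit : ∀ z ∈ ball (0 : ℂ) 1 ∩ slitPlane, δ z = α := by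
    have hopen : IsOpen (ball (0 : ℂ) 1 ∩ slitPlane) := isOpen_ball.inter isOpen_slitPlane
    have h1 : δ =ᵐ[volume.restrict (ball (0 : ℂ) 1 ∩ slitPlane)] fun _ => α :=
      ae_restrict_of_ae_restrict_of_subset inter_subset_left hae
    have h2 : ContinuousOn δ (ball (0 : ℂ) 1 ∩ slitPlane) := by
      have h3 : ContinuousOn (fun z => F (polar z)) (ball (0 : ℂ) 1 ∩ slitPlane) := by
        refine hFc.comp ?_ fun z hz => polar_mem (ball_subset_closedBall hz.1)
        intro z hz
        refine ContinuousAt.continuousWithinAt ?_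
        unfold polar
        exact ((Complex.continuousAt_arg hz.2).div_const _).prodMk continuous_norm.continuousAt
      exact h3.congr fun z hz => hδball z (ball_subset_closedBall hz.1)
    exact Measure.eqOn_open_of_ae_eq h1 hopen h2 continuousOn_const
  -- equality for all interior radii
  have hmid : ∀ r : ℝ, 0 < r → r < 1 → ∀ t : ℝ, F (t, r) = α := by
    intro r hr0 hr1
    have hs : ∀ t : ℝ, (t, r) ∈ strip := fun t => ⟨hr0.le, hr1.le⟩
    have hcont : Continuous fun t : ℝ => F (t, r) := by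
      rw [← continuousOn_univ]
      exact hFc.comp (by fun_prop) fun t _ => hs t
    have hdense : Dense (range (fun k : ℤ => (1 / 2 : ℝ) + k))ᶜ :=
      (countable_range _).dense_compl ℝ
    have heq := Continuous.ext_on hdense hcont (continuous_const (y := α)) (by
      intro t ht
      have h1 : pol (t, r) ∈ slitPlane := by
        rw [Complex.mem_slitPlane_iff_arg]
        constructor
        · intro harg
          apply ht
          have h2 : pol (t, r) = -((‖pol (t, r)‖ : ℝ) : ℂ) := by
            conv_lhs => rw [← Complex.norm_mul_exp_arg_mul_I (pol (t, r))]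
            rw [harg, Complex.exp_pi_mul_I]
            ring
          rw [norm_pol' (p := (t, r)) hr0.le] at h2
          have h3 : e t = e (1 / 2) := by
            rw [e_half]
            have h4 : (r : ℂ) ≠ 0 := by exact_mod_cast hr0.ne'
            have h5 : (r : ℂ) * e t = (r : ℂ) * (-1) := by
              have : pol (t, r) = (r : ℂ) * e t := rfl
              rw [← this, h2]; simp
            exact mul_left_cancel₀ h4 h5
          obtain ⟨k, hk⟩ := e_eq_e_iff.1 h3
          exact ⟨k, hk.symm⟩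
        · rw [← norm_pos_iff, norm_pol' (p := (t, r)) hr0.le]; exact hr0
      have h6 : pol (t, r) ∈ ball (0 : ℂ) 1 := by
        rw [mem_ball_zero_iff, norm_pol' (p := (t, r)) hr0.le]; exact hr1
      have h7 := hslit _ ⟨h6, h1⟩
      rw [hδpol _ (hs t) hr0] at h7
      exact h7)
    intro t
    exact congrFun heq t
  -- equality everywhere
  intro p hp
  have hp2 : F p = α := by
    have h1 : EqOn (fun r : ℝ => F (p.1, r)) (fun _ => α) (Ioo 0 1) := fun r hr =>
      hmid r hr.1 hr.2 p.1
    have h2 : ContinuousOn (fun r : ℝ => F (p.1, r)) (Icc 0 1) :=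
      hFc.comp (by fun_prop) fun r hr => hr
    have h3 := h1.of_subset_closure h2 continuousOn_const Ioo_subset_Icc_self
      (by rw [closure_Ioo (by norm_num : (0 : ℝ) ≠ 1)])
    exact h3 hp
  simp only [hF] at hp2
  linarith

end

end MPc541f6
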