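import Mathlib

/-!
# Smoothness of radial averages
-/

open Set Filter Topology Metric MeasureTheory

namespace MPc541f6

noncomputable section

/-- Parametric integrals along rays are smooth. -/
theorem contDiff_ray_integral (n : ℕ) : ∀ {G : Type} [NormedAddCommGroup G] [NormedSpace ℝ G]
    [CompleteSpace G] (K : ℂ → G), ContDiff ℝ n K → ∀ φ : ℝ → ℝ, Continuous φ →
    ContDiff ℝ n (fun z : ℂ => ∫ s in (0 : ℝ)..1, φ s • K (s • z)) := by
  induction n with
  | zero =>
    intro G _ _ _ K hK φ hφ
    have hKc : Continuous K := hK.continuous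
    simp only [Nat.cast_zero] at hK ⊢
    rw [contDiff_zero]
    refine intervalIntegral.continuous_parametric_intervalIntegral_of_continuous' ?_ 0 1
    have : Continuous fun p : ℂ × ℝ => φ p.2 • K (p.2 • p.1) := by fun_prop
    exact this
  | succ n ih =>
    intro G _ _ _ K hK φ hφ
    have hK1 : ContDiff ℝ ((n : ℕ∞) + 1 : ℕ∞) K := by exact_mod_cast hK
    have hKd : Differentiable ℝ K := hK.differentiable (by simp)
    have hKc : Continuous K := hK.continuous
    have hDK : ContDiff ℝ n (fderiv ℝ K) := by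
      refine hK.fderiv_right ?_
      push_cast
      exact le_rfl
    have hDKc : Continuous (fderiv ℝ K) := hDK.continuous
    push_cast
    rw [contDiff_succ_iff_hasFDerivAt]
    refine ⟨fun z => ∫ s in (0 : ℝ)..1, (φ s * s) • fderiv ℝ K (s • z),
      ih (fderiv ℝ K) hDK (fun s => φ s * s) (by fun_prop), fun z₀ => ?_⟩
    -- a bound for the derivative
    have hcompact : IsCompact (Icc (0 : ℝ) 1 ×ˢ closedBall z₀ 1) :=
      isCompact_Icc.prod (isCompact_closedBall z₀ 1)
    have hcont : Continuous fun p : ℝ × ℂ => (φ p.1 * p.1) • fderiv ℝ K (p.1 • p.2) := by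
      fun_prop
    obtain ⟨C, hC⟩ := hcompact.exists_bound_of_continuousOn hcont.continuousOn
    have hderiv : ∀ (s : ℝ) (z : ℂ),
        HasFDerivAt (fun z => φ s • K (s • z)) ((φ s * s) • fderiv ℝ K (s • z)) z := by
      intro s z
      have h1 : HasFDerivAt (fun z : ℂ => s • z) (s • ContinuousLinearMap.id ℝ ℂ) z :=
        (hasFDerivAt_id z).const_smul s
      have h2 := ((hKd (s • z)).hasFDerivAt.comp z h1).const_smul (φ s)
      refine h2.congr_fderiv ?_
      ext v
      simp [mul_smul]
    refine intervalIntegral.hasFDerivAt_integral_of_dominated_of_fderiv_le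
      (s := ball z₀ 1) (bound := fun _ => C) (F' := fun z s => (φ s * s) • fderiv ℝ K (s • z))
      (ball_mem_nhds z₀ one_pos) ?_ ?_ ?_ ?_ ?_ ?_
    · refine Eventually.of_forall fun z => ?_
      have : Continuous fun s : ℝ => φ s • K (s • z) := by fun_prop
      exact this.aestronglyMeasurable
    · have : Continuous fun s : ℝ => φ s • K (s • z₀) := by fun_prop
      exact this.intervalIntegrable _ _
    · have : Continuous fun s : ℝ => (φ s * s) • fderiv ℝ K (s • z₀) := by fun_prop
      exact this.aestronglyMeasurable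
    · refine Eventually.of_forall fun s hs z hz => ?_
      rw [uIoc_of_le zero_le_one] at hs
      exact hC (s, z) ⟨⟨hs.1.le, hs.2⟩, ball_subset_closedBall hz⟩
    · exact intervalIntegrable_const
    · exact Eventually.of_forall fun s _ z _ => hderiv s z

/-- The radial average `∫_0^1 s J(s z) ds`. -/
def jay (J : ℂ → ℝ) (z : ℂ) : ℝ := ∫ s in (0 : ℝ)..1, s * J (s • z)

theorem contDiff_jay {J : ℂ → ℝ} (hJ : ContDiff ℝ ((⊤ : ℕ∞) : WithTop ℕ∞) J) :
    ContDiff ℝ ((⊤ : ℕ∞) : WithTop ℕ∞) (jay J) := by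
  rw [contDiff_infty] at hJ ⊢
  intro n
  have h1 := contDiff_ray_integral n J (hJ n) (fun s => s) continuous_id
  exact h1

theorem jay_pos {J : ℂ → ℝ} (hJ : Continuous J) (hpos : ∀ z, 0 < J z) (z : ℂ) : 0 < jay J z := by
  unfold jay
  have hc : Continuous fun s : ℝ => s * J (s • z) := by fun_prop
  refine intervalIntegral.intervalIntegral_pos_of_pos_on (hc.intervalIntegrable _ _)
    (fun s hs => mul_pos hs.1 (hpos _)) zero_lt_one

/-- `s^2 jay (s z) = ∫_0^s σ J(σ z) dσ`. -/
theorem sq_mul_jay {J : ℂ → ℝ} (z : ℂ) (s : ℝ) :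
    s ^ 2 * jay J (s • z) = ∫ σ in (0 : ℝ)..s, σ * J (σ • z) := by
  unfold jay
  by_cases hs : s = 0
  · simp [hs]
  have h1 := intervalIntegral.integral_comp_mul_right (a := 0) (b := 1)
    (fun σ : ℝ => σ * J (σ • z)) hs
  simp only [zero_mul, one_mul] at h1
  have h2 : ∀ u : ℝ, u * J (u • s • z) = s⁻¹ * ((u * s) * J ((u * s) • z)) := by
    intro u
    rw [smul_smul]
    field_simp
  simp_rw [h2]
  rw [intervalIntegral.integral_const_mul, h1, smul_eq_mul]
  field_simp

/-- The derivative along rays. -/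
theorem hasDerivAt_sq_mul_jay {J : ℂ → ℝ} (hJ : Continuous J) (z : ℂ) (s : ℝ) :
    HasDerivAt (fun s : ℝ => s ^ 2 * jay J (s • z)) (s * J (s • z)) s := by
  have hc : Continuous fun σ : ℝ => σ * J (σ • z) := by fun_prop
  have h1 : HasDerivAt (fun u => ∫ σ in (0 : ℝ)..u, σ * J (σ • z)) (s * J (s • z)) s :=
    intervalIntegral.integral_hasDerivAt_right (hc.intervalIntegrable _ _)
      (hc.stronglyMeasurableAtFilter _ _) hc.continuousAt
  refine h1.congr_of_eventuallyEq ?_
  exact Eventually.of_forall fun s => sq_mul_jay z s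

end

end MPc541f6
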