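import Pool.Agent.Lib.MP_c541f6_an.Mean

/-!
# Rigidity: if every point is rotated at least as much as by the linear part, the map is a rotation
-/

open Complex Set Filter Topology Metric MeasureTheory

namespace MPc541f6

noncomputable section

open DiskMap

lemma hasDerivAt_ray (t r : ℝ) : HasDerivAt (fun ρ : ℝ => pol (t, ρ)) (e t) r := by
  have h1 : HasDerivAt (fun ρ : ℝ => (ρ : ℂ) * e t) (1 * e t) r :=
    ((hasDerivAt_id r).ofReal_comp).mul_const (e t)
  rw [one_mul] at h1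
  exact h1

lemma hasDerivAt_circ (t r : ℝ) :
    HasDerivAt (fun s : ℝ => pol (s, r)) (((2 * Real.pi * r : ℝ) : ℂ) * (I * e t)) t := by
  have h1 := (hasDerivAt_e t).const_mul (r : ℂ)
  have h2 : (r : ℂ) * (((2 * Real.pi : ℝ) : ℂ) * I * e t) =
      ((2 * Real.pi * r : ℝ) : ℂ) * (I * e t) := by push_cast; ring
  rw [h2] at h1
  exact h1

/-- The angle at radius `0` is the angle of the linear part. -/
lemma DiskMap.angle_lin {f : ℂ → ℂ} {Θ : ℝ × ℝ → ℝ} (h : DiskMap f Θ) (t : ℝ) :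
    fderiv ℝ f 0 (e t) = (‖fderiv ℝ f 0 (e t)‖ : ℂ) * e (Θ (t, 0)) := by
  have h0 : (0 : ℂ) ∈ ball (0 : ℂ) 1 := by simp
  have hd : HasDerivAt (fun ρ : ℝ => f (pol (t, ρ))) (fderiv ℝ f 0 (e t)) 0 := by
    have h1 := (h.diff 0 h0).hasFDerivAt
    have h2 : HasFDerivAt f (fderiv ℝ f 0) (pol (t, 0)) := by rw [pol_zero]; exact h1
    exact h2.comp_hasDerivAt 0 (hasDerivAt_ray t 0)
  have h3 : Tendsto (fun ρ : ℝ => ρ⁻¹ • f (pol (t, ρ))) (𝓝[>] 0) (𝓝 (fderiv ℝ f 0 (e t))) := by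
    have h4 := hd.tendsto_slope_zero
    have h5 := h4.mono_left (nhdsWithin_mono 0 (fun x hx => ne_of_gt hx : Ioi (0:ℝ) ⊆ {0}ᶜ))
    refine h5.congr fun ρ => ?_
    rw [zero_add, pol_zero, h.zero, sub_zero]
  have h6 : Tendsto (fun ρ : ℝ => (‖ρ⁻¹ • f (pol (t, ρ))‖ : ℂ) * e (Θ (t, ρ))) (𝓝[>] 0)
      (𝓝 ((‖fderiv ℝ f 0 (e t)‖ : ℂ) * e (Θ (t, 0)))) := by
    refine Tendsto.mul ?_ ?_
    · exact (Complex.continuous_ofReal.tendsto _).comp h3.norm
    · refine (continuous_e.tendsto _).comp ?_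
      have h7 : ContinuousWithinAt Θ strip (t, 0) := h.contΘ (t, 0) ⟨le_refl _, zero_le_one⟩
      have h8 : Tendsto (fun ρ : ℝ => (t, ρ)) (𝓝[>] 0) (𝓝[strip] (t, 0)) := by
        refine tendsto_nhdsWithin_iff.2 ⟨?_, ?_⟩
        · have : Continuous fun ρ : ℝ => (t, ρ) := by fun_prop
          exact (this.tendsto 0).mono_left nhdsWithin_le_nhds
        · filter_upwards [Ioo_mem_nhdsGT (zero_lt_one' ℝ)] with ρ hρ
          exact ⟨hρ.1.le, hρ.2.le⟩
      exact h7.tendsto.comp h8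
  refine tendsto_nhds_unique h3 (h6.congr' ?_)
  filter_upwards [Ioo_mem_nhdsGT (zero_lt_one' ℝ)] with ρ hρ
  have h9 := h.angle (t, ρ) ⟨hρ.1.le, hρ.2.le⟩
  have h10 : pol (lift f Θ (t, ρ)) = (‖f (pol (t, ρ))‖ : ℂ) * e (Θ (t, ρ)) := rfl
  rw [h10] at h9
  have h11 : (‖ρ⁻¹ • f (pol (t, ρ))‖ : ℂ) = (ρ⁻¹ : ℂ) * (‖f (pol (t, ρ))‖ : ℂ) := by
    rw [norm_smul, Real.norm_eq_abs, abs_of_pos (inv_pos.2 hρ.1)]
    push_cast
    ring
  rw [h11, mul_assoc, ← h9, Complex.real_smul]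
  push_cast
  ring

/-- The lift at radius `0`. -/
lemma DiskMap.iter_zero {f : ℂ → ℂ} {Θ : ℝ × ℝ → ℝ} (h : DiskMap f Θ) (t : ℝ) (n : ℕ) :
    (lift f Θ)^[n] (t, 0) = ((fun s => Θ (s, 0))^[n] t, 0) := by
  induction n with
  | zero => rfl
  | succ n ih =>
    rw [Function.iterate_succ_apply', Function.iterate_succ_apply', ih]
    unfold lift
    rw [pol_zero, h.zero, norm_zero]

/-- Facts about the linear part. -/
theorem DiskMap.lin_facts {f : ℂ → ℂ} {Θ : ℝ × ℝ → ℝ} {α : ℝ} (h : DiskMap f Θ)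
    (hrot : HasRotationNumber f Θ α) (hα : Irrational α) :
    (∀ t, HasDerivAt (fun t => Θ (t, 0)) (1 / ‖fderiv ℝ f 0 (e t)‖ ^ 2) t) ∧
      (∀ t, fderiv ℝ f 0 (e t) ≠ 0) ∧
      ∃ H : ℝ → ℝ, Continuous H ∧ StrictMono H ∧ (∀ t, H (t + 1) = H t + 1) ∧
        ∀ t, H (Θ (t, 0)) = H t + α := by
  have h0s : ∀ t : ℝ, (t, (0 : ℝ)) ∈ strip := fun t => ⟨le_refl _, zero_le_one⟩
  have hGc : Continuous fun t => Θ (t, 0) := by
    rw [← continuousOn_univ]
    exact h.contΘ.comp (by fun_prop) fun t _ => h0s t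
  have hG1 : ∀ t, Θ (t + 1, 0) = Θ (t, 0) + 1 := fun t => h.period (t, 0) (h0s t)
  have hrotG : ∀ t, Tendsto (fun n : ℕ => (fun t => Θ (t, 0))^[n] t / n) atTop (𝓝 α) := by
    intro t
    have h1 := hrot (t, 0) (h0s t)
    simpa only [h.iter_zero] using h1
  have h0b : (0 : ℂ) ∈ ball (0 : ℂ) 1 := by simp
  exact exists_conj (fderiv ℝ f 0) (h.det 0 h0b) (fun t => Θ (t, 0)) hGc hG1
    (fun t => h.angle_lin t) α hα hrotG

/-- If `f` rotates every point of an open invariant set at least as much as its linear part at `0`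
does, then it rotates every point of this set exactly as much. -/
theorem theta_eq_of_ge {f : ℂ → ℂ} {Θ : ℝ × ℝ → ℝ} {α : ℝ} (h : DiskMap f Θ)
    (hrot : HasRotationNumber f Θ α) (hα : Irrational α) {U : Set ℂ} (hU : IsOpen U)
    (hUb : U ⊆ ball 0 1) (hinv : f '' U = U)
    (hge : ∀ p ∈ strip, 0 < p.2 → pol p ∈ U → Θ (p.1, 0) ≤ Θ p) :
    ∀ p ∈ strip, 0 < p.2 → pol p ∈ U → Θ p = Θ (p.1, 0) := by
  obtain ⟨-, -, H, hHc, hHm, hH1, hHG⟩ := h.lin_facts hrot hα
  have h1 := eq_of_ge h hrot hU hUb hinv hHc hHm hH1 (fun p hp hp0 hpU => by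
    rw [← hHG]
    exact hHm.monotone (hge p hp hp0 hpU))
  intro p hp hp0 hpU
  refine hHm.injective ?_
  rw [h1 p hp hp0 hpU, hHG]

/-- The key differential identity at a point of an open set on which the angle of `f` is the angle
of its linear part. -/
theorem key_local {f : ℂ → ℂ} {Θ : ℝ × ℝ → ℝ} {α : ℝ} (h : DiskMap f Θ)
    (hrot : HasRotationNumber f Θ α) (hα : Irrational α) {U : Set ℂ} (hU : IsOpen U)
    (hUb : U ⊆ ball 0 1) (hΘ : ∀ p ∈ strip, 0 < p.2 → pol p ∈ U → Θ p = Θ (p.1, 0))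
    (t r : ℝ) (hr0 : 0 < r) (hrU : pol (t, r) ∈ U) :
    ∃ a : ℝ, HasDerivAt (fun ρ : ℝ => ‖f (pol (t, ρ))‖) a r ∧
        a * ‖f (pol (t, r))‖ * (1 / ‖fderiv ℝ f 0 (e t)‖ ^ 2) = r := by
  have hpi := Real.pi_pos
  obtain ⟨hdG, -, -⟩ := h.lin_facts hrot hα
  set G : ℝ → ℝ := fun t => Θ (t, 0) with hG
  have hrb : pol (t, r) ∈ ball (0 : ℂ) 1 := hUb hrU
  have hr1 : r < 1 := by
    have h1 := hrb
    rwa [mem_ball_zero_iff, norm_pol' (p := (t, r)) hr0.le] at h1
  have hf : ∀ s ρ : ℝ, 0 < ρ → ρ ≤ 1 → pol (s, ρ) ∈ U →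
      f (pol (s, ρ)) = (‖f (pol (s, ρ))‖ : ℂ) * e (G s) := by
    intro s ρ h0 h1 hsU
    have h2 := h.angle (s, ρ) ⟨h0.le, h1⟩
    have h3 : pol (lift f Θ (s, ρ)) = (‖f (pol (s, ρ))‖ : ℂ) * e (Θ (s, ρ)) := rfl
    rw [h3, hΘ (s, ρ) ⟨h0.le, h1⟩ h0 hsU] at h2
    exact h2
  have hUρ : ∀ᶠ ρ in 𝓝 r, pol (t, ρ) ∈ U :=
    (continuous_pol.comp (by fun_prop : Continuous fun ρ : ℝ => (t, ρ))).continuousAt.eventually_mem
      (hU.mem_nhds hrU)
  have hUs : ∀ᶠ s in 𝓝 t, pol (s, r) ∈ U :=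
    (continuous_pol.comp (by fun_prop : Continuous fun s : ℝ => (s, r))).continuousAt.eventually_mem
      (hU.mem_nhds hrU)
  set M := fderiv ℝ f (pol (t, r)) with hM
  have hfd : HasFDerivAt f M (pol (t, r)) := (h.diff _ hrb).hasFDerivAt
  set v := (starRingEnd ℂ) (e (G t)) with hv
  have hve : v * e (G t) = 1 := conj_e_mul (G t)
  -- radial derivative
  have hd1 : HasDerivAt (fun ρ : ℝ => v * f (pol (t, ρ))) (v * M (e t)) r :=
    (hfd.comp_hasDerivAt r (hasDerivAt_ray t r)).const_mul v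
  have hev : ∀ᶠ ρ in 𝓝 r, v * f (pol (t, ρ)) = (‖f (pol (t, ρ))‖ : ℂ) := by
    filter_upwards [Ioo_mem_nhds hr0 hr1, hUρ] with ρ hρ hρU
    nth_rewrite 1 [hf t ρ hρ.1 hρ.2.le hρU]
    linear_combination (‖f (pol (t, ρ))‖ : ℂ) * hve
  have hre : HasDerivAt (fun ρ : ℝ => (v * f (pol (t, ρ))).re) ((v * M (e t)).re) r :=
    Complex.reCLM.hasFDerivAt.comp_hasDerivAt r hd1
  have him : HasDerivAt (fun ρ : ℝ => (v * f (pol (t, ρ))).im) ((v * M (e t)).im) r :=
    Complex.imCLM.hasFDerivAt.comp_hasDerivAt r hd1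
  have hre' : HasDerivAt (fun ρ : ℝ => ‖f (pol (t, ρ))‖) ((v * M (e t)).re) r := by
    refine hre.congr_of_eventuallyEq ?_
    filter_upwards [hev] with ρ hρ
    rw [hρ, Complex.ofReal_re]
  have him0 : (v * M (e t)).im = 0 := by
    have h1 : HasDerivAt (fun ρ : ℝ => (v * f (pol (t, ρ))).im) 0 r := by
      refine (hasDerivAt_const r (0 : ℝ)).congr_of_eventuallyEq ?_
      filter_upwards [hev] with ρ hρ
      rw [hρ, Complex.ofReal_im]
    exact him.unique h1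
  refine ⟨(v * M (e t)).re, hre', ?_⟩
  -- angular derivative
  have hd2 : HasDerivAt (fun s : ℝ => v * f (pol (s, r)))
      (v * M (((2 * Real.pi * r : ℝ) : ℂ) * (I * e t))) t :=
    (hfd.comp_hasDerivAt t (hasDerivAt_circ t r)).const_mul v
  have him2 : HasDerivAt (fun s : ℝ => (v * f (pol (s, r))).im)
      ((v * M (((2 * Real.pi * r : ℝ) : ℂ) * (I * e t))).im) t :=
    Complex.imCLM.hasFDerivAt.comp_hasDerivAt t hd2
  have hval2 : (v * M (((2 * Real.pi * r : ℝ) : ℂ) * (I * e t))).im =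
      2 * Real.pi * r * (v * M (I * e t)).im := by
    have h1 : M (((2 * Real.pi * r : ℝ) : ℂ) * (I * e t)) =
        ((2 * Real.pi * r : ℝ) : ℂ) * M (I * e t) := by
      rw [← Complex.real_smul, map_smul, Complex.real_smul]
    rw [h1]
    have h2 : v * (((2 * Real.pi * r : ℝ) : ℂ) * M (I * e t)) =
        ((2 * Real.pi * r : ℝ) : ℂ) * (v * M (I * e t)) := by ring
    rw [h2, Complex.im_ofReal_mul]
  -- the norm is differentiable in the angle
  have h0b : (0 : ℂ) ∈ ball (0 : ℂ) 1 := by simp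
  have hfne : f (pol (t, r)) ≠ 0 := by
    intro h1
    have h2 : f (pol (t, r)) = f 0 := by rw [h1, h.zero]
    have h3 := h.ball_bij.injOn hrb h0b h2
    have h4 := norm_pol' (p := (t, r)) hr0.le
    rw [h3, norm_zero] at h4
    simp only at h4
    linarith
  have hfs : DifferentiableAt ℝ (fun s : ℝ => f (pol (s, r))) t :=
    (hfd.comp_hasDerivAt t (hasDerivAt_circ t r)).differentiableAt
  have hRd : DifferentiableAt ℝ (fun s : ℝ => ‖f (pol (s, r))‖) t := hfs.norm ℝ hfne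
  have hsin : HasDerivAt (fun s : ℝ => Real.sin (2 * Real.pi * (G s - G t)))
      (2 * Real.pi * (1 / ‖fderiv ℝ f 0 (e t)‖ ^ 2)) t := by
    have h1 := (((hdG t).sub_const (G t)).const_mul (2 * Real.pi)).sin
    simpa using h1
  have hprod := hRd.hasDerivAt.mul hsin
  have hcongr : (fun s : ℝ => ‖f (pol (s, r))‖ * Real.sin (2 * Real.pi * (G s - G t)))
      =ᶠ[𝓝 t] fun s : ℝ => (v * f (pol (s, r))).im := by
    filter_upwards [hUs] with s hsU
    have h1 : e (G s) = e (G t) * e (G s - G t) := by rw [← e_add]; congr 1; ring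
    have h2 : v * f (pol (s, r)) = (‖f (pol (s, r))‖ : ℂ) * e (G s - G t) := by
      nth_rewrite 1 [hf s r hr0 hr1.le hsU]
      rw [h1]
      linear_combination (‖f (pol (s, r))‖ : ℂ) * e (G s - G t) * hve
    rw [h2, Complex.im_ofReal_mul]
    congr 1
    exact (Complex.exp_ofReal_mul_I_im _).symm
  have heq := (him2.congr_of_eventuallyEq hcongr).unique hprod
  rw [hval2] at heq
  simp only [sub_self, mul_zero, Real.sin_zero, zero_add] at heq
  -- the determinant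
  have hdet := det_pair M (e t) (I * e t)
  rw [h.det _ hrb, conj_mul_I_mul _ (norm_e t)] at hdet
  have hMu : M (e t) = ((v * M (e t)).re : ℂ) * e (G t) := by
    have h1 : v * M (e t) = ((v * M (e t)).re : ℂ) := by
      apply Complex.ext
      · simp
      · rw [him0]; simp
    have h2 : e (G t) * (v * M (e t)) = M (e t) := by
      linear_combination (M (e t)) * hve
    calc M (e t) = e (G t) * (v * M (e t)) := h2.symm
      _ = e (G t) * ((v * M (e t)).re : ℂ) := by rw [← h1]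
      _ = _ := by ring
  have hdet2 : (v * M (e t)).re * (v * M (I * e t)).im = 1 := by
    have h1 : (starRingEnd ℂ) (M (e t)) * M (I * e t) =
        ((v * M (e t)).re : ℂ) * (v * M (I * e t)) := by
      nth_rewrite 1 [hMu]
      rw [map_mul, Complex.conj_ofReal]
      ring
    rw [h1, Complex.im_ofReal_mul] at hdet
    linarith
  have h5 : r * (v * M (I * e t)).im =
      ‖f (pol (t, r))‖ * (1 / ‖fderiv ℝ f 0 (e t)‖ ^ 2) := by
    have h6 : 2 * Real.pi * (r * (v * M (I * e t)).im -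
        ‖f (pol (t, r))‖ * (1 / ‖fderiv ℝ f 0 (e t)‖ ^ 2)) = 0 := by
      linarith
    rcases mul_eq_zero.1 h6 with h7 | h7
    · exfalso; linarith
    · linarith
  calc (v * M (e t)).re * ‖f (pol (t, r))‖ * (1 / ‖fderiv ℝ f 0 (e t)‖ ^ 2)
      = (v * M (e t)).re * (‖f (pol (t, r))‖ * (1 / ‖fderiv ℝ f 0 (e t)‖ ^ 2)) := by ring
    _ = (v * M (e t)).re * (r * (v * M (I * e t)).im) := by rw [h5]
    _ = r * ((v * M (e t)).re * (v * M (I * e t)).im) := by ring
    _ = r := by rw [hdet2, mul_one]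

/-- On an open set `U` where the angle of `f` is the angle of its linear part, `f` is equal to its
linear part at every point `z` with `[0, z] ⊆ U`. -/
theorem local_linear {f : ℂ → ℂ} {Θ : ℝ × ℝ → ℝ} {α : ℝ} (h : DiskMap f Θ)
    (hrot : HasRotationNumber f Θ α) (hα : Irrational α) {U : Set ℂ} (hU : IsOpen U)
    (hUb : U ⊆ ball 0 1) (hΘ : ∀ p ∈ strip, 0 < p.2 → pol p ∈ U → Θ p = Θ (p.1, 0))
    (z : ℂ) (hz : segment ℝ 0 z ⊆ U) : f z = fderiv ℝ f 0 z := by
  by_cases hz0 : z = 0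
  · rw [hz0, h.zero, map_zero]
  set t := (polar z).1 with ht
  set r := (polar z).2 with hr
  have hzp : z = pol (t, r) := (pol_polar z).symm
  have hr0 : 0 < r := norm_pos_iff.2 hz0
  have hseg : ∀ ρ : ℝ, 0 ≤ ρ → ρ ≤ r → pol (t, ρ) ∈ U := by
    intro ρ h0 h1
    refine hz ?_
    rw [segment_eq_image]
    refine ⟨ρ / r, ⟨div_nonneg h0 hr0.le, (div_le_one hr0).2 h1⟩, ?_⟩
    simp only
    rw [smul_zero, zero_add, hzp]
    unfold pol
    simp only
    rw [Complex.real_smul]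
    push_cast
    have : (r : ℂ) ≠ 0 := by exact_mod_cast hr0.ne'
    field_simp
  have hr1 : r < 1 := by
    have h1 := hUb (hseg r hr0.le le_rfl)
    rwa [mem_ball_zero_iff, norm_pol' (p := (t, r)) hr0.le] at h1
  obtain ⟨-, hAne, -⟩ := h.lin_facts hrot hα
  have hApos : 0 < ‖fderiv ℝ f 0 (e t)‖ := norm_pos_iff.2 (hAne t)
  set g : ℝ := 1 / ‖fderiv ℝ f 0 (e t)‖ ^ 2 with hg
  set D : ℝ → ℝ := fun x => ‖f (pol (t, x))‖ ^ 2 * g - x ^ 2 with hD
  have hDc : ContinuousOn D (Icc 0 r) := by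
    have h1 : ContinuousOn (fun x : ℝ => f (pol (t, x))) (Icc 0 r) := by
      refine h.cont.comp ?_ ?_
      · exact (continuous_pol.comp (by fun_prop)).continuousOn
      · intro x hx
        exact pol_mem_closedBall (p := (t, x)) ⟨hx.1, hx.2.trans hr1.le⟩
    exact ((h1.norm.pow 2).mul continuousOn_const).sub (by fun_prop)
  have hDd : ∀ x ∈ Ioo 0 r, HasDerivAt D 0 x := by
    intro x hx
    obtain ⟨a, ha, hax⟩ := key_local h hrot hα hU hUb hΘ t x hx.1 (hseg x hx.1.le hx.2.le)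
    have h1 := (((ha.pow 2).mul_const g).sub ((hasDerivAt_id x).pow 2))
    have h2 : ((2 : ℕ) : ℝ) * ‖f (pol (t, x))‖ ^ (2 - 1) * a * g -
        ((2 : ℕ) : ℝ) * (id x) ^ (2 - 1) * 1 = 0 := by
      simp only [id, Nat.add_one_sub_one, pow_one, mul_one]
      push_cast
      linear_combination 2 * hax
    rw [h2] at h1
    exact h1
  obtain ⟨c, hc, hc2⟩ := exists_hasDerivAt_eq_slope D (fun _ => 0) hr0 hDc hDd
  have h3 : D r = D 0 := by
    have h4 : D r - D 0 = 0 := by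
      have h5 : (r - 0) ≠ 0 := by rw [sub_zero]; exact hr0.ne'
      have h6 := (div_eq_iff h5).1 hc2.symm
      rw [h6]; ring
    linarith
  simp only [hD] at h3
  rw [pol_zero, h.zero, norm_zero] at h3
  have h7 : ‖f (pol (t, r))‖ = r * ‖fderiv ℝ f 0 (e t)‖ := by
    have h8 : ‖f (pol (t, r))‖ ^ 2 = (r * ‖fderiv ℝ f 0 (e t)‖) ^ 2 := by
      have h9 : ‖f (pol (t, r))‖ ^ 2 * g = r ^ 2 := by linarith
      rw [hg] at h9
      field_simp at h9
      rw [mul_pow]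
      linarith
    exact (pow_left_inj₀ (norm_nonneg _) (by positivity) two_ne_zero).1 h8
  have h10 := h.angle (t, r) ⟨hr0.le, hr1.le⟩
  have h11 : pol (lift f Θ (t, r)) = (‖f (pol (t, r))‖ : ℂ) * e (Θ (t, r)) := rfl
  rw [h11, hΘ (t, r) ⟨hr0.le, hr1.le⟩ hr0 (hseg r hr0.le le_rfl), h7] at h10
  have h12 := h.angle_lin t
  have h13 : fderiv ℝ f 0 (pol (t, r)) = (r : ℂ) * fderiv ℝ f 0 (e t) := by
    have h14 : pol (t, r) = r • e t := by rw [Complex.real_smul]; rfl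
    rw [h14, map_smul, Complex.real_smul]
  rw [hzp, h10, h13]
  nth_rewrite 2 [h12]
  push_cast
  ring

/-- If the angle of `f` is everywhere the angle of its linear part, then `f` is a rotation. -/
theorem rigid_of_eq {f : ℂ → ℂ} {Θ : ℝ × ℝ → ℝ} {α : ℝ} (h : DiskMap f Θ)
    (hrot : HasRotationNumber f Θ α) (hα : Irrational α)
    (hΘ : ∀ p ∈ strip, 0 < p.2 → p.2 < 1 → Θ p = Θ (p.1, 0)) :
    ∀ p ∈ strip, lift f Θ p = (p.1 + α, p.2) := by
  have h0s : ∀ t : ℝ, (t, (0 : ℝ)) ∈ strip := fun t => ⟨le_refl _, zero_le_one⟩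
  have hΘb : ∀ p ∈ strip, 0 < p.2 → pol p ∈ ball (0 : ℂ) 1 → Θ p = Θ (p.1, 0) := by
    intro p hp hp0 hpb
    rw [mem_ball_zero_iff, norm_pol' hp0.le] at hpb
    exact hΘ p hp hp0 hpb
  have hball : EqOn f (fderiv ℝ f 0) (ball 0 1) := by
    intro z hz
    refine local_linear h hrot hα isOpen_ball subset_rfl hΘb z ?_
    exact (convex_ball (0 : ℂ) 1).segment_subset (by simp) hz
  have hcl : EqOn f (fderiv ℝ f 0) (closedBall 0 1) :=
    hball.of_subset_closure h.cont (fderiv ℝ f 0).continuous.continuousOn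
      ball_subset_closedBall (by rw [closure_ball (0 : ℂ) one_ne_zero])
  have hA1 : ∀ t, ‖fderiv ℝ f 0 (e t)‖ = 1 := by
    intro t
    have h1 : e t ∈ closedBall (0 : ℂ) 1 := by rw [mem_closedBall_zero_iff, norm_e]
    rw [← hcl h1]
    exact (h.circle _ h1).2 (norm_e t)
  obtain ⟨hdG, -, -⟩ := h.lin_facts hrot hα
  have hGt : ∀ t, Θ (t, 0) = t + Θ (0, 0) := by
    have h1 : ∀ t, HasDerivAt (fun t => Θ (t, 0) - t) 0 t := by
      intro t
      have h2 := (hdG t).sub (hasDerivAt_id t)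
      rw [hA1] at h2
      norm_num at h2
      exact h2
    intro t
    have h3 := is_const_of_deriv_eq_zero (f := fun t => Θ (t, 0) - t)
      (fun t => (h1 t).differentiableAt) (fun t => (h1 t).deriv) t 0
    linarith
  have hαG : α = Θ (0, 0) := by
    have h1 : ∀ n : ℕ, ((lift f Θ)^[n] (0, 0)).1 = n * Θ (0, 0) := by
      intro n
      rw [h.iter_zero]
      induction n with
      | zero => simp
      | succ n ih =>
        simp only at ih
        rw [Function.iterate_succ_apply', ih]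
        simp only
        rw [hGt]
        push_cast
        ring
    refine rot_unique (a := 0) (B := 0) (hrot (0, 0) (h0s 0)) fun n => ?_
    rw [h1 n]; simp
  -- the angle at all radii
  have hall : ∀ p ∈ strip, Θ p = Θ (p.1, 0) := by
    intro p hp
    have h1 : EqOn (fun r : ℝ => Θ (p.1, r)) (fun _ => Θ (p.1, 0)) (Ioo 0 1) := fun r hr =>
      hΘ (p.1, r) ⟨hr.1.le, hr.2.le⟩ hr.1 hr.2
    have h2 : ContinuousOn (fun r : ℝ => Θ (p.1, r)) (Icc 0 1) :=
      h.contΘ.comp (by fun_prop) fun r hr => hr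
    have h3 := h1.of_subset_closure h2 continuousOn_const Ioo_subset_Icc_self
      (by rw [closure_Ioo (by norm_num : (0 : ℝ) ≠ 1)])
    exact h3 hp
  intro p hp
  have h1 : lift f Θ p = (Θ p, ‖f (pol p)‖) := rfl
  have h2 : ‖f (pol p)‖ = p.2 := by
    rw [hcl (pol_mem_closedBall hp)]
    have h3 : pol p = p.2 • e p.1 := by rw [Complex.real_smul]; rfl
    rw [h3, map_smul, norm_smul, hA1, mul_one, Real.norm_eq_abs, abs_of_nonneg hp.1]
  rw [h1, hall p hp, hGt, ← hαG, h2]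

end

end MPc541f6
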