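import Pool.Agent.Lib.MP_c541f6_an.HMean
import Pool.Agent.Lib.MP_c541f6_an.Rigid
import Pool.Agent.Lib.MP_c541f6_an.Param

/-!
# The mass along rays is preserved
-/

open Complex Set Filter Topology Metric MeasureTheory

namespace MPc541f6

noncomputable section

open DensMap

variable {J : ℂ → ℝ} {f : ℂ → ℂ} {Θ : ℝ × ℝ → ℝ} {α : ℝ}

/-- A continuous function with periods `1` and `α`, `α` irrational, is constant. -/
lemma const_of_periods {q : ℝ → ℝ} (hq : Continuous q) (h1 : ∀ t, q (t + 1) = q t)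
    (hα : Irrational α) (h2 : ∀ t, q (t + α) = q t) (t : ℝ) : q t = q 0 := by
  let S : AddSubgroup ℝ :=
    { carrier := {s | ∀ t, q (t + s) = q t}
      zero_mem' := fun t => by simp
      add_mem' := fun {a b} ha hb t => by rw [← add_assoc, hb (t + a), ha t]
      neg_mem' := fun {a} ha t => by
        have := ha (t + -a)
        rw [neg_add_cancel_right] at this
        exact this.symm }
  have hSmem : ∀ s : ℝ, s ∈ S ↔ ∀ t, q (t + s) = q t := fun s => Iff.rfl
  have hdense : Dense (S : Set ℝ) := by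
    have h3 : Dense (AddSubgroup.closure {α, (1 : ℝ)} : Set ℝ) := by
      rw [dense_addSubgroupClosure_pair_iff, div_one]
      exact hα
    refine h3.mono ?_
    have h4 : AddSubgroup.closure {α, (1 : ℝ)} ≤ S := by
      rw [AddSubgroup.closure_le]
      intro x hx
      rcases hx with hx | hx
      · rw [hx]; exact h2
      · rw [Set.mem_singleton_iff.1 hx]; exact h1
    exact h4
  have hclosed : IsClosed (S : Set ℝ) := by
    have h3 : (S : Set ℝ) = ⋂ t : ℝ, {s : ℝ | q (t + s) = q t} := by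
      ext s
      simp only [SetLike.mem_coe, hSmem, mem_iInter, mem_ofPred_eq]
    rw [h3]
    exact isClosed_iInter fun t => isClosed_eq (by fun_prop) continuous_const
  have h5 : t ∈ closure (S : Set ℝ) := hdense t
  rw [hclosed.closure_eq] at h5
  have h6 := (hSmem t).1 h5 0
  rwa [zero_add] at h6

/-- The key differential identity. -/
theorem DensMap.key (h : DensMap J f Θ) {G : ℝ → ℝ} (hΘ : ∀ p ∈ strip, Θ p = G p.1)
    {t g : ℝ} (hdG : HasDerivAt G g t) {r : ℝ} (hr0 : 0 < r) (hr1 : r < 1) :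
    ∃ a : ℝ, HasDerivAt (fun ρ : ℝ => ‖f (pol (t, ρ))‖) a r ∧
        J (f (pol (t, r))) * (‖f (pol (t, r))‖ * a) * g = J (pol (t, r)) * r := by
  have hpi := Real.pi_pos
  have hrb : pol (t, r) ∈ ball (0 : ℂ) 1 := by
    rw [mem_ball_zero_iff, norm_pol' (p := (t, r)) hr0.le]; exact hr1
  have hf : ∀ s ρ : ℝ, 0 ≤ ρ → ρ ≤ 1 →
      f (pol (s, ρ)) = (‖f (pol (s, ρ))‖ : ℂ) * e (G s) := by
    intro s ρ h0 h1
    have h2 := h.angle (s, ρ) ⟨h0, h1⟩
    have h3 : pol (lift f Θ (s, ρ)) = (‖f (pol (s, ρ))‖ : ℂ) * e (Θ (s, ρ)) := rfl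
    rw [h3, hΘ (s, ρ) ⟨h0, h1⟩] at h2
    exact h2
  set M := fderiv ℝ f (pol (t, r)) with hM
  have hfd : HasFDerivAt f M (pol (t, r)) := (h.diff _ hrb).hasFDerivAt
  set v := (starRingEnd ℂ) (e (G t)) with hv
  have hve : v * e (G t) = 1 := conj_e_mul (G t)
  -- radial derivative
  have hd1 : HasDerivAt (fun ρ : ℝ => v * f (pol (t, ρ))) (v * M (e t)) r :=
    (hfd.comp_hasDerivAt r (hasDerivAt_ray t r)).const_mul v
  have hev : ∀ᶠ ρ in 𝓝 r, v * f (pol (t, ρ)) = (‖f (pol (t, ρ))‖ : ℂ) := by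
    filter_upwards [Ioo_mem_nhds hr0 hr1] with ρ hρ
    nth_rewrite 1 [hf t ρ hρ.1.le hρ.2.le]
    linear_combination (‖f (pol (t, ρ))‖ : ℂ) * hve
  have hre : HasDerivAt (fun ρ : ℝ => (v * f (pol (t, ρ))).re) ((v * M (e t)).re) r :=
    Complex.reCLM.hasFDerivAt.comp_hasDerivAt r hd1
  have him : HasDerivAt (fun ρ : ℝ => (v * f (pol (t, ρ))).im) ((v * M (e t)).im) r :=
    Complex.imCLM.hasFDerivAt.comp_hasDerivAt r hd1
  have hre' : HasDerivAt (fun ρ : ℝ => ‖f (pol (t, ρ))‖) ((v * M (e t)).re) r := by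
    refine hre.congr_of_eventuallyEq ?_
    filter_upwards [hev] with ρ hρ
    rw [hρ, Complex.ofReal_re]
  have him0 : (v * M (e t)).im = 0 := by
    have h1 : HasDerivAt (fun ρ : ℝ => (v * f (pol (t, ρ))).im) 0 r := by
      refine (hasDerivAt_const r (0 : ℝ)).congr_of_eventuallyEq ?_
      filter_upwards [hev] with ρ hρ
      rw [hρ, Complex.ofReal_im]
    exact him.unique h1
  refine ⟨(v * M (e t)).re, hre', ?_⟩
  -- angular derivative
  have hd2 : HasDerivAt (fun s : ℝ => v * f (pol (s, r)))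
      (v * M (((2 * Real.pi * r : ℝ) : ℂ) * (I * e t))) t :=
    (hfd.comp_hasDerivAt t (hasDerivAt_circ t r)).const_mul v
  have him2 : HasDerivAt (fun s : ℝ => (v * f (pol (s, r))).im)
      ((v * M (((2 * Real.pi * r : ℝ) : ℂ) * (I * e t))).im) t :=
    Complex.imCLM.hasFDerivAt.comp_hasDerivAt t hd2
  have hval2 : (v * M (((2 * Real.pi * r : ℝ) : ℂ) * (I * e t))).im =
      2 * Real.pi * r * (v * M (I * e t)).im := by
    have h1 : M (((2 * Real.pi * r : ℝ) : ℂ) * (I * e t)) =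
        ((2 * Real.pi * r : ℝ) : ℂ) * M (I * e t) := by
      rw [← Complex.real_smul, map_smul, Complex.real_smul]
    rw [h1]
    have h2 : v * (((2 * Real.pi * r : ℝ) : ℂ) * M (I * e t)) =
        ((2 * Real.pi * r : ℝ) : ℂ) * (v * M (I * e t)) := by ring
    rw [h2, Complex.im_ofReal_mul]
  -- the norm is differentiable in the angle
  have h0b : (0 : ℂ) ∈ ball (0 : ℂ) 1 := by simp
  have hfne : f (pol (t, r)) ≠ 0 := by
    intro h1
    have h2 : f (pol (t, r)) = f 0 := by rw [h1, h.zero]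
    have h3 := h.ball_bij.injOn hrb h0b h2
    have h4 := norm_pol' (p := (t, r)) hr0.le
    rw [h3, norm_zero] at h4
    simp only at h4
    linarith
  have hfs : DifferentiableAt ℝ (fun s : ℝ => f (pol (s, r))) t :=
    (hfd.comp_hasDerivAt t (hasDerivAt_circ t r)).differentiableAt
  have hRd : DifferentiableAt ℝ (fun s : ℝ => ‖f (pol (s, r))‖) t := hfs.norm ℝ hfne
  have hsin : HasDerivAt (fun s : ℝ => Real.sin (2 * Real.pi * (G s - G t)))
      (2 * Real.pi * g) t := by
    have h1 := ((hdG.sub_const (G t)).const_mul (2 * Real.pi)).sin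
    simpa using h1
  have hprod := hRd.hasDerivAt.mul hsin
  have hcongr : (fun s : ℝ => (v * f (pol (s, r))).im) =
      fun s : ℝ => ‖f (pol (s, r))‖ * Real.sin (2 * Real.pi * (G s - G t)) := by
    funext s
    have h1 : e (G s) = e (G t) * e (G s - G t) := by rw [← e_add]; congr 1; ring
    have h2 : v * f (pol (s, r)) = (‖f (pol (s, r))‖ : ℂ) * e (G s - G t) := by
      nth_rewrite 1 [hf s r hr0.le hr1.le]
      rw [h1]
      linear_combination (‖f (pol (s, r))‖ : ℂ) * e (G s - G t) * hve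
    rw [h2, Complex.im_ofReal_mul]
    congr 1
    exact Complex.exp_ofReal_mul_I_im _
  rw [hcongr] at him2
  have heq := him2.unique hprod
  rw [hval2] at heq
  simp only [sub_self, mul_zero, Real.sin_zero, zero_add] at heq
  -- the determinant
  have hdet := det_pair M (e t) (I * e t)
  rw [conj_mul_I_mul _ (norm_e t), mul_one] at hdet
  have hMu : M (e t) = ((v * M (e t)).re : ℂ) * e (G t) := by
    have h1 : v * M (e t) = ((v * M (e t)).re : ℂ) := by
      apply Complex.ext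
      · simp
      · rw [him0]; simp
    have h2 : e (G t) * (v * M (e t)) = M (e t) := by
      linear_combination (M (e t)) * hve
    calc M (e t) = e (G t) * (v * M (e t)) := h2.symm
      _ = e (G t) * ((v * M (e t)).re : ℂ) := by rw [← h1]
      _ = _ := by ring
  have hdet2 : (v * M (e t)).re * (v * M (I * e t)).im = M.det := by
    have h1 : (starRingEnd ℂ) (M (e t)) * M (I * e t) =
        ((v * M (e t)).re : ℂ) * (v * M (I * e t)) := by
      nth_rewrite 1 [hMu]
      rw [map_mul, Complex.conj_ofReal]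
      ring
    rw [h1, Complex.im_ofReal_mul] at hdet
    exact hdet
  have h5 : r * (v * M (I * e t)).im = ‖f (pol (t, r))‖ * g := by
    have h6 : 2 * Real.pi * (r * (v * M (I * e t)).im - ‖f (pol (t, r))‖ * g) = 0 := by
      linarith
    rcases mul_eq_zero.1 h6 with h7 | h7
    · exfalso; linarith
    · linarith
  have hJdet := h.det _ hrb
  rw [← hM, ← hdet2] at hJdet
  rw [← hJdet]
  linear_combination (-(J (f (pol (t, r))) * (v * M (e t)).re)) * h5

lemma pol_eq_smul (t r : ℝ) : pol (t, r) = r • e t := by rw [Complex.real_smul]; rfl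

/-- The mass along rays is preserved. -/
theorem DensMap.mass (h : DensMap J f Θ) (hJ : Continuous J) {G : ℝ → ℝ}
    (hΘ : ∀ p ∈ strip, Θ p = G p.1) {t g : ℝ} (hdG : HasDerivAt G g t) {r : ℝ}
    (hr0 : 0 ≤ r) (hr1 : r ≤ 1) :
    f (pol (t, r)) = ‖f (pol (t, r))‖ • e (G t) ∧
    ‖f (pol (t, r))‖ ^ 2 * jay J (‖f (pol (t, r))‖ • e (G t)) * g = r ^ 2 * jay J (r • e t) := by
  have hf : ∀ s ρ : ℝ, 0 ≤ ρ → ρ ≤ 1 → f (pol (s, ρ)) = ‖f (pol (s, ρ))‖ • e (G s) := by
    intro s ρ h0 h1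
    have h2 := h.angle (s, ρ) ⟨h0, h1⟩
    have h3 : pol (lift f Θ (s, ρ)) = (‖f (pol (s, ρ))‖ : ℂ) * e (Θ (s, ρ)) := rfl
    rw [h3, hΘ (s, ρ) ⟨h0, h1⟩, ← Complex.real_smul] at h2
    exact h2
  refine ⟨hf t r hr0 hr1, ?_⟩
  rcases hr0.eq_or_lt with h0 | h0
  · rw [← h0, pol_zero, h.zero, norm_zero]
    simp
  set R : ℝ → ℝ := fun x => ‖f (pol (t, x))‖ with hR
  set D : ℝ → ℝ := fun x => R x ^ 2 * jay J (R x • e (G t)) * g - x ^ 2 * jay J (x • e t) with hD
  have hP : ∀ u : ℂ, Continuous fun s : ℝ => s ^ 2 * jay J (s • u) := fun u =>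
    continuous_iff_continuousAt.2 fun s => (hasDerivAt_sq_mul_jay hJ u s).continuousAt
  have hRc : ContinuousOn R (Icc 0 r) := by
    refine (h.cont.comp (continuous_pol.comp (by fun_prop)).continuousOn ?_).norm
    intro x hx
    exact DiskMap.pol_mem_closedBall (p := (t, x)) ⟨hx.1, hx.2.trans hr1⟩
  have hDc : ContinuousOn D (Icc 0 r) :=
    (((hP (e (G t))).comp_continuousOn hRc).mul_const g).sub (hP (e t)).continuousOn
  have hDd : ∀ x ∈ Ioo 0 r, HasDerivAt D 0 x := by
    intro x hx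
    obtain ⟨a, ha, hax⟩ := h.key hΘ hdG hx.1 (hx.2.trans_le hr1)
    have h1 : HasDerivAt (fun x => R x ^ 2 * jay J (R x • e (G t)))
        (R x * J (R x • e (G t)) * a) x :=
      HasDerivAt.comp x (hasDerivAt_sq_mul_jay hJ (e (G t)) (R x)) ha
    have h2 := (h1.mul_const g).sub (hasDerivAt_sq_mul_jay hJ (e t) x)
    have h3 : R x * J (R x • e (G t)) * a * g - x * J (x • e t) = 0 := by
      have h4 : f (pol (t, x)) = R x • e (G t) := hf t x hx.1.le (hx.2.le.trans hr1)
      rw [← h4, ← pol_eq_smul]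
      simp only [hR]
      linarith
    rw [h3] at h2
    exact h2
  obtain ⟨c, hc, hc2⟩ := exists_hasDerivAt_eq_slope D (fun _ => 0) h0 hDc hDd
  have h3 : D r = D 0 := by
    have h4 : D r - D 0 = 0 := by
      have h5 : (r - 0) ≠ 0 := by rw [sub_zero]; exact h0.ne'
      have h6 := (div_eq_iff h5).1 hc2.symm
      rw [h6]; ring
    linarith
  have h4 : D 0 = 0 := by
    simp only [hD, hR]
    rw [pol_zero, h.zero, norm_zero]
    simp
  rw [h4] at h3
  simp only [hD, hR] at h3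
  linarith

end

end MPc541f6
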