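import Pool.Agent.Lib.MP_c541f6_an.Basic

/-!
# Real-linear maps of the plane and the direction map
-/

open Complex Set Filter Topology Metric

namespace MPc541f6

noncomputable section

lemma clm_apply (M : ℂ →L[ℝ] ℂ) (z : ℂ) : M z = (z.re : ℂ) * M 1 + (z.im : ℂ) * M I := by
  have h : z = z.re • (1 : ℂ) + z.im • I := by
    simp [Complex.re_add_im]
  calc M z = M (z.re • (1 : ℂ) + z.im • I) := by rw [← h]
    _ = z.re • M 1 + z.im • M I := by rw [map_add, map_smul, map_smul]
    _ = _ := by simp [Complex.real_smul]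

lemma det_eq (M : ℂ →L[ℝ] ℂ) : M.det = (M 1).re * (M I).im - (M I).re * (M 1).im := by
  have h : M.det = LinearMap.det (M : ℂ →ₗ[ℝ] ℂ) := rfl
  rw [h, ← LinearMap.det_toMatrix Complex.basisOneI, Matrix.det_fin_two]
  simp [LinearMap.toMatrix_apply]

/-- A real-linear map multiplies the area form by its determinant. -/
lemma det_pair (M : ℂ →L[ℝ] ℂ) (a b : ℂ) :
    ((starRingEnd ℂ) (M a) * M b).im = M.det * ((starRingEnd ℂ) a * b).im := by
  rw [det_eq, clm_apply M a, clm_apply M b]
  simp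
  ring

lemma conj_mul_I_mul (u : ℂ) (hu : ‖u‖ = 1) : ((starRingEnd ℂ) u * (I * u)).im = 1 := by
  have h : (starRingEnd ℂ) u * (I * u) = I * (u * (starRingEnd ℂ) u) := by ring
  rw [h, Complex.mul_conj, Complex.normSq_eq_norm_sq, hu]
  simp

/-- If `G` is continuous at `t` and is an angle of the curve `w`, then `G` has the expected
derivative. -/
lemma hasDerivAt_angle {G : ℝ → ℝ} {w : ℝ → ℂ} {w' : ℂ} {t : ℝ} (hG : ContinuousAt G t)
    (hw : ∀ s, w s = (‖w s‖ : ℂ) * e (G s)) (hwt : w t ≠ 0) (hd : HasDerivAt w w' t) :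
    HasDerivAt G (((starRingEnd ℂ) (w t) * w').im / (2 * Real.pi * ‖w t‖ ^ 2)) t := by
  have hpi := Real.pi_pos
  -- the logarithm of the quotient
  have hlog : HasDerivAt (fun s => Complex.log (w s / w t)) (w' / w t) t := by
    have h1 : HasDerivAt (fun s => w s / w t) (w' / w t) t := hd.div_const _
    have h2 : w t / w t ∈ slitPlane := by
      rw [div_self hwt]; exact one_mem_slitPlane
    have h3 := h1.clog_real h2
    rwa [div_self hwt, div_one] at h3
  have him : HasDerivAt (fun s => (Complex.log (w s / w t)).im) ((w' / w t).im) t := by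
    exact (Complex.imCLM.hasFDerivAt (x := Complex.log (w t / w t))).comp_hasDerivAt t hlog
  have h4 : HasDerivAt (fun s => G t + (Complex.log (w s / w t)).im / (2 * Real.pi))
      ((w' / w t).im / (2 * Real.pi)) t := (him.div_const _).const_add _
  have h5 : (w' / w t).im / (2 * Real.pi) =
      ((starRingEnd ℂ) (w t) * w').im / (2 * Real.pi * ‖w t‖ ^ 2) := by
    have h6 : w' / w t = ((‖w t‖ ^ 2 : ℝ) : ℂ)⁻¹ * ((starRingEnd ℂ) (w t) * w') := by
      have h7 : ((‖w t‖ ^ 2 : ℝ) : ℂ) = w t * (starRingEnd ℂ) (w t) := by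
        rw [Complex.mul_conj, Complex.normSq_eq_norm_sq]
      have h8 : (starRingEnd ℂ) (w t) ≠ 0 := by
        rw [Ne, map_eq_zero]; exact hwt
      rw [h7]
      field_simp
    rw [h6, ← Complex.ofReal_inv, Complex.im_ofReal_mul]
    field_simp
  rw [← h5]
  refine h4.congr_of_eventuallyEq ?_
  -- near `t` the angle is the imaginary part of the logarithm
  have hne : ∀ᶠ s in 𝓝 t, w s ≠ 0 := hd.continuousAt.eventually_ne hwt
  have hsm : ∀ᶠ s in 𝓝 t, |G s - G t| < 1 / 2 := by
    have := Metric.continuousAt_iff.1 hG (1 / 2) (by norm_num)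
    obtain ⟨δ, hδ, h⟩ := this
    exact Metric.eventually_nhds_iff.2 ⟨δ, hδ, fun s hs => by simpa [Real.dist_eq] using h hs⟩
  filter_upwards [hne, hsm] with s hs hs2
  have h9 : w s / w t = ((‖w s‖ / ‖w t‖ : ℝ) : ℂ) *
      Complex.exp (((2 * Real.pi * (G s - G t) : ℝ) : ℂ) * I) := by
    have h10 : e (G s) = e (G t) * e (G s - G t) := by
      rw [← e_add]; congr 1; ring
    have h11 : (‖w t‖ : ℂ) ≠ 0 := by
      exact_mod_cast (norm_pos_iff.2 hwt).ne'
    have h12 : Complex.exp (((2 * Real.pi * (G s - G t) : ℝ) : ℂ) * I) = e (G s - G t) := rfl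
    rw [h12, hw s, hw t, h10]
    have h13 := e_ne_zero (G t)
    simp only [norm_mul, norm_e, mul_one, Complex.norm_real, norm_norm, Complex.ofReal_div]
    field_simp
  have h14 : 0 < ‖w s‖ / ‖w t‖ := div_pos (norm_pos_iff.2 hs) (norm_pos_iff.2 hwt)
  have h15 : (Complex.log (w s / w t)).im = 2 * Real.pi * (G s - G t) := by
    rw [Complex.log_im, h9, Complex.arg_real_mul _ h14, Complex.arg_exp_mul_I,
      toIocMod_eq_self]
    rw [abs_lt] at hs2
    constructor
    · nlinarith
    · nlinarith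
  rw [h15]
  field_simp
  ring

end

end MPc541f6
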