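import Pool.Agent.Lib.MP_c541f6_an.Param

/-!
# Analyticity of radial averages
-/

open Set Filter Topology Metric MeasureTheory
open scoped NNReal ENNReal

namespace MPc541f6

noncomputable section

/-- Local version. -/
theorem local_analytic {J : ℂ → ℝ} {z₀ : ℂ} {s₀ : ℝ} (hJ : AnalyticAt ℝ J (s₀ • z₀)) :
    ∃ δ > 0, ∀ a b : ℝ, |a - s₀| ≤ δ → |b - s₀| ≤ δ →
      AnalyticAt ℝ (fun z : ℂ => ∫ s in a..b, s * J (s • z)) z₀ := by
  obtain ⟨p, ρ, hp⟩ := hJ
  obtain ⟨R, hR0, hRρ⟩ := ENNReal.lt_iff_exists_nnreal_btwn.1 hp.r_pos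
  have hR0' : 0 < R := by exact_mod_cast hR0
  set r : ℝ≥0 := R / 3 with hr
  have hr0 : 0 < r := by positivity
  have hrr : ((r : ℝ≥0∞) + r) < ρ := by
    refine lt_of_le_of_lt ?_ hRρ
    have h1 : r + r ≤ R := by
      rw [← NNReal.coe_le_coe, hr]
      push_cast
      have : (0 : ℝ) ≤ R := R.coe_nonneg
      linarith
    exact_mod_cast h1
  have hrad : ((r : ℝ≥0∞) + r) < p.radius := lt_of_lt_of_le hrr hp.r_le
  have hr1 : (r : ℝ≥0∞) < p.radius := lt_of_le_of_lt (le_add_right le_rfl) hrad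
  have hprad : 0 < p.radius := lt_of_le_of_lt bot_le hr1
  -- the bounds for the coefficients
  set B : ℕ → ℝ≥0 := fun k =>
    ∑' s : Σ l : ℕ, { s : Finset (Fin (k + l)) // s.card = l }, ‖p (k + s.1)‖₊ * r ^ s.1 with hB
  have hBsum : Summable fun k => B k * r ^ k := by
    have h1 := (NNReal.summable_sigma.1 (p.changeOriginSeries_summable_aux₁ hrad)).2
    simpa only [NNReal.tsum_mul_right] using h1
  have hBle : ∀ (k : ℕ) (x : ℂ), ‖x‖₊ ≤ r → ‖p.changeOrigin x k‖₊ ≤ B k := by
    intro k x hx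
    have hx' : (‖x‖₊ : ℝ≥0∞) < p.radius := lt_of_le_of_lt (by exact_mod_cast hx) hr1
    refine (p.nnnorm_changeOrigin_le k hx').trans ?_
    refine Summable.tsum_le_tsum (fun s => ?_) (p.changeOriginSeries_summable_aux₂ hx' k)
      (p.changeOriginSeries_summable_aux₂ hr1 k)
    gcongr
  -- the radii
  set δ : ℝ := min 1 (r / (‖z₀‖ + 1)) with hδ
  have hδ0 : 0 < δ := lt_min one_pos (by positivity)
  set M : ℝ := |s₀| + 1 with hM
  have hM0 : 0 < M := by positivity
  refine ⟨δ, hδ0, fun a b ha hb => ?_⟩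
  have hs : ∀ s ∈ uIcc a b, |s - s₀| ≤ δ := by
    intro s hs
    rw [abs_le] at ha hb ⊢
    rw [mem_uIcc] at hs
    rcases hs with hs | hs
    · constructor <;> linarith [hs.1, hs.2, ha.1, ha.2, hb.1, hb.2]
    · constructor <;> linarith [hs.1, hs.2, ha.1, ha.2, hb.1, hb.2]
  have hsM : ∀ s ∈ uIcc a b, |s| ≤ M := by
    intro s hs'
    have h1 := (hs s hs').trans (min_le_left _ _)
    calc |s| = |(s - s₀) + s₀| := by ring_nf
      _ ≤ |s - s₀| + |s₀| := abs_add_le _ _
      _ ≤ M := by rw [hM]; linarith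
  have hx : ∀ s ∈ uIcc a b, ‖(s - s₀) • z₀‖₊ ≤ r := by
    intro s hs'
    rw [← NNReal.coe_le_coe, coe_nnnorm, norm_smul, Real.norm_eq_abs]
    have h1 := (hs s hs').trans (min_le_right _ _)
    have h2 : 0 ≤ ‖z₀‖ := norm_nonneg _
    calc |s - s₀| * ‖z₀‖ ≤ r / (‖z₀‖ + 1) * ‖z₀‖ := mul_le_mul_of_nonneg_right h1 h2
      _ ≤ r := by
        rw [div_mul_eq_mul_div, div_le_iff₀ (by positivity)]
        nlinarith [r.coe_nonneg]
  -- the series
  set q : ℝ → (k : ℕ) → ContinuousMultilinearMap ℝ (fun _ : Fin k => ℂ) ℝ := fun s k =>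
    s ^ (k + 1) • p.changeOrigin ((s - s₀) • z₀) k with hq
  have hqc : ∀ k, ContinuousOn (fun s => q s k) (uIcc a b) := by
    intro k
    have h1 := (p.hasFPowerSeriesOnBall_changeOrigin k hprad).continuousOn
    have h2 : ContinuousOn (fun s : ℝ => p.changeOrigin ((s - s₀) • z₀) k) (uIcc a b) := by
      refine h1.comp (by fun_prop) fun s hs' => ?_
      rw [mem_eball_zero_iff]
      exact lt_of_le_of_lt (by exact_mod_cast hx s hs') hr1
    exact (by fun_prop : ContinuousOn (fun s : ℝ => s ^ (k + 1)) (uIcc a b)).smul h2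
  have hqn : ∀ k, ∀ s ∈ uIcc a b, ‖q s k‖ ≤ M ^ (k + 1) * B k := by
    intro k s hs'
    simp only [hq]
    rw [norm_smul, norm_pow, Real.norm_eq_abs]
    refine mul_le_mul (pow_le_pow_left₀ (abs_nonneg _) (hsM s hs') _) ?_ (norm_nonneg _)
      (by positivity)
    exact_mod_cast hBle k _ (hx s hs')
  have hqi : ∀ k, IntervalIntegrable (fun s => q s k) volume a b := fun k =>
    (hqc k).intervalIntegrable
  set Q : FormalMultilinearSeries ℝ ℂ ℝ := fun k => ∫ s in a..b, q s k with hQ
  set ε : ℝ≥0 := r / ⟨M, hM0.le⟩ with hε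
  have hεr : (ε : ℝ) * M = r := by
    rw [hε]
    show (r : ℝ) / M * M = r
    field_simp
  have hε0 : 0 < ε := by
    rw [← NNReal.coe_pos]
    by_contra hcon
    have h1 : (ε : ℝ) * M ≤ 0 := mul_nonpos_of_nonpos_of_nonneg (not_lt.1 hcon) hM0.le
    rw [hεr] at h1
    have h2 : (0 : ℝ) < r := by exact_mod_cast hr0
    linarith
  have hBsumR : Summable fun k => (B k : ℝ) * (r : ℝ) ^ k := by exact_mod_cast hBsum
  refine ⟨Q, ε, ⟨?_, by exact_mod_cast hε0, ?_⟩⟩
  · -- the radius
    refine Q.le_radius_of_summable ?_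
    have h1 : Summable fun k => (M * |b - a|) * ((B k : ℝ) * (r : ℝ) ^ k) := hBsumR.mul_left _
    refine Summable.of_nonneg_of_le (fun k => by positivity) (fun k => ?_) h1
    have h2 : ‖Q k‖ ≤ M ^ (k + 1) * B k * |b - a| := by
      refine intervalIntegral.norm_integral_le_of_norm_le_const fun s hs' => ?_
      exact hqn k s (uIoc_subset_uIcc hs')
    calc ‖Q k‖ * (ε : ℝ) ^ k ≤ M ^ (k + 1) * B k * |b - a| * (ε : ℝ) ^ k :=
          mul_le_mul_of_nonneg_right h2 (by positivity)
      _ = (M * |b - a|) * ((B k : ℝ) * ((ε : ℝ) * M) ^ k) := by rw [mul_pow]; ring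
      _ = _ := by rw [hεr]
  · -- the sum
    intro y hy
    rw [mem_eball_zero_iff] at hy
    have hy' : ‖y‖ < ε := by
      have : (‖y‖₊ : ℝ≥0∞) < ε := hy
      have h2 : ‖y‖₊ < ε := by exact_mod_cast this
      exact_mod_cast h2
    have hMy : M * ‖y‖ ≤ r := by rw [← hεr]; nlinarith
    have hterm : ∀ k, Q k (fun _ => y) = ∫ s in a..b, q s k (fun _ => y) := by
      intro k
      have h1 := ContinuousLinearMap.intervalIntegral_comp_comm
        (ContinuousMultilinearMap.apply ℝ (fun _ : Fin k => ℂ) ℝ (fun _ => y)) (hqi k)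
      exact h1.symm
    simp only [hterm]
    refine intervalIntegral.hasSum_integral_of_dominated_convergence
      (fun k _ => M * ((B k : ℝ) * (r : ℝ) ^ k)) ?_ ?_ ?_ ?_ ?_
    · intro k
      have h1 : ContinuousOn (fun s => q s k (fun _ => y)) (uIcc a b) :=
        ((ContinuousMultilinearMap.apply ℝ (fun _ : Fin k => ℂ) ℝ
          (fun _ => y)).continuous.comp_continuousOn (hqc k))
      exact (h1.mono uIoc_subset_uIcc).aestronglyMeasurable measurableSet_uIoc
    · intro k
      refine Eventually.of_forall fun s hs' => ?_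
      have h1 := hqn k s (uIoc_subset_uIcc hs')
      refine ((q s k).le_opNorm _).trans ?_
      rw [Finset.prod_const, Finset.card_univ, Fintype.card_fin]
      calc ‖q s k‖ * ‖y‖ ^ k ≤ M ^ (k + 1) * B k * ‖y‖ ^ k :=
            mul_le_mul_of_nonneg_right h1 (by positivity)
        _ = M * ((B k : ℝ) * (M * ‖y‖) ^ k) := by rw [mul_pow]; ring
        _ ≤ M * ((B k : ℝ) * (r : ℝ) ^ k) := by gcongr
    · exact Eventually.of_forall fun s _ => hBsumR.mul_left M
    · exact intervalIntegrable_const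
    · refine Eventually.of_forall fun s hs' => ?_
      have hsI := uIoc_subset_uIcc hs'
      set x : ℂ := (s - s₀) • z₀ with hxdef
      have hxr : ‖x‖₊ ≤ r := hx s hsI
      have hsy : ‖s • y‖₊ ≤ r := by
        rw [← NNReal.coe_le_coe, coe_nnnorm, norm_smul, Real.norm_eq_abs]
        exact (mul_le_mul_of_nonneg_right (hsM s hsI) (norm_nonneg _)).trans hMy
      have hsum : ((‖x‖₊ : ℝ≥0∞) + ‖s • y‖₊) < p.radius := by
        refine lt_of_le_of_lt (add_le_add ?_ ?_) hrad
        · exact_mod_cast hxr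
        · exact_mod_cast hsy
      have h1 : J (s • (z₀ + y)) = p.sum (x + s • y) := by
        have h2 : x + s • y ∈ eball (0 : ℂ) ρ := by
          rw [mem_eball_zero_iff]
          refine lt_of_le_of_lt ?_ hrr
          have h3 : ‖x + s • y‖₊ ≤ r + r := (nnnorm_add_le _ _).trans (add_le_add hxr hsy)
          exact_mod_cast h3
        rw [← hp.sum h2]
        congr 1
        rw [hxdef]
        module
      have h2 : s • y ∈ eball (0 : ℂ) (p.changeOrigin x).radius := by
        refine mem_eball_zero_iff.2 (lt_of_lt_of_le ?_ p.changeOrigin_radius)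
        rw [lt_tsub_iff_right, add_comm]
        exact hsum
      have h3 := (p.changeOrigin x).hasSum h2
      rw [p.changeOrigin_eval hsum, ← h1] at h3
      have h4 := h3.mul_left s
      refine h4.congr_fun ?_
      intro k
      simp only [hq]
      rw [smul_apply]
      have h5 := (p.changeOrigin x k).map_smul_univ (fun _ => s) (fun _ => y)
      simp only [Finset.prod_const, Finset.card_univ, Fintype.card_fin] at h5
      rw [h5, smul_eq_mul, smul_eq_mul, pow_succ]
      ring

end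

end MPc541f6
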