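import Pool.Agent.Lib.MP_c541f6_an.OAna
import Pool.Agent.Lib.MP_c541f6_an.GLin

/-!
# Analyticity of the linearising map
-/

open Complex Set Filter Topology Metric MeasureTheory

namespace MPc541f6

noncomputable section

/-- The radial average of an analytic function is analytic. -/
theorem analyticAt_jay {J : ℂ → ℝ} (hJc : Continuous J) {z₀ : ℂ}
    (h : ∀ s ∈ Icc (0 : ℝ) 1, AnalyticAt ℝ J (s • z₀)) : AnalyticAt ℝ (jay J) z₀ := by
  classical
  set P : ℝ → Prop := fun b => AnalyticAt ℝ (fun z : ℂ => ∫ s in (0 : ℝ)..b, s * J (s • z)) z₀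
    with hP
  have hint : ∀ (z : ℂ) (a b : ℝ), IntervalIntegrable (fun s : ℝ => s * J (s • z)) volume a b :=
    fun z a b => (by fun_prop : Continuous fun s : ℝ => s * J (s • z)).intervalIntegrable a b
  have hadd : ∀ b c : ℝ, P b → AnalyticAt ℝ (fun z : ℂ => ∫ s in b..c, s * J (s • z)) z₀ →
      P c := by
    intro b c hb hc
    have h1 : (fun z : ℂ => ∫ s in (0 : ℝ)..c, s * J (s • z)) =
        fun z : ℂ => (∫ s in (0 : ℝ)..b, s * J (s • z)) + ∫ s in b..c, s * J (s • z) := by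
      funext z
      exact (intervalIntegral.integral_add_adjacent_intervals (hint z _ _) (hint z _ _)).symm
    show AnalyticAt ℝ (fun z : ℂ => ∫ s in (0 : ℝ)..c, s * J (s • z)) z₀
    rw [h1]
    exact hb.add hc
  set ψ : ℝ → ℝ := fun b => if P b then 1 else 0 with hψ
  have hcont : ContinuousOn ψ (Icc 0 1) := by
    intro b₀ hb₀
    obtain ⟨δ, hδ, hloc⟩ := local_analytic (h b₀ hb₀)
    have h1 : ψ =ᶠ[𝓝[Icc 0 1] b₀] fun _ => ψ b₀ := by
      refine mem_nhdsWithin_of_mem_nhds ?_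
      filter_upwards [Metric.ball_mem_nhds b₀ hδ] with b hb
      rw [mem_ball, Real.dist_eq] at hb
      have hz : |b₀ - b₀| ≤ δ := by rw [sub_self, abs_zero]; exact hδ.le
      have h2 := hloc b₀ b hz hb.le
      have h3 := hloc b b₀ hb.le hz
      have h4 : P b ↔ P b₀ := ⟨fun hp => hadd b b₀ hp h3, fun hp => hadd b₀ b hp h2⟩
      simp only [hψ, h4]
    have h2 : ContinuousWithinAt (fun _ : ℝ => ψ b₀) (Icc 0 1) b₀ := continuousWithinAt_const
    exact h2.congr_of_eventuallyEq h1 rfl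
  have h0 : P 0 := by
    show AnalyticAt ℝ (fun z : ℂ => ∫ s in (0 : ℝ)..0, s * J (s • z)) z₀
    simp only [intervalIntegral.integral_same]
    exact analyticAt_const
  have h1 := const_of_int isPreconnected_Icc hcont (fun x _ => by
    by_cases hx : P x
    · exact ⟨1, by simp [hψ, hx]⟩
    · exact ⟨0, by simp [hψ, hx]⟩) (left_mem_Icc.2 zero_le_one) (right_mem_Icc.2 zero_le_one)
  by_contra hcon
  have h2 : ¬ P 1 := hcon
  simp only [hψ, h0, h2, if_true, if_false] at h1
  exact one_ne_zero h1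

theorem analyticAt_hmap {J : ℂ → ℝ} {c : ℝ} (hJc : Continuous J) (hpos : ∀ z, 0 < J z)
    (hc : 0 < c) {z₀ : ℂ} (h : ∀ s ∈ Icc (0 : ℝ) 1, AnalyticAt ℝ J (s • z₀)) :
    AnalyticAt ℝ (hmap J c) z₀ := by
  have h1 : AnalyticAt ℝ (fun z => jay J z / c) z₀ := (analyticAt_jay hJc h).div_const
  have h2 : ContDiffAt ℝ (⊤ : WithTop ℕ∞) (gee J c) z₀ := by
    unfold gee
    exact h1.contDiffAt.sqrt (div_pos (jay_pos hJc hpos z₀) hc).ne'
  unfold hmap
  exact h2.analyticAt.smul analyticAt_id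

end

end MPc541f6
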