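import Pool.Agent.Lib.MP_c541f6_an.RDet

/-!
# The angular coordinate adapted to a density
-/

open Complex Set Filter Topology Metric MeasureTheory

namespace MPc541f6

noncomputable section

variable {J : ℂ → ℝ}

/-- The mean of `J` over the circle through `z`. -/
def nrm (J : ℂ → ℝ) (z : ℂ) : ℝ := ∫ s in (0 : ℝ)..1, J (e s * z)

/-- The first moment of `J` on the circle through `z`. -/
def fmom (J : ℂ → ℝ) (z : ℂ) : ℝ := ∫ s in (0 : ℝ)..1, (s - 1 / 2) * J (e s * z)

/-- The angle by which `z` is moved. -/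
def wgt (J : ℂ → ℝ) (z : ℂ) : ℝ := fmom J z / nrm J z

/-- The adapted coordinates. -/
def fmap (J : ℂ → ℝ) (z : ℂ) : ℂ := e (wgt J z) * z

lemma contDiff_e {k : WithTop ℕ∞} : ContDiff ℝ k e := by
  unfold e
  have h1 : ContDiff ℝ k (fun t : ℝ => ((2 * Real.pi * t : ℝ) : ℂ) * I) := by
    have h2 : ContDiff ℝ k (fun t : ℝ => 2 * Real.pi * t) := contDiff_const.mul contDiff_id
    exact (Complex.ofRealCLM.contDiff.comp h2).mul contDiff_const
  exact (Complex.contDiff_exp (𝕜 := ℝ)).comp h1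

lemma nrm_pos (hJ : Continuous J) (hpos : ∀ z, 0 < J z) (z : ℂ) : 0 < nrm J z := by
  unfold nrm
  have he := continuous_e
  have hc : Continuous fun s : ℝ => J (e s * z) := by fun_prop
  exact intervalIntegral.intervalIntegral_pos_of_pos_on (hc.intervalIntegrable _ _)
    (fun s _ => hpos _) zero_lt_one

lemma contDiff_nrm (hJ : ContDiff ℝ smo J) : ContDiff ℝ smo (nrm J) := by
  rw [smo, contDiff_infty]
  intro n
  have hJn : ContDiff ℝ n J := by
    rw [smo, contDiff_infty] at hJ
    exact hJ n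
  have h1 : ContDiff ℝ n (fun p : ℂ × ℝ => J (e p.2 * p.1)) :=
    hJn.comp ((contDiff_e.comp contDiff_snd).mul contDiff_fst)
  exact contDiff_par_integral n _ h1

lemma contDiff_fmom (hJ : ContDiff ℝ smo J) : ContDiff ℝ smo (fmom J) := by
  rw [smo, contDiff_infty]
  intro n
  have hJn : ContDiff ℝ n J := by
    rw [smo, contDiff_infty] at hJ
    exact hJ n
  have h1 : ContDiff ℝ n (fun p : ℂ × ℝ => (p.2 - 1 / 2) * J (e p.2 * p.1)) :=
    (contDiff_snd.sub contDiff_const).mul
      (hJn.comp ((contDiff_e.comp contDiff_snd).mul contDiff_fst))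
  exact contDiff_par_integral n _ h1

lemma contDiff_wgt (hJ : ContDiff ℝ smo J) (hpos : ∀ z, 0 < J z) : ContDiff ℝ smo (wgt J) :=
  (contDiff_fmom hJ).div (contDiff_nrm hJ) fun z => (nrm_pos hJ.continuous hpos z).ne'

lemma contDiff_fmap (hJ : ContDiff ℝ smo J) (hpos : ∀ z, 0 < J z) : ContDiff ℝ smo (fmap J) :=
  (contDiff_e.comp (contDiff_wgt hJ hpos)).mul contDiff_id

lemma analyticAt_e (t : ℝ) : AnalyticAt ℝ e t :=
  (contDiff_e (k := ⊤)).contDiffAt.analyticAt

lemma analyticAt_fmap (hJ : Continuous J) (hpos : ∀ z, 0 < J z) {z₀ : ℂ}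
    (h : ∀ s : ℝ, AnalyticAt ℝ J (e s * z₀)) : AnalyticAt ℝ (fmap J) z₀ := by
  have he := continuous_e
  have hJ2 : ∀ s : ℝ, AnalyticAt ℝ (fun p : ℂ × ℝ => J (e p.2 * p.1)) (z₀, s) := by
    intro s
    have h1 : AnalyticAt ℝ (fun p : ℂ × ℝ => e p.2 * p.1) (z₀, s) :=
      ((analyticAt_e s).fun_comp (g := e) (f := fun p : ℂ × ℝ => p.2) analyticAt_snd).mul
        analyticAt_fst
    exact (h s).fun_comp (g := J) (f := fun p : ℂ × ℝ => e p.2 * p.1) h1
  have h1 : AnalyticAt ℝ (nrm J) z₀ :=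
    analyticAt_par_integral (F := fun p : ℂ × ℝ => J (e p.2 * p.1)) (by fun_prop)
      fun s _ => hJ2 s
  have h2 : AnalyticAt ℝ (fmom J) z₀ := by
    refine analyticAt_par_integral (F := fun p : ℂ × ℝ => (p.2 - 1 / 2) * J (e p.2 * p.1))
      (by fun_prop) fun s _ => ?_
    exact (analyticAt_snd.sub analyticAt_const).mul (hJ2 s)
  have h3 : AnalyticAt ℝ (wgt J) z₀ := h2.div h1 (nrm_pos hJ hpos z₀).ne'
  exact ((analyticAt_e _).comp h3).mul analyticAt_id

/-! ### The angle on a circle -/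

lemma e_mul_pol (s t r : ℝ) : e s * pol (t, r) = pol (t + s, r) := by
  unfold pol
  simp only
  rw [e_add]
  ring

/-- `J` on the circle of radius `r`. -/
def circJ (J : ℂ → ℝ) (r t : ℝ) : ℝ := J (pol (t, r))

lemma circJ_cont (hJ : Continuous J) (r : ℝ) : Continuous (circJ J r) := by
  unfold circJ
  have := continuous_pol
  fun_prop

lemma circJ_per (r : ℝ) : Function.Periodic (circJ J r) 1 := by
  intro t
  unfold circJ
  have := pol_add_int t r 1
  push_cast at this
  rw [this]

lemma nrm_pol (t r : ℝ) : nrm J (pol (t, r)) = ∫ s in (0 : ℝ)..1, circJ J r s := by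
  unfold nrm
  simp_rw [e_mul_pol]
  have h1 := intervalIntegral.integral_comp_add_left (a := 0) (b := 1) (circJ J r) t
  have h2 : (fun s : ℝ => J (pol (t + s, r))) = fun s => circJ J r (t + s) := rfl
  rw [h2, h1, add_zero]
  have h3 := (circJ_per (J := J) r).intervalIntegral_add_eq t 0
  rw [h3, zero_add]

lemma nrm_pol' (t r : ℝ) : nrm J (pol (t, r)) = ∫ s in t..(t + 1), circJ J r s := by
  rw [nrm_pol]
  have h3 := (circJ_per (J := J) r).intervalIntegral_add_eq t 0
  rw [h3, zero_add]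

lemma hasDerivAt_fmom (hJ : Continuous J) (t r : ℝ) :
    HasDerivAt (fun t : ℝ => fmom J (pol (t, r)))
      (J (pol (t, r)) - nrm J (pol (t, r))) t := by
  have hc := circJ_cont hJ r
  set φ := circJ J r with hφ
  set P0 : ℝ → ℝ := fun x => ∫ u in (0 : ℝ)..x, φ u with hP0
  set P1 : ℝ → ℝ := fun x => ∫ u in (0 : ℝ)..x, u * φ u with hP1
  have hc1 : Continuous fun u : ℝ => u * φ u := by fun_prop
  have hd0 : ∀ x, HasDerivAt P0 (φ x) x := fun x =>
    intervalIntegral.integral_hasDerivAt_right (hc.intervalIntegrable _ _)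
      (hc.stronglyMeasurableAtFilter _ _) hc.continuousAt
  have hd1 : ∀ x, HasDerivAt P1 (x * φ x) x := fun x =>
    intervalIntegral.integral_hasDerivAt_right (hc1.intervalIntegrable _ _)
      (hc1.stronglyMeasurableAtFilter _ _) hc1.continuousAt
  have hval : ∀ t : ℝ, fmom J (pol (t, r)) =
      (P1 (t + 1) - P1 t) - (t + 1 / 2) * (P0 (t + 1) - P0 t) := by
    intro t
    unfold fmom
    simp_rw [e_mul_pol]
    have h1 := intervalIntegral.integral_comp_add_left (a := 0) (b := 1)
      (fun u => (u - (t + 1 / 2)) * φ u) t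
    have h2 : (fun s : ℝ => (s - 1 / 2) * J (pol (t + s, r))) =
        fun s => (t + s - (t + 1 / 2)) * φ (t + s) := by
      funext s
      have : φ (t + s) = J (pol (t + s, r)) := rfl
      rw [this]
      ring
    rw [h2, h1, add_zero]
    have h3 : ∀ a b : ℝ, (∫ u in a..b, (u - (t + 1 / 2)) * φ u) =
        (∫ u in a..b, u * φ u) - (t + 1 / 2) * ∫ u in a..b, φ u := by
      intro a b
      rw [← intervalIntegral.integral_const_mul, ← intervalIntegral.integral_sub
        (hc1.intervalIntegrable _ _) ((hc.const_mul _).intervalIntegrable _ _)]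
      congr 1
      funext u
      ring
    rw [h3]
    have h4 := intervalIntegral.integral_interval_sub_left (μ := volume)
      (hc1.intervalIntegrable 0 (t + 1)) (hc1.intervalIntegrable 0 t)
    have h5 := intervalIntegral.integral_interval_sub_left (μ := volume)
      (hc.intervalIntegrable 0 (t + 1)) (hc.intervalIntegrable 0 t)
    rw [← h4, ← h5]
  have hN : nrm J (pol (t, r)) = P0 (t + 1) - P0 t := by
    rw [nrm_pol']
    exact (intervalIntegral.integral_interval_sub_left (μ := volume)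
      (hc.intervalIntegrable 0 (t + 1)) (hc.intervalIntegrable 0 t)).symm
  have hper : φ (t + 1) = φ t := circJ_per r t
  have hs2 : HasDerivAt (fun t : ℝ => t + 1 / 2) 1 t := (hasDerivAt_id t).add_const _
  have e1 : HasDerivAt (fun t => P1 (t + 1)) ((t + 1) * φ (t + 1)) t := by
    exact (hd1 (t + 1)).comp_add_const t 1
  have e0 : HasDerivAt (fun t => P0 (t + 1)) (φ (t + 1)) t := by
    exact (hd0 (t + 1)).comp_add_const t 1
  have h6 := (e1.sub (hd1 t)).sub (hs2.mul (e0.sub (hd0 t)))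
  have h7 : (fun t : ℝ => fmom J (pol (t, r))) =
      fun t => (P1 (t + 1) - P1 t) - (t + 1 / 2) * (P0 (t + 1) - P0 t) := funext hval
  rw [h7]
  refine h6.congr_deriv ?_
  rw [hN, hper]
  have : φ t = J (pol (t, r)) := rfl
  rw [← this]
  simp only [Pi.sub_apply]
  ring

/-- The new angle of the point with polar coordinates `(t, r)`. -/
def ang (J : ℂ → ℝ) (r t : ℝ) : ℝ := t + wgt J (pol (t, r))

lemma hasDerivAt_ang (hJ : Continuous J) (hpos : ∀ z, 0 < J z) (t r : ℝ) :
    HasDerivAt (ang J r) (J (pol (t, r)) / nrm J (pol (0, r))) t := by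
  have hN := (nrm_pos hJ hpos (pol (0, r))).ne'
  have h1 := (hasDerivAt_fmom hJ t r).div_const (nrm J (pol (0, r)))
  have h2 : ∀ t, nrm J (pol (t, r)) = nrm J (pol (0, r)) := fun t => by rw [nrm_pol, nrm_pol]
  have h3 := (hasDerivAt_id t).add h1
  have h4 : ang J r = id + fun t => fmom J (pol (t, r)) / nrm J (pol (0, r)) := by
    funext t
    unfold ang wgt
    rw [h2 t]
    rfl
  rw [h4]
  refine h3.congr_deriv ?_
  rw [h2 t]
  field_simp
  ring

lemma ang_strictMono (hJ : Continuous J) (hpos : ∀ z, 0 < J z) (r : ℝ) :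
    StrictMono (ang J r) := by
  refine strictMono_of_deriv_pos fun t => ?_
  rw [(hasDerivAt_ang hJ hpos t r).deriv]
  exact div_pos (hpos _) (nrm_pos hJ hpos _)

lemma ang_cont (hJ : Continuous J) (hpos : ∀ z, 0 < J z) (r : ℝ) : Continuous (ang J r) :=
  continuous_iff_continuousAt.2 fun t => (hasDerivAt_ang hJ hpos t r).continuousAt

lemma ang_add_one (r t : ℝ) : ang J r (t + 1) = ang J r t + 1 := by
  unfold ang
  have := pol_add_int t r 1
  push_cast at this
  rw [this]
  ring

lemma ang_surj (hJ : Continuous J) (hpos : ∀ z, 0 < J z) (r : ℝ) :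
    Function.Surjective (ang J r) := by
  have hb := fun x => deg_one_bound (ang_strictMono hJ hpos r).monotone (ang_add_one r) x
  refine (ang_cont hJ hpos r).surjective ?_ ?_
  · refine tendsto_atTop_mono (f := fun x => x + -(|ang J r 0| + 1)) (fun x => ?_)
      (tendsto_atTop_add_const_right _ _ tendsto_id)
    have := (abs_le.1 (hb x)).1
    linarith
  · refine tendsto_atBot_mono (f := fun x => x + (|ang J r 0| + 1)) (fun x => ?_)
      (tendsto_atBot_add_const_right _ _ tendsto_id)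
    have := (abs_le.1 (hb x)).2
    linarith

lemma fmap_pol (t r : ℝ) : fmap J (pol (t, r)) = pol (ang J r t, r) := by
  unfold fmap ang
  rw [e_mul_pol]

lemma norm_fmap (z : ℂ) : ‖fmap J z‖ = ‖z‖ := by
  unfold fmap
  rw [norm_mul, norm_e, one_mul]

lemma fmap_zero : fmap J 0 = 0 := by
  unfold fmap
  rw [mul_zero]

lemma fmap_injective (hJ : Continuous J) (hpos : ∀ z, 0 < J z) :
    Function.Injective (fmap J) := by
  intro z w hzw
  have hn : ‖z‖ = ‖w‖ := by rw [← norm_fmap (J := J) z, hzw, norm_fmap]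
  by_cases hz : z = 0
  · rw [hz, norm_zero] at hn
    rw [hz, norm_eq_zero.1 hn.symm]
  · have hr : 0 < ‖z‖ := norm_pos_iff.2 hz
    have h1 : z = pol ((polar z).1, ‖z‖) := (pol_polar z).symm
    have h2 : w = pol ((polar w).1, ‖z‖) := by rw [hn]; exact (pol_polar w).symm
    have h3 : pol (ang J ‖z‖ (polar z).1, ‖z‖) = pol (ang J ‖z‖ (polar w).1, ‖z‖) := by
      rw [← fmap_pol, ← fmap_pol, ← h1, ← h2, hzw]
    obtain ⟨-, k, hk⟩ := pol_eq_pol hr hr.le h3
    rw [← deg_one_int (ang_add_one ‖z‖)] at hk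
    have h4 := (ang_strictMono hJ hpos ‖z‖).injective hk
    rw [h1, h2, h4, pol_add_int]

lemma fmap_bijOn (hJ : Continuous J) (hpos : ∀ z, 0 < J z) :
    BijOn (fmap J) (closedBall 0 1) (closedBall 0 1) := by
  refine ⟨fun z hz => ?_, (fmap_injective hJ hpos).injOn, fun y hy => ?_⟩
  · rw [mem_closedBall_zero_iff] at hz ⊢
    rwa [norm_fmap]
  · obtain ⟨t, ht⟩ := ang_surj hJ hpos ‖y‖ (polar y).1
    refine ⟨pol (t, ‖y‖), ?_, ?_⟩
    · rw [mem_closedBall_zero_iff] at hy ⊢
      rwa [norm_pol' (p := (t, ‖y‖)) (norm_nonneg y)]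
    · rw [fmap_pol, ht]
      exact pol_polar y

lemma fderiv_fmap_injective (hJ : ContDiff ℝ smo J) (hpos : ∀ z, 0 < J z) (z : ℂ) :
    Function.Injective (fderiv ℝ (fmap J) z) := by
  have hd : Differentiable ℝ (fmap J) := (contDiff_fmap hJ hpos).differentiable (by simp [smo])
  by_cases hz : z = 0
  · subst hz
    have h1 : DifferentiableAt ℝ (fun z => e (wgt J z)) 0 :=
      (contDiff_e.comp (contDiff_wgt hJ hpos)).differentiable (by simp [smo]) 0
    have h2 := h1.hasFDerivAt.mul' (hasFDerivAt_id (𝕜 := ℝ) (0 : ℂ))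
    have h3 : HasFDerivAt (fmap J) (e (wgt J 0) • ContinuousLinearMap.id ℝ ℂ) 0 := by
      refine h2.congr_fderiv ?_
      ext v
      simp
    rw [h3.fderiv]
    intro v w hvw
    exact smul_right_injective ℂ (e_ne_zero (wgt J 0)) hvw
  · have hr : 0 < ‖z‖ := norm_pos_iff.2 hz
    have h1 : z = pol ((polar z).1, ‖z‖) := (pol_polar z).symm
    refine injective_of_det_ne ?_
    rw [h1, det_of_circle (x := ang J ‖z‖) hr (hd _)
      (Eventually.of_forall fun y => norm_fmap y) (fun s => fmap_pol s _)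
      (hasDerivAt_ang hJ.continuous hpos _ _)]
    exact (div_pos (hpos _) (nrm_pos hJ.continuous hpos _)).ne'

end

end MPc541f6
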