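import Pool.Agent.Lib.MP_c541f6_an.HMean

/-!
# Maps preserving a density which move no point of an invariant set closer to the origin
-/

open Complex Set Filter Topology Metric MeasureTheory

namespace MPc541f6

noncomputable section

open DensMap

variable {J : ℂ → ℝ} {f : ℂ → ℂ} {Θ : ℝ × ℝ → ℝ}

lemma DensMap.integral_comp_on (h : DensMap J f Θ) (hpos : ∀ z, 0 < J z) {U : Set ℂ}
    (hUm : MeasurableSet U) (hUb : U ⊆ ball 0 1) (hinv : f '' U = U) (g : ℂ → ℝ) :
    ∫ z in U, g (f z) * J z = ∫ z in U, g z * J z := by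
  have h1 := integral_image_eq_integral_abs_det_fderiv_smul (μ := volume) (s := U)
    (f := f) (f' := fun z => fderiv ℝ f z) hUm
    (fun z hz => (h.diff z (hUb hz)).hasFDerivAt.hasFDerivWithinAt)
    (h.ball_bij.injOn.mono hUb) (fun z => g z * J z)
  rw [hinv] at h1
  rw [h1]
  refine setIntegral_congr_fun hUm fun z hz => ?_
  have h2 := h.det z (hUb hz)
  have h3 : 0 < (fderiv ℝ f z).det := by
    by_contra hcon
    have h4 : J (f z) * (fderiv ℝ f z).det ≤ 0 :=
      mul_nonpos_of_nonneg_of_nonpos (hpos _).le (not_lt.1 hcon)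
    rw [h2] at h4
    exact absurd (hpos z) (not_lt.2 h4)
  simp only [smul_eq_mul]
  rw [abs_of_pos h3, ← h2]
  ring

/-- A map preserving a positive density which moves no point of an open invariant set closer to
the origin, or no point of it farther away, preserves the distance to the origin there. -/
theorem DensMap.norm_eq_on (h : DensMap J f Θ) (hJ : Continuous J) (hpos : ∀ z, 0 < J z)
    {U : Set ℂ} (hUo : IsOpen U) (hUb : U ⊆ ball 0 1) (hinv : f '' U = U)
    (hs : (∀ z ∈ U, ‖z‖ ≤ ‖f z‖) ∨ ∀ z ∈ U, ‖f z‖ ≤ ‖z‖) : ∀ z ∈ U, ‖f z‖ = ‖z‖ := by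
  have hUm := hUo.measurableSet
  have hUc : U ⊆ closedBall 0 1 := hUb.trans ball_subset_closedBall
  have hfin : IsFiniteMeasure (volume.restrict U) :=
    ⟨by
      rw [Measure.restrict_apply_univ]
      exact lt_of_le_of_lt (measure_mono hUb) measure_ball_lt_top⟩
  obtain ⟨B, hB⟩ : ∃ B : ℝ, ∀ z ∈ closedBall (0 : ℂ) 1, |J z| ≤ B := by
    obtain ⟨B, hB⟩ := (isCompact_closedBall (0 : ℂ) 1).exists_bound_of_continuousOn
      hJ.continuousOn
    exact ⟨B, fun z hz => hB z hz⟩
  have hfc : ContinuousOn f U := h.cont.mono hUc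
  have hint : ∀ φ : ℂ → ℂ, ContinuousOn φ U → MapsTo φ U (closedBall 0 1) →
      Integrable (fun z => ‖φ z‖ ^ 2 * J z) (volume.restrict U) := by
    intro φ hφ hm
    refine Integrable.of_bound ?_ B ?_
    · have h1 : ContinuousOn (fun z => ‖φ z‖ ^ 2 * J z) U :=
        (hφ.norm.pow 2).mul hJ.continuousOn
      exact h1.aestronglyMeasurable hUm
    · refine (ae_restrict_iff' hUm).2 (Eventually.of_forall fun z hz => ?_)
      have h1 := hm hz
      rw [mem_closedBall_zero_iff] at h1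
      rw [Real.norm_eq_abs, abs_mul, abs_of_nonneg (by positivity)]
      have h2 : ‖φ z‖ ^ 2 ≤ 1 := pow_le_one₀ (norm_nonneg _) h1
      calc ‖φ z‖ ^ 2 * |J z| ≤ 1 * |J z| := mul_le_mul_of_nonneg_right h2 (abs_nonneg _)
        _ ≤ B := by rw [one_mul]; exact hB z (hUc hz)
  have hi1 := hint f hfc (h.bij.mapsTo.mono_left hUc)
  have hi2 := hint (fun z => z) continuousOn_id fun z hz => hUc hz
  have heq := h.integral_comp_on hpos hUm hUb hinv (fun z => ‖z‖ ^ 2)
  have hae : (fun z => ‖f z‖) =ᵐ[volume.restrict U] fun z => ‖z‖ := by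
    rcases hs with hs | hs
    · have h1 : ∫ z in U, (‖f z‖ ^ 2 * J z - ‖z‖ ^ 2 * J z) = 0 := by
        rw [integral_sub hi1 hi2]
        exact sub_eq_zero.2 heq
      have h2 : (0 : ℂ → ℝ) ≤ᵐ[volume.restrict U] fun z => ‖f z‖ ^ 2 * J z - ‖z‖ ^ 2 * J z := by
        filter_upwards [ae_restrict_mem hUm] with z hz
        have := hs z hz
        exact sub_nonneg.2 (mul_le_mul_of_nonneg_right (by gcongr) (hpos z).le)
      have h3 := (integral_eq_zero_iff_of_nonneg_ae h2 (hi1.sub hi2)).1 h1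
      filter_upwards [h3] with z hz
      have h4 : ‖f z‖ ^ 2 * J z - ‖z‖ ^ 2 * J z = 0 := hz
      have h5 : (‖f z‖ ^ 2 - ‖z‖ ^ 2) * J z = 0 := by linarith
      rcases mul_eq_zero.1 h5 with h6 | h6
      · exact (pow_left_inj₀ (norm_nonneg _) (norm_nonneg _) two_ne_zero).1 (by linarith)
      · exact absurd h6 (hpos z).ne'
    · have h1 : ∫ z in U, (‖z‖ ^ 2 * J z - ‖f z‖ ^ 2 * J z) = 0 := by
        rw [integral_sub hi2 hi1]
        exact sub_eq_zero.2 heq.symm
      have h2 : (0 : ℂ → ℝ) ≤ᵐ[volume.restrict U] fun z => ‖z‖ ^ 2 * J z - ‖f z‖ ^ 2 * J z := by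
        filter_upwards [ae_restrict_mem hUm] with z hz
        have := hs z hz
        exact sub_nonneg.2 (mul_le_mul_of_nonneg_right (by gcongr) (hpos z).le)
      have h3 := (integral_eq_zero_iff_of_nonneg_ae h2 (hi2.sub hi1)).1 h1
      filter_upwards [h3] with z hz
      have h4 : ‖z‖ ^ 2 * J z - ‖f z‖ ^ 2 * J z = 0 := hz
      have h5 : (‖f z‖ ^ 2 - ‖z‖ ^ 2) * J z = 0 := by linarith
      rcases mul_eq_zero.1 h5 with h6 | h6
      · exact (pow_left_inj₀ (norm_nonneg _) (norm_nonneg _) two_ne_zero).1 (by linarith)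
      · exact absurd h6 (hpos z).ne'
  exact fun z hz => Measure.eqOn_open_of_ae_eq hae hUo hfc.norm continuous_norm.continuousOn hz

end

end MPc541f6
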