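import Pool.Agent.Lib.MP_c541f6_an.RAng
import Pool.Agent.Lib.MP_c541f6_an.RMean
import Pool.Agent.Lib.MP_c541f6_an.GRoot

/-!
# Maps preserving a density and all circles around the origin
-/

open Complex Set Filter Topology Metric MeasureTheory

namespace MPc541f6

noncomputable section

open DensMap

variable {J : ℂ → ℝ} {f : ℂ → ℂ} {Θ : ℝ × ℝ → ℝ} {α : ℝ}

lemma DensMap.norm_eq_closed (h : DensMap J f Θ) (hn : ∀ z ∈ ball (0 : ℂ) 1, ‖f z‖ = ‖z‖) :
    ∀ z ∈ closedBall (0 : ℂ) 1, ‖f z‖ = ‖z‖ := by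
  intro z hz
  have h1 : EqOn (fun z => ‖f z‖) (fun z => ‖z‖) (ball 0 1) := fun z hz => hn z hz
  exact h1.of_subset_closure h.cont.norm continuous_norm.continuousOn ball_subset_closedBall
    (by rw [closure_ball _ one_ne_zero]) hz

/-- **Circle-preserving maps are conjugated to rotations.** -/
theorem DensMap.circle_conj (h : DensMap J f Θ) (hJ : ContDiff ℝ smo J) (hpos : ∀ z, 0 < J z)
    (hrot : HasRotationNumber f Θ α) (hn : ∀ z ∈ ball (0 : ℂ) 1, ‖f z‖ = ‖z‖) :
    ∀ z ∈ closedBall (0 : ℂ) 1, fmap J (f z) = e α * fmap J z := by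
  have hJc := hJ.continuous
  have hnc := h.norm_eq_closed hn
  have hmid : ∀ r : ℝ, 0 < r → r < 1 → ∀ t : ℝ, ang J r (Θ (t, r)) = ang J r t + α := by
    intro r hr0 hr1
    have hs : ∀ t : ℝ, (t, r) ∈ strip := fun t => ⟨hr0.le, hr1.le⟩
    have hb : ∀ t : ℝ, pol (t, r) ∈ ball (0 : ℂ) 1 := fun t => by
      rw [mem_ball_zero_iff, norm_pol' (p := (t, r)) hr0.le]; exact hr1
    have hnr : ∀ t : ℝ, ‖f (pol (t, r))‖ = r := fun t => by
      rw [hn _ (hb t), norm_pol' (p := (t, r)) hr0.le]
    have hx : ∀ t : ℝ, f (pol (t, r)) = pol (Θ (t, r), r) := fun t => by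
      have h1 := h.angle _ (hs t)
      unfold lift at h1
      rwa [hnr t] at h1
    have hlift : ∀ t : ℝ, lift f Θ (t, r) = (Θ (t, r), r) := fun t => by
      unfold lift
      rw [hnr t]
    have hxc : Continuous fun t : ℝ => Θ (t, r) := by
      rw [← continuousOn_univ]
      exact h.contΘ.comp (by fun_prop) fun t _ => hs t
    have hdx : ∀ t : ℝ, HasDerivAt (fun t : ℝ => Θ (t, r))
        (fderiv ℝ f (pol (t, r))).det t := fun t => by
      refine hasDerivAt_of_circle hr0 (h.diff _ (hb t)) ?_ hx hxc.continuousAt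
      filter_upwards [isOpen_ball.mem_nhds (hb t)] with y hy
      exact hn y hy
    have hc : ∀ t : ℝ, HasDerivAt (fun t : ℝ => ang J r (Θ (t, r)) - ang J r t) 0 t := by
      intro t
      have h1 := ((hasDerivAt_ang hJc hpos (Θ (t, r)) r).comp t (hdx t)).sub
        (hasDerivAt_ang hJc hpos t r)
      refine h1.congr_deriv ?_
      have h2 := h.det _ (hb t)
      rw [hx t] at h2
      have h3 := (nrm_pos hJc hpos (pol (0, r))).ne'
      field_simp
      linarith
    have hconst : ∀ t : ℝ, ang J r (Θ (t, r)) - ang J r t =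
        ang J r (Θ (0, r)) - ang J r 0 := fun t =>
      is_const_of_deriv_eq_zero (f := fun t : ℝ => ang J r (Θ (t, r)) - ang J r t)
        (fun t => (hc t).differentiableAt) (fun t => (hc t).deriv) t 0
    set c := ang J r (Θ (0, r)) - ang J r 0 with hcdef
    have hit : ∀ n : ℕ, ∃ x : ℝ, (lift f Θ)^[n] (0, r) = (x, r) ∧
        ang J r x = ang J r 0 + n * c := by
      intro n
      induction n with
      | zero => exact ⟨0, rfl, by simp⟩
      | succ n ih =>
        obtain ⟨x, hx1, hx2⟩ := ih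
        refine ⟨Θ (x, r), by rw [Function.iterate_succ_apply', hx1, hlift], ?_⟩
        have h1 := hconst x
        push_cast
        linarith
    have hα : α = c := by
      refine rot_unique (a := ang J r 0) (B := |ang J r 0| + 1) (hrot (0, r) (hs 0)) fun n => ?_
      obtain ⟨x, hx1, hx2⟩ := hit n
      rw [hx1, ← hx2]
      have h2 := deg_one_bound (ang_strictMono hJc hpos r).monotone (ang_add_one r) x
      rwa [abs_sub_comm] at h2
    intro t
    have := hconst t
    linarith
  have hball : ∀ z ∈ ball (0 : ℂ) 1, fmap J (f z) = e α * fmap J z := by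
    intro z hz
    by_cases hz0 : z = 0
    · rw [hz0, h.zero, fmap_zero, mul_zero]
    · have hr0 : 0 < ‖z‖ := norm_pos_iff.2 hz0
      have hr1 : ‖z‖ < 1 := mem_ball_zero_iff.1 hz
      have h1 : z = pol ((polar z).1, ‖z‖) := (pol_polar z).symm
      have h2 : f z = pol (Θ ((polar z).1, ‖z‖), ‖z‖) := by
        have h3 := h.angle ((polar z).1, ‖z‖) ⟨hr0.le, hr1.le⟩
        unfold lift at h3
        rwa [← h1, hn z hz] at h3
      have h3 : fmap J z = pol (ang J ‖z‖ (polar z).1, ‖z‖) :=
        (congrArg (fmap J) h1).trans (fmap_pol _ _)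
      rw [h2, fmap_pol, hmid _ hr0 hr1, h3, e_mul_pol]
  intro z hz
  have h1 : EqOn (fun z => fmap J (f z)) (fun z => e α * fmap J z) (ball 0 1) := hball
  have hfc : Continuous (fmap J) := (contDiff_fmap hJ hpos).continuous
  exact h1.of_subset_closure (hfc.comp_continuousOn h.cont)
    (continuous_const.mul hfc).continuousOn ball_subset_closedBall
    (by rw [closure_ball _ one_ne_zero]) hz

end

end MPc541f6
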