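import Pool.Agent.Lib.MP_c541f6_an.RWind
import Pool.Agent.Lib.MP_c541f6_an.GIter

/-!
# If an iterate of a circle does not cross it, then the circle is invariant
-/

open Complex Set Filter Topology Metric MeasureTheory

namespace MPc541f6

noncomputable section

open DensMap

variable {J : ℂ → ℝ} {f : ℂ → ℂ} {Θ : ℝ × ℝ → ℝ} {α : ℝ}

/-- A map with irrational rotation number has no invariant domain with a continuous branch of the
angle. -/
theorem DensMap.no_branch (h : DensMap J f Θ) (hJ : Continuous J) (hpos : ∀ z, 0 < J z)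
    (hrot : HasRotationNumber f Θ α) (hα : Irrational α) {W : Set ℂ} (hWo : IsOpen W)
    (hWne : W.Nonempty) (hWc : IsPreconnected W) (hWb : W ⊆ ball 0 1) (h0 : (0 : ℂ) ∉ W)
    (hfW : MapsTo f W W) {a : ℂ → ℝ} (hac : ContinuousOn a W)
    (ha : ∀ z ∈ W, pol (a z, ‖z‖) = z) : False := by
  have hst : ∀ z ∈ W, (a z, ‖z‖) ∈ strip := fun z hz =>
    ⟨norm_nonneg z, (mem_ball_zero_iff.1 (hWb hz)).le⟩
  have hW0 : ∀ z ∈ W, 0 < ‖z‖ := fun z hz => norm_pos_iff.2 fun h1 => h0 (h1 ▸ hz)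
  obtain ⟨z₀, hz₀⟩ := hWne
  -- the displacement is a constant integer
  set c : ℂ → ℝ := fun z => Θ (a z, ‖z‖) - a (f z) with hc
  have hcc : ContinuousOn c W := by
    have h1 : ContinuousOn (fun z => Θ (a z, ‖z‖)) W :=
      h.contΘ.comp (f := fun z => (a z, ‖z‖)) (hac.prodMk continuous_norm.continuousOn) hst
    have h2 : ContinuousOn (fun z => a (f z)) W :=
      hac.comp (h.cont.mono (hWb.trans ball_subset_closedBall)) hfW
    exact h1.sub h2
  have hci : ∀ z ∈ W, ∃ k : ℤ, c z = k := by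
    intro z hz
    have h1 := h.angle _ (hst z hz)
    rw [ha z hz] at h1
    have h2 : pol (Θ (a z, ‖z‖), ‖f z‖) = pol (a (f z), ‖f z‖) := by
      rw [ha _ (hfW hz)]
      unfold lift at h1
      rw [ha z hz] at h1
      exact h1.symm
    obtain ⟨-, k, hk⟩ := pol_eq_pol (hW0 _ (hfW hz)) (norm_nonneg _) h2
    exact ⟨k, by simp only [hc]; rw [hk]; ring⟩
  obtain ⟨k, hk⟩ := hci z₀ hz₀
  have hck : ∀ z ∈ W, Θ (a z, ‖z‖) = a (f z) + k := by
    intro z hz
    have h1 := const_of_int hWc hcc hci hz hz₀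
    rw [hk] at h1
    simp only [hc] at h1
    linarith
  have hfn : ∀ n : ℕ, ∀ z ∈ W, f^[n] z ∈ W := by
    intro n
    induction n with
    | zero => intro z hz; exact hz
    | succ n ih =>
      intro z hz
      rw [Function.iterate_succ_apply']
      exact hfW (ih z hz)
  have hit : ∀ z ∈ W, ∀ n : ℕ, (lift f Θ)^[n] (a z, ‖z‖) = (a (f^[n] z) + n * k, ‖f^[n] z‖) := by
    intro z hz n
    induction n with
    | zero => simp
    | succ n ih =>
      rw [Function.iterate_succ_apply', ih, Function.iterate_succ_apply']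
      set w := f^[n] z with hw
      have hwW : w ∈ W := hfn n z hz
      have h1 := h.lift_add_int (hst w hwW) (n * k)
      push_cast at h1
      rw [h1]
      unfold lift
      simp only
      rw [hck w hwW, ha w hwW]
      push_cast
      ring_nf
  -- recurrence
  obtain ⟨δ, hδ, hδW⟩ : ∃ δ > 0, closedBall z₀ δ ⊆ W :=
    Metric.nhds_basis_closedBall.mem_iff.1 (hWo.mem_nhds hz₀)
  obtain ⟨C, hC⟩ := (isCompact_closedBall z₀ δ).exists_bound_of_continuousOn (hac.mono hδW)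
  obtain ⟨z, hz, hfreq⟩ := h.recurrent hJ hpos (B := ball z₀ δ) isOpen_ball
    ⟨z₀, mem_ball_self hδ⟩ ((ball_subset_closedBall.trans hδW).trans hWb)
  have hzW : z ∈ W := hδW (ball_subset_closedBall hz)
  have hr := hrot _ (hst z hzW)
  have hT : Tendsto (fun n : ℕ => a (f^[n] z) / n) atTop (𝓝 (α - k)) := by
    refine (hr.sub_const (k : ℝ)).congr' ?_
    filter_upwards [eventually_gt_atTop 0] with n hn
    have hn' : (n : ℝ) ≠ 0 := by exact_mod_cast hn.ne'
    rw [hit z hzW n]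
    field_simp
    ring
  have hne : α - k ≠ 0 := by
    intro h1
    exact hα ⟨(k : ℚ), by push_cast; linarith⟩
  set ε := |α - k| with hε
  have hεp : 0 < ε := abs_pos.2 hne
  have h1 : ∀ᶠ n : ℕ in atTop, ε / 2 < |a (f^[n] z) / n| :=
    hT.abs.eventually (lt_mem_nhds (by linarith))
  have h2 : ∀ᶠ n : ℕ in atTop, C / n < ε / 2 :=
    (tendsto_const_div_atTop_nhds_zero_nat C).eventually (gt_mem_nhds (by linarith))
  obtain ⟨n, hn, hn1, hn2, hn3⟩ :=
    (hfreq.and_eventually (h1.and (h2.and (eventually_gt_atTop 0)))).exists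
  have hn' : (0 : ℝ) < n := by exact_mod_cast hn3
  have h3 := hC _ (ball_subset_closedBall hn)
  rw [Real.norm_eq_abs] at h3
  rw [abs_div, abs_of_pos hn'] at hn1
  have h4 : |a (f^[n] z)| / n ≤ C / n := div_le_div_of_nonneg_right h3 hn'.le
  linarith

/-- **A circle which is not crossed by its image under some iterate is invariant.** -/
theorem DensMap.norm_eq_of_iter_uncrossed (h : DensMap J f Θ) (hJ : Continuous J)
    (hpos : ∀ z, 0 < J z) (hrot : HasRotationNumber f Θ α) (hα : Irrational α) {r : ℝ}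
    (hr0 : 0 < r) (hr1 : r < 1) {m : ℕ} (hm : 1 ≤ m) (hu : Uncrossed (f^[m]) r) :
    ∀ z : ℂ, ‖z‖ = r → ‖f z‖ = r := by
  by_contra hcon0
  have hnu : ¬ Uncrossed f r := fun hu' => hcon0 (h.norm_eq_of_uncrossed hJ hpos hr0 hr1 hu')
  unfold Uncrossed at hnu
  push Not at hnu
  obtain ⟨⟨z1, hz1, hz1'⟩, z2, hz2, hz2'⟩ := hnu
  have hG := h.iterate m
  have hGrot := h.iterate_rot hrot hm
  have hGn := hG.norm_eq_of_uncrossed hJ hpos hr0 hr1 hu
  have hcomm : ∀ z, f^[m] (f z) = f (f^[m] z) := fun z =>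
    (Function.iterate_succ_apply f m z).symm.trans (Function.iterate_succ_apply' f m z)
  have hE1 : closedBall (0 : ℂ) r ⊆ closedBall 0 1 := closedBall_subset_closedBall hr1.le
  have hEb : closedBall (0 : ℂ) r ⊆ ball 0 1 := closedBall_subset_ball hr1
  -- the iterate maps the disk of radius `r` onto itself
  have hGb : f^[m] '' ball (0 : ℂ) r = ball 0 r := by
    refine Subset.antisymm ?_ (hG.sub_of_ge hr0 hr1 fun z hz => (hGn z hz).ge)
    have h1 := hG.sub_of_le hr0 hr1 fun z hz => (hGn z hz).le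
    have h2 := interior_maximal h1 (hG.isOpen_image hr1)
    rwa [interior_closedBall _ hr0.ne'] at h2
  have hGE : f^[m] '' closedBall (0 : ℂ) r = closedBall 0 r := by
    refine Subset.antisymm ?_ ?_
    · rintro _ ⟨z, hz, rfl⟩
      rw [mem_closedBall_zero_iff] at hz ⊢
      rcases hz.lt_or_eq with h1 | h1
      · have h2 : f^[m] z ∈ f^[m] '' ball (0 : ℂ) r := ⟨z, mem_ball_zero_iff.2 h1, rfl⟩
        rw [hGb] at h2
        exact (mem_ball_zero_iff.1 h2).le
      · exact (hGn z h1).le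
    · have h1 : IsClosed (f^[m] '' closedBall (0 : ℂ) r) :=
        ((isCompact_closedBall (0 : ℂ) r).image_of_continuousOn (hG.cont.mono hE1)).isClosed
      have h2 : ball (0 : ℂ) r ⊆ f^[m] '' closedBall (0 : ℂ) r := by
        calc ball (0 : ℂ) r = f^[m] '' ball (0 : ℂ) r := hGb.symm
          _ ⊆ f^[m] '' closedBall (0 : ℂ) r := image_mono ball_subset_closedBall
      have h3 := closure_minimal h2 h1
      rwa [closure_ball (0 : ℂ) hr0.ne'] at h3
  -- the domain
  set E := f '' closedBall (0 : ℂ) r with hE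
  have hEc : IsClosed E :=
    ((isCompact_closedBall (0 : ℂ) r).image_of_continuousOn (h.cont.mono hE1)).isClosed
  have hGE1 : E ⊆ f^[m] '' E := by
    rintro _ ⟨y, hy, rfl⟩
    rw [← hGE] at hy
    obtain ⟨x, hx, rfl⟩ := hy
    exact ⟨f x, ⟨x, hx, rfl⟩, hcomm x⟩
  have hEsub : E ⊆ closedBall (0 : ℂ) 1 := by
    rintro _ ⟨y, hy, rfl⟩
    exact h.bij.mapsTo (hE1 hy)
  set Q := ball (0 : ℂ) r \ E with hQ
  have hQo : IsOpen Q := isOpen_ball.sdiff hEc
  have hQr : Q ⊆ ball (0 : ℂ) r := fun z hz => hz.1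
  have hQ1 : Q ⊆ ball (0 : ℂ) 1 := hQr.trans (ball_subset_ball hr1.le)
  have h0E : (0 : ℂ) ∈ E := ⟨0, by simp [hr0.le], h.zero⟩
  have hGQ : MapsTo (f^[m]) Q Q := by
    rintro z ⟨hz, hzE⟩
    refine ⟨?_, fun h1 => ?_⟩
    · rw [← hGb]; exact ⟨z, hz, rfl⟩
    · obtain ⟨w, hw, hw2⟩ := hGE1 h1
      have h2 := hG.bij.injOn (hEsub hw) (ball_subset_closedBall (hQ1 ⟨hz, hzE⟩)) hw2
      exact hzE (h2 ▸ hw)
  obtain ⟨w0, hw0⟩ : Q.Nonempty := by
    have hz1b : z1 ∈ ball (0 : ℂ) 1 := by rw [mem_ball_zero_iff, hz1]; exact hr1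
    have hT : Tendsto (fun s : ℝ => s • z1) (𝓝[>] 1) (𝓝 z1) := by
      have h3 : Continuous fun s : ℝ => s • z1 := by fun_prop
      have h4 := h3.tendsto 1
      rw [one_smul] at h4
      exact h4.mono_left nhdsWithin_le_nhds
    have hfc : ContinuousAt f z1 := (h.diff z1 hz1b).continuousAt
    have h5 : ∀ᶠ s : ℝ in 𝓝[>] 1, f (s • z1) ∈ ball (0 : ℂ) r :=
      (hfc.tendsto.comp hT).eventually (isOpen_ball.mem_nhds (mem_ball_zero_iff.2 hz1'))
    have h6 : ∀ᶠ s : ℝ in 𝓝[>] 1, s • z1 ∈ ball (0 : ℂ) 1 :=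
      hT.eventually (isOpen_ball.mem_nhds hz1b)
    have h7 : ∀ᶠ s : ℝ in 𝓝[>] 1, (1 : ℝ) < s := self_mem_nhdsWithin
    obtain ⟨s, hs1, hs2, hs3⟩ := (h5.and (h6.and h7)).exists
    refine ⟨f (s • z1), hs1, ?_⟩
    rintro ⟨y, hy, hy2⟩
    have h8 := h.bij.injOn (hE1 hy) (ball_subset_closedBall hs2) hy2
    rw [h8, mem_closedBall_zero_iff, norm_smul, Real.norm_eq_abs, abs_of_pos (by linarith),
      hz1] at hy
    nlinarith
  -- the branch of the angle
  have hz2E : ∀ s ∈ Icc (0 : ℝ) 1, s • z2 ∈ closedBall (0 : ℂ) r := by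
    intro s hs
    rw [mem_closedBall_zero_iff, norm_smul, Real.norm_eq_abs, abs_of_nonneg hs.1, hz2]
    nlinarith [hs.2]
  obtain ⟨a, hac, ha⟩ := exists_branch (Q := Q) (γ := fun s : ℝ => f (s • z2)) (r := r)
    ((h.cont.mono hE1).comp (by fun_prop) hz2E) (by simp [h.zero]) hr0
    (by simp only [one_smul]; exact hz2'.le) hQr
    (fun s hs h1 => h1.2 ⟨s • z2, hz2E s hs, rfl⟩)
  -- the component
  set W := connectedComponentIn Q w0 with hW
  have hWo : IsOpen W := hQo.connectedComponentIn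
  have hWQ : W ⊆ Q := connectedComponentIn_subset Q w0
  have hWc : IsPreconnected W := isPreconnected_connectedComponentIn
  have hw0W : w0 ∈ W := mem_connectedComponentIn hw0
  obtain ⟨z, hz, hfreq⟩ := hG.recurrent hJ hpos hWo ⟨w0, hw0W⟩ (hWQ.trans hQ1)
  obtain ⟨n, hn, hn1⟩ := (hfreq.and_eventually (eventually_ge_atTop 1)).exists
  have hK := hG.iterate n
  have hKQ : ∀ n : ℕ, MapsTo ((f^[m])^[n]) Q Q := by
    intro n
    induction n with
    | zero => exact mapsTo_id _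
    | succ n ih =>
      rw [Function.iterate_succ]
      exact ih.comp hGQ
  have hKW : MapsTo ((f^[m])^[n]) W W := by
    have h1 : IsPreconnected ((f^[m])^[n] '' W) :=
      hWc.image _ (hK.cont.mono ((hWQ.trans hQ1).trans ball_subset_closedBall))
    have h2 : (f^[m])^[n] '' W ⊆ Q := by
      rintro _ ⟨w, hw, rfl⟩
      exact hKQ n (hWQ hw)
    have h3 := h1.subset_connectedComponentIn ⟨z, hz, rfl⟩ h2
    rw [← connectedComponentIn_eq hn] at h3
    exact fun w hw => h3 ⟨w, hw, rfl⟩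
  exact hK.no_branch hJ hpos (hG.iterate_rot hGrot hn1)
    ((hα.natCast_mul (by omega)).natCast_mul (by omega)) hWo ⟨w0, hw0W⟩ hWc (hWQ.trans hQ1)
    (fun h1 => (hWQ h1).2 h0E) hKW (hac.mono hWQ) (fun z hz => ha z (hWQ hz))

end

end MPc541f6
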