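import Pool.Agent.Lib.MP_c541f6_an.RCirc
import Pool.Agent.Lib.MP_c541f6_an.RInv
import Pool.Agent.Lib.MP_c541f6_an.GCrit

/-!
# The radial linearization criterion
-/

open Complex Set Filter Topology Metric MeasureTheory

namespace MPc541f6

noncomputable section

/-- The radii `r ∈ (0, 1)` of the circles which are not crossed by their image under some iterate
`g^m`, `m ≥ 1` (which may depend on the circle). -/
def uncrossedRadii (g : ℂ → ℂ) : Set ℝ :=
  {r | r ∈ Ioo (0 : ℝ) 1 ∧ ∃ m : ℕ, 1 ≤ m ∧ Uncrossed (g^[m]) r}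

/-- Many circles around `0` are not crossed by their image under some iterate of `g`: the set of
their radii is dense in `(0, 1)`, or, in the real-analytic case (`k = ω`, `f` real-analytic on a
neighbourhood of the closed disk), it is infinite. -/
def ManyUncrossed (k : WithTop ℕ∞) (f g : ℂ → ℂ) : Prop :=
  Ioo (0 : ℝ) 1 ⊆ closure (uncrossedRadii g) ∨
  (k = (⊤ : WithTop ℕ∞) ∧ AnalyticOnNhd ℝ f (closedBall 0 1) ∧ (uncrossedRadii g).Infinite)

lemma analytic_conj {f ψ η : ℂ → ℂ} (hf : AreaMap f) (h : DiskDiffeo ⊤ ψ η)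
    (han : AnalyticOnNhd ℝ f (closedBall 0 1)) :
    AnalyticOnNhd ℝ (ψ ∘ f ∘ η) (closedBall 0 1) := by
  intro z hz
  have h1 := h.maps' hz
  have h2 := hf.bij.mapsTo h1
  have a1 : AnalyticAt ℝ η z := (h.symm.contDiffAt hz).analyticAt
  have a2 : AnalyticAt ℝ ψ (f (η z)) := (h.contDiffAt h2).analyticAt
  have a3 : AnalyticAt ℝ (f ∘ η) z := (han _ h1).comp a1
  have a4 : AnalyticAt ℝ ψ ((f ∘ η) z) := a2
  exact a4.comp a3

/-- Dense invariant circles. -/
lemma norm_eq_of_dense {g : ℂ → ℂ} (hg : ContinuousOn g (closedBall 0 1)) {A : Set ℝ}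
    (hA : A ⊆ Ioo 0 1) (hAd : Ioo (0 : ℝ) 1 ⊆ closure A)
    (hU : ∀ z : ℂ, ‖z‖ ∈ A → ‖g z‖ = ‖z‖) (hg0 : g 0 = 0) :
    ∀ z ∈ ball (0 : ℂ) 1, ‖g z‖ = ‖z‖ := by
  intro z hz
  by_cases hz0 : z = 0
  · rw [hz0, hg0]
  have hr0 : 0 < ‖z‖ := norm_pos_iff.2 hz0
  have hr1 : ‖z‖ < 1 := mem_ball_zero_iff.1 hz
  have h1 : z = pol ((polar z).1, ‖z‖) := (pol_polar z).symm
  set t := (polar z).1 with ht
  have hst : ∀ r ∈ Ioo (0 : ℝ) 1, (t, r) ∈ strip := fun r hr => ⟨hr.1.le, hr.2.le⟩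
  have h2 : EqOn (fun r : ℝ => ‖g (pol (t, r))‖) (fun r => r) A := by
    intro r hr
    have h3 : ‖pol (t, r)‖ = r := norm_pol' (p := (t, r)) (hA hr).1.le
    have h4 := hU (pol (t, r)) (by rw [h3]; exact hr)
    simp only
    rw [h4, h3]
  have hc : ContinuousOn (fun r : ℝ => ‖g (pol (t, r))‖) (Ioo 0 1) := by
    refine (hg.comp (f := fun r : ℝ => pol (t, r)) ?_ fun r hr => ?_).norm
    · exact (continuous_pol.comp (by fun_prop : Continuous fun r : ℝ => (t, r))).continuousOn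
    · exact DiskMap.pol_mem_closedBall (hst r hr)
  have h5 := h2.of_subset_closure hc continuousOn_id hA hAd
  have h6 := h5 (show ‖z‖ ∈ Ioo (0 : ℝ) 1 from ⟨hr0, hr1⟩)
  simp only at h6
  rwa [← h1] at h6

/-- Infinitely many invariant circles in the analytic case. -/
lemma norm_eq_of_infinite {g : ℂ → ℂ} (hg : AnalyticOnNhd ℝ g (closedBall 0 1)) {A : Set ℝ}
    (hA : A ⊆ Ioo 0 1) (hAi : A.Infinite)
    (hU : ∀ z : ℂ, ‖z‖ ∈ A → ‖g z‖ = ‖z‖) (hg0 : g 0 = 0) :
    ∀ z ∈ ball (0 : ℂ) 1, ‖g z‖ = ‖z‖ := by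
  have hre : ∀ z, AnalyticAt ℝ (fun w : ℂ => w.re) z := fun z => Complex.reCLM.analyticAt z
  have him : ∀ z, AnalyticAt ℝ (fun w : ℂ => w.im) z := fun z => Complex.imCLM.analyticAt z
  obtain ⟨r₀, hr₀, hacc⟩ := hAi.exists_accPt_of_subset_isCompact isCompact_Icc
    (hA.trans Ioo_subset_Icc_self)
  intro z hz
  by_cases hz0 : z = 0
  · rw [hz0, hg0]
  have hr0 : 0 < ‖z‖ := norm_pos_iff.2 hz0
  have hr1 : ‖z‖ < 1 := mem_ball_zero_iff.1 hz
  have h1 : z = pol ((polar z).1, ‖z‖) := (pol_polar z).symm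
  set t := (polar z).1 with ht
  have hb : ∀ r ∈ Icc (-1 : ℝ) 1, pol (t, r) ∈ closedBall (0 : ℂ) 1 := fun r hr => by
    rw [mem_closedBall_zero_iff, norm_pol]
    exact abs_le.2 hr
  set F : ℝ → ℝ := fun r => ((g (pol (t, r))).re ^ 2 + (g (pol (t, r))).im ^ 2) - r ^ 2 with hF
  have hval : ∀ r, F r = ‖g (pol (t, r))‖ ^ 2 - r ^ 2 := by
    intro r
    simp only [hF]
    rw [← Complex.normSq_eq_norm_sq, Complex.normSq_apply]
    ring
  have hFa : AnalyticOnNhd ℝ F (Icc (-1) 1) := by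
    intro r hr
    have h2 : AnalyticAt ℝ (fun r : ℝ => pol (t, r)) r := by
      show AnalyticAt ℝ (fun r : ℝ => (r : ℂ) * e t) r
      exact (Complex.ofRealCLM.analyticAt r).mul analyticAt_const
    have h3 : AnalyticAt ℝ (fun r : ℝ => g (pol (t, r))) r :=
      AnalyticAt.comp (g := g) (f := fun r : ℝ => pol (t, r)) (hg _ (hb r hr)) h2
    have h4 : AnalyticAt ℝ (fun r : ℝ => (g (pol (t, r))).re) r :=
      AnalyticAt.comp (g := fun w : ℂ => w.re) (f := fun r : ℝ => g (pol (t, r))) (hre _) h3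
    have h5 : AnalyticAt ℝ (fun r : ℝ => (g (pol (t, r))).im) r :=
      AnalyticAt.comp (g := fun w : ℂ => w.im) (f := fun r : ℝ => g (pol (t, r))) (him _) h3
    exact ((h4.pow 2).add (h5.pow 2)).sub (analyticAt_id.pow 2)
  have hfreq : ∃ᶠ r in 𝓝[≠] r₀, F r = 0 := by
    refine (accPt_iff_frequently_nhdsNE.1 hacc).mono fun r hr => ?_
    have h3 : ‖pol (t, r)‖ = r := norm_pol' (p := (t, r)) (hA hr).1.le
    rw [hval, hU (pol (t, r)) (by rw [h3]; exact hr), h3, sub_self]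
  have h2 := hFa.eqOn_zero_of_preconnected_of_frequently_eq_zero isPreconnected_Icc
    (show r₀ ∈ Icc (-1 : ℝ) 1 from ⟨by linarith [hr₀.1], by linarith [hr₀.2]⟩) hfreq
  have h3 := h2 (show ‖z‖ ∈ Icc (-1 : ℝ) 1 from ⟨by linarith, hr1.le⟩)
  rw [hval, ← h1] at h3
  have h4 : ‖g z‖ ^ 2 - ‖z‖ ^ 2 = 0 := h3
  exact (pow_left_inj₀ (norm_nonneg _) (norm_nonneg _) two_ne_zero).1 (by linarith)

/-- **Radial linearization criterion.** Let `k = ∞` or `k = ω`. An area-preserving homeomorphism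
`f` of the closed disk which fixes `0` is `C^k` conjugated to the rotation by an irrational number
`α` if and only if there are `C^k` coordinates on the disk in which all points have rotation number
`α` and many circles around `0` are not crossed by their image under some iterate. -/
theorem radial_criterion {k : WithTop ℕ∞} (hk : Reg k) {f : ℂ → ℂ} {α : ℝ} (hf : AreaMap f)
    (hα : Irrational α) :
    (∃ ψ η : ℂ → ℂ, DiskDiffeo k ψ η ∧
      ∀ z ∈ closedBall (0 : ℂ) 1, ψ (f z) = Complex.exp (2 * Real.pi * Complex.I * α) * ψ z) ↔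
    ∃ (ψ η : ℂ → ℂ) (Θ : ℝ × ℝ → ℝ), DiskDiffeo k ψ η ∧ ψ 0 = 0 ∧
      AngleLift (ψ ∘ f ∘ η) Θ ∧ HasRotationNumber (ψ ∘ f ∘ η) Θ α ∧
      ManyUncrossed k f (ψ ∘ f ∘ η) := by
  have heα : Complex.exp (2 * Real.pi * Complex.I * α) = e α := by
    unfold e
    congr 1
    push_cast
    ring
  rw [heα]
  constructor
  · rintro ⟨ψ, η, h, hconj⟩
    have h0D : (0 : ℂ) ∈ closedBall (0 : ℂ) 1 := by simp
    have h0 : ψ 0 = 0 := by
      have h1 := hconj 0 h0D
      rw [hf.zero] at h1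
      have h2 : (e α - 1) * ψ 0 = 0 := by linear_combination (-1 : ℂ) * h1
      rcases mul_eq_zero.1 h2 with h3 | h3
      · exfalso
        have h4 : e α = e 0 := by rw [e_zero]; exact sub_eq_zero.1 h3
        obtain ⟨l, hl⟩ := e_eq_e_iff.1 h4
        exact hα ⟨(l : ℚ), by rw [hl]; push_cast; ring⟩
      · exact h3
    have hval : ∀ p ∈ strip, (ψ ∘ f ∘ η) (pol p) = pol (p.1 + α, p.2) := by
      intro p hp
      have h1 := DiskMap.pol_mem_closedBall hp
      simp only [Function.comp]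
      rw [hconj _ (h.maps' h1), h.inv.2 h1]
      unfold pol
      simp only
      rw [e_add]
      ring
    have hlift : ∀ p ∈ strip, lift (ψ ∘ f ∘ η) (fun p => p.1 + α) p = (p.1 + α, p.2) := by
      intro p hp
      unfold lift
      rw [hval p hp, norm_pol' (p := (p.1 + α, p.2)) hp.1]
    have hiter : ∀ n : ℕ, ∀ p ∈ strip,
        (lift (ψ ∘ f ∘ η) (fun p => p.1 + α))^[n] p = (p.1 + n * α, p.2) := by
      intro n
      induction n with
      | zero => intro p _; simp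
      | succ n ih =>
        intro p hp
        rw [Function.iterate_succ_apply, hlift p hp, ih (p.1 + α, p.2) hp]
        push_cast
        ring_nf
    refine ⟨ψ, η, fun p => p.1 + α, h, h0, ⟨by fun_prop, ?_, ?_⟩, ?_, ?_⟩
    · intro p _
      ring
    · intro p hp
      rw [hlift p hp, hval p hp]
    · intro p hp
      have h1 : Tendsto (fun n : ℕ => p.1 / (n : ℝ)) atTop (𝓝 0) :=
        tendsto_const_div_atTop_nhds_zero_nat _
      have h2 := h1.add (tendsto_const_nhds (x := α))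
      rw [zero_add] at h2
      refine h2.congr' ?_
      filter_upwards [eventually_gt_atTop 0] with n hn
      have hn' : (n : ℝ) ≠ 0 := by exact_mod_cast hn.ne'
      rw [hiter n p hp]
      field_simp
    · left
      intro r hr
      refine subset_closure ⟨hr, 1, le_rfl, Or.inl fun z hz => ?_⟩
      have h1 : z ∈ closedBall (0 : ℂ) 1 := by
        rw [mem_closedBall_zero_iff, hz]; exact hr.2.le
      rw [Function.iterate_one]
      simp only [Function.comp]
      rw [hconj _ (h.maps' h1), h.inv.2 h1, norm_mul, norm_e, one_mul, hz]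
  · rintro ⟨ψ, η, Θ, h, h0, hΘ, hrot, hU⟩
    obtain ⟨J, R, hR, hJ, hpos, hJη, hJk⟩ := h.exists_density hk
    have hd := densMap_of hk hf h h0 hΘ hJη
    have hA : ∀ z : ℂ, ‖z‖ ∈ uncrossedRadii (ψ ∘ f ∘ η) → ‖(ψ ∘ f ∘ η) z‖ = ‖z‖ := by
      rintro z ⟨hz, m, hm, hu⟩
      exact hd.norm_eq_of_iter_uncrossed hJ.continuous hpos hrot hα hz.1 hz.2 hm hu z rfl
    have hn : ∀ z ∈ ball (0 : ℂ) 1, ‖(ψ ∘ f ∘ η) z‖ = ‖z‖ := by
      rcases hU with hd1 | ⟨rfl, han, hinf⟩
      · exact norm_eq_of_dense hd.cont (fun r hr => hr.1) hd1 hA hd.zero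
      · exact norm_eq_of_infinite (analytic_conj hf h han) (fun r hr => hr.1) hinf hA hd.zero
    have h5 := hd.circle_conj hJ hpos hrot hn
    have h1 := contDiff_fmap hJ hpos
    have h1' : ∀ z ∈ ball (0 : ℂ) R, ContDiffAt ℝ k (fmap J) z := by
      rcases hk with rfl | rfl
      · exact fun z _ => h1.contDiffAt
      · intro z hz
        refine (analyticAt_fmap hJ.continuous hpos fun s => ?_).contDiffAt
        refine (hJk _ ?_).analyticAt
        rw [mem_ball_zero_iff] at hz ⊢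
        rwa [norm_mul, norm_e, one_mul]
    obtain ⟨K, hK⟩ := DiskDiffeo.of_global hR h1 h1' (fmap_bijOn hJ.continuous hpos)
      (fmap_injective hJ.continuous hpos) (fderiv_fmap_injective hJ hpos)
    refine ⟨fun z => fmap J (ψ z), fun z => η (K z), hK.comp h, fun z hz => ?_⟩
    have h6 := h5 (ψ z) (h.maps hz)
    simp only [Function.comp] at h6
    rw [h.inv.1 hz] at h6
    exact h6

end

end MPc541f6
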