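import Pool.Agent.Lib.MP_c541f6_an.RMean

/-!
# Circles which are not crossed by their images
-/

open Complex Set Filter Topology Metric MeasureTheory

namespace MPc541f6

noncomputable section

open DensMap

/-- The image of the circle of radius `r` under `g` does not cross this circle: it lies outside the
open disk of radius `r`, or inside the closed disk of radius `r`. -/
def Uncrossed (g : ℂ → ℂ) (r : ℝ) : Prop :=
  (∀ z : ℂ, ‖z‖ = r → r ≤ ‖g z‖) ∨ ∀ z : ℂ, ‖z‖ = r → ‖g z‖ ≤ r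

variable {J : ℂ → ℝ} {f : ℂ → ℂ} {Θ : ℝ × ℝ → ℝ}

lemma DensMap.exists_inv (h : DensMap J f Θ) : ∃ g : ℂ → ℂ,
    MapsTo g (closedBall 0 1) (closedBall 0 1) ∧
    InvOn g f (closedBall 0 1) (closedBall 0 1) ∧ ContinuousOn g (closedBall 0 1) := by
  set g := Function.invFunOn f (closedBall (0 : ℂ) 1) with hg
  have hgm : MapsTo g (closedBall 0 1) (closedBall 0 1) := h.bij.surjOn.mapsTo_invFunOn
  have hinv : InvOn g f (closedBall 0 1) (closedBall 0 1) := h.bij.invOn_invFunOn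
  refine ⟨g, hgm, hinv, ?_⟩
  rw [continuousOn_iff_isClosed]
  intro C hC
  refine ⟨f '' (C ∩ closedBall 0 1), ?_, ?_⟩
  · have h1 : IsCompact (C ∩ closedBall (0 : ℂ) 1) :=
      (isCompact_closedBall (0 : ℂ) 1).inter_left hC
    exact (h1.image_of_continuousOn (h.cont.mono inter_subset_right)).isClosed
  · ext y
    constructor
    · rintro ⟨hy1, hy2⟩
      exact ⟨⟨g y, ⟨hy1, hgm hy2⟩, hinv.2 hy2⟩, hy2⟩
    · rintro ⟨⟨x, ⟨hx1, hx2⟩, rfl⟩, hy2⟩
      refine ⟨?_, hy2⟩
      show g (f x) ∈ C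
      rw [hinv.1 hx2]
      exact hx1

lemma DensMap.sub_of_ge (h : DensMap J f Θ) {r : ℝ} (hr0 : 0 < r) (hr1 : r < 1)
    (hge : ∀ z : ℂ, ‖z‖ = r → r ≤ ‖f z‖) : ball (0 : ℂ) r ⊆ f '' ball 0 r := by
  obtain ⟨g, hgm, hinv, hgc⟩ := h.exists_inv
  have hsub : ball (0 : ℂ) r ⊆ closedBall 0 1 := ball_subset_closedBall.trans
    (closedBall_subset_closedBall hr1.le)
  intro y hy
  by_contra hcon
  have h0 : (0 : ℂ) ∈ ball (0 : ℂ) r := mem_ball_self hr0
  have hconn : IsPreconnected (ball (0 : ℂ) r) := (convex_ball _ _).isPreconnected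
  have hg0 : g 0 = 0 := by
    have h1 := hinv.1 (show (0 : ℂ) ∈ closedBall (0 : ℂ) 1 by simp)
    rwa [h.zero] at h1
  have h1 : r ≤ ‖g y‖ := by
    by_contra h2
    exact hcon ⟨g y, mem_ball_zero_iff.2 (not_le.1 h2), hinv.2 (hsub hy)⟩
  have h2 : r ∈ Icc ‖g 0‖ ‖g y‖ := by
    rw [hg0, norm_zero]; exact ⟨hr0.le, h1⟩
  obtain ⟨w, hw, hw2⟩ := hconn.intermediate_value h0 hy ((hgc.mono hsub).norm) h2
  have h3 := hge (g w) hw2
  rw [hinv.2 (hsub hw)] at h3
  exact absurd (mem_ball_zero_iff.1 hw) (not_lt.2 h3)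

lemma DensMap.sub_of_le (h : DensMap J f Θ) {r : ℝ} (hr0 : 0 < r) (hr1 : r < 1)
    (hle : ∀ z : ℂ, ‖z‖ = r → ‖f z‖ ≤ r) : f '' ball 0 r ⊆ closedBall (0 : ℂ) r := by
  obtain ⟨g, hgm, hinv, hgc⟩ := h.exists_inv
  have hsub : ball (0 : ℂ) r ⊆ closedBall 0 1 := ball_subset_closedBall.trans
    (closedBall_subset_closedBall hr1.le)
  rintro _ ⟨z, hz, rfl⟩
  rw [mem_closedBall_zero_iff]
  by_contra hcon
  rw [not_le] at hcon
  have hz1 := hsub hz
  have hw1 := h.bij.mapsTo hz1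
  have hw1' := mem_closedBall_zero_iff.1 hw1
  have hn0 : 0 < ‖f z‖ := hr0.trans hcon
  -- the radial path from `f z` to the boundary
  set γ : ℝ → ℂ := fun s => (s / ‖f z‖ : ℝ) • f z with hγ
  have hγn : ∀ s : ℝ, 0 ≤ s → ‖γ s‖ = s := by
    intro s hs
    simp only [hγ]
    rw [norm_smul, Real.norm_eq_abs, abs_of_nonneg (by positivity)]
    field_simp
  have hγD : ∀ s ∈ Icc ‖f z‖ 1, γ s ∈ closedBall (0 : ℂ) 1 := fun s hs => by
    rw [mem_closedBall_zero_iff, hγn s (hn0.le.trans hs.1)]; exact hs.2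
  have hγc : ContinuousOn (fun s => ‖g (γ s)‖) (Icc ‖f z‖ 1) :=
    (hgc.comp (by fun_prop) hγD).norm
  have e1 : γ ‖f z‖ = f z := by
    simp only [hγ]
    rw [div_self hn0.ne', one_smul]
  have e2 : ‖g (γ 1)‖ = 1 := by
    have h1 : γ 1 ∈ closedBall (0 : ℂ) 1 := hγD 1 ⟨hw1', le_rfl⟩
    rw [← h.circle _ (hgm h1), hinv.2 h1]
    exact hγn 1 zero_le_one
  have h2 : r ∈ Icc ‖g (γ ‖f z‖)‖ ‖g (γ 1)‖ := by
    rw [e1, e2, hinv.1 hz1]
    exact ⟨(mem_ball_zero_iff.1 hz).le, hr1.le⟩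
  obtain ⟨s, hs, hs2⟩ := intermediate_value_Icc hw1' hγc h2
  have h3 := hle (g (γ s)) hs2
  rw [hinv.2 (hγD s hs), hγn s (hn0.le.trans hs.1)] at h3
  linarith [hs.1]

lemma DensMap.isOpen_image (h : DensMap J f Θ) {r : ℝ} (hr1 : r < 1) :
    IsOpen (f '' ball (0 : ℂ) r) := by
  obtain ⟨g, hgm, hinv, hgc⟩ := h.exists_inv
  have hbb : ball (0 : ℂ) r ⊆ ball 0 1 := ball_subset_ball hr1.le
  have h1 : f '' ball (0 : ℂ) r = ball 0 1 ∩ (fun w => g w) ⁻¹' ball 0 r := by
    ext w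
    constructor
    · rintro ⟨z, hz, rfl⟩
      refine ⟨h.ball_bij.mapsTo (hbb hz), ?_⟩
      show g (f z) ∈ ball (0 : ℂ) r
      rw [hinv.1 (ball_subset_closedBall (hbb hz))]
      exact hz
    · rintro ⟨hw1, hw2⟩
      exact ⟨g w, hw2, hinv.2 (ball_subset_closedBall hw1)⟩
  rw [h1]
  exact (hgc.mono ball_subset_closedBall).isOpen_inter_preimage isOpen_ball isOpen_ball

lemma DensMap.mass_image (h : DensMap J f Θ) (hpos : ∀ z, 0 < J z) {s : Set ℂ}
    (hs : MeasurableSet s) (hsb : s ⊆ ball 0 1) : ∫ z in f '' s, J z = ∫ z in s, J z := by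
  have h1 := integral_image_eq_integral_abs_det_fderiv_smul (μ := volume) (s := s)
    (f := f) (f' := fun z => fderiv ℝ f z) hs
    (fun z hz => (h.diff z (hsb hz)).hasFDerivAt.hasFDerivWithinAt)
    (h.ball_bij.injOn.mono hsb) J
  rw [h1]
  refine setIntegral_congr_fun hs fun z hz => ?_
  have h2 := h.det z (hsb hz)
  have h3 : 0 < (fderiv ℝ f z).det := by
    by_contra hcon
    have h4 : J (f z) * (fderiv ℝ f z).det ≤ 0 :=
      mul_nonpos_of_nonneg_of_nonpos (hpos _).le (not_lt.1 hcon)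
    rw [h2] at h4
    exact absurd (hpos z) (not_lt.2 h4)
  simp only [smul_eq_mul]
  rw [abs_of_pos h3, ← h2]
  ring

lemma integrableOn_of_sub (hJ : Continuous J) {s : Set ℂ} (hs : s ⊆ closedBall 0 1) :
    IntegrableOn J s :=
  (hJ.continuousOn.integrableOn_compact (isCompact_closedBall (0 : ℂ) 1)).mono_set hs

lemma mass_pos (hJ : Continuous J) (hpos : ∀ z, 0 < J z) {V : Set ℂ} (hV : IsOpen V)
    (hne : V.Nonempty) (hVs : V ⊆ closedBall 0 1) : 0 < ∫ z in V, J z := by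
  rw [setIntegral_pos_iff_support_of_nonneg_ae
    (Eventually.of_forall fun z => (hpos z).le) (integrableOn_of_sub hJ hVs)]
  have h1 : Function.support J ∩ V = V := by
    rw [inter_eq_right]
    exact fun z _ => (hpos z).ne'
  rw [h1]
  exact hV.measure_pos volume hne

lemma false_of_mass (hJ : Continuous J) (hpos : ∀ z, 0 < J z) {S T V : Set ℂ}
    (hS : S ⊆ closedBall 0 1) (hT : MeasurableSet T) (hTS : T ⊆ S)
    (heq : ∫ z in S, J z = ∫ z in T, J z) (hVS : V ⊆ S \ T) (hVpos : 0 < ∫ z in V, J z) :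
    False := by
  have h1 := setIntegral_sdiff hT (integrableOn_of_sub hJ hS) hTS
  have h2 : ∫ z in V, J z ≤ ∫ z in S \ T, J z :=
    setIntegral_mono_set (integrableOn_of_sub hJ (sdiff_subset.trans hS))
      (Eventually.of_forall fun z => (hpos z).le) (LE.le.eventuallyLE hVS)
  rw [h1, heq, sub_self] at h2
  linarith

/-- **A circle which is not crossed by its image is invariant.** -/
theorem DensMap.norm_eq_of_uncrossed (h : DensMap J f Θ) (hJ : Continuous J)
    (hpos : ∀ z, 0 < J z) {r : ℝ} (hr0 : 0 < r) (hr1 : r < 1) (hu : Uncrossed f r) :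
    ∀ z : ℂ, ‖z‖ = r → ‖f z‖ = r := by
  have hbb : ball (0 : ℂ) r ⊆ ball 0 1 := ball_subset_ball hr1.le
  have hb1 : ball (0 : ℂ) r ⊆ closedBall 0 1 := hbb.trans ball_subset_closedBall
  have hc1 : closedBall (0 : ℂ) r ⊆ closedBall 0 1 := closedBall_subset_closedBall hr1.le
  have hPo := h.isOpen_image hr1
  have hP1 : f '' ball 0 r ⊆ closedBall (0 : ℂ) 1 := by
    rintro _ ⟨z, hz, rfl⟩
    exact h.bij.mapsTo (hb1 hz)
  have hmass := h.mass_image hpos measurableSet_ball hbb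
  rcases hu with hu | hu
  · have h1 := h.sub_of_ge hr0 hr1 hu
    have h2 : ∀ z ∈ ball (0 : ℂ) r, ‖f z‖ ≤ r := by
      intro z hz
      by_contra hcon
      rw [not_le] at hcon
      have hVo : IsOpen (f '' ball (0 : ℂ) r ∩ {w | r < ‖w‖}) :=
        hPo.inter (isOpen_lt continuous_const continuous_norm)
      refine false_of_mass hJ hpos hP1 measurableSet_ball h1 hmass ?_
        (mass_pos hJ hpos hVo ⟨f z, ⟨z, hz, rfl⟩, hcon⟩ (inter_subset_left.trans hP1))
      rintro w ⟨hw1, hw2⟩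
      refine ⟨hw1, fun hw3 => ?_⟩
      exact absurd (mem_ball_zero_iff.1 hw3) (not_lt.2 (le_of_lt hw2))
    intro z hz
    refine le_antisymm ?_ (hu z hz)
    have hzc : z ∈ closure (ball (0 : ℂ) r) := by
      rw [closure_ball _ hr0.ne', mem_closedBall_zero_iff, hz]
    have hz1 : z ∈ closedBall (0 : ℂ) 1 := hc1 (by rw [mem_closedBall_zero_iff, hz])
    exact ContinuousWithinAt.closure_le hzc ((h.cont z hz1).mono hb1).norm
      continuousWithinAt_const h2
  · have h1 := h.sub_of_le hr0 hr1 hu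
    have hmass2 : ∫ z in closedBall (0 : ℂ) r, J z = ∫ z in f '' ball 0 r, J z := by
      rw [hmass]
      refine setIntegral_congr_set ?_
      have h2 : (closedBall (0 : ℂ) r) = ball 0 r ∪ sphere 0 r := ball_union_sphere.symm
      rw [h2]
      have h3 : (sphere (0 : ℂ) r) =ᵐ[volume] (∅ : Set ℂ) :=
        ae_eq_empty.2 (Measure.addHaar_sphere_of_ne_zero volume _ hr0.ne')
      have h4 := (ae_eq_refl (μ := volume) (ball (0 : ℂ) r)).union h3
      rwa [union_empty] at h4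
    have h2 : ∀ z ∈ ball (0 : ℂ) 1, r < ‖z‖ → r ≤ ‖f z‖ := by
      intro z hz hrz
      by_contra hcon
      rw [not_le] at hcon
      set V : Set ℂ := (ball 0 1 ∩ f ⁻¹' ball 0 r) ∩ {w | r < ‖w‖} with hV
      have hVo : IsOpen V :=
        ((h.cont.mono ball_subset_closedBall).isOpen_inter_preimage isOpen_ball isOpen_ball).inter
          (isOpen_lt continuous_const continuous_norm)
      have hVb : V ⊆ ball 0 1 := fun w hw => hw.1.1
      have hVpos := mass_pos hJ hpos hVo ⟨z, ⟨hz, mem_ball_zero_iff.2 hcon⟩, hrz⟩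
        (hVb.trans ball_subset_closedBall)
      rw [← h.mass_image hpos hVo.measurableSet hVb] at hVpos
      refine false_of_mass hJ hpos hc1 hPo.measurableSet h1 hmass2 ?_ hVpos
      rintro _ ⟨w, ⟨⟨hw1, hw2⟩, hw3⟩, rfl⟩
      refine ⟨ball_subset_closedBall hw2, ?_⟩
      rintro ⟨x, hx, hxw⟩
      have h3 := h.ball_bij.injOn (hbb hx) hw1 hxw
      rw [h3] at hx
      exact absurd (mem_ball_zero_iff.1 hx) (not_lt.2 (le_of_lt hw3))
    intro z hz
    refine le_antisymm (hu z hz) ?_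
    have hz1 : z ∈ closedBall (0 : ℂ) 1 := hc1 (by rw [mem_closedBall_zero_iff, hz])
    have hzc : z ∈ closure (ball (0 : ℂ) 1 ∩ {w | r < ‖w‖}) := by
      have hT : Tendsto (fun s : ℝ => s • z) (𝓝[>] 1) (𝓝 z) := by
        have h3 : Continuous fun s : ℝ => s • z := by fun_prop
        have h4 := h3.tendsto 1
        rw [one_smul] at h4
        exact h4.mono_left nhdsWithin_le_nhds
      refine mem_closure_of_tendsto hT ?_
      have h5 : ∀ᶠ s : ℝ in 𝓝[>] 1, s < 1 / r := by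
        refine nhdsWithin_le_nhds (Iio_mem_nhds ?_)
        rw [lt_div_iff₀ hr0, one_mul]; exact hr1
      filter_upwards [h5, self_mem_nhdsWithin] with s hs1 hs2
      have hs2' : (1 : ℝ) < s := hs2
      have hn : ‖s • z‖ = s * r := by
        rw [norm_smul, Real.norm_eq_abs, abs_of_pos (by linarith), hz]
      rw [lt_div_iff₀ hr0] at hs1
      refine ⟨by rw [mem_ball_zero_iff, hn]; exact hs1, ?_⟩
      show r < ‖s • z‖
      rw [hn]
      nlinarith
    exact ContinuousWithinAt.closure_le hzc continuousWithinAt_const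
      ((h.cont z hz1).mono (inter_subset_left.trans ball_subset_closedBall)).norm
      fun w hw => h2 w hw.1 hw.2

end

end MPc541f6
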