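import Pool.Agent.Lib.MP_c541f6_an.RPar
import Pool.Agent.Lib.MP_c541f6_an.Rigid

/-!
# The Jacobian of a map which preserves the circles around the origin
-/

open Complex Set Filter Topology Metric MeasureTheory

namespace MPc541f6

noncomputable section

/-- The Jacobian determinant of a map which preserves the norm is the derivative of the angle. -/
lemma det_of_circle {G : ℂ → ℂ} {x : ℝ → ℝ} {t r d : ℝ} (hr : 0 < r)
    (hG : DifferentiableAt ℝ G (pol (t, r))) (hn : ∀ᶠ y in 𝓝 (pol (t, r)), ‖G y‖ = ‖y‖)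
    (hx : ∀ s, G (pol (s, r)) = pol (x s, r)) (hd : HasDerivAt x d t) :
    (fderiv ℝ G (pol (t, r))).det = d := by
  have hpi := Real.pi_pos
  set M := fderiv ℝ G (pol (t, r)) with hM
  have hc : (0 : ℝ) < 2 * Real.pi * r := by positivity
  -- the tangential derivative
  have h1 : HasDerivAt (fun s : ℝ => G (pol (s, r)))
      (M (((2 * Real.pi * r : ℝ) : ℂ) * (I * e t))) t :=
    HasFDerivAt.comp_hasDerivAt (f := fun s : ℝ => pol (s, r)) t hG.hasFDerivAt
      (hasDerivAt_circ t r)
  have h2 : HasDerivAt (fun s : ℝ => pol (x s, r))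
      (d • (((2 * Real.pi * r : ℝ) : ℂ) * (I * e (x t)))) t :=
    HasDerivAt.scomp (h := x) (g₁ := fun s : ℝ => pol (s, r)) t (hasDerivAt_circ (x t) r) hd
  have h3 : M (((2 * Real.pi * r : ℝ) : ℂ) * (I * e t)) =
      d • (((2 * Real.pi * r : ℝ) : ℂ) * (I * e (x t))) := by
    refine h1.unique (h2.congr_of_eventuallyEq ?_)
    exact Eventually.of_forall fun s => hx s
  have h4 : M (I * e t) = d • (I * e (x t)) := by
    rw [← Complex.real_smul, map_smul, ← Complex.real_smul, smul_comm d] at h3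
    exact smul_right_injective ℂ hc.ne' h3
  -- the radial derivative
  have h5 : HasDerivAt (fun ρ : ℝ => G (pol (t, ρ))) (M (e t)) r :=
    HasFDerivAt.comp_hasDerivAt (f := fun ρ : ℝ => pol (t, ρ)) r hG.hasFDerivAt
      (hasDerivAt_ray t r)
  have h6 := h5.norm_sq
  have h7 : HasDerivAt (fun ρ : ℝ => ρ ^ 2) (2 * r) r := by
    simpa using hasDerivAt_pow 2 r
  have h8 : (fun ρ : ℝ => ‖G (pol (t, ρ))‖ ^ 2) =ᶠ[𝓝 r] fun ρ => ρ ^ 2 := by
    have h9 : Tendsto (fun ρ : ℝ => pol (t, ρ)) (𝓝 r) (𝓝 (pol (t, r))) :=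
      (continuous_pol.comp (by fun_prop : Continuous fun ρ : ℝ => (t, ρ))).tendsto r
    filter_upwards [h9.eventually hn] with ρ hρ
    rw [hρ, norm_pol, sq_abs]
  have h9 := h6.unique (h7.congr_of_eventuallyEq h8)
  have h10 : G (pol (t, r)) = (r : ℝ) • e (x t) := by
    rw [hx, Complex.real_smul]; rfl
  rw [h10, real_inner_smul_left, Complex.inner, mul_comm (M (e t))] at h9
  have h11 : ((starRingEnd ℂ) (e (x t)) * M (e t)).re = 1 := by
    have h12 : r * (((starRingEnd ℂ) (e (x t)) * M (e t)).re - 1) = 0 := by linarith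
    rcases mul_eq_zero.1 h12 with h13 | h13
    · exact absurd h13 hr.ne'
    · linarith
  have h12 := det_pair M (e t) (I * e t)
  rw [conj_mul_I_mul _ (norm_e t), mul_one, h4] at h12
  rw [← h12]
  have h13 : ((starRingEnd ℂ) (M (e t)) * (d • (I * e (x t)))).im =
      d * ((starRingEnd ℂ) (e (x t)) * M (e t)).re := by
    simp only [Complex.real_smul, Complex.mul_im, Complex.mul_re, Complex.conj_re,
      Complex.conj_im, Complex.ofReal_re, Complex.ofReal_im, Complex.I_re, Complex.I_im]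
    ring
  rw [h13, h11, mul_one]

/-- The angle of a differentiable map which preserves the norm is differentiable. -/
lemma hasDerivAt_of_circle {G : ℂ → ℂ} {x : ℝ → ℝ} {t r : ℝ} (hr : 0 < r)
    (hG : DifferentiableAt ℝ G (pol (t, r))) (hn : ∀ᶠ y in 𝓝 (pol (t, r)), ‖G y‖ = ‖y‖)
    (hx : ∀ s, G (pol (s, r)) = pol (x s, r)) (hc : ContinuousAt x t) :
    HasDerivAt x (fderiv ℝ G (pol (t, r))).det t := by
  have h1 : HasDerivAt (fun s : ℝ => G (pol (s, r)))
      (fderiv ℝ G (pol (t, r)) (((2 * Real.pi * r : ℝ) : ℂ) * (I * e t))) t :=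
    HasFDerivAt.comp_hasDerivAt (f := fun s : ℝ => pol (s, r)) t hG.hasFDerivAt
      (hasDerivAt_circ t r)
  have h2 := hasDerivAt_angle (w := fun s : ℝ => G (pol (s, r))) hc (fun s => by
    rw [hx s, norm_pol' (p := (x s, r)) hr.le]; rfl) (by
    show G (pol (t, r)) ≠ 0
    rw [hx t, ← norm_pos_iff, norm_pol' (p := (x t, r)) hr.le]
    exact hr) h1
  rw [det_of_circle hr hG hn hx h2]
  exact h2

lemma injective_of_det_ne {M : ℂ →L[ℝ] ℂ} (h : M.det ≠ 0) : Function.Injective M := by
  rw [injective_iff_map_eq_zero]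
  intro a ha
  by_contra hne
  have h1 := det_pair M a (I * a)
  rw [ha, map_zero, zero_mul, Complex.zero_im] at h1
  have h2 : ((starRingEnd ℂ) a * (I * a)).im = Complex.normSq a := by
    rw [Complex.normSq_apply]
    simp
  rw [h2] at h1
  have h3 : 0 < Complex.normSq a := Complex.normSq_pos.2 hne
  exact (mul_ne_zero h h3.ne') h1.symm

end

end MPc541f6
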