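import Pool.Agent.Lib.MP_c541f6_an.GLin

/-!
# Smoothness and analyticity of integrals depending on a parameter
-/

open Set Filter Topology Metric MeasureTheory
open scoped NNReal ENNReal

namespace MPc541f6

noncomputable section

/-- Parametric integrals of smooth functions are smooth. -/
theorem contDiff_par_integral (n : ℕ) : ∀ {G : Type} [NormedAddCommGroup G] [NormedSpace ℝ G]
    [CompleteSpace G] (K : ℂ × ℝ → G), ContDiff ℝ n K →
    ContDiff ℝ n (fun z : ℂ => ∫ s in (0 : ℝ)..1, K (z, s)) := by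
  induction n with
  | zero =>
    intro G _ _ _ K hK
    have hKc : Continuous K := hK.continuous
    simp only [Nat.cast_zero] at hK ⊢
    rw [contDiff_zero]
    refine intervalIntegral.continuous_parametric_intervalIntegral_of_continuous' ?_ 0 1
    have : Continuous fun p : ℂ × ℝ => K (p.1, p.2) := by fun_prop
    exact this
  | succ n ih =>
    intro G _ _ _ K hK
    have hK1 : ContDiff ℝ ((n : ℕ∞) + 1 : ℕ∞) K := by exact_mod_cast hK
    have hKd : Differentiable ℝ K := hK.differentiable (by simp)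
    have hKc : Continuous K := hK.continuous
    have hDK : ContDiff ℝ n (fderiv ℝ K) := by
      refine hK.fderiv_right ?_
      push_cast
      exact le_rfl
    have hDKc : Continuous (fderiv ℝ K) := hDK.continuous
    set K' : ℂ × ℝ → (ℂ →L[ℝ] G) := fun p =>
      (fderiv ℝ K p).comp (ContinuousLinearMap.inl ℝ ℂ ℝ) with hK'
    have hK's : ContDiff ℝ n K' := hDK.clm_comp contDiff_const
    have hK'c : Continuous K' := hK's.continuous
    push_cast
    rw [contDiff_succ_iff_hasFDerivAt]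
    refine ⟨fun z => ∫ s in (0 : ℝ)..1, K' (z, s), ih K' hK's, fun z₀ => ?_⟩
    -- a bound for the derivative
    have hcompact : IsCompact (Icc (0 : ℝ) 1 ×ˢ closedBall z₀ 1) :=
      isCompact_Icc.prod (isCompact_closedBall z₀ 1)
    have hcont : Continuous fun p : ℝ × ℂ => K' (p.2, p.1) := by fun_prop
    obtain ⟨C, hC⟩ := hcompact.exists_bound_of_continuousOn hcont.continuousOn
    have hderiv : ∀ (s : ℝ) (z : ℂ), HasFDerivAt (fun z => K (z, s)) (K' (z, s)) z := by
      intro s z
      have h1 : HasFDerivAt (fun z : ℂ => (z, s)) (ContinuousLinearMap.inl ℝ ℂ ℝ) z := by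
        have := (hasFDerivAt_id (𝕜 := ℝ) z).prodMk (hasFDerivAt_const s z)
        exact this
      exact (hKd (z, s)).hasFDerivAt.comp z h1
    refine intervalIntegral.hasFDerivAt_integral_of_dominated_of_fderiv_le
      (s := ball z₀ 1) (bound := fun _ => C) (F' := fun z s => K' (z, s))
      (ball_mem_nhds z₀ one_pos) ?_ ?_ ?_ ?_ ?_ ?_
    · refine Eventually.of_forall fun z => ?_
      have : Continuous fun s : ℝ => K (z, s) := by fun_prop
      exact this.aestronglyMeasurable
    · have : Continuous fun s : ℝ => K (z₀, s) := by fun_prop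
      exact this.intervalIntegrable _ _
    · have : Continuous fun s : ℝ => K' (z₀, s) := by fun_prop
      exact this.aestronglyMeasurable
    · refine Eventually.of_forall fun s hs z hz => ?_
      rw [uIoc_of_le zero_le_one] at hs
      exact hC (s, z) ⟨⟨hs.1.le, hs.2⟩, ball_subset_closedBall hz⟩
    · exact intervalIntegrable_const
    · exact Eventually.of_forall fun s _ z _ => hderiv s z

/-- Local version. -/
theorem local_analytic_par {F : ℂ × ℝ → ℝ} {z₀ : ℂ} {s₀ : ℝ} (hF : AnalyticAt ℝ F (z₀, s₀)) :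
    ∃ δ > 0, ∀ a b : ℝ, |a - s₀| ≤ δ → |b - s₀| ≤ δ →
      AnalyticAt ℝ (fun z : ℂ => ∫ s in a..b, F (z, s)) z₀ := by
  obtain ⟨p, ρ, hp⟩ := hF
  obtain ⟨R, hR0, hRρ⟩ := ENNReal.lt_iff_exists_nnreal_btwn.1 hp.r_pos
  have hR0' : 0 < R := by exact_mod_cast hR0
  set r : ℝ≥0 := R / 3 with hr
  have hr0 : 0 < r := by positivity
  have hrr : ((r : ℝ≥0∞) + r) < ρ := by
    refine lt_of_le_of_lt ?_ hRρ
    have h1 : r + r ≤ R := by
      rw [← NNReal.coe_le_coe, hr]
      push_cast
      have : (0 : ℝ) ≤ R := R.coe_nonneg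
      linarith
    exact_mod_cast h1
  have hrad : ((r : ℝ≥0∞) + r) < p.radius := lt_of_lt_of_le hrr hp.r_le
  have hr1 : (r : ℝ≥0∞) < p.radius := lt_of_le_of_lt (le_add_right le_rfl) hrad
  have hprad : 0 < p.radius := lt_of_le_of_lt bot_le hr1
  -- the bounds for the coefficients
  set B : ℕ → ℝ≥0 := fun k =>
    ∑' s : Σ l : ℕ, { s : Finset (Fin (k + l)) // s.card = l }, ‖p (k + s.1)‖₊ * r ^ s.1 with hB
  have hBsum : Summable fun k => B k * r ^ k := by
    have h1 := (NNReal.summable_sigma.1 (p.changeOriginSeries_summable_aux₁ hrad)).2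
    simpa only [NNReal.tsum_mul_right] using h1
  have hBle : ∀ (k : ℕ) (x : ℂ × ℝ), ‖x‖₊ ≤ r → ‖p.changeOrigin x k‖₊ ≤ B k := by
    intro k x hx
    have hx' : (‖x‖₊ : ℝ≥0∞) < p.radius := lt_of_le_of_lt (by exact_mod_cast hx) hr1
    refine (p.nnnorm_changeOrigin_le k hx').trans ?_
    refine Summable.tsum_le_tsum (fun s => ?_) (p.changeOriginSeries_summable_aux₂ hx' k)
      (p.changeOriginSeries_summable_aux₂ hr1 k)
    gcongr
  refine ⟨r, by exact_mod_cast hr0, fun a b ha hb => ?_⟩
  have hs : ∀ s ∈ uIcc a b, |s - s₀| ≤ r := by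
    intro s hs
    rw [abs_le] at ha hb ⊢
    rw [mem_uIcc] at hs
    rcases hs with hs | hs
    · constructor <;> linarith [hs.1, hs.2, ha.1, ha.2, hb.1, hb.2]
    · constructor <;> linarith [hs.1, hs.2, ha.1, ha.2, hb.1, hb.2]
  have hx : ∀ s ∈ uIcc a b, ‖((0 : ℂ), s - s₀)‖₊ ≤ r := by
    intro s hs'
    rw [← NNReal.coe_le_coe, coe_nnnorm, Prod.norm_def, norm_zero, Real.norm_eq_abs]
    exact max_le r.coe_nonneg (hs s hs')
  have hinl : ‖ContinuousLinearMap.inl ℝ ℂ ℝ‖ ≤ 1 := by
    refine ContinuousLinearMap.opNorm_le_bound _ zero_le_one fun y => ?_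
    rw [one_mul, ContinuousLinearMap.inl_apply, Prod.norm_def, norm_zero]
    exact max_le le_rfl (norm_nonneg _)
  -- the series
  set q : ℝ → (k : ℕ) → ContinuousMultilinearMap ℝ (fun _ : Fin k => ℂ) ℝ := fun s k =>
    (p.changeOrigin ((0 : ℂ), s - s₀) k).compContinuousLinearMap
      (fun _ => ContinuousLinearMap.inl ℝ ℂ ℝ) with hq
  have hqc : ∀ k, ContinuousOn (fun s => q s k) (uIcc a b) := by
    intro k
    have h1 := (p.hasFPowerSeriesOnBall_changeOrigin k hprad).continuousOn
    have h2 : ContinuousOn (fun s : ℝ => p.changeOrigin ((0 : ℂ), s - s₀) k) (uIcc a b) := by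
      refine h1.comp (by fun_prop) fun s hs' => ?_
      rw [mem_eball_zero_iff]
      exact lt_of_le_of_lt (by exact_mod_cast hx s hs') hr1
    exact (ContinuousMultilinearMap.compContinuousLinearMapL (F := ℝ)
      (fun _ : Fin k => ContinuousLinearMap.inl ℝ ℂ ℝ)).continuous.comp_continuousOn h2
  have hqn : ∀ k, ∀ s ∈ uIcc a b, ‖q s k‖ ≤ B k := by
    intro k s hs'
    simp only [hq]
    refine (ContinuousMultilinearMap.norm_compContinuousLinearMap_le _ _).trans ?_
    have h1 : ∏ _i : Fin k, ‖ContinuousLinearMap.inl ℝ ℂ ℝ‖ ≤ 1 :=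
      Finset.prod_le_one (fun _ _ => norm_nonneg _) fun _ _ => hinl
    have h2 : ‖p.changeOrigin ((0 : ℂ), s - s₀) k‖ ≤ B k := by
      exact_mod_cast hBle k _ (hx s hs')
    calc ‖p.changeOrigin ((0 : ℂ), s - s₀) k‖ * ∏ _i : Fin k, ‖ContinuousLinearMap.inl ℝ ℂ ℝ‖ ≤
          ‖p.changeOrigin ((0 : ℂ), s - s₀) k‖ * 1 :=
          mul_le_mul_of_nonneg_left h1 (norm_nonneg _)
      _ ≤ B k := by rw [mul_one]; exact h2
  have hqi : ∀ k, IntervalIntegrable (fun s => q s k) volume a b := fun k =>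
    (hqc k).intervalIntegrable
  set Q : FormalMultilinearSeries ℝ ℂ ℝ := fun k => ∫ s in a..b, q s k with hQ
  have hBsumR : Summable fun k => (B k : ℝ) * (r : ℝ) ^ k := by exact_mod_cast hBsum
  refine ⟨Q, r, ⟨?_, by exact_mod_cast hr0, ?_⟩⟩
  · -- the radius
    refine Q.le_radius_of_summable ?_
    have h1 : Summable fun k => |b - a| * ((B k : ℝ) * (r : ℝ) ^ k) := hBsumR.mul_left _
    refine Summable.of_nonneg_of_le (fun k => by positivity) (fun k => ?_) h1
    have h2 : ‖Q k‖ ≤ B k * |b - a| := by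
      refine intervalIntegral.norm_integral_le_of_norm_le_const fun s hs' => ?_
      exact hqn k s (uIoc_subset_uIcc hs')
    calc ‖Q k‖ * (r : ℝ) ^ k ≤ B k * |b - a| * (r : ℝ) ^ k :=
          mul_le_mul_of_nonneg_right h2 (by positivity)
      _ = |b - a| * ((B k : ℝ) * (r : ℝ) ^ k) := by ring
  · -- the sum
    intro y hy
    rw [mem_eball_zero_iff] at hy
    have hy' : ‖y‖₊ < r := by
      have : (‖y‖₊ : ℝ≥0∞) < r := hy
      exact_mod_cast this
    have hy'' : ‖y‖ ≤ r := by exact_mod_cast hy'.le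
    have hterm : ∀ k, Q k (fun _ => y) = ∫ s in a..b, q s k (fun _ => y) := by
      intro k
      have h1 := ContinuousLinearMap.intervalIntegral_comp_comm
        (ContinuousMultilinearMap.apply ℝ (fun _ : Fin k => ℂ) ℝ (fun _ => y)) (hqi k)
      exact h1.symm
    simp only [hterm]
    refine intervalIntegral.hasSum_integral_of_dominated_convergence
      (fun k _ => (B k : ℝ) * (r : ℝ) ^ k) ?_ ?_ ?_ ?_ ?_
    · intro k
      have h1 : ContinuousOn (fun s => q s k (fun _ => y)) (uIcc a b) :=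
        ((ContinuousMultilinearMap.apply ℝ (fun _ : Fin k => ℂ) ℝ
          (fun _ => y)).continuous.comp_continuousOn (hqc k))
      exact (h1.mono uIoc_subset_uIcc).aestronglyMeasurable measurableSet_uIoc
    · intro k
      refine Eventually.of_forall fun s hs' => ?_
      have h1 := hqn k s (uIoc_subset_uIcc hs')
      refine ((q s k).le_opNorm _).trans ?_
      rw [Finset.prod_const, Finset.card_univ, Fintype.card_fin]
      exact mul_le_mul h1 (pow_le_pow_left₀ (norm_nonneg _) hy'' _) (by positivity) (B k).coe_nonneg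
    · exact Eventually.of_forall fun s _ => hBsumR
    · exact intervalIntegrable_const
    · refine Eventually.of_forall fun s hs' => ?_
      have hsI := uIoc_subset_uIcc hs'
      set x : ℂ × ℝ := ((0 : ℂ), s - s₀) with hxdef
      have hxr : ‖x‖₊ ≤ r := hx s hsI
      have hsy : ‖(y, (0 : ℝ))‖₊ ≤ r := by
        rw [← NNReal.coe_le_coe, coe_nnnorm, Prod.norm_def, norm_zero]
        exact max_le hy'' r.coe_nonneg
      have hsum : ((‖x‖₊ : ℝ≥0∞) + ‖(y, (0 : ℝ))‖₊) < p.radius := by
        refine lt_of_le_of_lt (add_le_add ?_ ?_) hrad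
        · exact_mod_cast hxr
        · exact_mod_cast hsy
      have h1 : F (z₀ + y, s) = p.sum (x + (y, (0 : ℝ))) := by
        have h2 : x + (y, (0 : ℝ)) ∈ eball (0 : ℂ × ℝ) ρ := by
          rw [mem_eball_zero_iff]
          refine lt_of_le_of_lt ?_ hrr
          have h3 : ‖x + (y, (0 : ℝ))‖₊ ≤ r + r := (nnnorm_add_le _ _).trans (add_le_add hxr hsy)
          exact_mod_cast h3
        rw [← hp.sum h2]
        congr 1
        rw [hxdef]
        simp
      have h2 : (y, (0 : ℝ)) ∈ eball (0 : ℂ × ℝ) (p.changeOrigin x).radius := by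
        refine mem_eball_zero_iff.2 (lt_of_lt_of_le ?_ p.changeOrigin_radius)
        rw [lt_tsub_iff_right, add_comm]
        exact hsum
      have h3 := (p.changeOrigin x).hasSum h2
      rw [p.changeOrigin_eval hsum, ← h1] at h3
      refine h3.congr_fun ?_
      intro k
      simp only [hq]
      rfl

/-- Parametric integrals of analytic functions are analytic. -/
theorem analyticAt_par_integral {F : ℂ × ℝ → ℝ} (hFc : Continuous F) {z₀ : ℂ}
    (h : ∀ s ∈ Icc (0 : ℝ) 1, AnalyticAt ℝ F (z₀, s)) :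
    AnalyticAt ℝ (fun z : ℂ => ∫ s in (0 : ℝ)..1, F (z, s)) z₀ := by
  classical
  set P : ℝ → Prop := fun b => AnalyticAt ℝ (fun z : ℂ => ∫ s in (0 : ℝ)..b, F (z, s)) z₀
    with hP
  have hint : ∀ (z : ℂ) (a b : ℝ), IntervalIntegrable (fun s : ℝ => F (z, s)) volume a b :=
    fun z a b => (by fun_prop : Continuous fun s : ℝ => F (z, s)).intervalIntegrable a b
  have hadd : ∀ b c : ℝ, P b → AnalyticAt ℝ (fun z : ℂ => ∫ s in b..c, F (z, s)) z₀ →
      P c := by
    intro b c hb hc
    have h1 : (fun z : ℂ => ∫ s in (0 : ℝ)..c, F (z, s)) =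
        fun z : ℂ => (∫ s in (0 : ℝ)..b, F (z, s)) + ∫ s in b..c, F (z, s) := by
      funext z
      exact (intervalIntegral.integral_add_adjacent_intervals (hint z _ _) (hint z _ _)).symm
    show AnalyticAt ℝ (fun z : ℂ => ∫ s in (0 : ℝ)..c, F (z, s)) z₀
    rw [h1]
    exact hb.add hc
  set ψ : ℝ → ℝ := fun b => if P b then 1 else 0 with hψ
  have hcont : ContinuousOn ψ (Icc 0 1) := by
    intro b₀ hb₀
    obtain ⟨δ, hδ, hloc⟩ := local_analytic_par (h b₀ hb₀)
    have h1 : ψ =ᶠ[𝓝[Icc 0 1] b₀] fun _ => ψ b₀ := by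
      refine mem_nhdsWithin_of_mem_nhds ?_
      filter_upwards [Metric.ball_mem_nhds b₀ hδ] with b hb
      rw [mem_ball, Real.dist_eq] at hb
      have hz : |b₀ - b₀| ≤ δ := by rw [sub_self, abs_zero]; exact hδ.le
      have h2 := hloc b₀ b hz hb.le
      have h3 := hloc b b₀ hb.le hz
      have h4 : P b ↔ P b₀ := ⟨fun hp => hadd b b₀ hp h3, fun hp => hadd b₀ b hp h2⟩
      simp only [hψ, h4]
    have h2 : ContinuousWithinAt (fun _ : ℝ => ψ b₀) (Icc 0 1) b₀ := continuousWithinAt_const
    exact h2.congr_of_eventuallyEq h1 rfl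
  have h0 : P 0 := by
    show AnalyticAt ℝ (fun z : ℂ => ∫ s in (0 : ℝ)..0, F (z, s)) z₀
    simp only [intervalIntegral.integral_same]
    exact analyticAt_const
  have h1 := const_of_int isPreconnected_Icc hcont (fun x _ => by
    by_cases hx : P x
    · exact ⟨1, by simp [hψ, hx]⟩
    · exact ⟨0, by simp [hψ, hx]⟩) (left_mem_Icc.2 zero_le_one) (right_mem_Icc.2 zero_le_one)
  by_contra hcon
  have h2 : ¬ P 1 := hcon
  simp only [hψ, h0, h2, if_true, if_false] at h1
  exact one_ne_zero h1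

end

end MPc541f6
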