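import Pool.Agent.Lib.MP_c541f6_an.RCross

/-!
# Recurrence for maps preserving a density
-/

open Complex Set Filter Topology Metric MeasureTheory

namespace MPc541f6

noncomputable section

open DensMap

variable {J : ℂ → ℝ} {f : ℂ → ℂ} {Θ : ℝ × ℝ → ℝ}

lemma DensMap.jac (h : DensMap J f Θ) (hpos : ∀ z, 0 < J z) {z : ℂ} (hz : z ∈ ball (0 : ℂ) 1) :
    |(fderiv ℝ f z).det| * J (f z) = J z := by
  have h2 := h.det z hz
  have h3 : 0 < (fderiv ℝ f z).det := by
    by_contra hcon
    have h4 : J (f z) * (fderiv ℝ f z).det ≤ 0 :=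
      mul_nonpos_of_nonneg_of_nonpos (hpos _).le (not_lt.1 hcon)
    rw [h2] at h4
    exact absurd (hpos z) (not_lt.2 h4)
  rw [abs_of_pos h3, mul_comm]
  exact h2

/-- **Poincaré recurrence.** -/
theorem DensMap.recurrent (h : DensMap J f Θ) (hJ : Continuous J) (hpos : ∀ z, 0 < J z)
    {B : Set ℂ} (hBo : IsOpen B) (hBne : B.Nonempty) (hBb : B ⊆ ball 0 1) :
    ∃ z ∈ B, ∃ᶠ n in atTop, f^[n] z ∈ B := by
  classical
  set F : ℂ → ℂ := (ball (0 : ℂ) 1).piecewise f id with hF
  set ρ : ℂ → ENNReal := fun z => ENNReal.ofReal (J z) with hρ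
  set μ : Measure ℂ := (volume.restrict (ball (0 : ℂ) 1)).withDensity ρ with hμ
  have hFm : Measurable F :=
    (h.cont.mono ball_subset_closedBall).measurable_piecewise continuousOn_id measurableSet_ball
  have hρm : Measurable ρ := hJ.measurable.ennreal_ofReal
  have hμA : ∀ A : Set ℂ, MeasurableSet A → μ A = ∫⁻ z in A ∩ ball 0 1, ρ z := by
    intro A hA
    rw [hμ, withDensity_apply _ hA, Measure.restrict_restrict hA]
  have hFin : ∀ z ∈ ball (0 : ℂ) 1, F z = f z := fun z hz => Set.piecewise_eq_of_mem _ _ _ hz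
  have hmp : MeasurePreserving F μ μ := by
    refine ⟨hFm, Measure.ext fun S hS => ?_⟩
    rw [Measure.map_apply hFm hS, hμA _ (hFm hS), hμA _ hS]
    have hs : MeasurableSet (F ⁻¹' S ∩ ball 0 1) := (hFm hS).inter measurableSet_ball
    have himg : f '' (F ⁻¹' S ∩ ball 0 1) = S ∩ ball 0 1 := by
      ext w
      constructor
      · rintro ⟨z, ⟨hz1, hz2⟩, rfl⟩
        refine ⟨?_, h.ball_bij.mapsTo hz2⟩
        rw [← hFin z hz2]
        exact hz1
      · rintro ⟨hw1, hw2⟩
        obtain ⟨z, hz, rfl⟩ := h.ball_bij.surjOn hw2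
        refine ⟨z, ⟨?_, hz⟩, rfl⟩
        show F z ∈ S
        rw [hFin z hz]
        exact hw1
    have h1 := lintegral_image_eq_lintegral_abs_det_fderiv_mul (μ := volume)
      (s := F ⁻¹' S ∩ ball 0 1) (f := f) (f' := fun z => fderiv ℝ f z) hs
      (fun z hz => (h.diff z hz.2).hasFDerivAt.hasFDerivWithinAt)
      (h.ball_bij.injOn.mono inter_subset_right) ρ
    rw [himg] at h1
    rw [h1]
    refine setLIntegral_congr_fun hs fun z hz => ?_
    simp only [hρ]
    rw [← ENNReal.ofReal_mul (abs_nonneg _), h.jac hpos hz.2]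
  have hfin : IsFiniteMeasure μ := by
    refine ⟨?_⟩
    obtain ⟨C, hC⟩ := (isCompact_closedBall (0 : ℂ) 1).exists_bound_of_continuousOn
      hJ.continuousOn
    rw [hμA _ MeasurableSet.univ, univ_inter]
    refine lt_of_le_of_lt (setLIntegral_mono measurable_const
      (g := fun _ => ENNReal.ofReal C) fun z hz => ?_) ?_
    · refine ENNReal.ofReal_le_ofReal ?_
      exact (le_abs_self _).trans (hC z (ball_subset_closedBall hz))
    · rw [setLIntegral_const]
      exact ENNReal.mul_lt_top ENNReal.ofReal_lt_top measure_ball_lt_top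
  have hcons := hmp.conservative
  have hB0 : μ B ≠ 0 := by
    rw [hμA _ hBo.measurableSet, inter_eq_left.2 hBb]
    intro h0
    rw [lintegral_eq_zero_iff hρm] at h0
    have h1 : ∀ᵐ z ∂(volume.restrict B), False := by
      filter_upwards [h0] with z hz
      have h2 : ENNReal.ofReal (J z) = 0 := hz
      rw [ENNReal.ofReal_eq_zero] at h2
      exact absurd (hpos z) (not_lt.2 h2)
    rw [eventually_false_iff_eq_bot, ae_eq_bot, Measure.restrict_eq_zero] at h1
    exact (hBo.measure_pos volume hBne).ne' h1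
  obtain ⟨z, hz, hz2⟩ :=
    (hcons.frequently_ae_mem_and_frequently_image_mem hBo.measurableSet.nullMeasurableSet
      hB0).exists
  refine ⟨z, hz, hz2.mono fun n hn => ?_⟩
  have hit : ∀ n : ℕ, F^[n] z = f^[n] z ∧ f^[n] z ∈ ball (0 : ℂ) 1 := by
    intro n
    induction n with
    | zero => exact ⟨rfl, hBb hz⟩
    | succ n ih =>
      rw [Function.iterate_succ_apply', Function.iterate_succ_apply', ih.1, hFin _ ih.2]
      exact ⟨rfl, h.ball_bij.mapsTo ih.2⟩
  rw [← (hit n).1]
  exact hn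

end

end MPc541f6
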