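import Pool.Agent.Lib.MP_c541f6_an.RRec

/-!
# A continuous branch of the angle in the complement of a curve from the origin to the boundary
-/

open Complex Set Filter Topology Metric MeasureTheory

namespace MPc541f6

noncomputable section

/-- On a subset of the open disk of radius `r` which does not meet a curve from `0` to the outside
of the disk, there is a continuous branch of the angle. -/
theorem exists_branch {Q : Set ℂ} {γ : ℝ → ℂ} (hγ : ContinuousOn γ (Icc 0 1)) (h0 : γ 0 = 0)
    {r : ℝ} (hr : 0 < r) (h1 : r ≤ ‖γ 1‖) (hQ : Q ⊆ ball 0 r)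
    (hQγ : ∀ s ∈ Icc (0 : ℝ) 1, γ s ∉ Q) :
    ∃ a : ℂ → ℝ, ContinuousOn a Q ∧ ∀ z ∈ Q, pol (a z, ‖z‖) = z := by
  classical
  set c := γ 1 with hc
  have hcn : 0 < ‖c‖ := lt_of_lt_of_le hr h1
  have hc0 : c ≠ 0 := norm_pos_iff.1 hcn
  have hmem : ∀ s : unitInterval, (1 - (s : ℝ)) ∈ Icc (0 : ℝ) 1 := fun s =>
    ⟨by linarith [s.2.2], by linarith [s.2.1]⟩
  let H : C(unitInterval × Q, {z : ℂ // z ≠ 0}) :=
    ⟨fun p => ⟨(p.2 : ℂ) - γ (1 - (p.1 : ℝ)), fun hz => by
      have h2 : (p.2 : ℂ) = γ (1 - (p.1 : ℝ)) := sub_eq_zero.1 hz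
      exact hQγ _ (hmem p.1) (h2 ▸ p.2.2)⟩, by
      refine Continuous.subtype_mk ?_ _
      refine Continuous.sub (by fun_prop) ?_
      exact hγ.comp_continuous (f := fun p : unitInterval × Q => 1 - (p.1 : ℝ)) (by fun_prop)
        fun p => hmem p.1⟩
  have hslit : ∀ z : Q, 1 - (z : ℂ) / c ∈ slitPlane := by
    intro z
    have h2 : ‖(z : ℂ) / c‖ < 1 := by
      rw [norm_div, div_lt_one hcn]
      exact lt_of_lt_of_le (mem_ball_zero_iff.1 (hQ z.2)) h1
    left
    have h3 := (abs_le.1 (Complex.abs_re_le_norm ((z : ℂ) / c))).2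
    simp only [Complex.sub_re, Complex.one_re]
    linarith
  let φ : C(Q, ℂ) := ⟨fun z => Complex.log (-c) + Complex.log (1 - (z : ℂ) / c), by
    refine continuous_const.add ?_
    exact Continuous.clog (by fun_prop) hslit⟩
  have H_0 : ∀ z, H (0, z) = (fun z : ℂ => (⟨_, z.exp_ne_zero⟩ : {z : ℂ // z ≠ 0})) (φ z) := by
    intro z
    apply Subtype.ext
    show (z : ℂ) - γ (1 - ((0 : unitInterval) : ℝ)) =
      Complex.exp (Complex.log (-c) + Complex.log (1 - (z : ℂ) / c))
    rw [Complex.exp_add, Complex.exp_log (neg_ne_zero.2 hc0),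
      Complex.exp_log (slitPlane_ne_zero (hslit z))]
    have h2 : γ (1 - ((0 : unitInterval) : ℝ)) = c := by simp [hc]
    rw [h2]
    field_simp
    ring
  set L := Complex.isCoveringMap_exp.liftHomotopy H φ H_0 with hL
  have hLl : ∀ z : Q, Complex.exp (L (1, z)) = z := by
    intro z
    have h2 := congrFun (Complex.isCoveringMap_exp.liftHomotopy_lifts H φ H_0) (1, z)
    have h3 := congrArg Subtype.val h2
    have h4 : Complex.exp (L (1, z)) = (z : ℂ) - γ (1 - ((1 : unitInterval) : ℝ)) := h3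
    rw [h4]
    simp [h0]
  set a : ℂ → ℝ := fun z => if hz : z ∈ Q then (L (1, ⟨z, hz⟩)).im / (2 * Real.pi) else 0 with ha
  refine ⟨a, ?_, ?_⟩
  · rw [continuousOn_iff_continuous_domRestrict]
    have h2 : Q.domRestrict a = fun z : Q => (L (1, z)).im / (2 * Real.pi) := by
      funext z
      show a z = _
      simp only [ha]
      rw [dif_pos z.2]
    rw [h2]
    have h3 : Continuous fun z : Q => L (1, z) := L.continuous.comp (by fun_prop)
    exact (Complex.continuous_im.comp h3).div_const _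
  · intro z hz
    have h2 := hLl ⟨z, hz⟩
    have h3 : a z = (L (1, ⟨z, hz⟩)).im / (2 * Real.pi) := by
      simp only [ha, hz, dif_pos]
    set w := L (1, ⟨z, hz⟩) with hw
    have hpi := Real.pi_pos
    have h4 : e (a z) = Complex.exp ((w.im : ℂ) * I) := by
      unfold e
      rw [h3]
      congr 2
      norm_cast
      field_simp
    have h5 : ‖z‖ = Real.exp w.re := by
      have h6 : z = Complex.exp w := h2.symm
      rw [h6, Complex.norm_exp]
    have h7 : Complex.exp w = z := h2
    unfold pol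
    simp only
    rw [h4, h5, Complex.ofReal_exp, ← Complex.exp_add, Complex.re_add_im, h7]

end

end MPc541f6
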